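import Pool.Agent.NH93.CC.C5c

/-!
# Project CC (helper93): critical contra pairs on permutation graphs, the arcs theorem
-/

set_option autoImplicit false
set_option linter.all false

open Finset

namespace Pool.Agent.NH93.CC

open Pool.Agent.Helper347.Sab (MGraph dg IsCircuit IsCubic Touch exists_ends component)
open CUT (leaves_iff leaves_compl ends_card even_cut)

/-- `(G, w)` is a critical contra pair -/
structure Critical {V E : Type} [Fintype V] [DecidableEq V] [Fintype E] [DecidableEq E] (G : MGraph V E)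
    (w : E → ℕ) : Prop where
  cubic : IsCubic G
  val : ∀ e, w e = 1 ∨ w e = 2
  eul : Eulerian G w
  bridgeless : Bridgeless G univ
  contra : ¬ ∃ F, Cover G w F
  critical : ∀ D, ¬ Removable G w D

namespace ARC

open TWC

variable {V E : Type} [Fintype V] [DecidableEq V] [Fintype E] [DecidableEq E]
variable {G : MGraph V E} {w : E → ℕ}

open Classical in
/-- a circuit is not removable -/
theorem bridge (hM : Critical G w) {D : Finset E} (hD : IsCircuit G D) :
    ∃ (Z : Finset V) (g : E), w g = 2 ∧ g ∉ D ∧ Leaves G Z g ∧ ∀ e, Leaves G Z e → 0 < minus w D e → e = g := by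
  have hw : ∀ e, minus w D e + (if e ∈ D then 1 else 0) = w e := by
    intro e
    have := hM.val e
    unfold minus
    by_cases h : e ∈ D
    · simp only [h, if_true]
      omega
    · simp [h]
  have heul : Eulerian G (minus w D) := by
    intro X
    have h1 := hM.eul X
    have h2 := even_cut G D hD.2.1 X
    have h3 : ∑ e ∈ univ.filter (fun e => Leaves G X e), minus w D e +
        (D.filter fun e => Leaves G X e).card = ∑ e ∈ univ.filter (fun e => Leaves G X e), w e := by
      have h4 : (D.filter fun e => Leaves G X e).card =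
          ∑ e ∈ univ.filter (fun e => Leaves G X e), (if e ∈ D then 1 else 0) := by
        rw [sum_boole, filter_filter, Nat.cast_id]
        congr 1
        ext e
        simp only [mem_filter, mem_univ, true_and]
        tauto
      rw [h4, ← sum_add_distrib]
      exact sum_congr rfl fun e _ => hw e
    rw [← h3] at h1
    exact (Nat.even_add.1 h1).2 h2
  have hbr : ¬ Bridgeless G (supp (minus w D)) := fun h =>
    hM.critical D ⟨hD, heul, h⟩
  unfold Bridgeless at hbr
  push Not at hbr
  obtain ⟨X, hX⟩ := hbr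
  obtain ⟨g, hg⟩ := card_eq_one.1 hX
  have hg1 : ∀ e, Leaves G X e → 0 < minus w D e → e = g := by
    intro e h2 h1
    have h3 : e ∈ (supp (minus w D)).filter (fun e => Leaves G X e) := by
      rw [mem_filter]
      exact ⟨mem_filter.2 ⟨mem_univ _, h1⟩, h2⟩
    rw [hg] at h3
    exact mem_singleton.1 h3
  have hg2 : 0 < minus w D g ∧ Leaves G X g := by
    have h3 : g ∈ (supp (minus w D)).filter (fun e => Leaves G X e) := by
      rw [hg]
      exact mem_singleton_self g
    rw [mem_filter] at h3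
    exact ⟨(mem_filter.1 h3.1).2, h3.2⟩
  have h5 : ∑ e ∈ univ.filter (fun e => Leaves G X e), minus w D e = minus w D g := by
    apply sum_eq_single_of_mem g
    · rw [mem_filter]
      exact ⟨mem_univ _, hg2.2⟩
    · intro e he hne
      rw [mem_filter] at he
      by_contra h6
      exact hne (hg1 e he.2 (Nat.pos_of_ne_zero h6))
  have h6 := heul X
  rw [h5] at h6
  obtain ⟨r, hr⟩ := h6
  have h7 := hw g
  have h8 := hM.val g
  have h9 := hg2.1
  refine ⟨X, g, ?_, ?_, hg2.2, hg1⟩
  · split_ifs at h7 <;> omega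
  · intro hgD
    rw [if_pos hgD] at h7
    omega

theorem locs {A B : Finset E} (hM : Critical G w) (hT : Two G w A B) (v : V) :
    ∃ e e' m, Loc G w v e e' m := by
  have hdis : ∀ v, v ∈ Vx G A → v ∈ Vx G B → False := fun v ha hb =>
    (Finset.disjoint_left.1 hT.disj) ha hb
  have hA : ∀ e ∈ A, w e = 1 := fun e he => (hT.one e).2 (Or.inl he)
  have hB : ∀ e ∈ B, w e = 1 := fun e he => (hT.one e).2 (Or.inr he)
  rcases hT.all v with hv | hv
  · refine loc_aux G w hM.cubic hM.val A hT.cA v hv hA fun e he hve => ?_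
    rcases (hT.one e).1 he with q | q
    · exact q
    · exact (hdis v hv (mem_Vx.2 ⟨e, q, hve⟩)).elim
  · refine loc_aux G w hM.cubic hM.val B hT.cB v hv hB fun e he hve => ?_
    rcases (hT.one e).1 he with q | q
    · exact (hdis v (mem_Vx.2 ⟨e, q, hve⟩) hv).elim
    · exact q

open Classical in
theorem even_cut' (G : MGraph V E) (D : Finset E) (X : Finset V) (hD : ∀ v ∈ X, dg G D v = 0 ∨ dg G D v = 2) :
    Even (D.filter fun e => Leaves G X e).card := by
  rw [← ZMod.natCast_eq_zero_iff_even]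
  have h1 : ((D.filter fun e => Leaves G X e).card : ZMod 2) =
      ∑ e ∈ D, ((X.filter fun v => v ∈ G.ends e).card : ZMod 2) := by
    rw [card_filter]
    push_cast
    exact sum_congr rfl fun e _ => (ends_card G X e).symm
  have h2 : ∑ e ∈ D, (X.filter fun v => v ∈ G.ends e).card = ∑ v ∈ X, dg G D v := by
    unfold dg
    simp only [card_filter]
    exact sum_comm
  have h3 : ∑ v ∈ X, (dg G D v : ZMod 2) = 0 := by
    refine sum_eq_zero fun v hv => ?_
    rcases hD v hv with h | h
    · rw [h, Nat.cast_zero]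
    · rw [h]
      decide
  rw [h1, ← Nat.cast_sum, h2, Nat.cast_sum, h3]

open Classical in
/-- the arcs theorem -/
theorem arc {A B : Finset E} (hM : Critical G w) (hT : Two G w A B) {X : Finset V} {c : E → ZMod 2}
    {col : ZMod 2}
    (hc : ∀ v ∈ X, ∀ e e', e ≠ e' → w e = 1 → w e' = 1 → v ∈ G.ends e → v ∈ G.ends e' → c e ≠ c e')
    (hA2 : (A.filter (fun e => Leaves G X e)).card = 2) (hB2 : (B.filter (fun e => Leaves G X e)).card = 2)
    {f f' : E} (hff : f ≠ f') (hf : w f = 2) (hf' : w f' = 2) (hfX : ∀ v ∈ G.ends f, v ∉ X)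
    (hfX' : ∀ v ∈ G.ends f', v ∉ X) {D : Finset E} (hD : IsCircuit G D) (hDX : Vx G D ⊆ X)
    (hcol : ∀ e ∈ D, w e = 1 → c e = col) : False := by
  have hdis : ∀ v, v ∈ Vx G A → v ∈ Vx G B → False := fun v ha hb =>
    (Finset.disjoint_left.1 hT.disj) ha hb
  have hA : ∀ e ∈ A, w e = 1 := fun e he => (hT.one e).2 (Or.inl he)
  have hB : ∀ e ∈ B, w e = 1 := fun e he => (hT.one e).2 (Or.inr he)
  obtain ⟨H, hH⟩ : ∃ H : Finset E, H = univ.filter
      (fun e => (∃ v ∈ X, v ∈ G.ends e) ∧ (w e = 2 ∨ (w e = 1 ∧ c e = col))) := ⟨_, rfl⟩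
  have hmem : ∀ e, e ∈ H ↔ (∃ v ∈ X, v ∈ G.ends e) ∧ (w e = 2 ∨ (w e = 1 ∧ c e = col)) := by
    intro e
    rw [hH, mem_filter]
    simp
  have hDH : D ⊆ H := by
    intro e he
    obtain ⟨a, b, -, hab⟩ := exists_ends G e
    have ha : a ∈ G.ends e := by rw [hab]; simp
    rw [hmem]
    refine ⟨⟨a, hDX (mem_Vx.2 ⟨e, he, ha⟩), ha⟩, ?_⟩
    rcases hM.val e with q | q
    · exact Or.inr ⟨q, hcol e he q⟩
    · exact Or.inl q
  have hdeg : ∀ v ∈ X, dg G H v = 2 := by
    intro v hv
    obtain ⟨e, e', m, hl⟩ := locs hM hT v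
    rw [dg_loc hl]
    have hmH : m ∈ H := (hmem m).2 ⟨⟨v, hv, hl.vm⟩, Or.inl hl.wm⟩
    have hne := hc v hv e e' hl.ne hl.we hl.we' hl.ve hl.ve'
    have key : ∀ g, w g = 1 → v ∈ G.ends g → (g ∈ H ↔ c g = col) := by
      intro g hg hvg
      rw [hmem]
      constructor
      · rintro ⟨-, q | q⟩
        · omega
        · exact q.2
      · intro q
        exact ⟨⟨v, hv, hvg⟩, Or.inr ⟨hg, q⟩⟩
    have k1 := key e hl.we hl.ve
    have k2 := key e' hl.we' hl.ve'
    have hz : ∀ p q r : ZMod 2, p ≠ q → (p ≠ r ∧ q = r) ∨ (p = r ∧ q ≠ r) := by decide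
    rcases hz (c e) (c e') col hne with ⟨q1, q2⟩ | ⟨q1, q2⟩
    · rw [if_neg (fun r => q1 (k1.1 r)), if_pos (k2.2 q2), if_pos hmH]
    · rw [if_pos (k1.2 q1), if_neg (fun r => q2 (k2.1 r)), if_pos hmH]
  have hrest : ∀ v ∈ X, dg G (H \ D) v = 0 ∨ dg G (H \ D) v = 2 := by
    intro v hv
    have h1 := ODD.dg_sdiff G hDH v
    rw [hdeg v hv] at h1
    rcases hD.2.1 v with q | q <;> omega
  obtain ⟨Z, g, hwg, hgD, hZg, huniq⟩ := bridge hM hD
  have hpos : ∀ e, e ∉ D → 0 < minus w D e := by
    intro e he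
    unfold minus
    rw [if_neg he]
    rcases hM.val e with q | q <;> omega
  have hout : ∀ e v, v ∈ G.ends e → v ∉ X → e ∉ D := fun e v hv hvX heD =>
    hvX (hDX (mem_Vx.2 ⟨e, heD, hv⟩))
  obtain ⟨a₀, ha₀, b₀, hb₀, hg⟩ := hT.join g hwg
  have hno : ∀ e, w e = 1 → (∀ v ∈ G.ends e, v ∉ X) → ¬ Leaves G Z e := by
    intro e he hX hl
    obtain ⟨a, b, -, hab⟩ := exists_ends G e
    have ha : a ∈ G.ends e := by rw [hab]; simp
    have := huniq e hl (hpos e (hout e a ha (hX a ha)))
    rw [this] at he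
    omega
  have sA := C5.side hT.cA hA2 (fun e he hX => hno e (hA e he) hX)
  have sB := C5.side hT.cB hB2 (fun e he hX => hno e (hB e he) hX)
  by_cases hin : a₀ ∉ X ∧ b₀ ∉ X
  · have hall : ∀ e, w e = 2 → (∀ v ∈ G.ends e, v ∉ X) → e = g := by
      intro e he hX
      obtain ⟨a, ha, b, hb, hab⟩ := hT.join e he
      have haX : a ∉ X := hX a (by rw [hab]; simp)
      have hbX' : b ∉ X := hX b (by rw [hab]; simp)
      refine huniq e ?_ (hpos e (hout e a (by rw [hab]; simp) haX))
      rw [leaves_iff hab]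
      rw [leaves_iff hg] at hZg
      rcases sA with q | q <;> rcases sB with r | r
      · exfalso
        rcases hZg with ⟨_, t⟩ | ⟨_, t⟩
        · exact t (r b₀ hb₀ hin.2)
        · exact t (q a₀ ha₀ hin.1)
      · exact Or.inl ⟨q a ha haX, r b hb hbX'⟩
      · exact Or.inr ⟨r b hb hbX', q a ha haX⟩
      · exfalso
        rcases hZg with ⟨t, _⟩ | ⟨t, _⟩
        · exact q a₀ ha₀ hin.1 t
        · exact r b₀ hb₀ hin.2 t
    exact hff ((hall f hf hfX).trans (hall f' hf' hfX').symm)
  · -- `g` has an end in `X`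
    have hgH : g ∈ H := by
      rw [hmem]
      refine ⟨?_, Or.inl hwg⟩
      by_cases q : a₀ ∈ X
      · exact ⟨a₀, q, by rw [hg]; simp⟩
      · have : b₀ ∈ X := by
          by_contra r
          exact hin ⟨q, r⟩
        exact ⟨b₀, this, by rw [hg]; simp⟩
    have hfg : f ≠ g := by
      rintro rfl
      exact hin ⟨hfX a₀ (by rw [hg]; simp), hfX b₀ (by rw [hg]; simp)⟩
    obtain ⟨a, ha, b, hb, hab⟩ := hT.join f hf
    have haX : a ∉ X := hfX a (by rw [hab]; simp)
    have hbX : b ∉ X := hfX b (by rw [hab]; simp)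
    have hfl : ¬ Leaves G Z f := fun q => hfg (huniq f q (hpos f (hout f a (by rw [hab]; simp) haX)))
    have hone : (∀ v, v ∉ X → v ∈ Z) ∨ (∀ v, v ∉ X → v ∉ Z) := by
      rw [leaves_iff hab] at hfl
      rcases sA with q | q <;> rcases sB with r | r
      · left
        intro v hv
        rcases hT.all v with s | s
        · exact q v s hv
        · exact r v s hv
      · exact absurd (Or.inl ⟨q a ha haX, r b hb hbX⟩) hfl
      · exact absurd (Or.inr ⟨r b hb hbX, q a ha haX⟩) hfl
      · right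
        intro v hv
        rcases hT.all v with s | s
        · exact q v s hv
        · exact r v s hv
    have fin : ∀ Y : Finset V, Y ⊆ X → (∀ e, Leaves G Y e ↔ Leaves G Z e) → False := by
      intro Y hYX hY
      have hev := even_cut' G (H \ D) Y (fun v hv => hrest v (hYX hv))
      have : ((H \ D).filter fun e => Leaves G Y e) = {g} := by
        ext e
        rw [mem_filter, mem_singleton, mem_sdiff, hY]
        constructor
        · rintro ⟨⟨_, q⟩, r⟩
          exact huniq e r (hpos e q)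
        · rintro rfl
          exact ⟨⟨hgH, hgD⟩, hZg⟩
      rw [this, card_singleton] at hev
      exact absurd hev (by decide)
    rcases hone with q | q
    · refine fin Zᶜ (fun v hv => ?_) (fun e => leaves_compl)
      by_contra r
      exact (mem_compl.1 hv) (q v r)
    · refine fin Z (fun v hv => ?_) (fun e => Iff.rfl)
      by_contra r
      exact q v r hv

end ARC

end Pool.Agent.NH93.CC
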