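import Pool.Agent.NH93.CC.ARC

/-!
# Project CC (helper93): critical contra pairs on permutation graphs are cyclically 5-edge-connected
-/

set_option autoImplicit false
set_option linter.all false

open Finset

namespace Pool.Agent.NH93.CC

open Pool.Agent.Helper347.Sab (MGraph dg IsCircuit IsCubic Touch exists_ends component potential)
open CUT (leaves_iff leaves_compl ends_card even_cut)

namespace ARC

open TWC
open C5 (MX mem_MX)

variable {V E : Type} [Fintype V] [DecidableEq V] [Fintype E] [DecidableEq E]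
variable {G : MGraph V E} {w : E → ℕ}

theorem four (hM : Critical G w) : 4 ∣ nzG G (E1 w) := by
  by_contra h4
  have h := t_MAIN V E G _ hM.cubic (twoReg_of_eulerian hM.cubic hM.val hM.eul) h4
  rw [w_eq hM.val] at h
  exact hM.contra h

theorem length {A B : Finset E} (hM : Critical G w) (hT : Two G w A B) :
    (Vx G A).card % 4 = 1 ∧ (Vx G B).card = (Vx G A).card := by
  classical
  have h4 := four hM
  rcases Nat.even_or_odd (Vx G A).card with ho | ho
  · exfalso
    have hA := CNT.card_Vx G w A B hM.cubic hM.val hT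
    have hcard : Fintype.card {e : E // e ∉ E1 w} = (Vx G A).card := by
      rw [hA, Fintype.card_subtype]
      congr 1
      ext e
      simp
    have hnz : nzG G (E1 w) = (CNT.An (Vx G A).card).card := by
      unfold nzG
      refine CNT.card_M {e : E // e ∉ E1 w} _ hcard _ fun φ => ?_
      rw [Finset.mem_filter, CNT.cutFlow_iff G w A B hM.val hT]
      simp
    rw [hnz] at h4
    obtain ⟨b, hb⟩ := h4
    have h1 := CNT.card_An (Vx G A).card
    rw [hb, ho.neg_one_pow] at h1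
    push_cast at h1
    obtain ⟨m, hm⟩ : ∃ m, (Vx G A).card = 2 * m := by
      obtain ⟨k, hk⟩ := ho
      exact ⟨k, by omega⟩
    rw [hm, pow_mul] at h1
    have h2 : ((3 : ℤ) ^ 2) ^ m ≡ 1 ^ m [ZMOD 8] := Int.ModEq.pow m (by decide)
    rw [one_pow] at h2
    have h3 : (3 ^ 2 : ℤ) ^ m % 8 = 1 := h2
    omega
  · have := t_CNT V E G w A B hM.cubic hM.val hT ho h4
    exact ⟨this.1, this.2.1⟩

/-- colourings with prescribed changes -/
theorem pot {C : Finset E} (hC : IsCircuit G C) (n : ℕ) : ∀ T : Finset V, T.card = 2 * n →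
    (∀ v ∈ T, v ∈ Vx G C) → ∃ b : E → ZMod 2, ∀ v,
      ∑ e ∈ C, (if v ∈ G.ends e then b e else 0) = if v ∈ T then 1 else 0 := by
  induction n with
  | zero =>
    intro T hT _
    refine ⟨fun _ => 0, fun v => ?_⟩
    have : T = ∅ := card_eq_zero.1 (by omega)
    subst this
    simp
  | succ n ih =>
    intro T hT hTC
    obtain ⟨p, hp, q, hq, hpq⟩ := one_lt_card.1 (by omega : 1 < T.card)
    obtain ⟨b', hb'⟩ := ih ((T.erase p).erase q)
      (by rw [card_erase_of_mem (mem_erase.2 ⟨hpq.symm, hq⟩), card_erase_of_mem hp]; omega)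
      (fun v hv => hTC v (mem_of_mem_erase (mem_of_mem_erase hv)))
    obtain ⟨b₀, hb₀⟩ := potential G C hC p q (dg_two hC (hTC p hp)) (dg_two hC (hTC q hq))
    refine ⟨fun e => b' e + b₀ e, fun v => ?_⟩
    have : ∑ e ∈ C, (if v ∈ G.ends e then b' e + b₀ e else 0) =
        ∑ e ∈ C, (if v ∈ G.ends e then b' e else 0) + ∑ e ∈ C, (if v ∈ G.ends e then b₀ e else 0) := by
      rw [← sum_add_distrib]
      apply sum_congr rfl
      intro e _
      split_ifs <;> simp
    show ∑ e ∈ C, (if v ∈ G.ends e then b' e + b₀ e else 0) = _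
    rw [this, hb', hb₀]
    by_cases h1 : v = p
    · rw [h1]
      simp [hp, hpq]
    · by_cases h2 : v = q
      · rw [h2]
        simp [hq, hpq.symm]
      · simp [h1, h2]

theorem two_edges {C : Finset E} (hC : IsCircuit G C) {b : E → ZMod 2} {v : V}
    (hb : ∑ e ∈ C, (if v ∈ G.ends e then b e else 0) = 1) {e e' : E} (hne : e ≠ e') (he : e ∈ C) (he' : e' ∈ C)
    (hv : v ∈ G.ends e) (hv' : v ∈ G.ends e') : b e ≠ b e' := by
  have hd := dg_two hC (mem_Vx.2 ⟨e, he, hv⟩)
  unfold dg at hd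
  have hee : C.filter (fun e => v ∈ G.ends e) = {e, e'} := by
    symm
    apply eq_of_subset_of_card_le
    · intro f hf
      rw [mem_insert, mem_singleton] at hf
      rw [mem_filter]
      rcases hf with rfl | rfl
      · exact ⟨he, hv⟩
      · exact ⟨he', hv'⟩
    · rw [hd, card_pair hne]
  rw [← sum_filter, hee, sum_pair hne] at hb
  intro q
  rw [q] at hb
  revert hb
  generalize b e' = z
  revert z
  decide

theorem colour {A B : Finset E} (hM : Critical G w) (hT : Two G w A B) {X : Finset V}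
    (eA : Even (X.filter (fun v => v ∈ Vx G A)).card) (eB : Even (X.filter (fun v => v ∈ Vx G B)).card) :
    ∃ c : E → ZMod 2, ∀ v ∈ X, ∀ e e', e ≠ e' → w e = 1 → w e' = 1 → v ∈ G.ends e → v ∈ G.ends e' →
      c e ≠ c e' := by
  have hdis : ∀ v, v ∈ Vx G A → v ∈ Vx G B → False := fun v ha hb =>
    (Finset.disjoint_left.1 hT.disj) ha hb
  obtain ⟨r, hr⟩ := eA
  obtain ⟨s, hs⟩ := eB
  obtain ⟨bA, hbA⟩ := pot hT.cA r (X.filter (fun v => v ∈ Vx G A)) (by omega) (fun v hv => (mem_filter.1 hv).2)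
  obtain ⟨bB, hbB⟩ := pot hT.cB s (X.filter (fun v => v ∈ Vx G B)) (by omega) (fun v hv => (mem_filter.1 hv).2)
  refine ⟨fun e => if e ∈ A then bA e else bB e, ?_⟩
  intro v hv e e' hne hwe hwe' hve hve'
  show (if e ∈ A then bA e else bB e) ≠ (if e' ∈ A then bA e' else bB e')
  have hBA : ∀ f, f ∈ B → f ∉ A := by
    intro f hf hf'
    obtain ⟨a, b, -, hab⟩ := exists_ends G f
    exact hdis a (mem_Vx.2 ⟨f, hf', by rw [hab]; simp⟩) (mem_Vx.2 ⟨f, hf, by rw [hab]; simp⟩)
  rcases (hT.one e).1 hwe with q | q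
  · have q' : e' ∈ A := by
      rcases (hT.one e').1 hwe' with r | r
      · exact r
      · exact (hdis v (mem_Vx.2 ⟨e, q, hve⟩) (mem_Vx.2 ⟨e', r, hve'⟩)).elim
    rw [if_pos q, if_pos q']
    have h1 := hbA v
    rw [if_pos (mem_filter.2 ⟨hv, mem_Vx.2 ⟨e, q, hve⟩⟩)] at h1
    exact two_edges hT.cA h1 hne q q' hve hve'
  · have q' : e' ∈ B := by
      rcases (hT.one e').1 hwe' with r | r
      · exact (hdis v (mem_Vx.2 ⟨e', r, hve'⟩) (mem_Vx.2 ⟨e, q, hve⟩)).elim
      · exact r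
    rw [if_neg (hBA e q), if_neg (hBA e' q')]
    have h1 := hbB v
    rw [if_pos (mem_filter.2 ⟨hv, mem_Vx.2 ⟨e, q, hve⟩⟩)] at h1
    exact two_edges hT.cB h1 hne q q' hve hve'

theorem two_at {A B : Finset E} (hM : Critical G w) (hT : Two G w A B) (v : V) :
    ∃ m, w m = 2 ∧ v ∈ G.ends m ∧ ∀ f, w f = 2 → v ∈ G.ends f → f = m := by
  obtain ⟨e, e', m, hl⟩ := locs hM hT v
  refine ⟨m, hl.wm, hl.vm, fun f hf hvf => ?_⟩
  rcases hl.all f hvf with r | r | r
  · have := hl.we
    rw [← r] at this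
    omega
  · have := hl.we'
    rw [← r] at this
    omega
  · exact r

theorem cardC {A B : Finset E} (hM : Critical G w) (hT : Two G w A B) {C : Finset E}
    (hj : ∀ e, w e = 2 → ∃ a ∈ Vx G C, ∃ b, b ∉ Vx G C ∧ G.ends e = s(a, b)) {X : Finset V}
    (hX : ∀ e, w e = 2 → ¬ Leaves G X e) :
    (X.filter (fun v => v ∈ Vx G C)).card = (MX G w X).card := by
  have h1 : ∑ v ∈ X.filter (fun v => v ∈ Vx G C), ∑ m ∈ MX G w X, (if v ∈ G.ends m then 1 else 0) =
      ∑ m ∈ MX G w X, ∑ v ∈ X.filter (fun v => v ∈ Vx G C), (if v ∈ G.ends m then 1 else 0) := sum_comm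
  have h2 : ∀ v ∈ X.filter (fun v => v ∈ Vx G C), ∑ m ∈ MX G w X, (if v ∈ G.ends m then 1 else 0) = 1 := by
    intro v hv
    rw [mem_filter] at hv
    obtain ⟨m, hm, hvm, hu⟩ := two_at hM hT v
    rw [← card_filter, card_eq_one]
    refine ⟨m, ?_⟩
    ext f
    rw [mem_filter, mem_singleton, mem_MX]
    constructor
    · rintro ⟨⟨q, _⟩, r⟩
      exact hu f q r
    · rintro rfl
      exact ⟨⟨hm, fun u hu' => CH.sides (hX _ hm) hvm hu' hv.1⟩, hvm⟩
  have h3 : ∀ m ∈ MX G w X, ∑ v ∈ X.filter (fun v => v ∈ Vx G C), (if v ∈ G.ends m then 1 else 0) = 1 := by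
    intro m hm
    rw [mem_MX] at hm
    obtain ⟨a, ha, b, hb, hab⟩ := hj m hm.1
    rw [← card_filter, card_eq_one]
    refine ⟨a, ?_⟩
    ext v
    rw [mem_filter, mem_filter, mem_singleton, hab, Sym2.mem_iff]
    constructor
    · rintro ⟨⟨_, q⟩, r | r⟩
      · exact r
      · exact absurd (r ▸ q) hb
    · rintro rfl
      exact ⟨⟨hm.2 _ (by rw [hab]; simp), ha⟩, Or.inl rfl⟩
  rw [sum_congr rfl h2, sum_congr rfl h3, sum_const, sum_const, smul_eq_mul, smul_eq_mul, mul_one, mul_one] at h1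
  exact h1

open Classical in
/-- the heart: the even side -/
theorem core {A B : Finset E} (hM : Critical G w) (hT : Two G w A B) {X : Finset V} {c : E → ZMod 2}
    {col : ZMod 2} (hcut : ∀ e, Leaves G X e → w e = 1 ∧ c e = col)
    (hc : ∀ v ∈ X, ∀ e e', e ≠ e' → w e = 1 → w e' = 1 → v ∈ G.ends e → v ∈ G.ends e' → c e ≠ c e')
    (hA2 : (A.filter (fun e => Leaves G X e)).card = 2) (hB2 : (B.filter (fun e => Leaves G X e)).card = 2)
    {f f' : E} (hff : f ≠ f') (hf : w f = 2) (hf' : w f' = 2) (hfX : ∀ v ∈ G.ends f, v ∉ X)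
    (hfX' : ∀ v ∈ G.ends f', v ∉ X) : False := by
  obtain ⟨H, hH⟩ : ∃ H : Finset E, H = univ.filter
      (fun e => (∀ v ∈ G.ends e, v ∈ X) ∧ (w e = 2 ∨ (w e = 1 ∧ c e ≠ col))) := ⟨_, rfl⟩
  have hmem : ∀ e, e ∈ H ↔ (∀ v ∈ G.ends e, v ∈ X) ∧ (w e = 2 ∨ (w e = 1 ∧ c e ≠ col)) := by
    intro e
    rw [hH, mem_filter]
    simp
  have hins : ∀ e, ¬ Leaves G X e → ∀ v ∈ G.ends e, v ∈ X → ∀ u ∈ G.ends e, u ∈ X := fun e hl v hv hvX u hu =>
    CH.sides hl hv hu hvX
  have hdeg : ∀ v, dg G H v = if v ∈ X then 2 else 0 := by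
    intro v
    by_cases hv : v ∈ X
    · rw [if_pos hv]
      obtain ⟨e, e', m, hl⟩ := locs hM hT v
      rw [dg_loc hl]
      have hmH : m ∈ H := by
        rw [hmem]
        refine ⟨hins m (fun q => ?_) v hl.vm hv, Or.inl hl.wm⟩
        have := (hcut m q).1
        rw [hl.wm] at this
        omega
      have hne := hc v hv e e' hl.ne hl.we hl.we' hl.ve hl.ve'
      have key : ∀ g, w g = 1 → v ∈ G.ends g → (g ∈ H ↔ c g ≠ col) := by
        intro g hg hvg
        rw [hmem]
        constructor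
        · rintro ⟨-, q | q⟩
          · omega
          · exact q.2
        · intro q
          exact ⟨hins g (fun r => q (hcut g r).2) v hvg hv, Or.inr ⟨hg, q⟩⟩
      have k1 := key e hl.we hl.ve
      have k2 := key e' hl.we' hl.ve'
      have hz : ∀ p q r : ZMod 2, p ≠ q → (p ≠ r ∧ q = r) ∨ (p = r ∧ q ≠ r) := by decide
      rcases hz (c e) (c e') col hne with ⟨q1, q2⟩ | ⟨q1, q2⟩
      · rw [if_pos (k1.2 q1), if_neg (fun r => k2.1 r q2), if_pos hmH]
      · rw [if_neg (fun r => k1.1 r q1), if_pos (k2.2 q2), if_pos hmH]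
    · rw [if_neg hv]
      unfold dg
      rw [card_eq_zero, filter_eq_empty_iff]
      intro e he hve
      exact hv (((hmem e).1 he).1 v hve)
  have hXne : X.Nonempty := by
    by_contra h0
    rw [not_nonempty_iff_eq_empty] at h0
    subst h0
    have : (A.filter (fun e => Leaves G ∅ e)) = ∅ := by
      rw [filter_eq_empty_iff]
      rintro e _ ⟨a, ha, _⟩
      exact absurd ha (notMem_empty _)
    rw [this] at hA2
    simp at hA2
  have hHne : H.Nonempty := by
    obtain ⟨v, hv⟩ := hXne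
    have h1 := hdeg v
    rw [if_pos hv] at h1
    unfold dg at h1
    obtain ⟨e, he⟩ := card_pos.1 (by rw [h1]; omega : 0 < (H.filter (fun e => v ∈ G.ends e)).card)
    exact ⟨e, (mem_filter.1 he).1⟩
  obtain ⟨D, hDH, hD, hrest⟩ := component G H (fun v => by rw [hdeg v]; split_ifs <;> simp) hHne
  refine arc hM hT (col := col + 1) hc hA2 hB2 hff hf hf' hfX hfX' hD ?_ ?_
  · intro v hv
    obtain ⟨e, he, hve⟩ := mem_Vx.1 hv
    exact ((hmem e).1 (hDH he)).1 v hve
  · intro e he he1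
    rcases ((hmem e).1 (hDH he)).2 with q | q
    · omega
    · have hz : ∀ p q : ZMod 2, p ≠ q → p = q + 1 := by decide
      exact hz _ _ q.2

open Classical in
theorem even_side {A B : Finset E} (hM : Critical G w) (hT : Two G w A B) {X : Finset V}
    (hX2 : ∀ e, w e = 2 → ¬ Leaves G X e)
    (hA2 : (A.filter (fun e => Leaves G X e)).card = 2) (hB2 : (B.filter (fun e => Leaves G X e)).card = 2)
    (hev : Even (MX G w X).card) (hlt : 2 ≤ (MX G w Xᶜ).card) : False := by
  have hdis : ∀ v, v ∈ Vx G A → v ∈ Vx G B → False := fun v ha hb =>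
    (Finset.disjoint_left.1 hT.disj) ha hb
  have hA : ∀ e ∈ A, w e = 1 := fun e he => (hT.one e).2 (Or.inl he)
  have hB : ∀ e ∈ B, w e = 1 := fun e he => (hT.one e).2 (Or.inr he)
  have cA := cardC hM hT (C := A) (fun e he => by
    obtain ⟨a, ha, b, hb, hab⟩ := hT.join e he
    exact ⟨a, ha, b, fun q => hdis b q hb, hab⟩) hX2
  have cB := cardC hM hT (C := B) (fun e he => by
    obtain ⟨a, ha, b, hb, hab⟩ := hT.join e he
    exact ⟨b, hb, a, fun q => hdis a ha q, by rw [hab, Sym2.eq_swap]⟩) hX2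
  obtain ⟨f, hf, f', hf', hff⟩ := one_lt_card.1 (by omega : 1 < (MX G w Xᶜ).card)
  rw [mem_MX] at hf hf'
  have hfo : ∀ v ∈ G.ends f, v ∉ X := fun v hv => mem_compl.1 (hf.2 v hv)
  have hfo' : ∀ v ∈ G.ends f', v ∉ X := fun v hv => mem_compl.1 (hf'.2 v hv)
  obtain ⟨c, hc⟩ := colour hM hT (X := X) (by rw [cA]; exact hev) (by rw [cB]; exact hev)
  obtain ⟨eA, heA, hlA, hallA⟩ := C5.same hT.cA
    (fun v hv e he e' he' hne hve hve' => hc v hv e e' hne (hA e he) (hA e' he') hve hve') hA2 (by rw [cA]; exact hev)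
  obtain ⟨eB, heB, hlB, hallB⟩ := C5.same hT.cB
    (fun v hv e he e' he' hne hve hve' => hc v hv e e' hne (hB e he) (hB e' he') hve hve') hB2 (by rw [cB]; exact hev)
  have hAB : ∀ e ∈ B, e ∉ A := by
    intro e he he'
    obtain ⟨a, b, -, hab⟩ := exists_ends G e
    exact hdis a (mem_Vx.2 ⟨e, he', by rw [hab]; simp⟩) (mem_Vx.2 ⟨e, he, by rw [hab]; simp⟩)
  have hone : ∀ e, Leaves G X e → w e = 1 := fun e he => (hM.val e).resolve_right (fun q => hX2 e q he)
  refine core hM hT (X := X) (c := fun e => c e + if e ∈ A then c eA + c eB else 0) (col := c eB)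
    ?_ ?_ hA2 hB2 hff hf.1 hf'.1 hfo hfo'
  · intro e he
    refine ⟨hone e he, ?_⟩
    rcases (hT.one e).1 (hone e he) with q | q
    · show c e + (if e ∈ A then c eA + c eB else 0) = c eB
      rw [if_pos q, hallA e q he]
      have hz : ∀ p q : ZMod 2, p + (p + q) = q := by decide
      exact hz _ _
    · show c e + (if e ∈ A then c eA + c eB else 0) = c eB
      rw [if_neg (hAB e q), hallB e q he, add_zero]
  · intro v hv e e' hne hwe hwe' hve hve' heq
    have hAA : e ∈ A ↔ e' ∈ A := by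
      constructor
      · intro q
        rcases (hT.one e').1 hwe' with r | r
        · exact r
        · exact (hdis v (mem_Vx.2 ⟨e, q, hve⟩) (mem_Vx.2 ⟨e', r, hve'⟩)).elim
      · intro q
        rcases (hT.one e).1 hwe with r | r
        · exact r
        · exact (hdis v (mem_Vx.2 ⟨e', q, hve'⟩) (mem_Vx.2 ⟨e, r, hve⟩)).elim
    have heq' : c e + (if e ∈ A then c eA + c eB else 0) = c e' + (if e' ∈ A then c eA + c eB else 0) := heq
    rw [if_congr hAA rfl rfl, add_left_inj] at heq'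
    exact hc v hv e e' hne hwe hwe' hve hve' heq'

end ARC

end Pool.Agent.NH93.CC
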