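import Pool.Agent.NH93.CC.ARC2

/-!
# Project CC (helper93): critical contra pairs on permutation graphs are cyclically 5-edge-connected, assembly
-/

set_option autoImplicit false
set_option linter.all false

open Finset

namespace Pool.Agent.NH93.CC

open Pool.Agent.Helper347.Sab (MGraph dg IsCircuit IsCubic Touch exists_ends component potential)
open CUT (leaves_iff leaves_compl ends_card even_cut)

namespace ARC

open TWC
open C5 (MX mem_MX)

variable {V E : Type} [Fintype V] [DecidableEq V] [Fintype E] [DecidableEq E]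
variable {G : MGraph V E} {w : E → ℕ}

theorem swap {A B : Finset E} (h : Two G w A B) : Two G w B A := CNT.Two_swap G w A B h

/-- a circuit with edges of weight one only -/
theorem sub_one {A B : Finset E} (hM : Critical G w) (hT : Two G w A B) {Q : Finset E}
    (h1 : ∀ e ∈ Q, w e = 1) (hQ : IsCircuit G Q) {C : Finset E} (hC : IsCircuit G C) (hC1 : ∀ e ∈ C, w e = 1)
    {g : E} (hg : g ∈ Q) (hgC : g ∈ C) : C ⊆ Q := by
  have key : ∀ f, Relation.ReflTransGen (fun a b => b ∈ C ∧ Touch G a b) g f → f ∈ Q := by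
    intro f hf
    induction hf with
    | refl => exact hg
    | tail _ hst ih =>
      obtain ⟨hfC, v, hv, hv'⟩ := hst
      obtain ⟨e, e', m, hl⟩ := locs hM hT v
      have d := dg_two hQ (mem_Vx.2 ⟨_, ih, hv⟩)
      have hm : m ∉ Q := fun q => by
        have := h1 m q
        rw [hl.wm] at this
        omega
      rw [dg_loc hl, if_neg hm] at d
      have he : e ∈ Q := by
        by_contra h0
        rw [if_neg h0] at d
        split_ifs at d <;> omega
      have he' : e' ∈ Q := by
        by_contra h0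
        rw [if_neg h0] at d
        split_ifs at d <;> omega
      rcases hl.all _ hv' with r | r | r
      · exact r ▸ he
      · exact r ▸ he'
      · have := hC1 _ hfC
        rw [r, hl.wm] at this
        omega
  intro f hf
  exact key f (hC.2.2 g hgC f hf)

/-- a set of vertices off `A` that contains a circuit is large -/
theorem large {A B : Finset E} (hM : Critical G w) (hT : Two G w A B) {Q : Finset E} (hQ : IsCircuit G Q)
    {Y : Finset V} (hQY : Vx G Q ⊆ Y) (hY : ∀ v ∈ Y, v ∉ Vx G A) : 5 ≤ Y.card := by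
  have hB : ∀ e ∈ B, w e = 1 := fun e he => (hT.one e).2 (Or.inr he)
  have h1 : ∀ e ∈ Q, e ∈ B := by
    intro e he
    have h2 : ∀ v ∈ G.ends e, v ∉ Vx G A := fun v hv => hY v (hQY (mem_Vx.2 ⟨e, he, hv⟩))
    rcases hM.val e with q | q
    · rcases (hT.one e).1 q with r | r
      · obtain ⟨a, b, -, hab⟩ := exists_ends G e
        have ha : a ∈ G.ends e := by rw [hab]; simp
        exact absurd (mem_Vx.2 ⟨e, r, ha⟩) (h2 a ha)
      · exact r
    · obtain ⟨a, ha, b, hb, hab⟩ := hT.join e q
      exact absurd ha (h2 a (by rw [hab]; simp))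
  obtain ⟨g, hg⟩ := hQ.1
  have h3 := sub_one hM hT (fun e he => hB e (h1 e he)) hQ hT.cB hB hg (h1 g hg)
  have h4 := GIR.card_eq hT.cB
  have h5 := GIR.card_eq hQ
  have h6 := GIR.one_lt hT.cB
  have h7 := length hM hT
  have h8 := card_le_card h3
  have h9 := card_le_card hQY
  omega

open Classical in
theorem noC {A B : Finset E} (hM : Critical G w) (hT : Two G w A B) {Y : Finset V}
    (h5 : 5 ≤ Y.card) (hcut : (univ.filter (fun e => Leaves G Y e)).card ≤ 4)
    (hd : ∀ v ∈ Y, v ∉ Vx G A) : False := by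
  have hj : ∀ e, w e = 2 → ∃ a ∈ Vx G A, ∃ b, b ∉ Vx G A ∧ G.ends e = s(a, b) := fun e he => by
    obtain ⟨a, ha, b, hb, hab⟩ := hT.join e he
    exact ⟨a, ha, b, fun q => (Finset.disjoint_left.1 hT.disj) q hb, hab⟩
  choose m hm hvm hu using two_at hM hT
  have key : ∀ v ∈ Y, ∃ a ∈ Vx G A, G.ends (m v) = s(a, v) := by
    intro v hv
    obtain ⟨a, ha, b, hb, hab⟩ := hj (m v) (hm v)
    have h1 := hvm v
    rw [hab, Sym2.mem_iff] at h1
    rcases h1 with r | r
    · exact absurd (r ▸ ha) (hd v hv)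
    · exact ⟨a, ha, by rw [hab, r]⟩
  have h1 : Y.card ≤ (univ.filter (fun e => Leaves G Y e)).card := by
    apply card_le_card_of_injOn m
    · intro v hv
      rw [mem_coe] at hv
      obtain ⟨a, ha, hab⟩ := key v hv
      rw [mem_coe, mem_filter]
      exact ⟨mem_univ _, v, hv, a, fun q => hd a q ha, by rw [hab, Sym2.eq_swap]⟩
    · intro v hv v' hv' heq
      rw [mem_coe] at hv hv'
      obtain ⟨a, ha, hab⟩ := key v hv
      have h2 := hvm v'
      have h3 : m v' = m v := heq.symm
      rw [h3, hab, Sym2.mem_iff] at h2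
      rcases h2 with r | r
      · exact absurd (r ▸ ha) (hd v' hv')
      · exact r.symm
  omega

open Classical in
theorem noC' {A B : Finset E} (hM : Critical G w) (hT : Two G w A B) {X : Finset V}
    {Q Q' : Finset E} (hQ : IsCircuit G Q) (hQX : Vx G Q ⊆ X) (hQ' : IsCircuit G Q') (hQX' : Vx G Q' ⊆ Xᶜ)
    (hcut : (univ.filter (fun e => Leaves G X e)).card ≤ 4)
    (h0 : ∀ e ∈ A, ¬ Leaves G X e) : False := by
  obtain ⟨e, he⟩ := hT.cA.1
  obtain ⟨v, b, -, hvb⟩ := exists_ends G e
  have hv : v ∈ Vx G A := mem_Vx.2 ⟨e, he, by rw [hvb]; simp⟩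
  by_cases hvX : v ∈ X
  · have hd : ∀ u ∈ Xᶜ, u ∉ Vx G A := fun u hu huC =>
      (mem_compl.1 hu) (CH.side_circuit hT.cA h0 hv huC hvX)
    refine noC hM hT (large hM hT hQ' hQX' hd) ?_ hd
    have : (univ.filter (fun e => Leaves G Xᶜ e)) = univ.filter (fun e => Leaves G X e) := by
      ext e
      rw [mem_filter, mem_filter, leaves_compl]
    rw [this]
    exact hcut
  · have hd : ∀ u ∈ X, u ∉ Vx G A := fun u hu huC =>
      hvX (CH.side_circuit hT.cA h0 huC hv hu)
    exact noC hM hT (large hM hT hQ hQX hd) hcut hd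

/-- a circuit needs two edges of weight two or more vertices on one side -/
theorem two_le {A B : Finset E} (hM : Critical G w) (hT : Two G w A B) {Q : Finset E} (hQ : IsCircuit G Q)
    {Y : Finset V} (hQY : Vx G Q ⊆ Y) (h1 : (Y.filter (fun v => v ∈ Vx G A)).card ≤ 1)
    (h2 : (Y.filter (fun v => v ∈ Vx G B)).card ≤ 1) : False := by
  have hall : ∀ e ∈ Q, w e = 2 := by
    intro e he
    by_contra hne
    have hw1 : w e = 1 := (hM.val e).resolve_right hne
    obtain ⟨a, b, hab, hends⟩ := exists_ends G e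
    have ha : a ∈ G.ends e := by rw [hends]; simp
    have hb : b ∈ G.ends e := by rw [hends]; simp
    have haY : a ∈ Y := hQY (mem_Vx.2 ⟨e, he, ha⟩)
    have hbY : b ∈ Y := hQY (mem_Vx.2 ⟨e, he, hb⟩)
    rcases (hT.one e).1 hw1 with r | r
    · exact hab (card_le_one.1 h1 a (mem_filter.2 ⟨haY, mem_Vx.2 ⟨e, r, ha⟩⟩) b
        (mem_filter.2 ⟨hbY, mem_Vx.2 ⟨e, r, hb⟩⟩))
    · exact hab (card_le_one.1 h2 a (mem_filter.2 ⟨haY, mem_Vx.2 ⟨e, r, ha⟩⟩) b
        (mem_filter.2 ⟨hbY, mem_Vx.2 ⟨e, r, hb⟩⟩))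
  obtain ⟨e, he⟩ := hQ.1
  obtain ⟨v, b, -, hvb⟩ := exists_ends G e
  have hve : v ∈ G.ends e := by rw [hvb]; simp
  have hd := dg_two hQ (mem_Vx.2 ⟨e, he, hve⟩)
  obtain ⟨m, hm, hvm, hu⟩ := two_at hM hT v
  have : dg G Q v ≤ 1 := by
    unfold dg
    rw [card_le_one]
    intro f hf f' hf'
    rw [mem_filter] at hf hf'
    rw [hu f (hall f hf.1) hf.2, hu f' (hall f' hf'.1) hf'.2]
  omega

open Classical in
/-- cyclic 5-edge-connectivity -/
theorem cyc5 {A B : Finset E} (hM : Critical G w) (hT : Two G w A B) {X : Finset V}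
    (hcut : (univ.filter (fun e => Leaves G X e)).card ≤ 4)
    {Q Q' : Finset E} (hQ : IsCircuit G Q) (hQX : Vx G Q ⊆ X) (hQ' : IsCircuit G Q') (hQX' : Vx G Q' ⊆ Xᶜ) :
    False := by
  have hdis : ∀ v, v ∈ Vx G A → v ∈ Vx G B → False := fun v ha hb =>
    (Finset.disjoint_left.1 hT.disj) ha hb
  have hA : ∀ e ∈ A, w e = 1 := fun e he => (hT.one e).2 (Or.inl he)
  have hB : ∀ e ∈ B, w e = 1 := fun e he => (hT.one e).2 (Or.inr he)
  have hAB : ∀ e ∈ B, e ∉ A := by
    intro e he he'
    obtain ⟨a, b, -, hab⟩ := exists_ends G e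
    exact hdis a (mem_Vx.2 ⟨e, he', by rw [hab]; simp⟩) (mem_Vx.2 ⟨e, he, by rw [hab]; simp⟩)
  have hjA : ∀ e, w e = 2 → ∃ a ∈ Vx G A, ∃ b, b ∉ Vx G A ∧ G.ends e = s(a, b) := fun e he => by
    obtain ⟨a, ha, b, hb, hab⟩ := hT.join e he
    exact ⟨a, ha, b, fun q => hdis b q hb, hab⟩
  have hjB : ∀ e, w e = 2 → ∃ a ∈ Vx G B, ∃ b, b ∉ Vx G B ∧ G.ends e = s(a, b) := fun e he => by
    obtain ⟨a, ha, b, hb, hab⟩ := hT.join e he
    exact ⟨b, hb, a, fun q => hdis a ha q, by rw [hab, Sym2.eq_swap]⟩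
  have evA := even_cut G A hT.cA.2.1 X
  have evB := even_cut G B hT.cB.2.1 X
  have hsum : (A.filter (fun e => Leaves G X e)).card + (B.filter (fun e => Leaves G X e)).card +
      (univ.filter (fun e => w e = 2 ∧ Leaves G X e)).card ≤ (univ.filter (fun e => Leaves G X e)).card := by
    rw [← card_union_of_disjoint, ← card_union_of_disjoint]
    · apply card_le_card
      intro e he
      rw [mem_union, mem_union, mem_filter, mem_filter, mem_filter] at he
      rw [mem_filter]
      refine ⟨mem_univ _, ?_⟩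
      rcases he with (q | q) | q
      · exact q.2
      · exact q.2
      · exact q.2.2
    · rw [disjoint_left]
      intro e he he'
      rw [mem_union, mem_filter, mem_filter] at he
      rw [mem_filter] at he'
      rcases he with q | q
      · have := hA e q.1
        omega
      · have := hB e q.1
        omega
    · rw [disjoint_left]
      intro e he he'
      rw [mem_filter] at he he'
      exact hAB e he'.1 he.1
  have hA0 : (A.filter (fun e => Leaves G X e)).card ≠ 0 := by
    intro h0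
    rw [card_eq_zero, filter_eq_empty_iff] at h0
    exact noC' hM hT hQ hQX hQ' hQX' hcut (fun e he => h0 he)
  have hB0 : (B.filter (fun e => Leaves G X e)).card ≠ 0 := by
    intro h0
    rw [card_eq_zero, filter_eq_empty_iff] at h0
    exact noC' hM (swap hT) hQ hQX hQ' hQX' hcut (fun e he => h0 he)
  obtain ⟨r, hr⟩ := evA
  obtain ⟨s, hs⟩ := evB
  have hA2 : (A.filter (fun e => Leaves G X e)).card = 2 := by omega
  have hB2 : (B.filter (fun e => Leaves G X e)).card = 2 := by omega
  have hM0 : (univ.filter (fun e => w e = 2 ∧ Leaves G X e)).card = 0 := by omega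
  have hX2 : ∀ e, w e = 2 → ¬ Leaves G X e := by
    intro e he hl
    rw [card_eq_zero, filter_eq_empty_iff] at hM0
    exact hM0 (mem_univ e) ⟨he, hl⟩
  have hX2' : ∀ e, w e = 2 → ¬ Leaves G Xᶜ e := fun e he hl => hX2 e he (leaves_compl.1 hl)
  have c1 := cardC hM hT hjA hX2
  have c2 := cardC hM hT hjB hX2
  have c3 := cardC hM hT hjA hX2'
  have c4 := cardC hM hT hjB hX2'
  have d1 : 2 ≤ (MX G w X).card := by
    by_contra hlt
    exact two_le hM hT hQ hQX (by omega) (by omega)
  have d2 : 2 ≤ (MX G w Xᶜ).card := by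
    by_contra hlt
    exact two_le hM hT hQ' hQX' (by omega) (by omega)
  have d3 : (X.filter (fun v => v ∈ Vx G A)).card + (Xᶜ.filter (fun v => v ∈ Vx G A)).card = (Vx G A).card := by
    rw [← card_union_of_disjoint]
    · congr 1
      ext v
      rw [mem_union, mem_filter, mem_filter, mem_compl]
      tauto
    · rw [disjoint_left]
      intro v hv hv'
      rw [mem_filter] at hv hv'
      exact (mem_compl.1 hv'.1) hv.1
  have hn := (length hM hT).1
  have hleq : ∀ C : Finset E, (C.filter (fun e => Leaves G Xᶜ e)) = C.filter (fun e => Leaves G X e) := by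
    intro C
    ext e
    rw [mem_filter, mem_filter, leaves_compl]
  rcases Nat.even_or_odd (MX G w X).card with q | q
  · exact even_side hM hT hX2 hA2 hB2 q d2
  · refine even_side hM hT hX2' (by rw [hleq]; exact hA2) (by rw [hleq]; exact hB2) ?_ ?_
    · rw [Nat.even_iff]
      rw [Nat.odd_iff] at q
      omega
    · rw [compl_compl]
      exact d1

end ARC

end Pool.Agent.NH93.CC
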