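import Pool.Agent.NH93.CC.GIR2

/-!
# Project CC (helper93): minimal contra pairs are cyclically 5-edge-connected, part one
-/

set_option autoImplicit false
set_option linter.all false

open Finset

namespace Pool.Agent.NH93.CC

open Pool.Agent.Helper347.Sab (MGraph dg IsCircuit IsCubic Touch exists_ends component)
open CUT (leaves_iff leaves_compl ends_card even_cut)

namespace C5

open TWC

variable {V E : Type} [Fintype V] [DecidableEq V] [Fintype E] [DecidableEq E]
variable {G : MGraph V E} {w : E → ℕ}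

open Classical in
/-- a circuit is not removable -/
theorem bridge (hM : MinContra G w) {D : Finset E} (hD : IsCircuit G D) :
    ∃ (Z : Finset V) (g : E), w g = 2 ∧ g ∉ D ∧ Leaves G Z g ∧ ∀ e, Leaves G Z e → 0 < minus w D e → e = g := by
  have hw : ∀ e, minus w D e + (if e ∈ D then 1 else 0) = w e := by
    intro e
    have := hM.val e
    unfold minus
    by_cases h : e ∈ D
    · simp only [h, if_true]
      omega
    · simp [h]
  have heul : Eulerian G (minus w D) := by
    intro X
    have h1 := hM.eul X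
    have h2 := even_cut G D hD.2.1 X
    have h3 : ∑ e ∈ univ.filter (fun e => Leaves G X e), minus w D e +
        (D.filter fun e => Leaves G X e).card = ∑ e ∈ univ.filter (fun e => Leaves G X e), w e := by
      have h4 : (D.filter fun e => Leaves G X e).card =
          ∑ e ∈ univ.filter (fun e => Leaves G X e), (if e ∈ D then 1 else 0) := by
        rw [sum_boole, filter_filter, Nat.cast_id]
        congr 1
        ext e
        simp only [mem_filter, mem_univ, true_and]
        tauto
      rw [h4, ← sum_add_distrib]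
      exact sum_congr rfl fun e _ => hw e
    rw [← h3] at h1
    exact (Nat.even_add.1 h1).2 h2
  have hbr : ¬ Bridgeless G (supp (minus w D)) := fun h =>
    hM.critical D ⟨hD, heul, h⟩
  unfold Bridgeless at hbr
  push Not at hbr
  obtain ⟨X, hX⟩ := hbr
  obtain ⟨g, hg⟩ := card_eq_one.1 hX
  have hg1 : ∀ e, Leaves G X e → 0 < minus w D e → e = g := by
    intro e h2 h1
    have h3 : e ∈ (supp (minus w D)).filter (fun e => Leaves G X e) := by
      rw [mem_filter]
      exact ⟨mem_filter.2 ⟨mem_univ _, h1⟩, h2⟩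
    rw [hg] at h3
    exact mem_singleton.1 h3
  have hg2 : 0 < minus w D g ∧ Leaves G X g := by
    have h3 : g ∈ (supp (minus w D)).filter (fun e => Leaves G X e) := by
      rw [hg]
      exact mem_singleton_self g
    rw [mem_filter] at h3
    exact ⟨(mem_filter.1 h3.1).2, h3.2⟩
  have h5 : ∑ e ∈ univ.filter (fun e => Leaves G X e), minus w D e = minus w D g := by
    apply sum_eq_single_of_mem g
    · rw [mem_filter]
      exact ⟨mem_univ _, hg2.2⟩
    · intro e he hne
      rw [mem_filter] at he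
      by_contra h6
      exact hne (hg1 e he.2 (Nat.pos_of_ne_zero h6))
  have h6 := heul X
  rw [h5] at h6
  obtain ⟨r, hr⟩ := h6
  have h7 := hw g
  have h8 := hM.val g
  have h9 := hg2.1
  refine ⟨X, g, ?_, ?_, hg2.2, hg1⟩
  · split_ifs at h7 <;> omega
  · intro hgD
    rw [if_pos hgD] at h7
    omega

open Classical in
theorem side1 {C : Finset E} (hC : IsCircuit G C) {X Z : Finset V} {a a' p z : V} {e₁ e₂ : E}
    (hcut : ∀ e ∈ C, Leaves G X e → e = e₁ ∨ e = e₂) (h1 : e₁ ∈ C) (hp : p ∈ X) (hz : z ∉ X)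
    (he₁ : G.ends e₁ = s(p, z)) (hzZ : z ∈ Z)
    (hZ : ∀ e ∈ C, (∀ v ∈ G.ends e, v ∉ X) → ¬ Leaves G Z e) :
    ∀ v ∈ Vx G C, v ∉ X → v ∈ Z := by
  obtain ⟨Y, hY⟩ : ∃ Y : Finset V, Y = univ.filter (fun v => v ∉ X ∧ v ∉ Z) := ⟨_, rfl⟩
  have hmem : ∀ v, v ∈ Y ↔ v ∉ X ∧ v ∉ Z := fun v => by rw [hY, mem_filter]; simp
  have hev := even_cut G C hC.2.1 Y
  have hsub : C.filter (fun e => Leaves G Y e) ⊆ {e₂} := by
    intro e he
    rw [mem_filter] at he
    obtain ⟨heC, u, hu, u', hu', hee⟩ := he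
    rw [mem_singleton]
    rw [hmem] at hu hu'
    by_cases hX : u' ∈ X
    · rcases hcut e heC ⟨u', hX, u, hu.1, by rw [hee, Sym2.eq_swap]⟩ with r | r
      · exfalso
        rw [r, he₁] at hee
        rcases Sym2.eq_iff.1 hee with ⟨q1, q2⟩ | ⟨q1, q2⟩
        · exact hu.1 (q1 ▸ hp)
        · exact hu.2 (q2 ▸ hzZ)
      · exact r
    · exfalso
      have hu'Z : u' ∈ Z := by
        by_contra q
        exact hu' ⟨hX, q⟩
      refine hZ e heC ?_ ⟨u', hu'Z, u, hu.2, by rw [hee, Sym2.eq_swap]⟩
      intro v hv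
      rw [hee, Sym2.mem_iff] at hv
      rcases hv with rfl | rfl
      · exact hu.1
      · exact hX
  have hemp : C.filter (fun e => Leaves G Y e) = ∅ := by
    rcases subset_singleton_iff.1 hsub with r | r
    · exact r
    · rw [r, card_singleton] at hev
      exact absurd hev (by decide)
  intro v hv hvX
  by_contra hvZ
  have hno : ∀ e ∈ C, ¬ Leaves G Y e := by
    intro e he hl
    have : e ∈ C.filter (fun e => Leaves G Y e) := mem_filter.2 ⟨he, hl⟩
    rw [hemp] at this
    exact absurd this (notMem_empty _)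
  have hpC : p ∈ Vx G C := mem_Vx.2 ⟨e₁, h1, by rw [he₁]; simp⟩
  have := CH.side_circuit hC hno hv hpC ((hmem v).2 ⟨hvX, hvZ⟩)
  exact ((hmem p).1 this).1 hp

open Classical in
theorem side {C : Finset E} (hC : IsCircuit G C) {X Z : Finset V}
    (hcut : (C.filter (fun e => Leaves G X e)).card = 2)
    (hZ : ∀ e ∈ C, (∀ v ∈ G.ends e, v ∉ X) → ¬ Leaves G Z e) :
    (∀ v ∈ Vx G C, v ∉ X → v ∈ Z) ∨ (∀ v ∈ Vx G C, v ∉ X → v ∉ Z) := by
  obtain ⟨e₁, e₂, hne, hee⟩ := card_eq_two.1 hcut
  have h1 : e₁ ∈ C.filter (fun e => Leaves G X e) := by rw [hee]; simp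
  rw [mem_filter] at h1
  obtain ⟨h1C, p, hp, z, hz, hpz⟩ := h1
  have hcut' : ∀ e ∈ C, Leaves G X e → e = e₁ ∨ e = e₂ := by
    intro e he hl
    have : e ∈ C.filter (fun e => Leaves G X e) := mem_filter.2 ⟨he, hl⟩
    rw [hee, mem_insert, mem_singleton] at this
    exact this
  by_cases hzZ : z ∈ Z
  · left
    exact side1 (a := p) (a' := p) hC hcut' h1C hp hz hpz hzZ hZ
  · right
    have := side1 (a := p) (a' := p) (Z := Zᶜ) hC hcut' h1C hp hz hpz (mem_compl.2 hzZ)
      (fun e he h => by rw [leaves_compl]; exact hZ e he h)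
    intro v hv hvX
    exact mem_compl.1 (this v hv hvX)

open Classical in
/-- the heart: the even side -/
theorem core {A B : Finset E} (hM : MinContra G w) (hT : Two G w A B) {X : Finset V} {c : E → ZMod 2}
    {col : ZMod 2} (hcut : ∀ e, Leaves G X e → w e = 1 ∧ c e = col)
    (hc : ∀ v ∈ X, ∀ e e', e ≠ e' → w e = 1 → w e' = 1 → v ∈ G.ends e → v ∈ G.ends e' → c e ≠ c e')
    (hA2 : (A.filter (fun e => Leaves G X e)).card = 2) (hB2 : (B.filter (fun e => Leaves G X e)).card = 2)
    {f f' : E} (hff : f ≠ f') (hf : w f = 2) (hf' : w f' = 2) (hfX : ∀ v ∈ G.ends f, v ∉ X)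
    (hfX' : ∀ v ∈ G.ends f', v ∉ X) : False := by
  have hdis : ∀ v, v ∈ Vx G A → v ∈ Vx G B → False := fun v ha hb =>
    (Finset.disjoint_left.1 hT.disj) ha hb
  have hA : ∀ e ∈ A, w e = 1 := fun e he => (hT.one e).2 (Or.inl he)
  have hB : ∀ e ∈ B, w e = 1 := fun e he => (hT.one e).2 (Or.inr he)
  obtain ⟨H, hH⟩ : ∃ H : Finset E, H = univ.filter
      (fun e => (∀ v ∈ G.ends e, v ∈ X) ∧ (w e = 2 ∨ (w e = 1 ∧ c e ≠ col))) := ⟨_, rfl⟩
  have hmem : ∀ e, e ∈ H ↔ (∀ v ∈ G.ends e, v ∈ X) ∧ (w e = 2 ∨ (w e = 1 ∧ c e ≠ col)) := by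
    intro e
    rw [hH, mem_filter]
    simp
  -- an edge that does not leave `X`, with an end in `X`
  have hins : ∀ e, ¬ Leaves G X e → ∀ v ∈ G.ends e, v ∈ X → ∀ u ∈ G.ends e, u ∈ X := fun e hl v hv hvX u hu =>
    CH.sides hl hv hu hvX
  have hdeg : ∀ v, dg G H v = if v ∈ X then 2 else 0 := by
    intro v
    by_cases hv : v ∈ X
    · rw [if_pos hv]
      obtain ⟨e, e', m, hl⟩ := GIR.locs hM hT v
      rw [dg_loc hl]
      have hmH : m ∈ H := by
        rw [hmem]
        refine ⟨hins m (fun q => ?_) v hl.vm hv, Or.inl hl.wm⟩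
        have := (hcut m q).1
        rw [hl.wm] at this
        omega
      have hne := hc v hv e e' hl.ne hl.we hl.we' hl.ve hl.ve'
      have key : ∀ g, w g = 1 → v ∈ G.ends g → (g ∈ H ↔ c g ≠ col) := by
        intro g hg hvg
        rw [hmem]
        constructor
        · rintro ⟨-, q | q⟩
          · omega
          · exact q.2
        · intro q
          exact ⟨hins g (fun r => q (hcut g r).2) v hvg hv, Or.inr ⟨hg, q⟩⟩
      have k1 := key e hl.we hl.ve
      have k2 := key e' hl.we' hl.ve'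
      have hz : ∀ p q r : ZMod 2, p ≠ q → (p ≠ r ∧ q = r) ∨ (p = r ∧ q ≠ r) := by decide
      rcases hz (c e) (c e') col hne with ⟨q1, q2⟩ | ⟨q1, q2⟩
      · rw [if_pos (k1.2 q1), if_neg (fun r => k2.1 r q2), if_pos hmH]
      · rw [if_neg (fun r => k1.1 r q1), if_pos (k2.2 q2), if_pos hmH]
    · rw [if_neg hv]
      unfold dg
      rw [card_eq_zero, filter_eq_empty_iff]
      intro e he hve
      exact hv (((hmem e).1 he).1 v hve)
  have hXne : X.Nonempty := by
    by_contra h0
    rw [not_nonempty_iff_eq_empty] at h0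
    subst h0
    have : (A.filter (fun e => Leaves G ∅ e)) = ∅ := by
      rw [filter_eq_empty_iff]
      rintro e _ ⟨a, ha, _⟩
      exact absurd ha (notMem_empty _)
    rw [this] at hA2
    simp at hA2
  have hHne : H.Nonempty := by
    obtain ⟨v, hv⟩ := hXne
    have h1 := hdeg v
    rw [if_pos hv] at h1
    unfold dg at h1
    obtain ⟨e, he⟩ := card_pos.1 (by rw [h1]; omega : 0 < (H.filter (fun e => v ∈ G.ends e)).card)
    exact ⟨e, (mem_filter.1 he).1⟩
  obtain ⟨D, hDH, hD, hrest⟩ := component G H (fun v => by rw [hdeg v]; split_ifs <;> simp) hHne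
  obtain ⟨Z, g, hwg, hgD, hZg, huniq⟩ := bridge hM hD
  have hpos : ∀ e, e ∉ D → 0 < minus w D e := by
    intro e he
    unfold minus
    rw [if_neg he]
    rcases hM.val e with q | q <;> omega
  have hout : ∀ e, (∀ v ∈ G.ends e, v ∉ X) → e ∉ D := by
    intro e he heD
    obtain ⟨a, b, -, hab⟩ := exists_ends G e
    exact he a (by rw [hab]; simp) (((hmem e).1 (hDH heD)).1 a (by rw [hab]; simp))
  obtain ⟨a₀, ha₀, b₀, hb₀, hg⟩ := hT.join g hwg
  have hgX : ¬ Leaves G X g := fun q => by
    have := (hcut g q).1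
    omega
  by_cases hin : a₀ ∈ X
  · -- `g` is inside
    have hgH : g ∈ H := (hmem g).2 ⟨hins g hgX a₀ (by rw [hg]; simp) hin, Or.inl hwg⟩
    have hev := even_cut G (H \ D) hrest Z
    have : ((H \ D).filter fun e => Leaves G Z e) = {g} := by
      ext e
      rw [mem_filter, mem_singleton, mem_sdiff]
      constructor
      · rintro ⟨⟨_, q⟩, r⟩
        exact huniq e r (hpos e q)
      · rintro rfl
        exact ⟨⟨hgH, hgD⟩, hZg⟩
    rw [this, card_singleton] at hev
    exact absurd hev (by decide)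
  · -- `g` is outside
    have hbX : b₀ ∉ X := fun q => hin (hins g hgX b₀ (by rw [hg]; simp) q a₀ (by rw [hg]; simp))
    have hno : ∀ e, w e = 1 → (∀ v ∈ G.ends e, v ∉ X) → ¬ Leaves G Z e := by
      intro e he hX hl
      have := huniq e hl (hpos e (hout e hX))
      rw [this] at he
      omega
    have sA := side hT.cA hA2 (fun e he hX => hno e (hA e he) hX)
    have sB := side hT.cB hB2 (fun e he hX => hno e (hB e he) hX)
    -- every edge of weight two outside `X` leaves `Z`
    have hall : ∀ e, w e = 2 → (∀ v ∈ G.ends e, v ∉ X) → e = g := by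
      intro e he hX
      obtain ⟨a, ha, b, hb, hab⟩ := hT.join e he
      have haX : a ∉ X := hX a (by rw [hab]; simp)
      have hbX' : b ∉ X := hX b (by rw [hab]; simp)
      refine huniq e ?_ (hpos e (hout e hX))
      rw [leaves_iff hab]
      rw [leaves_iff hg] at hZg
      rcases sA with q | q <;> rcases sB with r | r
      · exfalso
        rcases hZg with ⟨_, t⟩ | ⟨_, t⟩
        · exact t (r b₀ hb₀ hbX)
        · exact t (q a₀ ha₀ hin)
      · exact Or.inl ⟨q a ha haX, r b hb hbX'⟩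
      · exact Or.inr ⟨r b hb hbX', q a ha haX⟩
      · exfalso
        rcases hZg with ⟨t, _⟩ | ⟨t, _⟩
        · exact q a₀ ha₀ hin t
        · exact r b₀ hb₀ hbX t
    exact hff ((hall f hf hfX).trans (hall f' hf' hfX').symm)

end C5

end Pool.Agent.NH93.CC
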