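import Pool.Agent.NH93.CC.C5

/-!
# Project CC (helper93): minimal contra pairs are cyclically 5-edge-connected, part two
-/

set_option autoImplicit false
set_option linter.all false

open Finset

namespace Pool.Agent.NH93.CC

open Pool.Agent.Helper347.Sab (MGraph dg IsCircuit IsCubic Touch exists_ends component)
open CUT (leaves_iff leaves_compl ends_card even_cut)

namespace C5

open TWC

variable {V E : Type} [Fintype V] [DecidableEq V] [Fintype E] [DecidableEq E]
variable {G : MGraph V E} {w : E → ℕ}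

/-- the edges of weight two inside `X` -/
def MX (G : MGraph V E) (w : E → ℕ) (X : Finset V) : Finset E :=
  univ.filter (fun e => w e = 2 ∧ ∀ v ∈ X ᶜ, v ∉ G.ends e)

theorem mem_MX {X : Finset V} {e : E} : e ∈ MX G w X ↔ w e = 2 ∧ ∀ v ∈ G.ends e, v ∈ X := by
  unfold MX
  rw [mem_filter]
  constructor
  · rintro ⟨-, h1, h2⟩
    refine ⟨h1, fun v hv => ?_⟩
    by_contra h
    exact h2 v (mem_compl.2 h) hv
  · rintro ⟨h1, h2⟩
    exact ⟨mem_univ _, h1, fun v hv hve => (mem_compl.1 hv) (h2 v hve)⟩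

theorem two_at {A B : Finset E} (hM : MinContra G w) (hT : Two G w A B) (v : V) :
    ∃ m, w m = 2 ∧ v ∈ G.ends m ∧ ∀ f, w f = 2 → v ∈ G.ends f → f = m := by
  obtain ⟨e, e', m, hl⟩ := GIR.locs hM hT v
  refine ⟨m, hl.wm, hl.vm, fun f hf hvf => ?_⟩
  rcases hl.all f hvf with r | r | r
  · have := hl.we
    rw [← r] at this
    omega
  · have := hl.we'
    rw [← r] at this
    omega
  · exact r

theorem cardC {A B : Finset E} (hM : MinContra G w) (hT : Two G w A B) {C : Finset E}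
    (hj : ∀ e, w e = 2 → ∃ a ∈ Vx G C, ∃ b, b ∉ Vx G C ∧ G.ends e = s(a, b)) {X : Finset V}
    (hX : ∀ e, w e = 2 → ¬ Leaves G X e) :
    (X.filter (fun v => v ∈ Vx G C)).card = (MX G w X).card := by
  have h1 : ∑ v ∈ X.filter (fun v => v ∈ Vx G C), ∑ m ∈ MX G w X, (if v ∈ G.ends m then 1 else 0) =
      ∑ m ∈ MX G w X, ∑ v ∈ X.filter (fun v => v ∈ Vx G C), (if v ∈ G.ends m then 1 else 0) := sum_comm
  have h2 : ∀ v ∈ X.filter (fun v => v ∈ Vx G C), ∑ m ∈ MX G w X, (if v ∈ G.ends m then 1 else 0) = 1 := by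
    intro v hv
    rw [mem_filter] at hv
    obtain ⟨m, hm, hvm, hu⟩ := two_at hM hT v
    rw [← card_filter, card_eq_one]
    refine ⟨m, ?_⟩
    ext f
    rw [mem_filter, mem_singleton, mem_MX]
    constructor
    · rintro ⟨⟨q, _⟩, r⟩
      exact hu f q r
    · rintro rfl
      exact ⟨⟨hm, fun u hu' => CH.sides (hX _ hm) hvm hu' hv.1⟩, hvm⟩
  have h3 : ∀ m ∈ MX G w X, ∑ v ∈ X.filter (fun v => v ∈ Vx G C), (if v ∈ G.ends m then 1 else 0) = 1 := by
    intro m hm
    rw [mem_MX] at hm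
    obtain ⟨a, ha, b, hb, hab⟩ := hj m hm.1
    rw [← card_filter, card_eq_one]
    refine ⟨a, ?_⟩
    ext v
    rw [mem_filter, mem_filter, mem_singleton, hab, Sym2.mem_iff]
    constructor
    · rintro ⟨⟨_, q⟩, r | r⟩
      · exact r
      · exact absurd (r ▸ q) hb
    · rintro rfl
      exact ⟨⟨hm.2 _ (by rw [hab]; simp), ha⟩, Or.inl rfl⟩
  rw [sum_congr rfl h2, sum_congr rfl h3, sum_const, sum_const, smul_eq_mul, smul_eq_mul, mul_one, mul_one] at h1
  exact h1

open Classical in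
theorem parityC {C : Finset E} (hC : IsCircuit G C) {X : Finset V} {c : E → ZMod 2}
    (hc : ∀ v ∈ X, ∀ e ∈ C, ∀ e' ∈ C, e ≠ e' → v ∈ G.ends e → v ∈ G.ends e' → c e ≠ c e') :
    ∑ e ∈ C.filter (fun e => Leaves G X e), c e = ((X.filter (fun v => v ∈ Vx G C)).card : ZMod 2) := by
  have h1 : ∑ e ∈ C.filter (fun e => Leaves G X e), c e = ∑ e ∈ C, ∑ v ∈ X, if v ∈ G.ends e then c e else 0 := by
    rw [sum_filter]
    apply sum_congr rfl
    intro e _
    have h2 := ends_card G X e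
    rw [← sum_filter, sum_const, nsmul_eq_mul, h2]
    split_ifs <;> simp
  rw [h1, sum_comm]
  have h3 : ∀ v ∈ X, (∑ e ∈ C, if v ∈ G.ends e then c e else 0) = if v ∈ Vx G C then 1 else 0 := by
    intro v hv
    by_cases hvC : v ∈ Vx G C
    · rw [if_pos hvC, ← sum_filter]
      have hd := dg_two hC hvC
      unfold dg at hd
      obtain ⟨e, e', hne, hee⟩ := card_eq_two.1 hd
      have he : e ∈ C ∧ v ∈ G.ends e := by
        have : e ∈ C.filter (fun e => v ∈ G.ends e) := by rw [hee]; simp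
        exact mem_filter.1 this
      have he' : e' ∈ C ∧ v ∈ G.ends e' := by
        have : e' ∈ C.filter (fun e => v ∈ G.ends e) := by rw [hee]; simp
        exact mem_filter.1 this
      rw [hee, sum_pair hne]
      have hz : ∀ p q : ZMod 2, p ≠ q → p + q = 1 := by decide
      exact hz _ _ (hc v hv e he.1 e' he'.1 hne he.2 he'.2)
    · rw [if_neg hvC]
      apply sum_eq_zero
      intro e he
      rw [if_neg]
      exact fun q => hvC (mem_Vx.2 ⟨e, he, q⟩)
  rw [sum_congr rfl h3, ← sum_filter, sum_const, nsmul_eq_mul, mul_one]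

open Classical in
theorem same {C : Finset E} (hC : IsCircuit G C) {X : Finset V} {c : E → ZMod 2}
    (hc : ∀ v ∈ X, ∀ e ∈ C, ∀ e' ∈ C, e ≠ e' → v ∈ G.ends e → v ∈ G.ends e' → c e ≠ c e')
    (h2 : (C.filter (fun e => Leaves G X e)).card = 2)
    (hev : Even (X.filter (fun v => v ∈ Vx G C)).card) :
    ∃ e₁ ∈ C, Leaves G X e₁ ∧ ∀ e ∈ C, Leaves G X e → c e = c e₁ := by
  have h3 := parityC hC hc
  rw [(ZMod.natCast_eq_zero_iff_even).2 hev] at h3
  obtain ⟨e, e', hne, hee⟩ := card_eq_two.1 h2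
  have he : e ∈ C ∧ Leaves G X e := by
    have : e ∈ C.filter (fun e => Leaves G X e) := by rw [hee]; simp
    exact mem_filter.1 this
  rw [hee, sum_pair hne] at h3
  have hz : ∀ p q : ZMod 2, p + q = 0 → q = p := by decide
  have h4 := hz _ _ h3
  refine ⟨e, he.1, he.2, fun f hf hl => ?_⟩
  have : f ∈ C.filter (fun e => Leaves G X e) := mem_filter.2 ⟨hf, hl⟩
  rw [hee, mem_insert, mem_singleton] at this
  rcases this with r | r
  · rw [r]
  · rw [r, h4]

open Classical in
theorem even_side {A B : Finset E} (hM : MinContra G w) (hT : Two G w A B) {X : Finset V}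
    (hX2 : ∀ e, w e = 2 → ¬ Leaves G X e)
    (hA2 : (A.filter (fun e => Leaves G X e)).card = 2) (hB2 : (B.filter (fun e => Leaves G X e)).card = 2)
    (hev : Even (MX G w X).card) (hlt : 2 ≤ (MX G w Xᶜ).card) : False := by
  have hdis : ∀ v, v ∈ Vx G A → v ∈ Vx G B → False := fun v ha hb =>
    (Finset.disjoint_left.1 hT.disj) ha hb
  have hA : ∀ e ∈ A, w e = 1 := fun e he => (hT.one e).2 (Or.inl he)
  have hB : ∀ e ∈ B, w e = 1 := fun e he => (hT.one e).2 (Or.inr he)
  have cA := cardC hM hT (C := A) (fun e he => by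
    obtain ⟨a, ha, b, hb, hab⟩ := hT.join e he
    exact ⟨a, ha, b, fun q => hdis b q hb, hab⟩) hX2
  have cB := cardC hM hT (C := B) (fun e he => by
    obtain ⟨a, ha, b, hb, hab⟩ := hT.join e he
    exact ⟨b, hb, a, fun q => hdis a ha q, by rw [hab, Sym2.eq_swap]⟩) hX2
  obtain ⟨f, hf, f', hf', hff⟩ := one_lt_card.1 (by omega : 1 < (MX G w Xᶜ).card)
  rw [mem_MX] at hf hf'
  have hfo : ∀ v ∈ G.ends f, v ∉ X := fun v hv => mem_compl.1 (hf.2 v hv)
  have hfo' : ∀ v ∈ G.ends f', v ∉ X := fun v hv => mem_compl.1 (hf'.2 v hv)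
  obtain ⟨x, hx, y, hy, hends⟩ := hT.join f hf.1
  obtain ⟨F, hF⟩ := hM.minimal f hf.1
  obtain ⟨k, ch, hC⟩ := t_CH V E G w hM f x y hf.1 hends F hF
  have h : Ctx G w A B f x y := ⟨hM.val, hT, GIR.locs hM hT, hf.1, hends, hx, hy⟩
  obtain ⟨c, hgood, -⟩ := exists_col h hF hC
  have hxX : x ∉ X := hfo x (by rw [hends]; simp)
  have hyX : y ∉ X := hfo y (by rw [hends]; simp)
  have hc : ∀ v ∈ X, ∀ e e', e ≠ e' → w e = 1 → w e' = 1 → v ∈ G.ends e → v ∈ G.ends e' → c e ≠ c e' := by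
    intro v hv e e' hne he he' hve hve' heq
    rcases (hgood v e e' hne he he' hve hve').1 heq with r | r
    · exact hxX (r ▸ hv)
    · exact hyX (r ▸ hv)
  obtain ⟨eA, heA, hlA, hallA⟩ := same hT.cA
    (fun v hv e he e' he' hne hve hve' => hc v hv e e' hne (hA e he) (hA e' he') hve hve') hA2 (by rw [cA]; exact hev)
  obtain ⟨eB, heB, hlB, hallB⟩ := same hT.cB
    (fun v hv e he e' he' hne hve hve' => hc v hv e e' hne (hB e he) (hB e' he') hve hve') hB2 (by rw [cB]; exact hev)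
  have hAB : ∀ e ∈ B, e ∉ A := by
    intro e he he'
    obtain ⟨a, b, -, hab⟩ := exists_ends G e
    exact hdis a (mem_Vx.2 ⟨e, he', by rw [hab]; simp⟩) (mem_Vx.2 ⟨e, he, by rw [hab]; simp⟩)
  have hone : ∀ e, Leaves G X e → w e = 1 := fun e he => (hM.val e).resolve_right (fun q => hX2 e q he)
  refine core hM hT (X := X) (c := fun e => c e + if e ∈ A then c eA + c eB else 0) (col := c eB)
    ?_ ?_ hA2 hB2 hff hf.1 hf'.1 hfo hfo'
  · intro e he
    refine ⟨hone e he, ?_⟩
    rcases (hT.one e).1 (hone e he) with q | q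
    · show c e + (if e ∈ A then c eA + c eB else 0) = c eB
      rw [if_pos q, hallA e q he]
      have hz : ∀ p q : ZMod 2, p + (p + q) = q := by decide
      exact hz _ _
    · show c e + (if e ∈ A then c eA + c eB else 0) = c eB
      rw [if_neg (hAB e q), hallB e q he, add_zero]
  · intro v hv e e' hne hwe hwe' hve hve' heq
    have hAA : e ∈ A ↔ e' ∈ A := by
      constructor
      · intro q
        rcases (hT.one e').1 hwe' with r | r
        · exact r
        · exact (hdis v (mem_Vx.2 ⟨e, q, hve⟩) (mem_Vx.2 ⟨e', r, hve'⟩)).elim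
      · intro q
        rcases (hT.one e).1 hwe with r | r
        · exact r
        · exact (hdis v (mem_Vx.2 ⟨e', q, hve'⟩) (mem_Vx.2 ⟨e, r, hve⟩)).elim
    have heq' : c e + (if e ∈ A then c eA + c eB else 0) = c e' + (if e' ∈ A then c eA + c eB else 0) := heq
    rw [if_congr hAA rfl rfl, add_left_inj] at heq'
    exact hc v hv e e' hne hwe hwe' hve hve' heq'

end C5

end Pool.Agent.NH93.CC
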