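import Pool.Agent.NH93.CC.C5b

/-!
# Project CC (helper93): minimal contra pairs are cyclically 5-edge-connected, part three
-/

set_option autoImplicit false
set_option linter.all false

open Finset

namespace Pool.Agent.NH93.CC

open Pool.Agent.Helper347.Sab (MGraph dg IsCircuit IsCubic Touch exists_ends component)
open CUT (leaves_iff leaves_compl ends_card even_cut)

namespace C5

open TWC

variable {V E : Type} [Fintype V] [DecidableEq V] [Fintype E] [DecidableEq E]
variable {G : MGraph V E} {w : E → ℕ}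

open Classical in
theorem noC {A B : Finset E} (hM : MinContra G w) (hT : Two G w A B) {C : Finset E}
    (hj : ∀ e, w e = 2 → ∃ a ∈ Vx G C, ∃ b, b ∉ Vx G C ∧ G.ends e = s(a, b)) {Y : Finset V}
    (h5 : 5 ≤ Y.card) (hcut : (univ.filter (fun e => Leaves G Y e)).card ≤ 4)
    (hd : ∀ v ∈ Y, v ∉ Vx G C) : False := by
  choose m hm hvm hu using two_at hM hT
  have key : ∀ v ∈ Y, ∃ a ∈ Vx G C, G.ends (m v) = s(a, v) := by
    intro v hv
    obtain ⟨a, ha, b, hb, hab⟩ := hj (m v) (hm v)
    have h1 := hvm v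
    rw [hab, Sym2.mem_iff] at h1
    rcases h1 with r | r
    · exact absurd (r ▸ ha) (hd v hv)
    · exact ⟨a, ha, by rw [hab, r]⟩
  have h1 : Y.card ≤ (univ.filter (fun e => Leaves G Y e)).card := by
    apply card_le_card_of_injOn m
    · intro v hv
      rw [mem_coe] at hv
      obtain ⟨a, ha, hab⟩ := key v hv
      rw [mem_coe, mem_filter]
      exact ⟨mem_univ _, v, hv, a, fun q => hd a q ha, by rw [hab, Sym2.eq_swap]⟩
    · intro v hv v' hv' heq
      rw [mem_coe] at hv hv'
      obtain ⟨a, ha, hab⟩ := key v hv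
      have h2 := hvm v'
      have h3 : m v' = m v := heq.symm
      rw [h3, hab, Sym2.mem_iff] at h2
      rcases h2 with r | r
      · exact absurd (r ▸ ha) (hd v' hv')
      · exact r.symm
  omega

open Classical in
theorem noC' {A B : Finset E} (hM : MinContra G w) (hT : Two G w A B) {C : Finset E} (hC : IsCircuit G C)
    (hj : ∀ e, w e = 2 → ∃ a ∈ Vx G C, ∃ b, b ∉ Vx G C ∧ G.ends e = s(a, b)) {X : Finset V}
    (h5 : 5 ≤ X.card) (h5' : 5 ≤ Xᶜ.card) (hcut : (univ.filter (fun e => Leaves G X e)).card ≤ 4)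
    (h0 : ∀ e ∈ C, ¬ Leaves G X e) : False := by
  obtain ⟨e, he⟩ := hC.1
  obtain ⟨v, b, -, hvb⟩ := exists_ends G e
  have hv : v ∈ Vx G C := mem_Vx.2 ⟨e, he, by rw [hvb]; simp⟩
  by_cases hvX : v ∈ X
  · refine noC hM hT hj h5' ?_ (fun u hu huC => ?_)
    · have : (univ.filter (fun e => Leaves G Xᶜ e)) = univ.filter (fun e => Leaves G X e) := by
        ext e
        rw [mem_filter, mem_filter, leaves_compl]
      rw [this]
      exact hcut
    · exact (mem_compl.1 hu) (CH.side_circuit hC h0 hv huC hvX)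
  · refine noC hM hT hj h5 hcut (fun u hu huC => ?_)
    exact hvX (CH.side_circuit hC h0 huC hv hu)

open Classical in
/-- cyclic 5-edge-connectivity -/
theorem cyc5 (hM : MinContra G w) {X : Finset V} (hcut : (univ.filter (fun e => Leaves G X e)).card ≤ 4)
    {Q Q' : Finset E} (hQ : IsCircuit G Q) (hQX : Vx G Q ⊆ X) (hQ' : IsCircuit G Q') (hQX' : Vx G Q' ⊆ Xᶜ) :
    False := by
  obtain ⟨A, B, hT, hodd⟩ := t_STR V E G w hM
  have hdis : ∀ v, v ∈ Vx G A → v ∈ Vx G B → False := fun v ha hb =>
    (Finset.disjoint_left.1 hT.disj) ha hb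
  have hA : ∀ e ∈ A, w e = 1 := fun e he => (hT.one e).2 (Or.inl he)
  have hB : ∀ e ∈ B, w e = 1 := fun e he => (hT.one e).2 (Or.inr he)
  have hAB : ∀ e ∈ B, e ∉ A := by
    intro e he he'
    obtain ⟨a, b, -, hab⟩ := exists_ends G e
    exact hdis a (mem_Vx.2 ⟨e, he', by rw [hab]; simp⟩) (mem_Vx.2 ⟨e, he, by rw [hab]; simp⟩)
  have hjA : ∀ e, w e = 2 → ∃ a ∈ Vx G A, ∃ b, b ∉ Vx G A ∧ G.ends e = s(a, b) := fun e he => by
    obtain ⟨a, ha, b, hb, hab⟩ := hT.join e he
    exact ⟨a, ha, b, fun q => hdis b q hb, hab⟩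
  have hjB : ∀ e, w e = 2 → ∃ a ∈ Vx G B, ∃ b, b ∉ Vx G B ∧ G.ends e = s(a, b) := fun e he => by
    obtain ⟨a, ha, b, hb, hab⟩ := hT.join e he
    exact ⟨b, hb, a, fun q => hdis a ha q, by rw [hab, Sym2.eq_swap]⟩
  have h5 : 5 ≤ X.card := by
    have h1 := GIR.girth hM hQ
    rw [GIR.card_eq hQ] at h1
    exact le_trans h1 (card_le_card hQX)
  have h5' : 5 ≤ Xᶜ.card := by
    have h1 := GIR.girth hM hQ'
    rw [GIR.card_eq hQ'] at h1
    exact le_trans h1 (card_le_card hQX')
  have evA := even_cut G A hT.cA.2.1 X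
  have evB := even_cut G B hT.cB.2.1 X
  have hsum : (A.filter (fun e => Leaves G X e)).card + (B.filter (fun e => Leaves G X e)).card +
      (univ.filter (fun e => w e = 2 ∧ Leaves G X e)).card ≤ (univ.filter (fun e => Leaves G X e)).card := by
    rw [← card_union_of_disjoint, ← card_union_of_disjoint]
    · apply card_le_card
      intro e he
      rw [mem_union, mem_union, mem_filter, mem_filter, mem_filter] at he
      rw [mem_filter]
      refine ⟨mem_univ _, ?_⟩
      rcases he with (q | q) | q
      · exact q.2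
      · exact q.2
      · exact q.2.2
    · rw [disjoint_left]
      intro e he he'
      rw [mem_union, mem_filter, mem_filter] at he
      rw [mem_filter] at he'
      rcases he with q | q
      · have := hA e q.1
        omega
      · have := hB e q.1
        omega
    · rw [disjoint_left]
      intro e he he'
      rw [mem_filter] at he he'
      exact hAB e he'.1 he.1
  have hA0 : (A.filter (fun e => Leaves G X e)).card ≠ 0 := by
    intro h0
    rw [card_eq_zero, filter_eq_empty_iff] at h0
    exact noC' hM hT hT.cA hjA h5 h5' hcut (fun e he => h0 he)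
  have hB0 : (B.filter (fun e => Leaves G X e)).card ≠ 0 := by
    intro h0
    rw [card_eq_zero, filter_eq_empty_iff] at h0
    exact noC' hM hT hT.cB hjB h5 h5' hcut (fun e he => h0 he)
  obtain ⟨r, hr⟩ := evA
  obtain ⟨s, hs⟩ := evB
  have hA2 : (A.filter (fun e => Leaves G X e)).card = 2 := by omega
  have hB2 : (B.filter (fun e => Leaves G X e)).card = 2 := by omega
  have hM0 : (univ.filter (fun e => w e = 2 ∧ Leaves G X e)).card = 0 := by omega
  have hX2 : ∀ e, w e = 2 → ¬ Leaves G X e := by
    intro e he hl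
    rw [card_eq_zero, filter_eq_empty_iff] at hM0
    exact hM0 (mem_univ e) ⟨he, hl⟩
  have hX2' : ∀ e, w e = 2 → ¬ Leaves G Xᶜ e := fun e he hl => hX2 e he (leaves_compl.1 hl)
  have c1 := cardC hM hT hjA hX2
  have c2 := cardC hM hT hjB hX2
  have c3 := cardC hM hT hjA hX2'
  have c4 := cardC hM hT hjB hX2'
  have hall : ∀ Y : Finset V, Y.card = (Y.filter (fun v => v ∈ Vx G A)).card + (Y.filter (fun v => v ∈ Vx G B)).card := by
    intro Y
    rw [← card_union_of_disjoint]
    · congr 1
      ext v
      rw [mem_union, mem_filter, mem_filter]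
      constructor
      · intro hv
        rcases hT.all v with q | q
        · exact Or.inl ⟨hv, q⟩
        · exact Or.inr ⟨hv, q⟩
      · rintro (q | q)
        · exact q.1
        · exact q.1
    · rw [disjoint_left]
      intro v hv hv'
      rw [mem_filter] at hv hv'
      exact hdis v hv.2 hv'.2
  have d1 := hall X
  have d2 := hall Xᶜ
  have d3 : (X.filter (fun v => v ∈ Vx G A)).card + (Xᶜ.filter (fun v => v ∈ Vx G A)).card = (Vx G A).card := by
    rw [← card_union_of_disjoint]
    · congr 1
      ext v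
      rw [mem_union, mem_filter, mem_filter, mem_compl]
      tauto
    · rw [disjoint_left]
      intro v hv hv'
      rw [mem_filter] at hv hv'
      exact (mem_compl.1 hv'.1) hv.1
  have hleq : ∀ C : Finset E, (C.filter (fun e => Leaves G Xᶜ e)) = C.filter (fun e => Leaves G X e) := by
    intro C
    ext e
    rw [mem_filter, mem_filter, leaves_compl]
  rcases Nat.even_or_odd (MX G w X).card with q | q
  · exact even_side hM hT hX2 hA2 hB2 q (by omega)
  · refine even_side hM hT hX2' (by rw [hleq]; exact hA2) (by rw [hleq]; exact hB2) ?_ ?_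
    · rw [Nat.even_iff]
      rw [Nat.odd_iff] at q hodd
      omega
    · rw [compl_compl]
      omega

end C5

end Pool.Agent.NH93.CC
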