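import Pool.Agent.NH93.CC.Stm2

/-!
# Project CC, part 2: faithful covers are circuit chains
-/

set_option autoImplicit false
set_option linter.unusedSectionVars false

open Finset

namespace Pool.Agent.NH93.CC

open Pool.Agent.Helper347.Sab (MGraph dg IsCircuit IsCubic Touch)

namespace CH

variable {V E : Type} [Fintype V] [DecidableEq V] [Fintype E] [DecidableEq E]

theorem mem_Vx {G : MGraph V E} {C : Finset E} {v : V} : v ∈ Vx G C ↔ ∃ e ∈ C, v ∈ G.ends e := by
  unfold Vx
  rw [mem_filter]
  simp

/-- a chain of members of `F` from `x` to `y`, possibly with repetitions -/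
structure Pre (G : MGraph V E) (F : Multiset (Finset E)) (x y : V) (m : ℕ) (c : ℕ → Finset E) : Prop where
  pos : 1 ≤ m
  mem : ∀ i, i < m → c i ∈ F
  st : x ∈ Vx G (c 0)
  en : y ∈ Vx G (c (m - 1))
  con : ∀ i, i + 1 < m → (Vx G (c i) ∩ Vx G (c (i + 1))).Nonempty

theorem pre_one {G : MGraph V E} {F : Multiset (Finset E)} {x y : V} {C : Finset E} (hC : C ∈ F)
    (hx : x ∈ Vx G C) (hy : y ∈ Vx G C) : Pre G F x y 1 (fun _ => C) where
  pos := le_rfl
  mem := fun _ _ => hC
  st := hx
  en := hy
  con := fun i hi => by omega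

theorem pre_succ {G : MGraph V E} {F : Multiset (Finset E)} {x y z : V} {C : Finset E} {m : ℕ}
    {c : ℕ → Finset E} (h : Pre G F x y m c) (hC : C ∈ F) (hy : y ∈ Vx G C) (hz : z ∈ Vx G C) :
    Pre G F x z (m + 1) (fun i => if i < m then c i else C) where
  pos := by omega
  mem := fun i _ => by
    split_ifs with h1
    · exact h.mem i h1
    · exact hC
  st := by
    have h1 := h.pos
    rw [if_pos (by omega)]
    exact h.st
  en := by
    rw [if_neg (by omega)]
    exact hz
  con := fun i hi => by
    by_cases h1 : i + 1 < m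
    · rw [if_pos (by omega), if_pos h1]
      exact h.con i h1
    · rw [if_pos (by omega), if_neg h1]
      have h2 : i = m - 1 := by omega
      rw [h2]
      exact ⟨y, mem_inter.mpr ⟨h.en, hy⟩⟩

theorem sides {G : MGraph V E} {X : Finset V} {e : E} (h : ¬ Leaves G X e) {u v : V}
    (hu : u ∈ G.ends e) (hv : v ∈ G.ends e) (huX : u ∈ X) : v ∈ X := by
  by_contra hvX
  apply h
  have huv : u ≠ v := by
    rintro rfl
    exact hvX huX
  exact ⟨u, huX, v, hvX, ((Sym2.mem_and_mem_iff huv).mp ⟨hu, hv⟩)⟩

/-- a circuit none of whose edges leaves `X` is on one side -/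
theorem side_circuit {G : MGraph V E} {X : Finset V} {D : Finset E} (hD : IsCircuit G D)
    (h : ∀ e ∈ D, ¬ Leaves G X e) {u v : V} (hu : u ∈ Vx G D) (hv : v ∈ Vx G D) (huX : u ∈ X) : v ∈ X := by
  obtain ⟨e, he, hue⟩ := mem_Vx.mp hu
  obtain ⟨f, hf, hvf⟩ := mem_Vx.mp hv
  have key : ∀ f, Relation.ReflTransGen (fun a b => b ∈ D ∧ Touch G a b) e f → f ∈ D ∧ ∀ t ∈ G.ends f, t ∈ X := by
    intro f hf
    induction hf with
    | refl => exact ⟨he, fun t ht => sides (h e he) hue ht huX⟩
    | tail _ h2 ih =>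
      obtain ⟨hc, s, hs1, hs2⟩ := h2
      exact ⟨hc, fun t ht => sides (h _ hc) hs2 ht (ih.2 s hs1)⟩
  exact (key f (hD.2.2 e he f hf)).2 v hvf

theorem exists_pre {G : MGraph V E} {w : E → ℕ} (hM : MinContra G w) {e₀ : E} {x y : V}
    (hxy : G.ends e₀ = s(x, y)) (hne : x ≠ y) {F : Multiset (Finset E)} (hF : Cover G (del w e₀) F) :
    ∃ m c, Pre G F x y m c := by
  classical
  by_contra hno
  push Not at hno
  set Y : Finset V := univ.filter (fun v => v = x ∨ ∃ m c, Pre G F x v m c) with hY
  have hxY : x ∈ Y := by rw [hY, mem_filter]; exact ⟨mem_univ _, Or.inl rfl⟩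
  have hyY : y ∉ Y := by
    rw [hY, mem_filter]
    rintro ⟨-, h | ⟨m, c, h⟩⟩
    · exact hne h.symm
    · exact hno m c h
  apply hM.bridgeless Y
  have : univ.filter (fun e => Leaves G Y e) = {e₀} := by
    ext e
    rw [mem_filter, mem_singleton]
    constructor
    · rintro ⟨-, a, ha, b, hb, hab⟩
      by_contra hee
      -- the edge is in a member
      have h1 : 0 < F.countP (e ∈ ·) := by
        rw [hF.2 e, del, if_neg hee]
        rcases hM.val e with h | h <;> omega
      obtain ⟨C, hC, heC⟩ := Multiset.countP_pos.mp h1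
      have haC : a ∈ Vx G C := mem_Vx.mpr ⟨e, heC, by rw [hab]; exact Sym2.mem_mk_left _ _⟩
      have hbC : b ∈ Vx G C := mem_Vx.mpr ⟨e, heC, by rw [hab]; exact Sym2.mem_mk_right _ _⟩
      apply hb
      rw [hY, mem_filter] at ha ⊢
      refine ⟨mem_univ _, Or.inr ?_⟩
      rcases ha.2 with h | ⟨m, c, h⟩
      · subst h
        exact ⟨1, _, pre_one hC haC hbC⟩
      · exact ⟨m + 1, _, pre_succ h hC haC hbC⟩
    · rintro rfl
      exact ⟨mem_univ _, x, hxY, y, hyY, hxy⟩
  rw [this, card_singleton]

end CH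

open CH in
theorem t_CH0 (h : S_CUT) : S_CH := by
  classical
  intro V E _ _ _ _ G w hM e₀ x y hw hxy F hF
  have hne : x ≠ y := by
    intro hh
    apply G.loopless e₀
    rw [hxy, hh]
    exact Sym2.mk_isDiag_iff.mpr rfl
  have hex : ∃ m, ∃ c, Pre G F x y m c := exists_pre hM hxy hne hF
  set m := Nat.find hex with hm
  obtain ⟨c, hc⟩ : ∃ c, Pre G F x y m c := Nat.find_spec hex
  have hmin : ∀ m' c', m' < m → ¬ Pre G F x y m' c' := by
    intro m' c' hlt hp
    exact Nat.find_min hex hlt ⟨c', hp⟩
  have hm1 := hc.pos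
  have hcirc : ∀ i, i < m → IsCircuit G (c i) := fun i hi => hF.1 _ (hc.mem i hi)
  have hVne : ∀ i, i < m → (Vx G (c i)).Nonempty := by
    intro i hi
    obtain ⟨e, he⟩ := (hcirc i hi).1
    obtain ⟨a, b, hab⟩ : ∃ a b, G.ends e = s(a, b) := by
      induction G.ends e using Sym2.inductionOn with
      | hf x y => exact ⟨x, y, rfl⟩
    exact ⟨a, mem_Vx.mpr ⟨e, he, by rw [hab]; exact Sym2.mem_mk_left _ _⟩⟩
  -- minimality
  have left : ∀ i, i < m → x ∈ Vx G (c i) → i = 0 := by
    intro i hi hx
    by_contra hi0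
    refine hmin (m - i) (fun j => c (j + i)) (by omega) ⟨by omega, fun j hj => hc.mem _ (by omega), ?_, ?_, ?_⟩
    · rw [Nat.zero_add]; exact hx
    · have : m - i - 1 + i = m - 1 := by omega
      rw [this]; exact hc.en
    · intro j hj
      have : j + 1 + i = j + i + 1 := by omega
      rw [this]; exact hc.con _ (by omega)
  have right : ∀ i, i < m → y ∈ Vx G (c i) → i + 1 = m := by
    intro i hi hy
    by_contra hi0
    refine hmin (i + 1) c (by omega) ⟨by omega, fun j hj => hc.mem _ (by omega), hc.st, ?_, fun j hj => hc.con _ (by omega)⟩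
    rw [Nat.add_sub_cancel]; exact hy
  have meet : ∀ i j, i < j → j < m → (Vx G (c i) ∩ Vx G (c j)).Nonempty → j = i + 1 := by
    intro i j hij hj hne2
    by_contra hji
    obtain ⟨δ, hδ⟩ : ∃ δ, j = i + 1 + δ := ⟨j - (i + 1), by omega⟩
    have hδ0 : 0 < δ := by omega
    refine hmin (m - δ) (fun l => if l ≤ i then c l else c (l + δ)) (by omega)
      ⟨by omega, fun l hl => ?_, ?_, ?_, ?_⟩
    · split_ifs with h1
      · exact hc.mem _ (by omega)
      · exact hc.mem _ (by omega)
    · rw [if_pos (Nat.zero_le i)]; exact hc.st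
    · rw [if_neg (by omega)]
      have : m - δ - 1 + δ = m - 1 := by omega
      rw [this]; exact hc.en
    · intro l hl
      by_cases h1 : l + 1 ≤ i
      · rw [if_pos (by omega), if_pos h1]; exact hc.con _ (by omega)
      · by_cases h2 : l ≤ i
        · have h3 : l = i := by omega
          rw [if_pos h2, if_neg h1, h3, ← hδ]
          exact hne2
        · rw [if_neg h2, if_neg h1]
          have : l + 1 + δ = l + δ + 1 := by omega
          rw [this]; exact hc.con _ (by omega)
  have diff : ∀ i j, i < j → j < m → c i ≠ c j := by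
    intro i j hij hj heq
    have h1 : j = i + 1 := by
      apply meet i j hij hj
      rw [heq, inter_self]
      exact hVne j hj
    subst h1
    refine hmin (m - 1) (fun l => if l ≤ i then c l else c (l + 1)) (by omega)
      ⟨by omega, fun l hl => ?_, ?_, ?_, ?_⟩
    · split_ifs with h1
      · exact hc.mem _ (by omega)
      · exact hc.mem _ (by omega)
    · rw [if_pos (Nat.zero_le i)]; exact hc.st
    · by_cases h2 : m - 1 - 1 ≤ i
      · rw [if_pos h2]
        have h3 : m - 1 - 1 = i := by omega
        have h4 : m - 1 = i + 1 := by omega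
        rw [h3, heq, ← h4]; exact hc.en
      · rw [if_neg h2]
        have : m - 1 - 1 + 1 = m - 1 := by omega
        rw [this]; exact hc.en
    · intro l hl
      by_cases h1 : l + 1 ≤ i
      · rw [if_pos (by omega), if_pos h1]; exact hc.con _ (by omega)
      · by_cases h2 : l ≤ i
        · have h3 : l = i := by omega
          rw [if_pos h2, if_neg h1, h3, heq]
          exact hc.con _ (by omega)
        · rw [if_neg h2, if_neg h1]; exact hc.con _ (by omega)
  -- all members occur
  set M : Multiset (Finset E) := (Multiset.range m).map c with hMd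
  have hnd : M.Nodup := by
    refine Multiset.Nodup.map_on ?_ (Multiset.nodup_range m)
    intro a ha b hb hab
    rw [Multiset.mem_range] at ha hb
    by_contra hne2
    rcases lt_or_gt_of_ne hne2 with h1 | h1
    · exact diff a b h1 hb hab
    · exact diff b a h1 ha hab.symm
  have hle : M ≤ F := by
    rw [Multiset.le_iff_subset hnd]
    intro C hC
    rw [hMd, Multiset.mem_map] at hC
    obtain ⟨i, hi, rfl⟩ := hC
    exact hc.mem i (Multiset.mem_range.mp hi)
  have hFM : F = M := by
    by_contra hFM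
    obtain ⟨R, hR⟩ := Multiset.le_iff_exists_add.mp hle
    have hR0 : R ≠ 0 := by
      rintro rfl
      exact hFM (by rw [hR, add_zero])
    obtain ⟨C, hC⟩ := Multiset.exists_mem_of_ne_zero hR0
    have hCF : C ∈ F := by rw [hR]; exact Multiset.mem_add.mpr (Or.inr hC)
    have hmem : ∀ i, i < m → c i ∈ F.erase C := by
      intro i hi
      have h1 : M ≤ F.erase C := by
        rw [hR, Multiset.erase_add_right_pos _ hC]
        exact Multiset.le_add_right _ _
      refine Multiset.mem_of_le h1 ?_
      rw [hMd]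
      exact Multiset.mem_map_of_mem c (Multiset.mem_range.mpr hi)
    obtain ⟨X, hX0, hX⟩ := h V E G w hM e₀ hw F hF C hCF
    -- everything is on one side
    have hside : ∀ i, i < m → ∀ u ∈ Vx G (c i), (x ∈ X ↔ u ∈ X) := by
      intro i
      induction i with
      | zero =>
        intro hi u hu
        exact ⟨side_circuit (hcirc 0 hi) (fun e he => (hX _ (hmem 0 hi) e he).1) hc.st hu,
          side_circuit (hcirc 0 hi) (fun e he => (hX _ (hmem 0 hi) e he).1) hu hc.st⟩
      | succ i ih =>
        intro hi u hu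
        obtain ⟨t, ht⟩ := hc.con i hi
        rw [mem_inter] at ht
        rw [ih (by omega) t ht.1]
        exact ⟨side_circuit (hcirc _ hi) (fun e he => (hX _ (hmem _ hi) e he).1) ht.2 hu,
          side_circuit (hcirc _ hi) (fun e he => (hX _ (hmem _ hi) e he).1) hu ht.2⟩
    have hfin := hside (m - 1) (by omega) y hc.en
    obtain ⟨a, ha, b, hb, hab⟩ := hX0
    rw [hxy, Sym2.eq_iff] at hab
    rcases hab with ⟨h1, h2⟩ | ⟨h1, h2⟩
    · subst h1; subst h2
      exact hb (hfin.mp ha)
    · subst h1; subst h2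
      exact hb (hfin.mpr ha)
  refine ⟨m, c, hm1, hFM, ?_, ?_, ?_⟩
  · intro i hi
    refine ⟨left i hi, ?_⟩
    rintro rfl
    exact hc.st
  · intro i hi
    refine ⟨right i hi, fun h1 => ?_⟩
    have h2 : i = m - 1 := by omega
    rw [h2]
    exact hc.en
  · intro i j hij hj
    refine ⟨meet i j hij hj, fun h1 => ?_⟩
    subst h1
    exact hc.con i hj

end Pool.Agent.NH93.CC
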