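import Pool.Agent.NH93.CC.Stm2

/-!
# CC-CNT: the number of the nowhere-zero flows, two circuits joined by a perfect matching
-/

set_option autoImplicit false
set_option linter.unusedSectionVars false

open Finset

namespace Pool.Agent.NH93.CC.CNT

open Pool.Agent.NH93.CC
open Pool.Agent.Helper347.Sab (MGraph dg IsCircuit IsCubic Touch)

/-! ### counting -/

/-- the functions without zeros -/
def T (n : ℕ) : Finset (Fin n → ZMod 2 × ZMod 2) := univ.filter (fun φ => ∀ i, φ i ≠ 0)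

/-- those with sum zero -/
def An (n : ℕ) : Finset (Fin n → ZMod 2 × ZMod 2) := (T n).filter (fun φ => ∑ i, φ i = 0)

/-- those with nonzero sum -/
def Nn (n : ℕ) : Finset (Fin n → ZMod 2 × ZMod 2) := (T n).filter (fun φ => ¬ ∑ i, φ i = 0)

lemma card_T (n : ℕ) : (T n).card = 3 ^ n := by
  have h : T n = Fintype.piFinset (fun _ : Fin n => (univ : Finset (ZMod 2 × ZMod 2)).erase 0) := by
    ext φ
    simp [T, Fintype.mem_piFinset]
  have h2 : ((univ : Finset (ZMod 2 × ZMod 2)).erase 0).card = 3 := by decide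
  rw [h, Fintype.card_piFinset]
  simp only [h2, Finset.prod_const, Finset.card_univ, Fintype.card_fin]

lemma card_AN (n : ℕ) : (An n).card + (Nn n).card = 3 ^ n := by
  rw [← card_T]
  exact Finset.card_filter_add_card_filter_not _

lemma card_succ (n : ℕ) : (An (n + 1)).card = (Nn n).card := by
  refine Finset.card_nbij' (fun φ => Fin.tail φ) (fun φ => Fin.cons (-∑ i, φ i) φ) ?_ ?_ ?_ ?_
  · intro φ hφ
    simp only [An, Nn, T, Finset.coe_filter, Finset.mem_filter, Finset.mem_univ, true_and,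
      Set.mem_ofPred_eq] at hφ ⊢
    obtain ⟨h1, h2⟩ := hφ
    rw [Fin.sum_univ_succ] at h2
    refine ⟨fun i => h1 i.succ, fun h3 => ?_⟩
    have h4 : ∑ i : Fin n, φ i.succ = 0 := h3
    rw [h4, add_zero] at h2
    exact h1 0 h2
  · intro φ hφ
    simp only [An, Nn, T, Finset.coe_filter, Finset.mem_filter, Finset.mem_univ, true_and,
      Set.mem_ofPred_eq] at hφ ⊢
    obtain ⟨h1, h2⟩ := hφ
    refine ⟨fun i => ?_, ?_⟩
    · refine Fin.cases ?_ (fun j => ?_) i
      · rw [Fin.cons_zero]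
        exact neg_ne_zero.2 h2
      · rw [Fin.cons_succ]
        exact h1 j
    · rw [Fin.sum_univ_succ]
      simp only [Fin.cons_zero, Fin.cons_succ]
      exact neg_add_cancel _
  · intro φ hφ
    simp only [An, T, Finset.coe_filter, Finset.mem_filter, Finset.mem_univ, true_and,
      Set.mem_ofPred_eq] at hφ
    obtain ⟨h1, h2⟩ := hφ
    rw [Fin.sum_univ_succ] at h2
    have h3 : φ 0 = -∑ i, (Fin.tail φ) i := eq_neg_of_add_eq_zero_left h2
    show Fin.cons (-∑ i, (Fin.tail φ) i) (Fin.tail φ) = φ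
    rw [← h3]
    exact Fin.cons_self_tail φ
  · intro φ _
    exact Fin.tail_cons _ _

lemma card_An (n : ℕ) : 4 * ((An n).card : ℤ) = 3 ^ n + 3 * (-1) ^ n := by
  induction n with
  | zero =>
    have h : (An 0).card = 1 := by decide
    rw [h]
    norm_num
  | succ n ih =>
    have h1 := card_AN n
    have h2 := card_succ n
    have h3 : ((An n).card : ℤ) + ((Nn n).card : ℤ) = 3 ^ n := by exact_mod_cast h1
    rw [h2, pow_succ, pow_succ]
    linarith

lemma arith (n : ℕ) (ho : Odd n) (h4 : 4 ∣ (An n).card) : n % 4 = 1 := by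
  obtain ⟨b, hb⟩ := h4
  have h1 := card_An n
  rw [hb, ho.neg_one_pow] at h1
  push_cast at h1
  by_contra hn
  obtain ⟨m, hm⟩ : ∃ m, n = 4 * m + 3 := by
    obtain ⟨k, hk⟩ := ho
    exact ⟨n / 4, by omega⟩
  rw [hm, pow_add, pow_mul] at h1
  have h2 : ((3 : ℤ) ^ 4) ^ m ≡ 1 ^ m [ZMOD 16] := Int.ModEq.pow m (by decide)
  rw [one_pow] at h2
  have h3 : (3 ^ 4 : ℤ) ^ m % 16 = 1 := h2
  omega

/-- transport -/
lemma card_M (M : Type) [Fintype M] [DecidableEq M] (n : ℕ) (hn : Fintype.card M = n)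
    (s : Finset (M → ZMod 2 × ZMod 2)) (hs : ∀ φ, φ ∈ s ↔ (∀ e, φ e ≠ 0) ∧ ∑ e, φ e = 0) :
    s.card = (An n).card := by
  let e := Fintype.equivFinOfCardEq hn
  refine Finset.card_equiv (Equiv.arrowCongr e (Equiv.refl _)) ?_
  intro φ
  rw [hs]
  simp only [An, T, Finset.mem_filter, Finset.mem_univ, true_and]
  refine and_congr ⟨fun h i => h _, fun h i => ?_⟩ ?_
  · have := h (e i)
    simpa using this
  · have h1 : ∑ i, (Equiv.arrowCongr e (Equiv.refl (ZMod 2 × ZMod 2))) φ i = ∑ i, φ i := by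
      rw [← Equiv.sum_comp e]
      simp
    rw [h1]

/-! ### graphs -/

section graph

variable {V E : Type} [Fintype V] [DecidableEq V] [Fintype E] [DecidableEq E]

lemma mem_Vx (G : MGraph V E) (C : Finset E) (v : V) : v ∈ Vx G C ↔ ∃ e ∈ C, v ∈ G.ends e := by
  simp [Vx]

lemma dg_two (G : MGraph V E) (C : Finset E) (hC : IsCircuit G C) (v : V) (hv : v ∈ Vx G C) :
    dg G C v = 2 := by
  obtain ⟨e, he, hve⟩ := (mem_Vx G C v).1 hv
  rcases hC.2.1 v with h | h
  · unfold dg at h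
    rw [Finset.card_eq_zero, Finset.filter_eq_empty_iff] at h
    exact absurd hve (h he)
  · exact h

lemma dg_zero (G : MGraph V E) (C : Finset E) (v : V) (hv : v ∉ Vx G C) : dg G C v = 0 := by
  unfold dg
  rw [Finset.card_eq_zero, Finset.filter_eq_empty_iff]
  intro e he hve
  exact hv ((mem_Vx G C v).2 ⟨e, he, hve⟩)

lemma mem_E1 (w : E → ℕ) (e : E) : e ∈ E1 w ↔ w e = 1 := by
  simp [E1]

lemma Two_swap (G : MGraph V E) (w : E → ℕ) (A B : Finset E) (h : Two G w A B) : Two G w B A where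
  cA := h.cB
  cB := h.cA
  disj := h.disj.symm
  one := fun e => (h.one e).trans or_comm
  all := fun v => (h.all v).symm
  join := fun e he => by
    obtain ⟨a, ha, b, hb, hab⟩ := h.join e he
    exact ⟨b, hb, a, ha, by rw [hab, Sym2.eq_swap]⟩

lemma E1_eq (G : MGraph V E) (w : E → ℕ) (A B : Finset E) (h : Two G w A B) : E1 w = A ∪ B := by
  ext e
  rw [mem_E1, h.one, Finset.mem_union]

lemma disj_AB (G : MGraph V E) (w : E → ℕ) (A B : Finset E) (h : Two G w A B) : Disjoint A B := by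
  rw [Finset.disjoint_left]
  intro e heA heB
  have h1 : ∀ z : Sym2 V, ∃ v, v ∈ z := by
    intro z
    induction z using Sym2.ind with
    | _ a b => exact ⟨a, Sym2.mem_mk_left _ _⟩
  obtain ⟨v, hv⟩ := h1 (G.ends e)
  exact Finset.disjoint_left.1 h.disj ((mem_Vx G A v).2 ⟨e, heA, hv⟩) ((mem_Vx G B v).2 ⟨e, heB, hv⟩)

lemma dg_compl (G : MGraph V E) (w : E → ℕ) (A B : Finset E) (hc : IsCubic G) (h : Two G w A B)
    (v : V) (hv : v ∈ Vx G A) : dg G (E1 w)ᶜ v = 1 := by
  have h1 : dg G univ v = dg G (E1 w) v + dg G (E1 w)ᶜ v := by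
    unfold dg
    rw [← Finset.card_union_of_disjoint, ← Finset.filter_union, Finset.union_compl]
    exact Finset.disjoint_filter_filter disjoint_compl_right
  have h2 : dg G (E1 w) v = dg G A v + dg G B v := by
    rw [E1_eq G w A B h]
    unfold dg
    rw [← Finset.card_union_of_disjoint, ← Finset.filter_union]
    exact Finset.disjoint_filter_filter (disj_AB G w A B h)
  have h3 := hc v
  have h4 := dg_two G A h.cA v hv
  have h5 := dg_zero G B v (Finset.disjoint_left.1 h.disj hv)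
  omega

lemma card_Vx (G : MGraph V E) (w : E → ℕ) (A B : Finset E) (hc : IsCubic G)
    (hw : ∀ e, w e = 1 ∨ w e = 2) (h : Two G w A B) : (Vx G A).card = (E1 w)ᶜ.card := by
  classical
  have h1 := Finset.sum_card_bipartiteAbove_eq_sum_card_bipartiteBelow
    (s := Vx G A) (t := (E1 w)ᶜ) (fun v e => v ∈ G.ends e)
  have h2 : ∀ v ∈ Vx G A, (((E1 w)ᶜ).bipartiteAbove (fun v e => v ∈ G.ends e) v).card = 1 := by
    intro v hv
    have := dg_compl G w A B hc h v hv
    unfold dg at this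
    rw [← this]
    congr 1
  have h3 : ∀ e ∈ (E1 w)ᶜ, ((Vx G A).bipartiteBelow (fun v e => v ∈ G.ends e) e).card = 1 := by
    intro e he
    rw [Finset.mem_compl, mem_E1] at he
    obtain ⟨a, ha, b, hb, hab⟩ := h.join e ((hw e).resolve_left he)
    rw [Finset.card_eq_one]
    refine ⟨a, ?_⟩
    ext v
    rw [Finset.mem_bipartiteBelow, Finset.mem_singleton, hab, Sym2.mem_iff]
    constructor
    · rintro ⟨hv, h | h⟩
      · exact h
      · subst h
        exact absurd hb (Finset.disjoint_left.1 ‹Two G w A B›.disj hv)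
    · rintro rfl
      exact ⟨ha, Or.inl rfl⟩
  rw [Finset.sum_congr rfl h2, Finset.sum_congr rfl h3] at h1
  simpa using h1

lemma ends_in (G : MGraph V E) (X : Finset V) (e : E) (h : ¬ Leaves G X e) (v : V)
    (hv : v ∈ G.ends e) (hvX : v ∈ X) : ∀ u ∈ G.ends e, u ∈ X := by
  intro u hu
  by_contra hc
  have hne : v ≠ u := by
    rintro rfl
    exact hc hvX
  exact h ⟨v, hvX, u, hc, (Sym2.mem_and_mem_iff hne).1 ⟨hv, hu⟩⟩

/-- a connected subgraph is inside `X` or outside `X` -/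
lemma conn (G : MGraph V E) (C : Finset E) (hC : IsCircuit G C) (X : Finset V)
    (h : ∀ e ∈ C, ¬ Leaves G X e) : (∀ v ∈ Vx G C, v ∈ X) ∨ ∀ v ∈ Vx G C, v ∉ X := by
  by_cases hx : ∃ v ∈ Vx G C, v ∈ X
  · left
    obtain ⟨v, hv, hvX⟩ := hx
    obtain ⟨e, he, hve⟩ := (mem_Vx G C v).1 hv
    have h1 : ∀ f, Relation.ReflTransGen (fun a b => b ∈ C ∧ Touch G a b) e f →
        ∀ u ∈ G.ends f, u ∈ X := by
      intro f hf
      induction hf with
      | refl => exact ends_in G X e (h e he) v hve hvX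
      | tail _ hbc ih =>
        obtain ⟨hc, u, hu1, hu2⟩ := hbc
        exact ends_in G X _ (h _ hc) u hu2 (ih u hu1)
    intro u hu
    obtain ⟨f, hf, huf⟩ := (mem_Vx G C u).1 hu
    exact h1 f (hC.2.2 e he f hf) u huf
  · right
    push Not at hx
    exact hx

lemma not_leaves (G : MGraph V E) (C : Finset E) (X : Finset V)
    (h : (∀ v ∈ Vx G C, v ∈ X) ∨ ∀ v ∈ Vx G C, v ∉ X) (e : E) (he : e ∈ C) : ¬ Leaves G X e := by
  rintro ⟨a, ha, b, hb, hab⟩
  have h1 : a ∈ Vx G C := (mem_Vx G C a).2 ⟨e, he, by rw [hab]; exact Sym2.mem_mk_left _ _⟩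
  have h2 : b ∈ Vx G C := (mem_Vx G C b).2 ⟨e, he, by rw [hab]; exact Sym2.mem_mk_right _ _⟩
  rcases h with h | h
  · exact hb (h b h2)
  · exact h a h1 ha

lemma leaves_iff (G : MGraph V E) (X : Finset V) (e : E) (a b : V) (hab : G.ends e = s(a, b)) :
    Leaves G X e ↔ (a ∈ X ∧ b ∉ X) ∨ (b ∈ X ∧ a ∉ X) := by
  constructor
  · rintro ⟨c, hc, d, hd, hcd⟩
    rw [hab, Sym2.eq_iff] at hcd
    rcases hcd with ⟨rfl, rfl⟩ | ⟨rfl, rfl⟩
    · exact Or.inl ⟨hc, hd⟩
    · exact Or.inr ⟨hc, hd⟩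
  · rintro (⟨h1, h2⟩ | ⟨h1, h2⟩)
    · exact ⟨a, h1, b, h2, hab⟩
    · exact ⟨b, h1, a, h2, by rw [hab, Sym2.eq_swap]⟩

lemma cutFlow_iff (G : MGraph V E) (w : E → ℕ) (A B : Finset E)
    (hw : ∀ e, w e = 1 ∨ w e = 2) (h : Two G w A B)
    (φ : {e : E // e ∉ E1 w} → ZMod 2 × ZMod 2) : CutFlow G (E1 w) φ ↔ ∑ e, φ e = 0 := by
  classical
  have hS : ∀ e, e ∈ E1 w ↔ e ∈ A ∨ e ∈ B := fun e => (mem_E1 w e).trans (h.one e)
  have hM : ∀ e : {e : E // e ∉ E1 w}, ∃ a ∈ Vx G A, ∃ b ∈ Vx G B, G.ends e.1 = s(a, b) := by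
    intro e
    have he := e.2
    rw [mem_E1] at he
    exact h.join e.1 ((hw e.1).resolve_left he)
  have hd : ∀ v, v ∈ Vx G A → v ∉ Vx G B := fun v hv => Finset.disjoint_left.1 h.disj hv
  constructor
  · intro hφ
    have h1 := hφ (Vx G A) (fun e he => by
      rcases (hS e).1 he with he | he
      · exact not_leaves G A _ (Or.inl fun v hv => hv) e he
      · exact not_leaves G B _ (Or.inr fun v hv hvA => hd v hvA hv) e he)
    rw [← h1]
    refine Finset.sum_congr rfl fun e _ => ?_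
    obtain ⟨a, ha, b, hb, hab⟩ := hM e
    rw [if_pos]
    exact ⟨a, ha, b, fun hbA => hd b hbA hb, hab⟩
  · intro hφ X hX
    have hA := conn G A h.cA X (fun e he => hX e ((hS e).2 (Or.inl he)))
    have hB := conn G B h.cB X (fun e he => hX e ((hS e).2 (Or.inr he)))
    rcases hA with hA | hA <;> rcases hB with hB | hB
    · refine Finset.sum_eq_zero fun e _ => if_neg ?_
      obtain ⟨a, ha, b, hb, hab⟩ := hM e
      rw [leaves_iff G X e.1 a b hab]
      have h1 := hA a ha
      have h2 := hB b hb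
      tauto
    · rw [← hφ]
      refine Finset.sum_congr rfl fun e _ => if_pos ?_
      obtain ⟨a, ha, b, hb, hab⟩ := hM e
      rw [leaves_iff G X e.1 a b hab]
      exact Or.inl ⟨hA a ha, hB b hb⟩
    · rw [← hφ]
      refine Finset.sum_congr rfl fun e _ => if_pos ?_
      obtain ⟨a, ha, b, hb, hab⟩ := hM e
      rw [leaves_iff G X e.1 a b hab]
      exact Or.inr ⟨hB b hb, hA a ha⟩
    · refine Finset.sum_eq_zero fun e _ => if_neg ?_
      obtain ⟨a, ha, b, hb, hab⟩ := hM e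
      rw [leaves_iff G X e.1 a b hab]
      have h1 := hA a ha
      have h2 := hB b hb
      tauto

end graph

end Pool.Agent.NH93.CC.CNT

namespace Pool.Agent.NH93.CC

open Pool.Agent.Helper347.Sab (MGraph dg IsCircuit IsCubic)

/-- CC-CNT -/
theorem t_CNT : S_CNT := by
  classical
  intro V E _ _ _ _ G w A B hc hw h ho h4
  have hA := CNT.card_Vx G w A B hc hw h
  have hB := CNT.card_Vx G w B A hc hw (CNT.Two_swap G w A B h)
  have hcard : Fintype.card {e : E // e ∉ E1 w} = (Vx G A).card := by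
    rw [hA, Fintype.card_subtype]
    congr 1
    ext e
    simp
  have hnz : nzG G (E1 w) = (CNT.An (Vx G A).card).card := by
    unfold nzG
    refine CNT.card_M {e : E // e ∉ E1 w} _ hcard _ fun φ => ?_
    rw [Finset.mem_filter, CNT.cutFlow_iff G w A B hw h]
    simp
  rw [hnz] at h4
  refine ⟨CNT.arith _ ho h4, by rw [hA, hB], ?_⟩
  have hV : Fintype.card V = (Vx G A).card + (Vx G B).card := by
    rw [← Finset.card_union_of_disjoint h.disj, ← Finset.card_univ]
    congr 1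
    ext v
    simpa using h.all v
  rw [hV, hB, hA]
  ring

end Pool.Agent.NH93.CC
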