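import Pool.Agent.NH93.CC.Stm
import Pool.Agent.Helper347.SabGraph

/-!
# Project CC (helper93), MP_472c72_co: from colourings to circuits (helper86)
-/

set_option autoImplicit false
set_option linter.unusedSectionVars false

open Finset

namespace Pool.Agent.NH93.CC

namespace COV

open Pool.Agent.Helper347.Sab (MGraph dg IsCircuit IsCubic)

variable {V E : Type} [Fintype V] [DecidableEq V] [Fintype E] [DecidableEq E]

/-- the edges at `v` -/
def nb (G : MGraph V E) (v : V) : Finset E := univ.filter fun e => v ∈ G.ends e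

lemma mem_nb {G : MGraph V E} {v : V} {e : E} : e ∈ nb G v ↔ v ∈ G.ends e := by
  unfold nb
  rw [mem_filter]
  exact ⟨fun h => h.2, fun h => ⟨mem_univ _, h⟩⟩

lemma dg_eq (G : MGraph V E) (D : Finset E) (v : V) :
    dg G D v = ∑ e ∈ nb G v, if e ∈ D then 1 else 0 := by
  rw [← card_filter]
  unfold dg
  congr 1
  ext e
  rw [mem_filter, mem_filter, mem_nb]
  tauto

lemma card_nb {G : MGraph V E} (hG : IsCubic G) (v : V) : (nb G v).card = 3 := hG v

lemma two_of_three {q : ℕ} (e1 e2 e3 : E) (h12 : e1 ≠ e2) (h13 : e1 ≠ e3) (h23 : e2 ≠ e3)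
    (G : MGraph V E) (v : V) (hN : nb G v = {e1, e2, e3}) (D : Finset E) (x c1 c2 c3 : ZMod q)
    (h : (e1 ∈ D ↔ c1 = x ∨ c3 = x)) (h' : (e2 ∈ D ↔ c2 = x ∨ c1 = x))
    (h'' : (e3 ∈ D ↔ c3 = x ∨ c2 = x)) (d1 : c1 ≠ c2) (d2 : c2 ≠ c3) (d3 : c3 ≠ c1) :
    dg G D v = 0 ∨ dg G D v = 2 := by
  rw [dg_eq, hN, sum_insert (by simp [h12, h13]), sum_pair h23]
  by_cases k1 : c1 = x
  · have k2 : c2 ≠ x := fun k => d1 (k1.trans k.symm)
    have k3 : c3 ≠ x := fun k => d3 (k.trans k1.symm)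
    rw [if_pos (h.2 (Or.inl k1)), if_pos (h'.2 (Or.inr k1)), if_neg (fun k => (h''.1 k).elim k3 k2)]
    right; rfl
  · by_cases k2 : c2 = x
    · have k3 : c3 ≠ x := fun k => d2 (k2.trans k.symm)
      rw [if_neg (fun k => (h.1 k).elim k1 k3), if_pos (h'.2 (Or.inl k2)), if_pos (h''.2 (Or.inr k2))]
      right; rfl
    · by_cases k3 : c3 = x
      · rw [if_pos (h.2 (Or.inr k3)), if_neg (fun k => (h'.1 k).elim k2 k1),
          if_pos (h''.2 (Or.inl k3))]
        right; rfl
      · rw [if_neg (fun k => (h.1 k).elim k1 k3), if_neg (fun k => (h'.1 k).elim k2 k1),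
          if_neg (fun k => (h''.1 k).elim k3 k2)]
        left; rfl

lemma two_of_three' {q : ℕ} (e1 e2 e3 : E) (h12 : e1 ≠ e2) (h13 : e1 ≠ e3) (h23 : e2 ≠ e3)
    (G : MGraph V E) (v : V) (hN : nb G v = {e1, e2, e3}) (D : Finset E) (x c1 c2 : ZMod q)
    (h : (e1 ∈ D ↔ c1 = x ∨ c2 = x)) (h' : (e2 ∈ D ↔ c1 = x))
    (h'' : (e3 ∈ D ↔ c2 = x)) (d1 : c1 ≠ c2) :
    dg G D v = 0 ∨ dg G D v = 2 := by
  rw [dg_eq, hN, sum_insert (by simp [h12, h13]), sum_pair h23]
  by_cases k1 : c1 = x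
  · have k2 : c2 ≠ x := fun k => d1 (k1.trans k.symm)
    rw [if_pos (h.2 (Or.inl k1)), if_pos (h'.2 k1), if_neg (fun k => k2 (h''.1 k))]
    right; rfl
  · by_cases k2 : c2 = x
    · rw [if_pos (h.2 (Or.inr k2)), if_neg (fun k => k1 (h'.1 k)), if_pos (h''.2 k2)]
      right; rfl
    · rw [if_neg (fun k => (h.1 k).elim k1 k2), if_neg (fun k => k1 (h'.1 k)),
          if_neg (fun k => k2 (h''.1 k))]
      left; rfl

section

variable {G : MGraph V E} {S : Finset E} {en : Dart S → V} {t : V → E} {ρ : Equiv.Perm (Dart S)}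

lemma dart_mem (hR : Rot G S en t ρ) (a : Dart S) : en a ∈ G.ends a.1.1 := by
  obtain ⟨e, i⟩ := a
  rw [hR.ends e]
  cases i
  · exact Sym2.mem_mk_right _ _
  · exact Sym2.mem_mk_left _ _

lemma exists_dart (hR : Rot G S en t ρ) {e : E} (he : e ∉ S) {v : V} (hv : v ∈ G.ends e) :
    ∃ a : Dart S, a.1.1 = e ∧ en a = v := by
  have h := hR.ends ⟨e, he⟩
  simp only at h
  rw [h, Sym2.mem_iff] at hv
  rcases hv with hv | hv
  · exact ⟨(⟨e, he⟩, true), rfl, hv.symm⟩
  · exact ⟨(⟨e, he⟩, false), rfl, hv.symm⟩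

lemma dart_inj (hR : Rot G S en t ρ) {a b : Dart S} (h : en a = en b) (h' : a.1.1 = b.1.1) : a = b := by
  obtain ⟨e, i⟩ := a
  obtain ⟨e', j⟩ := b
  have he : e = e' := Subtype.ext h'
  subst he
  by_contra hne
  have hij : i ≠ j := fun k => hne (by rw [k])
  apply G.loopless e.1
  rw [hR.ends e]
  have : en (e, true) = en (e, false) := by
    cases i <;> cases j <;> first | exact absurd rfl hij | exact h | exact h.symm
  rw [this]
  exact Sym2.mk_isDiag_iff.2 rfl

lemma vertex_two (hG : IsCubic G) (hR : Rot G S en t ρ) (hT : TwoReg G S) (v : V) (hv : dg G S v = 2) :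
    ∃ a : Dart S, en a = v ∧ dg G S (en (ρ.symm a)) = 2 ∧ a.1.1 ≠ t (en a) ∧
      a.1.1 ≠ t (en (ρ.symm a)) ∧ t (en a) ≠ t (en (ρ.symm a)) ∧
      nb G v = {a.1.1, t (en a), t (en (ρ.symm a))} := by
  obtain ⟨e, he, heS⟩ : ∃ e ∈ nb G v, e ∉ S.filter fun e => v ∈ G.ends e := by
    by_contra hcon
    push Not at hcon
    have h1 := card_le_card (fun e he => hcon e he : nb G v ⊆ S.filter fun e => v ∈ G.ends e)
    rw [card_nb hG] at h1
    unfold dg at hv
    omega
  rw [mem_nb] at he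
  have heS' : e ∉ S := fun h => heS (mem_filter.2 ⟨h, he⟩)
  obtain ⟨a, ha, hav⟩ := exists_dart hR heS' he
  have ha2 : dg G S (en a) = 2 := by rw [hav]; exact hv
  have hb2 : dg G S (en (ρ.symm a)) = 2 := by
    rcases hT (en (ρ.symm a)) with h | h
    · have h1 := (hR.off _ h).1
      rw [Equiv.apply_symm_apply] at h1
      rw [← h1] at h
      omega
    · exact h
  have hon := hR.on a ha2
  have hon' := hR.on _ hb2
  rw [Equiv.apply_symm_apply] at hon'
  have n1 : a.1.1 ≠ t (en a) := fun h => a.1.2 (h ▸ hon.1)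
  have n2 : a.1.1 ≠ t (en (ρ.symm a)) := fun h => a.1.2 (h ▸ hon'.1)
  have n3 : t (en a) ≠ t (en (ρ.symm a)) := by
    intro h
    have h1 := hR.inj _ _ ha2 hb2 h
    have h2 : ρ a = a := by
      conv_lhs => rw [h1]
      exact Equiv.apply_symm_apply _ _
    have h3 := hon.2.1
    rw [h2] at h3
    apply G.loopless (t (en a))
    rw [h3]
    exact Sym2.mk_isDiag_iff.2 rfl
  refine ⟨a, hav, hb2, n1, n2, n3, ?_⟩
  symm
  refine eq_of_subset_of_card_le ?_ ?_
  · intro x hx
    rw [mem_insert, mem_insert, mem_singleton] at hx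
    rw [mem_nb]
    rcases hx with rfl | rfl | rfl
    · rw [ha]; exact he
    · rw [hon.2.1, hav]; exact Sym2.mem_mk_left _ _
    · rw [hon'.2.1, hav]; exact Sym2.mem_mk_right _ _
  · rw [card_nb hG, card_insert_of_notMem (by simp [n1, n2]), card_pair n3]

lemma vertex_zero (hG : IsCubic G) (hR : Rot G S en t ρ) (v : V) (hv : dg G S v = 0) :
    ∃ a : Dart S, ρ (ρ (ρ a)) = a ∧ a.1.1 ≠ (ρ a).1.1 ∧ a.1.1 ≠ (ρ (ρ a)).1.1 ∧
      (ρ a).1.1 ≠ (ρ (ρ a)).1.1 ∧ nb G v = {a.1.1, (ρ a).1.1, (ρ (ρ a)).1.1} := by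
  classical
  obtain ⟨P, hP⟩ : ∃ P : Finset (Dart S), ∀ a, a ∈ P ↔ en a = v :=
    ⟨univ.filter fun a => en a = v, fun a => by rw [mem_filter]; exact ⟨fun h => h.2, fun h => ⟨mem_univ _, h⟩⟩⟩
  have hPN : P.image (fun a => a.1.1) = nb G v := by
    ext e
    rw [mem_image, mem_nb]
    constructor
    · rintro ⟨a, ha, rfl⟩
      rw [← (hP a).1 ha]
      exact dart_mem hR a
    · intro he
      have heS : e ∉ S := by
        intro h
        unfold dg at hv
        rw [card_eq_zero] at hv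
        have : e ∈ S.filter fun e => v ∈ G.ends e := mem_filter.2 ⟨h, he⟩
        rw [hv] at this
        exact absurd this (notMem_empty _)
      obtain ⟨a, ha, hav⟩ := exists_dart hR heS he
      exact ⟨a, (hP a).2 hav, ha⟩
  have hinj : Set.InjOn (fun a : Dart S => a.1.1) P := by
    intro a ha b hb h
    exact dart_inj hR (((hP a).1 ha).trans ((hP b).1 hb).symm) h
  have hcard : P.card = 3 := by
    rw [← card_image_of_injOn hinj, hPN, card_nb hG]
  have hρ : ∀ a ∈ P, ρ a ∈ P ∧ ρ a ≠ a := by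
    intro a ha
    have hav := (hP a).1 ha
    have h := hR.off a (by rw [hav]; exact hv)
    exact ⟨(hP _).2 (h.1.trans hav), h.2⟩
  obtain ⟨a, ha⟩ : P.Nonempty := by
    rw [← card_pos, hcard]; omega
  obtain ⟨hb, hba⟩ := hρ a ha
  obtain ⟨hc, hcb⟩ := hρ _ hb
  have hca : ρ (ρ a) ≠ a := by
    intro hca
    obtain ⟨d, hd, hd'⟩ : ∃ d ∈ P, d ∉ ({a, ρ a} : Finset (Dart S)) := by
      by_contra hcon
      push Not at hcon
      have h1 := card_le_card (fun e he => hcon e he : P ⊆ {a, ρ a})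
      have h2 := card_le_two (a := a) (b := ρ a)
      omega
    rw [mem_insert, mem_singleton, not_or] at hd'
    obtain ⟨he, hed⟩ := hρ d hd
    have h1 : ρ d ≠ a := fun h => hd'.2 (ρ.injective (h.trans hca.symm))
    have h2 : ρ d ≠ ρ a := fun h => hd'.1 (ρ.injective h)
    have h3 : ({ρ d, d, a, ρ a} : Finset (Dart S)) ⊆ P := by
      intro x hx
      simp only [mem_insert, mem_singleton] at hx
      rcases hx with rfl | rfl | rfl | rfl <;> assumption
    have h4 := card_le_card h3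
    rw [card_insert_of_notMem (by simp [hed, h1, h2]), card_insert_of_notMem (by simp [hd'.1, hd'.2]),
      card_pair hba.symm] at h4
    omega
  have hPabc : P = {a, ρ a, ρ (ρ a)} := by
    symm
    refine eq_of_subset_of_card_le ?_ ?_
    · intro x hx
      simp only [mem_insert, mem_singleton] at hx
      rcases hx with rfl | rfl | rfl <;> assumption
    · rw [hcard, card_insert_of_notMem (by simp [hba.symm, hca.symm]), card_pair hcb.symm]
  obtain ⟨hd, hdc⟩ := hρ _ hc
  have h3 : ρ (ρ (ρ a)) = a := by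
    rw [hPabc] at hd
    simp only [mem_insert, mem_singleton] at hd
    rcases hd with h | h | h
    · exact h
    · exact absurd (ρ.injective h) hca
    · exact absurd h hdc
  refine ⟨a, h3, ?_, ?_, ?_, ?_⟩
  · exact fun h => hba (hinj ha hb h).symm
  · exact fun h => hca (hinj ha hc h).symm
  · exact fun h => hcb (hinj hb hc h).symm
  · rw [← hPN, hPabc, image_insert, image_insert, image_singleton]

end

end COV

open COV Pool.Agent.Helper347.Sab in
theorem t_COV : S_COV := by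
  classical
  intro V E _ _ _ _ G S hG hT en t ρ hR q f hq hf hc
  have : NeZero q := ⟨hq⟩
  obtain ⟨D, hD⟩ : ∃ D : ZMod q → Finset E, ∀ x e, e ∈ D x ↔
      (∃ a : Dart S, a.1.1 = e ∧ (f a = x ∨ f (ρ.symm a) = x)) ∨
      (∃ a : Dart S, dg G S (en a) = 2 ∧ t (en a) = e ∧ f a = x) :=
    ⟨fun x => univ.filter fun e => (∃ a : Dart S, a.1.1 = e ∧ (f a = x ∨ f (ρ.symm a) = x)) ∨
      (∃ a : Dart S, dg G S (en a) = 2 ∧ t (en a) = e ∧ f a = x), fun x e => by
        rw [mem_filter]; exact ⟨fun h => h.2, fun h => ⟨mem_univ _, h⟩⟩⟩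
  have hDd : ∀ x (b : Dart S), b.1.1 ∈ D x ↔ f b = x ∨ f (ρ.symm b) = x := by
    intro x b
    rw [hD]
    constructor
    · rintro (⟨a, ha, h⟩ | ⟨a, ha2, ha, -⟩)
      · obtain ⟨e, i⟩ := a
        obtain ⟨e', j⟩ := b
        have he : e = e' := Subtype.ext ha
        subst he
        have hce := hc e
        cases i <;> cases j
        · exact h
        · rcases hce with ⟨h1, h2⟩ | ⟨h1, h2⟩
          · rw [h1, h2]; exact h
          · rw [h1, h2]; exact h.symm
        · rcases hce with ⟨h1, h2⟩ | ⟨h1, h2⟩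
          · rw [h1, h2] at h; exact h
          · rw [h1, h2] at h; exact h.symm
        · exact h
      · exact absurd (ha ▸ (hR.on a ha2).1) b.1.2
    · intro h
      exact Or.inl ⟨b, rfl, h⟩
  have hDt : ∀ x (a : Dart S), dg G S (en a) = 2 → (t (en a) ∈ D x ↔ f a = x) := by
    intro x a ha
    rw [hD]
    constructor
    · rintro (⟨b, hb, -⟩ | ⟨b, hb2, hb, h⟩)
      · exact absurd (hb ▸ (hR.on a ha).1) b.1.2
      · rw [← hR.inj b a hb2 ha hb]; exact h
    · intro h
      exact Or.inr ⟨a, ha, rfl, h⟩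
  have hdeg : ∀ x v, dg G (D x) v = 0 ∨ dg G (D x) v = 2 := by
    intro x v
    rcases hT v with hv | hv
    · obtain ⟨a, h3, n1, n2, n3, hN⟩ := vertex_zero hG hR v hv
      have e1 : ρ.symm a = ρ (ρ a) := by
        rw [Equiv.symm_apply_eq]; exact h3.symm
      refine two_of_three (q := q) _ _ _ n1 n2 n3 G v hN (D x) x (f a) (f (ρ a)) (f (ρ (ρ a))) ?_ ?_ ?_ ?_ ?_ ?_
      · rw [hDd, e1]
      · rw [hDd, Equiv.symm_apply_apply]
      · rw [hDd, Equiv.symm_apply_apply]
      · have := hf (ρ a)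
        rwa [Equiv.symm_apply_apply] at this
      · have := hf (ρ (ρ a))
        rwa [Equiv.symm_apply_apply] at this
      · have := hf a
        rwa [e1] at this
    · obtain ⟨a, hav, hb2, n1, n2, n3, hN⟩ := vertex_two hG hR hT v hv
      have ha2 : dg G S (en a) = 2 := by rw [hav]; exact hv
      refine two_of_three' (q := q) _ _ _ n1 n2 n3 G v hN (D x) x (f a) (f (ρ.symm a)) ?_ ?_ ?_ (hf a).symm
      · exact hDd x a
      · exact hDt x a ha2
      · exact hDt x _ hb2
  have hdec : ∀ x, ∃ M : Multiset (Finset E), (∀ X ∈ M, IsCircuit G X) ∧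
      ∀ e, M.countP (e ∈ ·) = if e ∈ D x then 1 else 0 := fun x =>
    decompose G _ (D x) le_rfl (hdeg x)
  choose M hM1 hM2 using hdec
  refine ⟨∑ x, M x, ?_, ?_⟩
  · intro X hX
    rw [Multiset.mem_sum] at hX
    obtain ⟨x, -, hx⟩ := hX
    exact hM1 x X hx
  · intro e
    have h1 : (∑ x, M x).countP (e ∈ ·) = ∑ x, if e ∈ D x then 1 else 0 := by
      rw [countP_sum]
      exact sum_congr rfl fun x _ => hM2 x e
    rw [h1]
    show _ = if e ∈ S then 1 else 2
    by_cases heS : e ∈ S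
    · rw [if_pos heS]
      obtain ⟨v, w, -, hvw⟩ := exists_ends G e
      have hv : v ∈ G.ends e := by rw [hvw]; exact Sym2.mem_mk_left _ _
      have hv2 : dg G S v = 2 := by
        rcases hT v with h | h
        · unfold dg at h
          rw [card_eq_zero] at h
          have : e ∈ S.filter fun e => v ∈ G.ends e := mem_filter.2 ⟨heS, hv⟩
          rw [h] at this
          exact absurd this (notMem_empty _)
        · exact h
      obtain ⟨a, hav, hb2, n1, n2, n3, hN⟩ := vertex_two hG hR hT v hv2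
      have ha2 : dg G S (en a) = 2 := by rw [hav]; exact hv2
      have he : e ∈ nb G v := mem_nb.2 hv
      rw [hN, mem_insert, mem_insert, mem_singleton] at he
      have key : ∃ b : Dart S, dg G S (en b) = 2 ∧ e = t (en b) := by
        rcases he with h | h | h
        · exact absurd (h ▸ heS) a.1.2
        · exact ⟨a, ha2, h⟩
        · exact ⟨_, hb2, h⟩
      obtain ⟨b, hb, rfl⟩ := key
      rw [sum_congr rfl fun x _ => if_congr (hDt x b hb) rfl rfl]
      simp
    · rw [if_neg heS]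
      have h2 : ∀ x, (e ∈ D x) ↔ x ∈ ({f (⟨e, heS⟩, true), f (ρ.symm (⟨e, heS⟩, true))} : Finset (ZMod q)) := by
        intro x
        rw [mem_insert, mem_singleton]
        have := hDd x (⟨e, heS⟩, true)
        simp only at this
        rw [this, eq_comm, @eq_comm _ (f (ρ.symm _))]
      rw [sum_congr rfl fun x _ => if_congr (h2 x) rfl rfl, ← card_filter, filter_mem_eq_inter, univ_inter,
        card_pair (hf _).symm]

end Pool.Agent.NH93.CC
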