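import Pool.Agent.NH93.CC.Stm2

/-!
# Project CC (helper93), CC-CUT (helper27): circuits that are not removable
-/

set_option autoImplicit false

open Finset

namespace Pool.Agent.NH93.CC

open Pool.Agent.Helper347.Sab (MGraph dg IsCircuit IsCubic)

namespace CUT

variable {V E : Type} [Fintype V] [DecidableEq V] [Fintype E] [DecidableEq E]

theorem exists_ends (G : MGraph V E) (e : E) : ∃ a b, a ≠ b ∧ G.ends e = s(a, b) := by
  obtain ⟨a, b, h⟩ : ∃ a b, G.ends e = s(a, b) := by
    induction G.ends e using Sym2.ind with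
    | _ a b => exact ⟨a, b, rfl⟩
  refine ⟨a, b, fun hab => ?_, h⟩
  apply G.loopless e
  rw [h, hab]
  exact Sym2.mk_isDiag_iff.2 rfl

theorem leaves_iff {G : MGraph V E} {X : Finset V} {e : E} {a b : V} (h : G.ends e = s(a, b)) :
    Leaves G X e ↔ (a ∈ X ∧ b ∉ X) ∨ (b ∈ X ∧ a ∉ X) := by
  constructor
  · rintro ⟨c, hc, d, hd, h'⟩
    rw [h] at h'
    rcases Sym2.eq_iff.1 h' with ⟨rfl, rfl⟩ | ⟨rfl, rfl⟩
    · exact Or.inl ⟨hc, hd⟩
    · exact Or.inr ⟨hc, hd⟩
  · rintro (⟨h1, h2⟩ | ⟨h1, h2⟩)
    · exact ⟨a, h1, b, h2, h⟩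
    · exact ⟨b, h1, a, h2, by rw [h, Sym2.eq_swap]⟩

theorem leaves_compl {G : MGraph V E} {X : Finset V} {e : E} : Leaves G Xᶜ e ↔ Leaves G X e := by
  obtain ⟨a, b, -, h⟩ := exists_ends G e
  rw [leaves_iff h, leaves_iff h]
  simp only [mem_compl, not_not]
  tauto

open Classical in
theorem ends_card (G : MGraph V E) (X : Finset V) (e : E) :
    ((X.filter fun v => v ∈ G.ends e).card : ZMod 2) = if Leaves G X e then 1 else 0 := by
  obtain ⟨a, b, hab, h⟩ := exists_ends G e
  have h1 : (X.filter fun v => v ∈ G.ends e).card = (if a ∈ X then 1 else 0) + if b ∈ X then 1 else 0 := by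
    have h2 : (X.filter fun v => v ∈ G.ends e) = (X.filter fun v => v = a) ∪ X.filter fun v => v = b := by
      ext v
      simp only [mem_filter, mem_union, h, Sym2.mem_iff]
      tauto
    rw [h2, card_union_of_disjoint, filter_eq', filter_eq']
    · by_cases ha : a ∈ X <;> by_cases hb : b ∈ X <;> simp [ha, hb]
    · rw [disjoint_left]
      intro v hv hv'
      exact hab ((mem_filter.1 hv).2.symm.trans (mem_filter.1 hv').2)
  have h3 : (2 : ZMod 2) = 0 := by decide
  have h4 : (1 : ZMod 2) + 1 = 0 := by decide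
  rw [h1]
  by_cases ha : a ∈ X <;> by_cases hb : b ∈ X <;> simp [ha, hb, leaves_iff h, h3, h4]

open Classical in
/-- an edge set with all degrees `0` or `2` has an even number of edges leaving `X` -/
theorem even_cut (G : MGraph V E) (D : Finset E) (hD : ∀ v, dg G D v = 0 ∨ dg G D v = 2)
    (X : Finset V) : Even (D.filter fun e => Leaves G X e).card := by
  rw [← ZMod.natCast_eq_zero_iff_even]
  have h1 : ((D.filter fun e => Leaves G X e).card : ZMod 2) =
      ∑ e ∈ D, ((X.filter fun v => v ∈ G.ends e).card : ZMod 2) := by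
    rw [card_filter]
    push_cast
    exact sum_congr rfl fun e _ => (ends_card G X e).symm
  have h2 : ∑ e ∈ D, (X.filter fun v => v ∈ G.ends e).card = ∑ v ∈ X, dg G D v := by
    unfold dg
    simp only [card_filter]
    exact sum_comm
  have h3 : ∑ v ∈ X, (dg G D v : ZMod 2) = 0 := by
    refine sum_eq_zero fun v _ => ?_
    rcases hD v with h | h
    · rw [h, Nat.cast_zero]
    · rw [h]
      decide
  rw [h1, ← Nat.cast_sum, h2, Nat.cast_sum, h3]

end CUT

open CUT

/-- CC-CUT -/
theorem t_CUT : S_CUT := by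
  classical
  intro V E _ _ _ _ G w hM e₀ h0 F hF C hC
  have hnot : ∀ D ∈ F, e₀ ∉ D := by
    intro D hD he
    have h1 := hF.2 e₀
    unfold del at h1
    rw [if_pos rfl] at h1
    have h2 : 0 < F.countP (e₀ ∈ ·) := Multiset.countP_pos.2 ⟨D, hD, he⟩
    omega
  have hcount : ∀ e, e ≠ e₀ → minus w C e = (F.erase C).countP (e ∈ ·) := by
    intro e he
    have h1 := hF.2 e
    unfold del at h1
    rw [if_neg he] at h1
    have h2 : F.countP (e ∈ ·) = (F.erase C).countP (e ∈ ·) + if e ∈ C then 1 else 0 := by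
      conv_lhs => rw [← Multiset.cons_erase hC]
      rw [Multiset.countP_cons]
    unfold minus
    rw [← h1, h2]
    by_cases h : e ∈ C
    · simp [h]
    · simp [h]
  have hw : ∀ e, minus w C e + (if e ∈ C then 1 else 0) = w e := by
    intro e
    have := hM.val e
    unfold minus
    by_cases h : e ∈ C
    · simp only [h, if_true]
      omega
    · simp [h]
  have heul : Eulerian G (minus w C) := by
    intro X
    have h1 := hM.eul X
    have h2 := even_cut G C (hF.1 C hC).2.1 X
    have h3 : ∑ e ∈ univ.filter (fun e => Leaves G X e), minus w C e +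
        (C.filter fun e => Leaves G X e).card = ∑ e ∈ univ.filter (fun e => Leaves G X e), w e := by
      have h4 : (C.filter fun e => Leaves G X e).card =
          ∑ e ∈ univ.filter (fun e => Leaves G X e), (if e ∈ C then 1 else 0) := by
        rw [sum_boole, filter_filter, Nat.cast_id]
        congr 1
        ext e
        simp only [mem_filter, mem_univ, true_and]
        tauto
      rw [h4, ← sum_add_distrib]
      exact sum_congr rfl fun e _ => hw e
    rw [← h3] at h1
    exact (Nat.even_add.1 h1).2 h2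
  have hbr : ¬ Bridgeless G (supp (minus w C)) := fun h =>
    hM.critical C ⟨hF.1 C hC, heul, h⟩
  unfold Bridgeless at hbr
  push Not at hbr
  obtain ⟨X, hX⟩ := hbr
  obtain ⟨g, hg⟩ := card_eq_one.1 hX
  have hg1 : ∀ e, 0 < minus w C e → Leaves G X e → e = g := by
    intro e h1 h2
    have h3 : e ∈ (supp (minus w C)).filter (fun e => Leaves G X e) := by
      rw [mem_filter]
      exact ⟨mem_filter.2 ⟨mem_univ _, h1⟩, h2⟩
    rw [hg] at h3
    exact mem_singleton.1 h3
  have hg2 : 0 < minus w C g ∧ Leaves G X g := by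
    have h3 : g ∈ (supp (minus w C)).filter (fun e => Leaves G X e) := by
      rw [hg]
      exact mem_singleton_self g
    rw [mem_filter] at h3
    exact ⟨(mem_filter.1 h3.1).2, h3.2⟩
  have hno : ∀ D ∈ F.erase C, ∀ e ∈ D, ¬ Leaves G X e := by
    intro D hD e he hl
    have hDF : D ∈ F := Multiset.mem_of_mem_erase hD
    have hsub : ∀ f ∈ D, Leaves G X f → f = g := by
      intro f hf hlf
      have hf0 : f ≠ e₀ := fun h => hnot D hDF (h ▸ hf)
      refine hg1 f ?_ hlf
      rw [hcount f hf0]
      exact Multiset.countP_pos.2 ⟨D, hD, hf⟩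
    have h1 := even_cut G D (hF.1 D hDF).2.1 X
    have h2 : (D.filter fun e => Leaves G X e) = {g} := by
      ext f
      rw [mem_filter, mem_singleton]
      constructor
      · rintro ⟨h3, h4⟩
        exact hsub f h3 h4
      · rintro rfl
        have h3 := hsub e he hl
        subst h3
        exact ⟨he, hl⟩
    rw [h2, card_singleton] at h1
    exact absurd h1 (by decide)
  have hge : g = e₀ := by
    by_contra h
    have h1 := hg2.1
    rw [hcount g h] at h1
    obtain ⟨D, hD, hgD⟩ := Multiset.countP_pos.1 h1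
    exact hno D hD g hgD hg2.2
  refine ⟨X, hge ▸ hg2.2, fun D hD e he => ⟨hno D hD e he, ?_⟩⟩
  rw [leaves_compl]
  exact hno D hD e he

end Pool.Agent.NH93.CC
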