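import Pool.Agent.Helper347.SabDefs
import Pool.Agent.Helper310.Contra2.Defs

/-!
# Project CC (helper93), MP_472c72_co: faithful circuit covers and nowhere-zero 4-flows, statements

If the number of the nowhere-zero flows of `G / E_{w=1}` with values in `ZMod 2 × ZMod 2` is not divisible by `4`,
then the eulerian (1,2)-weighted cubic graph `(G, w)` has a faithful circuit cover.
-/

set_option autoImplicit false

open Finset

namespace Pool.Agent.NH93.CC

open Contra2 (ncyc)
open Pool.Agent.Helper347.Sab (MGraph dg IsCircuit IsCubic)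

/-! ## Rotation systems: `V` is the set of the edges, `V × Bool` the set of their ends (darts) -/

section rot

variable {V : Type} [DecidableEq V]

/-- Crossing over at the members of `U`. -/
def crossFun (U : Finset V) (a : V × Bool) : V × Bool := if a.1 ∈ U then (a.1, !a.2) else a

lemma crossFun_crossFun (U : Finset V) (a : V × Bool) : crossFun U (crossFun U a) = a := by
  obtain ⟨v, i⟩ := a
  unfold crossFun
  by_cases h : v ∈ U <;> simp [h]

/-- Crossing over at the members of `U`, as a permutation. -/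
def cross (U : Finset V) : Equiv.Perm (V × Bool) :=
  ⟨crossFun U, crossFun U, crossFun_crossFun U, crossFun_crossFun U⟩

lemma cross_mem {U : Finset V} {i : Bool} {v : V} (h : v ∈ U) : cross U (v, i) = (v, !i) := by
  show crossFun U (v, i) = _
  simp [crossFun, h]

lemma cross_not_mem {U : Finset V} {i : Bool} {v : V} (h : v ∉ U) : cross U (v, i) = (v, i) := by
  show crossFun U (v, i) = _
  simp [crossFun, h]

lemma cross_empty : cross (∅ : Finset V) = 1 := by
  ext1 ⟨v, i⟩
  rw [cross_not_mem (by simp)]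
  rfl

lemma cross_insert {U : Finset V} {u : V} (hu : u ∉ U) :
    cross (insert u U) = Equiv.swap (u, true) (u, false) * cross U := by
  ext1 ⟨v, i⟩
  rw [Equiv.Perm.mul_apply]
  by_cases hv : v = u
  · subst hv
    rw [cross_mem (mem_insert_self _ _), cross_not_mem hu]
    cases i
    · rw [Equiv.swap_apply_right]; rfl
    · rw [Equiv.swap_apply_left]; rfl
  · have h1 : ∀ j w, w ≠ u → Equiv.swap (u, true) (u, false) (w, j) = (w, j) := by
      intro j w hw
      apply Equiv.swap_apply_of_ne_of_ne <;> simp [hw]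
    by_cases hU : v ∈ U
    · rw [cross_mem (mem_insert_of_mem hU), cross_mem hU, h1 _ _ hv]
    · rw [cross_not_mem (by simp [hU, hv]), cross_not_mem hU, h1 _ _ hv]

variable (ρ : Equiv.Perm (V × Bool))

/-- The closed curves after crossing over at `U` are the cycles of this permutation. -/
def theta (U : Finset V) : Equiv.Perm (V × Bool) := cross U * ρ

lemma theta_empty : theta ρ ∅ = ρ := by
  unfold theta
  rw [cross_empty, one_mul]

lemma theta_insert {U : Finset V} {u : V} (hu : u ∉ U) :
    theta ρ (insert u U) = Equiv.swap (u, true) (u, false) * theta ρ U := by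
  unfold theta
  rw [cross_insert hu, mul_assoc]

/-- The alternating cycle sum. -/
noncomputable def altSum [Fintype V] : ℤ := ∑ U : Finset V, 2 ^ U.card * (-2) ^ ncyc (theta ρ U)

/-- `φ` is a flow (the vertices are the cycles of `ρ`), with values in a group of exponent two -/
def IsFlow {A : Type} [AddCommMonoid A] (φ : V → A) : Prop :=
  ∀ X : Finset (V × Bool), (∀ a ∈ X, ρ a ∈ X) → ∑ a ∈ X, φ a.1 = 0

end rot

/-- CC-COL: the colouring lemma -/
def S_COL : Prop := ∀ (V : Type) [Fintype V] [DecidableEq V] (ρ : Equiv.Perm (V × Bool)), altSum ρ ≠ 0 →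
  ∃ (q : ℕ) (f : V × Bool → ZMod q), q ≠ 0 ∧ (∀ a, f (ρ.symm a) ≠ f a) ∧
    ∀ v, (f (v, true) = f (v, false) ∧ f (ρ.symm (v, true)) = f (ρ.symm (v, false))) ∨
      (f (v, true) = f (ρ.symm (v, false)) ∧ f (ρ.symm (v, true)) = f (v, false))

/-- CC-RK: the number of the closed curves -/
def S_RK : Prop := ∀ (V : Type) [Fintype V] [DecidableEq V] (ρ : Equiv.Perm (V × Bool)) (U : Finset V),
  ∃ r : ℕ, ncyc (theta ρ U) + U.card = ncyc ρ + 2 * r ∧
    (r = 0 ↔ ∀ φ : V → ZMod 2, (∀ v, v ∉ U → φ v = 0) → IsFlow ρ φ → φ = 0)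

open Classical in
/-- the number of the nowhere-zero flows with values in `ZMod 2 × ZMod 2` -/
noncomputable def nz {V : Type} [Fintype V] [DecidableEq V] (ρ : Equiv.Perm (V × Bool)) : ℕ :=
  (univ.filter (fun φ : V → ZMod 2 × ZMod 2 => (∀ v, φ v ≠ 0) ∧ IsFlow ρ φ)).card

/-- CC-FLW: the number of the nowhere-zero 4-flows modulo 4 -/
def S_FLW : Prop := ∀ (V : Type) [Fintype V] [DecidableEq V] (ρ : Equiv.Perm (V × Bool)),
  ¬ 4 ∣ nz ρ → altSum ρ ≠ 0

/-! ## Graphs -/

section graph

variable {V E : Type} [Fintype V] [DecidableEq V] [Fintype E] [DecidableEq E]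

/-- `S` is the set of the edges of weight one: every vertex lies on zero or two of them -/
def TwoReg (G : MGraph V E) (S : Finset E) : Prop := ∀ v, dg G S v = 0 ∨ dg G S v = 2

/-- the darts: ends of the edges off `S` -/
abbrev Dart (S : Finset E) : Type := {e : E // e ∉ S} × Bool

/-- a rotation system for `G / S`: `en` is the vertex of a dart, `t v` the edge of `S` leaving `v` -/
structure Rot (G : MGraph V E) (S : Finset E) (en : Dart S → V) (t : V → E) (ρ : Equiv.Perm (Dart S)) : Prop where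
  ends : ∀ e : {e : E // e ∉ S}, G.ends e.1 = s(en (e, true), en (e, false))
  off : ∀ a, dg G S (en a) = 0 → en (ρ a) = en a ∧ ρ a ≠ a
  on : ∀ a, dg G S (en a) = 2 → t (en a) ∈ S ∧ G.ends (t (en a)) = s(en a, en (ρ a)) ∧ dg G S (en (ρ a)) = 2
  inj : ∀ a b, dg G S (en a) = 2 → dg G S (en b) = 2 → t (en a) = t (en b) → a = b

/-- `(G, w)` has a faithful circuit cover -/
def Faithful (G : MGraph V E) (w : E → ℕ) : Prop :=
  ∃ F : Multiset (Finset E), (∀ X ∈ F, IsCircuit G X) ∧ ∀ e, F.countP (e ∈ ·) = w e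

/-- the edge `e` joins a vertex in `X` to a vertex off `X` -/
def Leaves (G : MGraph V E) (X : Finset V) (e : E) : Prop := ∃ a ∈ X, ∃ b, b ∉ X ∧ G.ends e = s(a, b)

open Classical in
/-- `φ` is a flow of `G / S` with values in `ZMod 2 × ZMod 2`: for every set `X` of vertices of `G / S` the sum
over the edges leaving `X` is zero -/
def CutFlow (G : MGraph V E) (S : Finset E) (φ : {e : E // e ∉ S} → ZMod 2 × ZMod 2) : Prop :=
  ∀ X : Finset V, (∀ e ∈ S, ¬ Leaves G X e) → ∑ e : {e : E // e ∉ S}, (if Leaves G X e.1 then φ e else 0) = 0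

open Classical in
/-- the number of the nowhere-zero flows of `G / S` with values in `ZMod 2 × ZMod 2` -/
noncomputable def nzG (G : MGraph V E) (S : Finset E) : ℕ :=
  (univ.filter (fun φ : {e : E // e ∉ S} → ZMod 2 × ZMod 2 => (∀ e, φ e ≠ 0) ∧ CutFlow G S φ)).card

end graph

/-- CC-ORI: orientation of a 2-regular subgraph -/
def S_ORI : Prop := ∀ (V E : Type) [Fintype V] [DecidableEq V] [Fintype E] [DecidableEq E] (G : MGraph V E) (S : Finset E),
  Nonempty (V → E) → TwoReg G S → ∃ (t : V → E) (nx : V → V),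
    (∀ v, dg G S v = 2 → t v ∈ S ∧ G.ends (t v) = s(v, nx v) ∧ dg G S (nx v) = 2) ∧
    (∀ v w, dg G S v = 2 → dg G S w = 2 → t v = t w → v = w) ∧
    (∀ v w, dg G S v = 2 → dg G S w = 2 → nx v = nx w → v = w)

/-- CC-RHO: rotation systems exist -/
def S_RHO : Prop := ∀ (V E : Type) [Fintype V] [DecidableEq V] [Fintype E] [DecidableEq E] (G : MGraph V E) (S : Finset E),
  IsCubic G → TwoReg G S → ∃ en t ρ, Rot G S en t ρ

/-- CC-COV: from colourings to circuits -/
def S_COV : Prop := ∀ (V E : Type) [Fintype V] [DecidableEq V] [Fintype E] [DecidableEq E] (G : MGraph V E) (S : Finset E),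
  IsCubic G → TwoReg G S → ∀ (en : Dart S → V) (t : V → E) (ρ : Equiv.Perm (Dart S)), Rot G S en t ρ →
  ∀ (q : ℕ) (f : Dart S → ZMod q), q ≠ 0 → (∀ a, f (ρ.symm a) ≠ f a) →
    (∀ v, (f (v, true) = f (v, false) ∧ f (ρ.symm (v, true)) = f (ρ.symm (v, false))) ∨
      (f (v, true) = f (ρ.symm (v, false)) ∧ f (ρ.symm (v, true)) = f (v, false))) →
  Faithful G (fun e => if e ∈ S then 1 else 2)

/-- CC-TR: the two notions of flows agree -/
def S_TR : Prop := ∀ (V E : Type) [Fintype V] [DecidableEq V] [Fintype E] [DecidableEq E] (G : MGraph V E) (S : Finset E),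
  IsCubic G → TwoReg G S → ∀ (en : Dart S → V) (t : V → E) (ρ : Equiv.Perm (Dart S)), Rot G S en t ρ →
  ∀ φ : {e : E // e ∉ S} → ZMod 2 × ZMod 2, CutFlow G S φ ↔ IsFlow ρ φ

end Pool.Agent.NH93.CC
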