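import Pool.Agent.Helper310.Contra2.Invol
import Pool.Agent.Helper310.Contra2.PermCyc
import Pool.Agent.NH93.CC.Stm

/-!
# The colouring lemma for arbitrary rotation systems

`V` is a finite set of edges, `V × Bool` the set of their ends (darts), `ρ` a permutation of the
darts. (Generalisation of the files `Count` and `Crit` of the starting library, which treat
permutation graphs.)
-/

set_option autoImplicit false

open Finset

namespace Pool.Agent.NH93.CC

open Contra2 (Resp NN four_fixed ncyc card_inv_eq)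

/-- The three ways of joining up the four half-edges at a vertex. -/
inductive Tr | X | Y | Z
  deriving DecidableEq

instance : Fintype Tr := ⟨{.X, .Y, .Z}, by intro x; cases x <;> decide⟩

/-- Half-edges: edge, end, outgoing or not. -/
abbrev HE (V : Type*) := V × Bool × Bool

/-- The partner of a half-edge under a transition. -/
def flip : Tr → Bool × Bool → Bool × Bool
  | .X, q => (q.1, !q.2)
  | .Y, q => (!q.1, q.2)
  | .Z, q => (!q.1, !q.2)

@[simp] lemma flip_flip (t : Tr) (q : Bool × Bool) : flip t (flip t q) = q := by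
  cases t <;> rcases q with ⟨a, b⟩ <;> cases a <;> cases b <;> rfl

lemma flip_ne (t : Tr) (q : Bool × Bool) : flip t q ≠ q := by
  cases t <;> rcases q with ⟨a, b⟩ <;> cases a <;> cases b <;> decide

section

variable {V : Type*} {q : ℕ} (ρ : Equiv.Perm (V × Bool))

/-- The other half-edge of the same corner. -/
def epsFun (h : HE V) : HE V :=
  if h.2.2 = true then ((ρ (h.1, h.2.1)).1, (ρ (h.1, h.2.1)).2, false)
  else ((ρ.symm (h.1, h.2.1)).1, (ρ.symm (h.1, h.2.1)).2, true)

lemma epsFun_epsFun (h : HE V) : epsFun ρ (epsFun ρ h) = h := by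
  obtain ⟨v, i, d⟩ := h
  cases d <;> simp [epsFun]

/-- The same as a permutation. -/
def eps : Equiv.Perm (HE V) := ⟨epsFun ρ, epsFun ρ, epsFun_epsFun ρ, epsFun_epsFun ρ⟩

lemma eps_eps (h : HE V) : eps ρ (eps ρ h) = h := epsFun_epsFun ρ h

lemma eps_ne (h : HE V) : eps ρ h ≠ h := by
  obtain ⟨v, i, d⟩ := h
  intro hh
  have : (epsFun ρ (v, i, d)).2.2 = d := congrArg (fun x : HE V => x.2.2) hh
  cases d <;> simp [epsFun] at this

lemma eps_out (v : V) (i : Bool) :
    eps ρ (v, i, true) = ((ρ (v, i)).1, (ρ (v, i)).2, false) := by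
  show epsFun ρ (v, i, true) = _
  simp [epsFun]

lemma eps_in (v : V) (i : Bool) :
    eps ρ (v, i, false) = ((ρ.symm (v, i)).1, (ρ.symm (v, i)).2, true) := by
  show epsFun ρ (v, i, false) = _
  simp [epsFun]

/-- The transition constraint at `v`. -/
def Con (t : Tr) (v : V) (f : HE V → ZMod q) : Prop := ∀ p, f (v, flip t p) = f (v, p)

instance (t : Tr) (v : V) (f : HE V → ZMod q) : Decidable (Con t v f) := by
  unfold Con; infer_instance

/-- Indicator of the constraint. -/
def ind (t : Tr) (v : V) (f : HE V → ZMod q) : ℤ := if Con t v f then 1 else 0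

variable [DecidableEq V]

/-- The joining of the half-edges away from `v₀`. -/
def tauFun (v₀ : V) (T : {v // v ≠ v₀} → Tr) (h : HE V) : HE V :=
  if hv : h.1 ≠ v₀ then (h.1, flip (T ⟨h.1, hv⟩) h.2) else h

lemma tauFun_tauFun (v₀ : V) (T : {v // v ≠ v₀} → Tr) (h : HE V) :
    tauFun v₀ T (tauFun v₀ T h) = h := by
  obtain ⟨v, q⟩ := h
  by_cases hv : v ≠ v₀
  · have h1 : tauFun v₀ T (v, q) = (v, flip (T ⟨v, hv⟩) q) := by
      simp only [tauFun]; rw [dif_pos hv]
    rw [h1]
    simp only [tauFun]; rw [dif_pos hv, flip_flip]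
  · have h1 : tauFun v₀ T (v, q) = (v, q) := by
      simp only [tauFun]; rw [dif_neg hv]
    rw [h1, h1]

/-- The joining as a permutation. -/
def tau (v₀ : V) (T : {v // v ≠ v₀} → Tr) : Equiv.Perm (HE V) :=
  ⟨tauFun v₀ T, tauFun v₀ T, tauFun_tauFun v₀ T, tauFun_tauFun v₀ T⟩

lemma tau_ne {v₀ : V} (T : {v // v ≠ v₀} → Tr) {v : V} (hv : v ≠ v₀) (q : Bool × Bool) :
    tau v₀ T (v, q) = (v, flip (T ⟨v, hv⟩) q) := by
  show tauFun v₀ T (v, q) = _
  simp only [tauFun]; rw [dif_pos hv]

lemma tau_self {v₀ : V} (T : {v // v ≠ v₀} → Tr) (q : Bool × Bool) :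
    tau v₀ T (v₀, q) = (v₀, q) := by
  show tauFun v₀ T (v₀, q) = _
  simp only [tauFun]; rw [dif_neg (by simp)]

lemma tau_fix {v₀ : V} (T : {v // v ≠ v₀} → Tr) (h : HE V) :
    tau v₀ T h = h ↔ h = (v₀, false, false) ∨ h = (v₀, false, true) ∨
      h = (v₀, true, false) ∨ h = (v₀, true, true) := by
  obtain ⟨v, q⟩ := h
  by_cases hv : v ≠ v₀
  · rw [tau_ne T hv]
    constructor
    · intro h
      exact absurd (congrArg Prod.snd h) (flip_ne _ _)
    · rintro (h | h | h | h) <;> exact absurd (congrArg Prod.fst h) hv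
  · push Not at hv
    subst hv
    rw [tau_self]
    simp only [true_iff, Prod.mk.injEq, true_and]
    rcases q with ⟨a, b⟩
    cases a <;> cases b <;> simp

lemma resp_iff {v₀ : V} (T : {v // v ≠ v₀} → Tr) (f : HE V → ZMod q) :
    Resp (eps ρ) (tau v₀ T) f ↔
      (∀ h, f (eps ρ h) = f h) ∧ ∀ v : {v // v ≠ v₀}, Con (T v) v.1 f := by
  unfold Resp
  refine and_congr_right fun _ => ?_
  constructor
  · intro h v q
    have := h (v.1, q)
    rwa [tau_ne T v.2] at this
  · rintro h ⟨v, q⟩
    by_cases hv : v ≠ v₀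
    · rw [tau_ne T hv]; exact h ⟨v, hv⟩ q
    · push Not at hv; subst hv; rw [tau_self]

variable [Fintype V] (q) [NeZero q]

/-- All edge colourings with colours in `ZMod q`. -/
def Col : Finset (HE V → ZMod q) := Finset.univ.filter (fun f => ∀ h, f (eps ρ h) = f h)

lemma sum_ind_eq_NN {v₀ : V} (T : {v // v ≠ v₀} → Tr) (t : Tr) (p₁ p₂ p₃ p₄ : Bool × Bool)
    (hpq : ∀ f : HE V → ZMod q, Con t v₀ f ↔
      f (v₀, p₁) = f (v₀, p₂) ∧ f (v₀, p₃) = f (v₀, p₄)) :
    ∑ f ∈ Col q ρ, ind t v₀ f * ∏ v : {v // v ≠ v₀}, ind (T v) v.1 f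
      = (NN q (eps ρ) (tau v₀ T) (v₀, p₁) (v₀, p₂) (v₀, p₃) (v₀, p₄) : ℤ) := by
  classical
  have h1 : ∀ f : HE V → ZMod q, ind t v₀ f * ∏ v : {v // v ≠ v₀}, ind (T v) v.1 f =
      if Con t v₀ f ∧ ∀ v : {v // v ≠ v₀}, Con (T v) v.1 f then 1 else 0 := by
    intro f
    unfold ind
    rw [Fintype.prod_boole]
    by_cases h1 : Con t v₀ f <;> by_cases h2 : ∀ v : {v // v ≠ v₀}, Con (T v) v.1 f <;>
      simp [h1, h2]
  rw [Finset.sum_congr rfl (fun f _ => h1 f), Finset.sum_boole]
  unfold NN Col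
  rw [Finset.filter_filter]
  congr 2
  ext f
  simp only [mem_filter, mem_univ, true_and, resp_iff, hpq]
  tauto

lemma lemmaA' (v₀ : V) (T : {v // v ≠ v₀} → Tr) :
    ((q : ℤ) + 2) ∣ ∑ f ∈ Col q ρ, (∑ t, ind t v₀ f) * ∏ v : {v // v ≠ v₀}, ind (T v) v.1 f := by
  have h0 : ∀ g : Tr → ℤ, ∑ t, g t = g .X + g .Y + g .Z := by
    intro g
    have : (Finset.univ : Finset Tr) = {.X, .Y, .Z} := by decide
    rw [this, Finset.sum_insert (by decide), Finset.sum_insert (by decide),
      Finset.sum_singleton]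
    ring
  have h1 : ∑ f ∈ Col q ρ, (∑ t, ind t v₀ f) * ∏ v : {v // v ≠ v₀}, ind (T v) v.1 f
      = ∑ t, ∑ f ∈ Col q ρ, ind t v₀ f * ∏ v : {v // v ≠ v₀}, ind (T v) v.1 f := by
    rw [Finset.sum_comm]
    apply Finset.sum_congr rfl
    intro f _
    rw [Finset.sum_mul]
  rw [h1, h0]
  rw [sum_ind_eq_NN q ρ T .X (false, false) (false, true) (true, false) (true, true) ?_,
    sum_ind_eq_NN q ρ T .Y (false, false) (true, false) (false, true) (true, true) ?_,
    sum_ind_eq_NN q ρ T .Z (false, false) (true, true) (false, true) (true, false) ?_]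
  · have := four_fixed q (e := eps ρ) (t := tau v₀ T) (a := (v₀, false, false))
      (b := (v₀, false, true)) (c := (v₀, true, false)) (d := (v₀, true, true))
      (tauFun_tauFun v₀ T) (eps_eps ρ) (eps_ne ρ) (by simp) (by simp) (by simp)
      (by simp) (by simp) (by simp) (tau_fix T)
    exact_mod_cast this
  all_goals
    intro f
    unfold Con
    constructor
    · intro h
      constructor
      · first
          | exact (h (false, false)).symm
          | exact (h (false, true)).symm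
      · first
          | exact (h (true, false)).symm
          | exact (h (false, true)).symm
    · rintro ⟨h1, h2⟩ ⟨a, b⟩
      cases a <;> cases b <;>
      first
        | exact h1
        | exact h1.symm
        | exact h2
        | exact h2.symm

/-- The weighted count. -/
def F (c : V → Tr → ℤ) : ℤ := ∑ f ∈ Col q ρ, ∏ v, ∑ t, c v t * ind t v f

lemma lemmaA (v₀ : V) (c : V → Tr → ℤ) :
    ((q : ℤ) + 2) ∣ ∑ f ∈ Col q ρ, (∑ t, ind t v₀ f) *
      ∏ v : {v // v ≠ v₀}, ∑ t, c v.1 t * ind t v.1 f := by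
  have h1 : ∀ f : HE V → ZMod q, ∏ v : {v // v ≠ v₀}, ∑ t, c v.1 t * ind t v.1 f
      = ∑ T : {v // v ≠ v₀} → Tr, (∏ v, c v.1 (T v)) * ∏ v : {v // v ≠ v₀}, ind (T v) v.1 f := by
    intro f
    rw [Finset.prod_univ_sum, Fintype.piFinset_univ]
    apply Finset.sum_congr rfl
    intro T _
    rw [Finset.prod_mul_distrib]
  have h2 : ∑ f ∈ Col q ρ, (∑ t, ind t v₀ f) *
      ∏ v : {v // v ≠ v₀}, ∑ t, c v.1 t * ind t v.1 f
      = ∑ T : {v // v ≠ v₀} → Tr, (∏ v, c v.1 (T v)) *
        ∑ f ∈ Col q ρ, (∑ t, ind t v₀ f) * ∏ v : {v // v ≠ v₀}, ind (T v) v.1 f := by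
    simp_rw [h1, Finset.mul_sum]
    rw [Finset.sum_comm]
    apply Finset.sum_congr rfl
    intro T _
    apply Finset.sum_congr rfl
    intro f _
    ring
  rw [h2]
  apply Finset.dvd_sum
  intro T _
  exact Dvd.dvd.mul_left (lemmaA' q ρ v₀ T) _

lemma F_update (c c' : V → Tr → ℤ) (v₀ : V) (h : ∀ v, v ≠ v₀ → c' v = c v)
    (h0 : ∀ t, c' v₀ t = c v₀ t + 1) : ((q : ℤ) + 2) ∣ F q ρ c' - F q ρ c := by
  have h1 : F q ρ c' - F q ρ c = ∑ f ∈ Col q ρ, (∑ t, ind t v₀ f) *
      ∏ v : {v // v ≠ v₀}, ∑ t, c v.1 t * ind t v.1 f := by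
    unfold F
    rw [← Finset.sum_sub_distrib]
    apply Finset.sum_congr rfl
    intro f _
    rw [Fintype.prod_eq_mul_prod_subtype_ne _ v₀, Fintype.prod_eq_mul_prod_subtype_ne _ v₀]
    have h2 : ∏ v : {v // v ≠ v₀}, ∑ t, c' v.1 t * ind t v.1 f =
        ∏ v : {v // v ≠ v₀}, ∑ t, c v.1 t * ind t v.1 f := by
      apply Finset.prod_congr rfl
      intro v _
      rw [h v.1 v.2]
    rw [h2, ← sub_mul, ← Finset.sum_sub_distrib]
    congr 1
    apply Finset.sum_congr rfl
    intro t _
    rw [h0]; ring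
  rw [h1]
  exact lemmaA q ρ v₀ c

/-- Replace all weights by weights larger by one. -/
lemma F_shift (c : V → Tr → ℤ) : ((q : ℤ) + 2) ∣ F q ρ (fun v t => c v t + 1) - F q ρ c := by
  classical
  have key : ∀ S : Finset V,
      ((q : ℤ) + 2) ∣ F q ρ (fun v t => if v ∈ S then c v t + 1 else c v t) - F q ρ c := by
    intro S
    induction S using Finset.induction_on with
    | empty => simp
    | insert u S hu ih =>
      have h1 := F_update q ρ (fun v t => if v ∈ S then c v t + 1 else c v t)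
        (fun v t => if v ∈ insert u S then c v t + 1 else c v t) u
        (fun v hv => by funext t; simp [hv]) (fun t => by simp [hu])
      have := dvd_add h1 ih
      rwa [sub_add_sub_cancel] at this
  have := key Finset.univ
  simpa using this

end

section

variable {V : Type} [DecidableEq V]

variable (ρ : Equiv.Perm (V × Bool))

variable [Fintype V]

variable (q : ℕ) [NeZero q]

/-- Number of colourings compatible with the transitions `T`. -/
def Ncol (T : V → Tr) : ℕ := ((Col q ρ).filter (fun f => ∀ v, Con (T v) v f)).card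

lemma sum_prod_ind (T : V → Tr) : ∑ f ∈ Col q ρ, ∏ v, ind (T v) v f = (Ncol ρ q T : ℤ) := by
  unfold Ncol
  rw [← Finset.sum_boole]
  apply Finset.sum_congr rfl
  intro f _
  unfold ind
  rw [Fintype.prod_boole]

lemma sum_Tr (g : Tr → ℤ) : ∑ t, g t = g .X + g .Y + g .Z := by
  have : (Finset.univ : Finset Tr) = {.X, .Y, .Z} := by decide
  rw [this, Finset.sum_insert (by decide), Finset.sum_insert (by decide),
    Finset.sum_singleton]
  ring

variable {q}

lemma col_out {f : HE V → ZMod q} (hf : f ∈ Col q ρ) (a : V × Bool) :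
    f (a.1, a.2, false) = f ((ρ.symm a).1, (ρ.symm a).2, true) := by
  simp only [Col, mem_filter, mem_univ, true_and] at hf
  have := hf (a.1, a.2, false)
  rw [eps_in] at this
  exact this.symm

lemma col_in {f : HE V → ZMod q} (hf : f ∈ Col q ρ) (a : V × Bool) :
    f ((ρ a).1, (ρ a).2, false) = f (a.1, a.2, true) := by
  rw [col_out ρ hf]; simp

variable (q)

lemma Ncol_eq (U : Finset V) :
    Ncol ρ q (fun v => if v ∈ U then .Z else .X) = q ^ ncyc (theta ρ U) := by
  rw [← card_inv_eq]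
  unfold Ncol
  apply Finset.card_bij' (fun (f : HE V → ZMod q) _ => (fun a : V × Bool => f (a.1, a.2, true)))
    (fun (g : V × Bool → ZMod q) _ => (fun h : HE V =>
      if h.2.2 = true then g (h.1, h.2.1) else g (ρ.symm (h.1, h.2.1))))
  · intro f hf
    obtain ⟨hf, hc⟩ := Finset.mem_filter.1 hf
    simp only [mem_filter, mem_univ, true_and]
    intro a
    rw [← col_in ρ hf a]
    obtain ⟨⟨v, i⟩, hvi⟩ : ∃ b, b = ρ a := ⟨_, rfl⟩
    have h1 : theta ρ U a = cross U (v, i) := by rw [hvi]; rfl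
    rw [← hvi, h1]
    have h2 := hc v (i, false)
    beta_reduce at h2
    by_cases h : v ∈ U
    · rw [cross_mem h]
      rw [if_pos h] at h2
      exact h2
    · rw [cross_not_mem h]
      rw [if_neg h] at h2
      exact h2
  · intro g hg
    simp only [mem_filter, mem_univ, true_and] at hg
    have hg' : ∀ b, g (cross U b) = g (ρ.symm b) := by
      intro b
      have := hg (ρ.symm b)
      rw [← this]
      congr 1
      show _ = cross U (ρ (ρ.symm b))
      rw [Equiv.apply_symm_apply]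
    refine Finset.mem_filter.2 ⟨Finset.mem_filter.2 ⟨Finset.mem_univ _, ?_⟩, ?_⟩
    · rintro ⟨v, i, d⟩
      cases d
      · rw [eps_in]; simp
      · rw [eps_out]; simp
    · rintro v ⟨i, d⟩
      beta_reduce
      by_cases h : v ∈ U
      · rw [if_pos h]
        cases d
        · show g (v, !i) = g (ρ.symm (v, i))
          rw [← hg', cross_mem h]
        · show g (ρ.symm (v, !i)) = g (v, i)
          rw [← hg', cross_mem h, Bool.not_not]
      · rw [if_neg h]
        cases d
        · show g (v, i) = g (ρ.symm (v, i))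
          rw [← hg', cross_not_mem h]
        · show g (ρ.symm (v, i)) = g (v, i)
          rw [← hg', cross_not_mem h]
  · intro f hf
    obtain ⟨hf, hc⟩ := Finset.mem_filter.1 hf
    funext h
    obtain ⟨v, i, d⟩ := h
    cases d
    · simp only [Bool.false_eq_true, if_false]
      rw [← col_out ρ hf (v, i)]
    · simp
  · intro g _
    funext a
    simp

/-- The signed weights. -/
def cW (V : Type*) : V → Tr → ℤ := fun _ t => match t with
  | .X => 0
  | .Y => -1
  | .Z => 1

lemma F_cW_add : F q ρ (fun v t => cW V v t + 1) =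
    ∑ U : Finset V, 2 ^ U.card * (q : ℤ) ^ ncyc (theta ρ U) := by
  classical
  unfold F
  have h2 : ∀ f : HE V → ZMod q, ∏ v, ∑ t, (cW V v t + 1) * ind t v f =
      ∑ U : Finset V, 2 ^ U.card * ∏ v, ind (if v ∈ U then .Z else .X) v f := by
    intro f
    have h3 : ∀ v : V, ∑ t, (cW V v t + 1) * ind t v f = 2 * ind .Z v f + ind .X v f := by
      intro v
      rw [sum_Tr]
      simp only [cW]; ring
    rw [Finset.prod_congr rfl (fun v _ => h3 v), Fintype.prod_add]
    apply Finset.sum_congr rfl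
    intro U _
    rw [Finset.prod_mul_distrib, Finset.prod_const, mul_assoc]
    congr 1
    rw [← Finset.prod_mul_prod_compl U]
    congr 1
    · apply Finset.prod_congr rfl
      intro v hv
      simp [hv]
    · apply Finset.prod_congr rfl
      intro v hv
      have : v ∉ U := by simpa using hv
      simp [this]
  rw [Finset.sum_congr rfl (fun f _ => h2 f), Finset.sum_comm]
  apply Finset.sum_congr rfl
  intro U _
  rw [← Finset.mul_sum, sum_prod_ind, Ncol_eq]
  push_cast
  rfl

lemma F_cW_mod : ((q : ℤ) + 2) ∣ F q ρ (cW V) - altSum ρ := by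
  have h1 := F_shift q ρ (cW V)
  rw [F_cW_add] at h1
  have h2 : ((q : ℤ) + 2) ∣
      (∑ U : Finset V, 2 ^ U.card * (q : ℤ) ^ ncyc (theta ρ U)) - altSum ρ := by
    unfold altSum
    rw [← Finset.sum_sub_distrib]
    apply Finset.dvd_sum
    intro U _
    rw [← mul_sub]
    apply Dvd.dvd.mul_left
    have := sub_dvd_pow_sub_pow (q : ℤ) (-2) (ncyc (theta ρ U))
    rwa [sub_neg_eq_add] at this
  have h3 := dvd_sub h2 h1
  rwa [sub_sub_sub_cancel_left] at h3

/-- **Colouring lemma.** -/
theorem exists_colouring (hS : altSum ρ ≠ 0) :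
    ∃ (q : ℕ) (_ : NeZero q) (f : V × Bool → ZMod q), (∀ a, f (ρ.symm a) ≠ f a) ∧
      ∀ v, (f (v, true) = f (v, false) ∧ f (ρ.symm (v, true)) = f (ρ.symm (v, false))) ∨
        (f (v, true) = f (ρ.symm (v, false)) ∧ f (ρ.symm (v, true)) = f (v, false)) := by
  obtain ⟨q, hq, hq'⟩ : ∃ q : ℕ, q = (altSum ρ).natAbs ∧ q ≠ 0 :=
    ⟨_, rfl, Int.natAbs_ne_zero.2 hS⟩
  have inst : NeZero q := ⟨hq'⟩
  refine ⟨q, inst, ?_⟩
  have h : F q ρ (cW V) ≠ 0 := by
    intro h0
    have h1 := F_cW_mod ρ q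
    rw [h0, zero_sub, dvd_neg] at h1
    have h2 := Int.natAbs_dvd_natAbs.2 h1
    have h3 := Nat.le_of_dvd (Int.natAbs_pos.2 hS) h2
    have h4 : ((q : ℤ) + 2).natAbs = q + 2 := by omega
    omega
  unfold F at h
  obtain ⟨f, hf, hf0⟩ := Finset.exists_ne_zero_of_sum_ne_zero h
  rw [Finset.prod_ne_zero_iff] at hf0
  have key : ∀ v, (Con .Z v f ∧ ¬ Con .Y v f) ∨ (Con .Y v f ∧ ¬ Con .Z v f) := by
    intro v
    have := hf0 v (Finset.mem_univ v)
    rw [sum_Tr] at this
    simp only [cW, ind] at this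
    by_cases h1 : Con .Z v f <;> by_cases h2 : Con .Y v f <;> simp_all
  have hZ : ∀ v, Con .Z v f ↔
      f (v, true, true) = f (v, false, false) ∧ f (v, true, false) = f (v, false, true) := by
    intro v
    constructor
    · intro h
      exact ⟨h (false, false), h (false, true)⟩
    · rintro ⟨h1, h2⟩ ⟨a, b⟩
      cases a <;> cases b
      · exact h1
      · exact h2
      · exact h2.symm
      · exact h1.symm
  have hY : ∀ v, Con .Y v f ↔
      f (v, true, true) = f (v, false, true) ∧ f (v, true, false) = f (v, false, false) := by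
    intro v
    constructor
    · intro h
      exact ⟨h (false, true), h (false, false)⟩
    · rintro ⟨h1, h2⟩ ⟨a, b⟩
      cases a <;> cases b
      · exact h2
      · exact h1
      · exact h2.symm
      · exact h1.symm
  refine ⟨fun a => f (a.1, a.2, true), ?_, ?_⟩
  · rintro ⟨v, i⟩
    simp only
    rw [← col_out ρ hf (v, i)]
    have := key v
    rw [hZ, hY] at this
    intro h
    cases i
    · rw [h] at this; tauto
    · rw [h] at this
      rcases this with ⟨⟨h1, h2⟩, h3⟩ | ⟨⟨h1, h2⟩, h3⟩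
      · apply h3; exact ⟨h2, h1⟩
      · apply h3; exact ⟨h2, h1⟩
  · intro v
    simp only
    rw [← col_out ρ hf (v, true), ← col_out ρ hf (v, false)]
    have := key v
    rw [hZ, hY] at this
    tauto

end

theorem t_COL : S_COL := by
  intro V _ _ ρ h
  obtain ⟨q, hq, f, h1, h2⟩ := exists_colouring ρ h
  exact ⟨q, f, NeZero.ne q, h1, h2⟩

end Pool.Agent.NH93.CC
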