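import Pool.Agent.NH93.CC.Stm

/-!
# CC-FLW (helper23): the number of the nowhere-zero 4-flows modulo 4
-/

set_option autoImplicit false

open Finset

namespace Pool.Agent.NH93.CC

open Contra2 (ncyc)

namespace FLW

/-- the group of the values -/
abbrev A : Type := ZMod 2 × ZMod 2

variable {V : Type} [Fintype V] [DecidableEq V] (ρ : Equiv.Perm (V × Bool))

open Classical in
/-- the number of the flows with support in `U` -/
noncomputable def N (U : Finset V) : ℕ :=
  (univ.filter (fun φ : V → A => (∀ v, v ∉ U → φ v = 0) ∧ IsFlow ρ φ)).card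

/-- inclusion and exclusion -/
theorem nz_eq : ((nz ρ : ℕ) : ℤ) = ∑ T : Finset V, (-1) ^ T.card * ((N ρ Tᶜ : ℕ) : ℤ) := by
  classical
  have h1 : ((nz ρ : ℕ) : ℤ) = ∑ φ ∈ univ.filter (fun φ : V → A => IsFlow ρ φ),
      ∏ v : V, (1 + (-(if φ v = 0 then 1 else 0) : ℤ)) := by
    have h2 : ∀ φ : V → A, ∏ v : V, (1 + (-(if φ v = 0 then 1 else 0) : ℤ)) =
        if ∀ v, φ v ≠ 0 then 1 else 0 := by
      intro φ
      by_cases h : ∀ v, φ v ≠ 0
      · rw [if_pos h]
        apply Finset.prod_eq_one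
        intro v _
        rw [if_neg (h v)]
        ring
      · rw [if_neg h]
        push Not at h
        obtain ⟨v, hv⟩ := h
        apply Finset.prod_eq_zero (mem_univ v)
        rw [if_pos hv]
        ring
    simp only [h2]
    rw [Finset.sum_ite, Finset.sum_const_zero, add_zero, Finset.sum_const, nsmul_eq_mul, mul_one,
      Finset.filter_filter]
    unfold nz
    congr 2
    apply Finset.filter_congr
    intro φ _
    exact and_comm
  have h3 : ∀ (φ : V → A), ∏ v : V, (1 + (-(if φ v = 0 then 1 else 0) : ℤ)) =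
      ∑ T : Finset V, (-1) ^ T.card * (if ∀ v ∈ T, φ v = 0 then 1 else 0) := by
    intro φ
    rw [Finset.prod_one_add, Finset.powerset_univ]
    apply Finset.sum_congr rfl
    intro T _
    rw [Finset.prod_neg, Finset.prod_ite_zero]
    congr 1
    simp
  rw [h1]
  simp only [h3]
  rw [Finset.sum_comm]
  apply Finset.sum_congr rfl
  intro T _
  rw [← Finset.mul_sum]
  congr 1
  rw [Finset.sum_ite, Finset.sum_const_zero, add_zero, Finset.sum_const, nsmul_eq_mul, mul_one,
    Finset.filter_filter]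
  unfold N
  congr 2
  apply Finset.filter_congr
  intro φ _
  constructor
  · rintro ⟨h4, h5⟩
    exact ⟨fun v hv => h5 v (by simpa using hv), h4⟩
  · rintro ⟨h4, h5⟩
    exact ⟨h5, fun v hv => h4 v (by simpa using hv)⟩

/-- the group of the flows with support in `U` -/
def grp (U : Finset V) : AddSubgroup (V → A) where
  carrier := {φ | (∀ v, v ∉ U → φ v = 0) ∧ IsFlow ρ φ}
  zero_mem' := ⟨fun _ _ => rfl, fun X _ => by simp⟩
  add_mem' := by
    rintro φ ψ ⟨h1, h2⟩ ⟨h3, h4⟩
    refine ⟨fun v hv => ?_, fun X hX => ?_⟩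
    · rw [Pi.add_apply, h1 v hv, h3 v hv, add_zero]
    · simp only [Pi.add_apply, Finset.sum_add_distrib]
      rw [h2 X hX, h4 X hX, add_zero]
  neg_mem' := by
    rintro φ ⟨h1, h2⟩
    refine ⟨fun v hv => ?_, fun X hX => ?_⟩
    · rw [Pi.neg_apply, h1 v hv, neg_zero]
    · simp only [Pi.neg_apply, Finset.sum_neg_distrib]
      rw [h2 X hX, neg_zero]

theorem N_eq (U : Finset V) : N ρ U = Nat.card (grp ρ U) := by
  classical
  have h1 : Nat.card (grp ρ U) = Fintype.card {φ : V → A // (∀ v, v ∉ U → φ v = 0) ∧ IsFlow ρ φ} := by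
    rw [← Nat.card_eq_fintype_card]
    rfl
  rw [h1, Fintype.card_subtype]
  unfold N
  congr 1

/-- no flow with values in `ZMod 2` -/
theorem N_one {U : Finset V} (h : ∀ φ : V → ZMod 2, (∀ v, v ∉ U → φ v = 0) → IsFlow ρ φ → φ = 0) :
    N ρ U = 1 := by
  have h1 : grp ρ U = ⊥ := by
    rw [eq_bot_iff]
    rintro φ ⟨h2, h3⟩
    rw [AddSubgroup.mem_bot]
    have h4 : (fun v => (φ v).1) = 0 := by
      apply h _ (fun v hv => by rw [h2 v hv]; rfl)
      intro X hX
      have := congrArg Prod.fst (h3 X hX)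
      rwa [Prod.fst_sum] at this
    have h5 : (fun v => (φ v).2) = 0 := by
      apply h _ (fun v hv => by rw [h2 v hv]; rfl)
      intro X hX
      have := congrArg Prod.snd (h3 X hX)
      rwa [Prod.snd_sum] at this
    funext v
    exact Prod.ext (congrFun h4 v) (congrFun h5 v)
  rw [N_eq, h1, AddSubgroup.card_bot]

/-- otherwise the number is divisible by four -/
theorem four_dvd {U : Finset V} (h : ¬ ∀ φ : V → ZMod 2, (∀ v, v ∉ U → φ v = 0) → IsFlow ρ φ → φ = 0) :
    4 ∣ N ρ U := by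
  push Not at h
  obtain ⟨φ, h1, h2, h3⟩ := h
  obtain ⟨v₀, hv₀⟩ := Function.ne_iff.1 h3
  let f : A →+ grp ρ U :=
    { toFun := fun a => ⟨fun v => (φ v * a.1, φ v * a.2), by
        refine ⟨fun v hv => ?_, fun X hX => ?_⟩
        · show (φ v * a.1, φ v * a.2) = 0
          rw [h1 v hv, zero_mul, zero_mul]
          rfl
        · have h4 := h2 X hX
          apply Prod.ext
          · rw [Prod.fst_sum]
            show ∑ x ∈ X, φ x.1 * a.1 = 0
            rw [← Finset.sum_mul, h4, zero_mul]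
          · rw [Prod.snd_sum]
            show ∑ x ∈ X, φ x.1 * a.2 = 0
            rw [← Finset.sum_mul, h4, zero_mul]⟩
      map_zero' := by
        apply Subtype.ext
        funext v
        show (φ v * (0 : A).1, φ v * (0 : A).2) = 0
        simp
      map_add' := by
        intro a b
        apply Subtype.ext
        funext v
        show (φ v * (a + b).1, φ v * (a + b).2) = (φ v * a.1, φ v * a.2) + (φ v * b.1, φ v * b.2)
        rw [Prod.fst_add, Prod.snd_add, mul_add, mul_add]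
        rfl }
  have hf : Function.Injective f := by
    intro a b hab
    have h5 := congrFun (congrArg Subtype.val hab) v₀
    have h6 : (φ v₀ * a.1, φ v₀ * a.2) = ((φ v₀ * b.1, φ v₀ * b.2) : A) := h5
    rw [Prod.mk.injEq] at h6
    exact Prod.ext (mul_left_cancel₀ hv₀ h6.1) (mul_left_cancel₀ hv₀ h6.2)
  have h7 := AddSubgroup.card_dvd_of_injective f hf
  rw [N_eq]
  have h8 : Nat.card A = 4 := by
    rw [Nat.card_prod, Nat.card_zmod]
  rwa [h8] at h7

theorem term {a c m r : ℕ} (h : c + a = m + 2 * r) :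
    (2 : ℤ) ^ a * (-2) ^ c = (-2) ^ m * ((-1) ^ a * 4 ^ r) := by
  have h1 : (-2 : ℤ) ^ c = (-1) ^ c * 2 ^ c := by rw [← mul_pow]; norm_num
  have h2 : (-2 : ℤ) ^ m = (-1) ^ m * 2 ^ m := by rw [← mul_pow]; norm_num
  have h3 : (-1 : ℤ) ^ c * (-1) ^ a = (-1) ^ m := by
    rw [← pow_add, h, pow_add, pow_mul]
    norm_num
  have h4 : (-1 : ℤ) ^ a * (-1) ^ a = 1 := by
    rw [← mul_pow]
    norm_num
  have h5 : (2 : ℤ) ^ c * 2 ^ a = 2 ^ m * 4 ^ r := by
    rw [← pow_add, h, pow_add, pow_mul]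
    norm_num
  rw [h1, h2, ← h3]
  linear_combination (-1 : ℤ) ^ c * h5 - (-1) ^ c * 2 ^ m * 4 ^ r * h4

end FLW

open FLW

theorem t_FLW0 (h : S_RK) : S_FLW := by
  intro V _ _ ρ h4 h0
  apply h4
  choose r hr hr0 using h V ρ
  -- the alternating sum
  have h1 : altSum ρ = (-2) ^ ncyc ρ * ∑ U : Finset V, ((-1) ^ U.card * 4 ^ r U) := by
    unfold altSum
    rw [Finset.mul_sum]
    exact Finset.sum_congr rfl fun U _ => term (hr U)
  have h2 : ∑ U : Finset V, ((-1 : ℤ) ^ U.card * 4 ^ r U) = 0 := by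
    rw [h0] at h1
    exact (mul_eq_zero.1 h1.symm).resolve_left (pow_ne_zero _ (by norm_num))
  -- the numbers of the flows
  have h3 : ∀ U : Finset V, (4 : ℤ) ∣ ((N ρ U : ℕ) : ℤ) - 4 ^ r U := by
    intro U
    by_cases h5 : r U = 0
    · rw [N_one ρ ((hr0 U).1 h5), h5]
      norm_num
    · have h6 := four_dvd ρ (fun h7 => h5 ((hr0 U).2 h7))
      exact dvd_sub (by exact_mod_cast h6) (dvd_pow_self _ h5)
  have h5 : ∑ T : Finset V, (-1 : ℤ) ^ T.card * 4 ^ r Tᶜ = 0 := by
    have h6 : ∑ T : Finset V, (-1 : ℤ) ^ T.card * 4 ^ r Tᶜ =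
        ∑ U : Finset V, (-1 : ℤ) ^ Uᶜ.card * 4 ^ r U :=
      Finset.sum_bij' (fun T _ => Tᶜ) (fun T _ => Tᶜ) (fun _ _ => mem_univ _)
        (fun _ _ => mem_univ _) (fun T _ => compl_compl T) (fun T _ => compl_compl T)
        (fun T _ => by rw [compl_compl])
    rw [h6]
    have h7 : ∀ U : Finset V, (-1 : ℤ) ^ Uᶜ.card = (-1) ^ Fintype.card V * (-1) ^ U.card := by
      intro U
      have h8 := Finset.card_add_card_compl U
      rw [← h8, pow_add]
      have h9 : (-1 : ℤ) ^ U.card * (-1) ^ U.card = 1 := by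
        rw [← mul_pow]
        norm_num
      linear_combination -((-1 : ℤ) ^ Uᶜ.card) * h9
    simp only [h7, mul_assoc]
    rw [← Finset.mul_sum, h2, mul_zero]
  have h6 : (4 : ℤ) ∣ ((nz ρ : ℕ) : ℤ) := by
    rw [nz_eq, ← sub_zero (∑ T : Finset V, _), ← h5, ← Finset.sum_sub_distrib]
    apply Finset.dvd_sum
    intro T _
    rw [← mul_sub]
    exact Dvd.dvd.mul_left (h3 _) _
  exact_mod_cast h6

end Pool.Agent.NH93.CC
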