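import Pool.Agent.NH93.CC.TWC

/-!
# Project CC (helper93): every circuit through `e₀` has at least `k` edges of weight one
-/

set_option autoImplicit false
set_option linter.all false

open Finset

namespace Pool.Agent.NH93.CC

open Pool.Agent.Helper347.Sab (MGraph dg IsCircuit IsCubic Touch exists_ends half_edges)

namespace GIR

open TWC

variable {V E : Type} [Fintype V] [DecidableEq V] [Fintype E] [DecidableEq E]
variable {G : MGraph V E} {w : E → ℕ} {A B : Finset E} {e₀ : E} {x y : V}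

theorem dg_mem {D : Finset E} {v : V} {e : E} (he : e ∈ D) (hv : v ∈ G.ends e) : 0 < dg G D v := by
  unfold dg
  rw [card_pos]
  exact ⟨e, mem_filter.2 ⟨he, hv⟩⟩

/-- the circuits at a vertex are consecutive -/
theorem near {F : Multiset (Finset E)} {k : ℕ} {ch : ℕ → Finset E} (hC : Chain G x y F k ch) {v : V} {i j : ℕ}
    (hi : i < k) (hj : j < k) (hvi : v ∈ Vx G (ch i)) (hvj : v ∈ Vx G (ch j)) : j ≤ i + 1 := by
  by_contra h
  push Not at h
  have := (hC.meet i j (by omega) hj).1 ⟨v, mem_inter.2 ⟨hvi, hvj⟩⟩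
  omega

/-- an edge of weight two other than `e₀` is in every circuit through one of its ends -/
theorem two_mem (h : Ctx G w A B e₀ x y) {F : Multiset (Finset E)} (hF : Cover G (del w e₀) F) {k : ℕ}
    {ch : ℕ → Finset E} (hC : Chain G x y F k ch) {v : V} {e e' m g : E} (hl : Loc G w v e e' m) (hm : m ≠ e₀)
    (hg : g = e ∨ g = e') {i : ℕ} (hi : i < k) (hgi : g ∈ ch i) : m ∈ ch i := by
  have hc : ∀ j < k, IsCircuit G (ch j) := fun j hj => hF.1 _ (mem_chain hC |>.2 ⟨j, hj, rfl⟩)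
  have hgv : v ∈ G.ends g := by
    rcases hg with rfl | rfl
    · exact hl.ve
    · exact hl.ve'
  by_contra hmi
  have d1 := dg_two (hc i hi) (mem_Vx.2 ⟨g, hgi, hgv⟩)
  rw [dg_loc hl, if_neg hmi] at d1
  have h1 : e ∈ ch i := by
    by_contra h0
    rw [if_neg h0] at d1
    split_ifs at d1 <;> omega
  have h2 : e' ∈ ch i := by
    by_contra h0
    rw [if_neg h0] at d1
    split_ifs at d1 <;> omega
  have h3 : 0 < F.countP (m ∈ ·) := by
    rw [hF.2 m]
    unfold del
    rw [if_neg hm, hl.wm]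
    omega
  rw [Multiset.countP_pos] at h3
  obtain ⟨X, hX, hmX⟩ := h3
  obtain ⟨j, hj, rfl⟩ := (mem_chain hC).1 hX
  have d2 := dg_two (hc j hj) (mem_Vx.2 ⟨m, hmX, hl.vm⟩)
  rw [dg_loc hl, if_pos hmX] at d2
  have hij : i ≠ j := by
    rintro rfl
    exact hmi hmX
  have h4 : e ∉ ch j := fun q => hij ((idx h hF hC hl.we).2 i j hi hj h1 q)
  have h5 : e' ∉ ch j := fun q => hij ((idx h hF hC hl.we').2 i j hi hj h2 q)
  rw [if_neg h4, if_neg h5] at d2
  omega

/-- no index is missing -/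
theorem no_gap (h : Ctx G w A B e₀ x y) {F : Multiset (Finset E)} (hF : Cover G (del w e₀) F) {k : ℕ}
    {ch : ℕ → Finset E} (hC : Chain G x y F k ch) {Q : Finset E} (hQ : IsCircuit G Q) (hQ0 : e₀ ∈ Q)
    {m : ℕ} (hm : m < k) : ∃ f ∈ Q, w f = 1 ∧ f ∈ ch m := by
  by_contra hno
  push Not at hno
  have hxy : x ≠ y := by
    rintro rfl
    exact G.loopless e₀ (by rw [h.hends]; exact rfl)
  have hx0 : x ∈ G.ends e₀ := by rw [h.hends]; simp
  have hy0 : y ∈ G.ends e₀ := by rw [h.hends]; simp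
  -- the edge of `Q` at an end of `e₀`
  have hend : ∀ v, v = x ∨ v = y → ∃ a ∈ Q, a ≠ e₀ ∧ w a = 1 ∧ v ∈ G.ends a ∧
      ∀ f ∈ Q, v ∈ G.ends f → f = a ∨ f = e₀ := by
    intro v hv
    obtain ⟨e, e', mm, hl⟩ := h.loc v
    have hmm : mm = e₀ := (m_eq h hl).2 hv
    subst hmm
    have d := dg_two hQ (mem_Vx.2 ⟨mm, hQ0, hl.vm⟩)
    rw [dg_loc hl, if_pos hQ0] at d
    have hne : e ≠ mm := fun q => by have := hl.we; rw [q, hl.wm] at this; omega
    have hne' : e' ≠ mm := fun q => by have := hl.we'; rw [q, hl.wm] at this; omega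
    by_cases he : e ∈ Q
    · have he' : e' ∉ Q := by
        intro q
        rw [if_pos he, if_pos q] at d
        omega
      refine ⟨e, he, hne, hl.we, hl.ve, fun f hf hvf => ?_⟩
      rcases hl.all f hvf with r | r | r
      · exact Or.inl r
      · exact absurd (r ▸ hf) he'
      · exact Or.inr r
    · have he' : e' ∈ Q := by
        by_contra q
        rw [if_neg he, if_neg q] at d
        omega
      refine ⟨e', he', hne', hl.we', hl.ve', fun f hf hvf => ?_⟩
      rcases hl.all f hvf with r | r | r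
      · exact absurd (r ▸ hf) he
      · exact Or.inl r
      · exact Or.inr r
  obtain ⟨a, haQ, ha0, hwa, hxa, halla⟩ := hend x (Or.inl rfl)
  obtain ⟨b, hbQ, hb0, hwb, hyb, hallb⟩ := hend y (Or.inr rfl)
  obtain ⟨⟨ia, hia, haia⟩, -⟩ := idx h hF hC hwa
  obtain ⟨⟨ib, hib, hbib⟩, -⟩ := idx h hF hC hwb
  have hia0 : ia = 0 := (hC.left ia hia).1 (mem_Vx.2 ⟨a, haia, hxa⟩)
  have hibk : ib + 1 = k := (hC.right ib hib).1 (mem_Vx.2 ⟨b, hbib, hyb⟩)
  have hm0 : m ≠ 0 := by
    rintro rfl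
    exact hno a haQ hwa (hia0 ▸ haia)
  have hmk : m + 1 ≠ k := by
    intro q
    have : ib = m := by omega
    exact hno b hbQ hwb (this ▸ hbib)
  obtain ⟨D, hD⟩ : ∃ D : Finset E, D = Q.filter (fun f => f ≠ e₀ ∧ ∃ i ∈ range m, f ∈ ch i) := ⟨_, rfl⟩
  have hmem : ∀ f, f ∈ D ↔ f ∈ Q ∧ f ≠ e₀ ∧ ∃ i, i < m ∧ f ∈ ch i := by
    intro f
    rw [hD, mem_filter]
    simp only [mem_range]
  have hsub : ∀ f ∈ D, f ∈ Q := fun f hf => ((hmem f).1 hf).1
  -- the edges of `D` at a vertex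
  have step : ∀ v, v ≠ x → v ≠ y → ∀ g ∈ Q, ∀ g' ∈ Q, v ∈ G.ends g → v ∈ G.ends g' → g ∈ D → g' ∈ D := by
    intro v hvx hvy g hg g' hg' hvg hvg' hgD
    obtain ⟨e, e', mm, hl⟩ := h.loc v
    have hmm : mm ≠ e₀ := fun q => by
      rcases (m_eq h hl).1 q with r | r
      · exact hvx r
      · exact hvy r
    obtain ⟨-, hg0, i, him, hgi⟩ := (hmem g).1 hgD
    rw [hmem]
    have hik : i < k := by omega
    have hvi : v ∈ Vx G (ch i) := mem_Vx.2 ⟨g, hgi, hvg⟩
    have hone : w g' = 1 → g' ∈ Q ∧ g' ≠ e₀ ∧ ∃ i, i < m ∧ g' ∈ ch i := by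
      intro hw1
      obtain ⟨⟨j, hj, hgj⟩, -⟩ := idx h hF hC hw1
      refine ⟨hg', fun q => ?_, j, ?_, hgj⟩
      · rw [q, h.he] at hw1
        omega
      · have h1 := near hC hik hj hvi (mem_Vx.2 ⟨g', hgj, hvg'⟩)
        have h2 : j ≠ m := by
          rintro rfl
          exact hno g' hg' hw1 hgj
        omega
    rcases hl.all g' hvg' with r | r | r
    · exact hone (r ▸ hl.we)
    · exact hone (r ▸ hl.we')
    · refine ⟨hg', r ▸ hmm, i, him, ?_⟩
      rcases hl.all g hvg with q | q | q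
      · rw [r]
        exact two_mem h hF hC hl hmm (Or.inl q) hik hgi
      · rw [r]
        exact two_mem h hF hC hl hmm (Or.inr q) hik hgi
      · rw [r, ← q]
        exact hgi
  have hdeg : ∀ v, v ≠ x → v ≠ y → dg G D v = 0 ∨ dg G D v = 2 := by
    intro v hvx hvy
    by_cases h0 : dg G D v = 0
    · exact Or.inl h0
    · right
      have h1 : ∃ g ∈ D, v ∈ G.ends g := by
        by_contra hn
        push Not at hn
        apply h0
        unfold dg
        rw [card_eq_zero, filter_eq_empty_iff]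
        exact hn
      obtain ⟨g, hgD, hvg⟩ := h1
      rw [← dg_two hQ (mem_Vx.2 ⟨g, hsub g hgD, hvg⟩)]
      unfold dg
      congr 1
      ext f
      rw [mem_filter, mem_filter]
      exact ⟨fun q => ⟨hsub f q.1, q.2⟩, fun q => ⟨step v hvx hvy g (hsub g hgD) f q.1 hvg q.2 hgD, q.2⟩⟩
  have hdy : dg G D y = 0 := by
    unfold dg
    rw [card_eq_zero, filter_eq_empty_iff]
    intro f hf hyf
    obtain ⟨-, -, i, him, hfi⟩ := (hmem f).1 hf
    have := (hC.right i (by omega)).1 (mem_Vx.2 ⟨f, hfi, hyf⟩)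
    omega
  have hdx : dg G D x = 1 := by
    unfold dg
    rw [card_eq_one]
    refine ⟨a, ?_⟩
    ext f
    rw [mem_filter, mem_singleton]
    constructor
    · rintro ⟨hf, hxf⟩
      rcases halla f (hsub f hf) hxf with r | r
      · exact r
      · exact absurd r ((hmem f).1 hf).2.1
    · rintro rfl
      exact ⟨(hmem f).2 ⟨haQ, ha0, 0, by omega, hia0 ▸ haia⟩, hxa⟩
  have hsum := half_edges G D (fun _ => 1)
  have hdgs : ∀ v, (∑ e ∈ D, (if v ∈ G.ends e then (1 : ZMod 2) else 0)) = (dg G D v : ZMod 2) := by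
    intro v
    unfold dg
    rw [← sum_filter, sum_const, nsmul_eq_mul, mul_one]
  simp only [hdgs] at hsum
  rw [← add_sum_erase univ _ (mem_univ x)] at hsum
  rw [hdx] at hsum
  have hz : ∑ v ∈ univ.erase x, (dg G D v : ZMod 2) = 0 := by
    apply sum_eq_zero
    intro v hv
    have hvx := (mem_erase.1 hv).1
    by_cases hvy : v = y
    · rw [hvy, hdy]
      rfl
    · rcases hdeg v hvx hvy with r | r <;> rw [r]
      · rfl
      · decide
  rw [hz] at hsum
  revert hsum
  decide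

/-- every circuit through `e₀` has at least `k` edges of weight one -/
theorem le_card (h : Ctx G w A B e₀ x y) {F : Multiset (Finset E)} (hF : Cover G (del w e₀) F) {k : ℕ}
    {ch : ℕ → Finset E} (hC : Chain G x y F k ch) {Q : Finset E} (hQ : IsCircuit G Q) (hQ0 : e₀ ∈ Q) :
    k ≤ (Q.filter (fun e => w e = 1)).card := by
  have h1 : ∀ m, ∃ f, m < k → f ∈ Q ∧ w f = 1 ∧ f ∈ ch m := by
    intro m
    by_cases hm : m < k
    · obtain ⟨f, h1, h2, h3⟩ := no_gap h hF hC hQ hQ0 hm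
      exact ⟨f, fun _ => ⟨h1, h2, h3⟩⟩
    · exact ⟨e₀, fun q => absurd q hm⟩
  choose f hf using h1
  rw [← card_range k]
  apply card_le_card_of_injOn f
  · intro m hm
    rw [coe_range, Set.mem_Iio] at hm
    have := hf m hm
    rw [mem_coe, mem_filter]
    exact ⟨this.1, this.2.1⟩
  · intro m hm m' hm' heq
    rw [coe_range, Set.mem_Iio] at hm hm'
    exact (idx h hF hC (hf m hm).2.1).2 m m' hm hm' (hf m hm).2.2 (heq ▸ (hf m' hm').2.2)

end GIR

end Pool.Agent.NH93.CC
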