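import Pool.Agent.NH93.CC.Main2
import Pool.Agent.NH93.CC.GIR

/-!
# Project CC (helper93): minimal contra pairs have girth at least five
-/

set_option autoImplicit false
set_option linter.all false

open Finset

namespace Pool.Agent.NH93.CC

open Pool.Agent.Helper347.Sab (MGraph dg IsCircuit IsCubic Touch exists_ends half_edges card_ends)

namespace GIR

open TWC

variable {V E : Type} [Fintype V] [DecidableEq V] [Fintype E] [DecidableEq E]
variable {G : MGraph V E} {w : E → ℕ}

theorem handshake (G : MGraph V E) (D : Finset E) : ∑ v, dg G D v = 2 * D.card := by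
  unfold dg
  simp only [card_filter]
  rw [sum_comm]
  have : ∀ e ∈ D, (∑ v : V, if v ∈ G.ends e then 1 else 0) = 2 := by
    intro e _
    rw [← card_filter]
    exact card_ends G e
  rw [sum_congr rfl this, sum_const, smul_eq_mul, mul_comm]

theorem card_eq {G : MGraph V E} {C : Finset E} (hC : IsCircuit G C) : C.card = (Vx G C).card := by
  have h1 := handshake G C
  have h2 : ∑ v, dg G C v = ∑ v, if v ∈ Vx G C then 2 else 0 := by
    apply sum_congr rfl
    intro v _
    by_cases hv : v ∈ Vx G C
    · rw [if_pos hv, dg_two hC hv]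
    · rw [if_neg hv]
      by_contra h0
      apply hv
      unfold dg at h0
      obtain ⟨e, he⟩ := card_pos.1 (Nat.pos_of_ne_zero h0)
      rw [mem_filter] at he
      exact mem_Vx.2 ⟨e, he.1, he.2⟩
  rw [h2, ← sum_filter, sum_const, filter_mem_eq_inter, univ_inter, smul_eq_mul] at h1
  omega

theorem one_lt {G : MGraph V E} {C : Finset E} (hC : IsCircuit G C) : 2 ≤ C.card := by
  obtain ⟨e, he⟩ := hC.1
  obtain ⟨a, b, -, hab⟩ := exists_ends G e
  have ha : a ∈ Vx G C := mem_Vx.2 ⟨e, he, by rw [hab]; simp⟩
  rw [← dg_two hC ha]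
  unfold dg
  exact card_le_card (filter_subset _ _)

theorem locs {A B : Finset E} (hM : MinContra G w) (hT : Two G w A B) (v : V) :
    ∃ e e' m, Loc G w v e e' m := by
  have hdis : ∀ v, v ∈ Vx G A → v ∈ Vx G B → False := fun v ha hb =>
    (Finset.disjoint_left.1 hT.disj) ha hb
  have hA : ∀ e ∈ A, w e = 1 := fun e he => (hT.one e).2 (Or.inl he)
  have hB : ∀ e ∈ B, w e = 1 := fun e he => (hT.one e).2 (Or.inr he)
  rcases hT.all v with hv | hv
  · refine loc_aux G w hM.cubic hM.val A hT.cA v hv hA fun e he hve => ?_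
    rcases (hT.one e).1 he with q | q
    · exact q
    · exact (hdis v hv (mem_Vx.2 ⟨e, q, hve⟩)).elim
  · refine loc_aux G w hM.cubic hM.val B hT.cB v hv hB fun e he hve => ?_
    rcases (hT.one e).1 he with q | q
    · exact (hdis v (mem_Vx.2 ⟨e, q, hve⟩) hv).elim
    · exact q

/-- every circuit through `e₀` has at least `|F|` edges of weight one -/
theorem bound (hM : MinContra G w) {e₀ : E} (he : w e₀ = 2) {F : Multiset (Finset E)}
    (hF : Cover G (del w e₀) F) {Q : Finset E} (hQ : IsCircuit G Q) (hQ0 : e₀ ∈ Q) :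
    F.card ≤ (Q.filter (fun e => w e = 1)).card := by
  obtain ⟨A, B, hT, -⟩ := t_STR V E G w hM
  obtain ⟨x, hx, y, hy, hends⟩ := hT.join e₀ he
  obtain ⟨k, c, hC⟩ := t_CH V E G w hM e₀ x y he hends F hF
  have h : Ctx G w A B e₀ x y := ⟨hM.val, hT, locs hM hT, he, hends, hx, hy⟩
  have h1 : F.card = k := by rw [hC.eq]; simp
  rw [h1]
  exact le_card h hF hC hQ hQ0

/-- a circuit with edges of weight one only contains `A` or `B` -/
theorem sub_one {A B : Finset E} (hM : MinContra G w) (hT : Two G w A B) {Q : Finset E}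
    (h1 : ∀ e ∈ Q, w e = 1) (hQ : IsCircuit G Q) {C : Finset E} (hC : IsCircuit G C) (hC1 : ∀ e ∈ C, w e = 1)
    {g : E} (hg : g ∈ Q) (hgC : g ∈ C) : C ⊆ Q := by
  have key : ∀ f, Relation.ReflTransGen (fun a b => b ∈ C ∧ Touch G a b) g f → f ∈ Q := by
    intro f hf
    induction hf with
    | refl => exact hg
    | tail _ hst ih =>
      obtain ⟨hfC, v, hv, hv'⟩ := hst
      obtain ⟨e, e', m, hl⟩ := locs hM hT v
      have d := dg_two hQ (mem_Vx.2 ⟨_, ih, hv⟩)
      have hm : m ∉ Q := fun q => by
        have := h1 m q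
        rw [hl.wm] at this
        omega
      rw [dg_loc hl, if_neg hm] at d
      have he : e ∈ Q := by
        by_contra h0
        rw [if_neg h0] at d
        split_ifs at d <;> omega
      have he' : e' ∈ Q := by
        by_contra h0
        rw [if_neg h0] at d
        split_ifs at d <;> omega
      rcases hl.all _ hv' with r | r | r
      · exact r ▸ he
      · exact r ▸ he'
      · have := hC1 _ hfC
        rw [r, hl.wm] at this
        omega
  intro f hf
  exact key f (hC.2.2 g hgC f hf)

theorem girth (hM : MinContra G w) {Q : Finset E} (hQ : IsCircuit G Q) : 5 ≤ Q.card := by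
  obtain ⟨A, B, hT, hodd⟩ := t_STR V E G w hM
  have hcnt := t_CNT V E G w A B hM.cubic hM.val hT hodd hM.four
  have hA : ∀ e ∈ A, w e = 1 := fun e he => (hT.one e).2 (Or.inl he)
  have hB : ∀ e ∈ B, w e = 1 := fun e he => (hT.one e).2 (Or.inr he)
  have hdis : ∀ v, v ∈ Vx G A → v ∈ Vx G B → False := fun v ha hb =>
    (Finset.disjoint_left.1 hT.disj) ha hb
  by_cases h2 : ∃ e₀ ∈ Q, w e₀ = 2
  · obtain ⟨e₀, hQ0, he⟩ := h2
    obtain ⟨F₀, F₁, hF₀, hF₁, -, -, h3, -⟩ := t_TWC V E G w hM e₀ he
    have h4 := bound hM he hF₁ hQ hQ0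
    have h5 : 2 ≤ (Q.filter (fun e => ¬ w e = 1)).card := by
      by_contra hlt
      have h6 : e₀ ∈ Q.filter (fun e => ¬ w e = 1) := by
        rw [mem_filter]
        exact ⟨hQ0, by rw [he]; omega⟩
      have h7 : (Q.filter (fun e => ¬ w e = 1)).card = 1 := by
        have := card_pos.2 ⟨e₀, h6⟩
        omega
      obtain ⟨z, hz⟩ := card_eq_one.1 h7
      have hz0 : z = e₀ := by
        rw [hz, mem_singleton] at h6
        exact h6.symm
      have h8 : ∀ f ∈ Q, f ≠ e₀ → w f = 1 := by
        intro f hf hne
        by_contra h9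
        apply hne
        have : f ∈ Q.filter (fun e => ¬ w e = 1) := mem_filter.2 ⟨hf, h9⟩
        rw [hz, mem_singleton, hz0] at this
        exact this
      obtain ⟨x, hx, y, hy, hends⟩ := hT.join e₀ he
      have hsum := handshake G (Q ∩ A)
      have hx0 : x ∈ G.ends e₀ := by rw [hends]; simp
      have heA : e₀ ∉ A := fun q => by have := hA e₀ q; omega
      have hxd : dg G (Q ∩ A) x + 1 = 2 := by
        rw [← dg_two hQ (mem_Vx.2 ⟨e₀, hQ0, hx0⟩)]
        unfold dg
        have : Q.filter (fun e => x ∈ G.ends e) = insert e₀ ((Q ∩ A).filter (fun e => x ∈ G.ends e)) := by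
          ext f
          rw [mem_insert, mem_filter, mem_filter, mem_inter]
          constructor
          · rintro ⟨p, q⟩
            by_cases hf : f = e₀
            · exact Or.inl hf
            · right
              refine ⟨⟨p, ?_⟩, q⟩
              rcases (hT.one f).1 (h8 f p hf) with r | r
              · exact r
              · exact (hdis x hx (mem_Vx.2 ⟨f, r, q⟩)).elim
          · rintro (rfl | ⟨⟨p, _⟩, q⟩)
            · exact ⟨hQ0, hx0⟩
            · exact ⟨p, q⟩
        rw [this, card_insert_of_notMem]
        rw [mem_filter, mem_inter]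
        exact fun q => heA q.1.2
      have hvd : ∀ v, v ≠ x → dg G (Q ∩ A) v = 0 ∨ dg G (Q ∩ A) v = 2 := by
        intro v hvx
        rcases hT.all v with hv | hv
        · have : dg G (Q ∩ A) v = dg G Q v := by
            unfold dg
            congr 1
            ext f
            rw [mem_filter, mem_filter, mem_inter]
            constructor
            · rintro ⟨⟨p, _⟩, q⟩
              exact ⟨p, q⟩
            · rintro ⟨p, q⟩
              refine ⟨⟨p, ?_⟩, q⟩
              have hf : f ≠ e₀ := by
                rintro rfl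
                rw [hends, Sym2.mem_iff] at q
                rcases q with q | q
                · exact hvx q
                · exact hdis v hv (q ▸ hy)
              rcases (hT.one f).1 (h8 f p hf) with r | r
              · exact r
              · exact (hdis v hv (mem_Vx.2 ⟨f, r, q⟩)).elim
          rw [this]
          exact hQ.2.1 v
        · left
          unfold dg
          rw [card_eq_zero, filter_eq_empty_iff]
          intro f hf hvf
          rw [mem_inter] at hf
          exact hdis v (mem_Vx.2 ⟨f, hf.2, hvf⟩) hv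
      rw [← add_sum_erase univ _ (mem_univ x)] at hsum
      have heven : Even (∑ v ∈ univ.erase x, dg G (Q ∩ A) v) := by
        apply even_sum
        intro v hv
        rcases hvd v (mem_erase.1 hv).1 with r | r <;> rw [r] <;> decide
      obtain ⟨r, hr⟩ := heven
      omega
    have h6 := card_filter_add_card_filter_not (s := Q) (fun e => w e = 1)
    omega
  · push Not at h2
    have h3 : ∀ e ∈ Q, w e = 1 := fun e he => (hM.val e).resolve_right (h2 e he)
    obtain ⟨g, hg⟩ := hQ.1
    have h4 : ∀ C, IsCircuit G C → (∀ e ∈ C, w e = 1) → g ∈ C → (Vx G C).card = (Vx G A).card → 5 ≤ Q.card := by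
      intro C hC hC1 hgC hcard
      have h5 := card_le_card (sub_one hM hT h3 hQ hC hC1 hg hgC)
      have h6 := card_eq hC
      have h7 := one_lt hC
      have h8 := hcnt.1
      omega
    rcases (hT.one g).1 (h3 g hg) with r | r
    · exact h4 A hT.cA hA r rfl
    · exact h4 B hT.cB hB r hcnt.2.1

end GIR

end Pool.Agent.NH93.CC
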