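import Pool.Agent.NH93.CC.GIR2

/-!
# Project CC (helper93): edges of weight two in short circuits of minimal contra pairs
-/

set_option autoImplicit false
set_option linter.all false

open Finset

namespace Pool.Agent.NH93.CC

open Pool.Agent.Helper347.Sab (MGraph dg IsCircuit IsCubic Touch exists_ends)

namespace HAM

open TWC

variable {V E : Type} [Fintype V] [DecidableEq V] [Fintype E] [DecidableEq E]
variable {G : MGraph V E} {w : E → ℕ}

/-- every vertex other than `x`, `y` is on two members -/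
theorem two_idx (hM : MinContra G w) {e₀ : E} {x y : V} (he : w e₀ = 2) (hxy : G.ends e₀ = s(x, y))
    {F : Multiset (Finset E)} (hF : Cover G (del w e₀) F) {k : ℕ} {c : ℕ → Finset E} (hC : Chain G x y F k c)
    {v : V} (hvx : v ≠ x) (hvy : v ≠ y) : ∃ i, i + 1 < k ∧ v ∈ Vx G (c i) ∧ v ∈ Vx G (c (i + 1)) := by
  obtain ⟨A, B, hT, -⟩ := t_STR V E G w hM
  obtain ⟨e, e', m, hl⟩ := GIR.locs hM hT v
  have hm : m ≠ e₀ := by
    rintro rfl
    have := hl.vm
    rw [hxy, Sym2.mem_iff] at this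
    rcases this with q | q
    · exact hvx q
    · exact hvy q
  have h1 := hF.2 m
  have h2 : del w e₀ m = 2 := by
    unfold del
    rw [if_neg hm, hl.wm]
  rw [h2, hC.eq, cnt] at h1
  obtain ⟨i, j, hij, hee⟩ := card_eq_two.1 h1
  have hi : i ∈ (range k).filter (fun i => m ∈ c i) := by rw [hee]; simp
  have hj : j ∈ (range k).filter (fun i => m ∈ c i) := by rw [hee]; simp
  rw [mem_filter, mem_range] at hi hj
  have hvi : v ∈ Vx G (c i) := mem_Vx.2 ⟨m, hi.2, hl.vm⟩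
  have hvj : v ∈ Vx G (c j) := mem_Vx.2 ⟨m, hj.2, hl.vm⟩
  rcases lt_or_gt_of_ne hij with h | h
  · have := (hC.meet i j h hj.1).1 ⟨v, mem_inter.2 ⟨hvi, hvj⟩⟩
    subst this
    exact ⟨i, hj.1, hvi, hvj⟩
  · have := (hC.meet j i h hi.1).1 ⟨v, mem_inter.2 ⟨hvj, hvi⟩⟩
    subst this
    exact ⟨j, hi.1, hvj, hvi⟩

theorem ham (hM : MinContra G w) {Q : Finset E} (hQ : IsCircuit G Q) {e₀ : E} {x y : V} (hQ0 : e₀ ∈ Q)
    (he : w e₀ = 2) (hxy : G.ends e₀ = s(x, y)) (h3 : (Q.filter (fun e => w e = 1)).card ≤ 3) :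
    (∃ C, IsCircuit G C ∧ ∀ v, v ∈ Vx G C ↔ v ≠ x) ∧ (∃ C, IsCircuit G C ∧ ∀ v, v ∈ Vx G C ↔ v ≠ y) ∧
      ∃ C, IsCircuit G C ∧ ∀ v, v ∈ Vx G C ↔ v ≠ x ∧ v ≠ y := by
  obtain ⟨F₀, F₁, hF₀, hF₁, h0, h1, h2, -⟩ := t_TWC V E G w hM e₀ he
  have b0 := GIR.bound hM he hF₀ hQ hQ0
  have b1 := GIR.bound hM he hF₁ hQ hQ0
  obtain ⟨k, c, hc⟩ := t_CH V E G w hM e₀ x y he hxy F₀ hF₀
  obtain ⟨l, d, hd⟩ := t_CH V E G w hM e₀ x y he hxy F₁ hF₁
  have hk : F₀.card = k := by rw [hc.eq]; simp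
  have hl : F₁.card = l := by rw [hd.eq]; simp
  have hk1 := hc.pos
  obtain ⟨r, hr⟩ := h0
  have hk2 : k = 2 := by omega
  have hl3 : l = 3 := by omega
  subst hk2
  subst hl3
  have hcirc : ∀ i < 2, IsCircuit G (c i) := fun i hi => hF₀.1 _ (mem_chain hc |>.2 ⟨i, hi, rfl⟩)
  have hdirc : ∀ i < 3, IsCircuit G (d i) := fun i hi => hF₁.1 _ (mem_chain hd |>.2 ⟨i, hi, rfl⟩)
  refine ⟨⟨c 1, hcirc 1 (by omega), fun v => ⟨?_, fun hv => ?_⟩⟩, ⟨c 0, hcirc 0 (by omega), fun v => ⟨?_, fun hv => ?_⟩⟩,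
    ⟨d 1, hdirc 1 (by omega), fun v => ⟨?_, fun hv => ?_⟩⟩⟩
  · rintro hv rfl
    have := (hc.left 1 (by omega)).1 hv
    omega
  · by_cases hvy : v = y
    · rw [hvy]
      exact (hc.right 1 (by omega)).2 (by omega)
    · obtain ⟨i, hi, h5, h6⟩ := two_idx hM he hxy hF₀ hc hv hvy
      have : i = 0 := by omega
      subst this
      exact h6
  · rintro hv rfl
    have := (hc.right 0 (by omega)).1 hv
    omega
  · by_cases hvx : v = x
    · rw [hvx]
      exact (hc.left 0 (by omega)).2 rfl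
    · obtain ⟨i, hi, h5, h6⟩ := two_idx hM he hxy hF₀ hc hvx hv
      have : i = 0 := by omega
      subst this
      exact h5
  · intro hv
    refine ⟨?_, ?_⟩
    · rintro rfl
      have := (hd.left 1 (by omega)).1 hv
      omega
    · rintro rfl
      have := (hd.right 1 (by omega)).1 hv
      omega
  · obtain ⟨i, hi, h5, h6⟩ := two_idx hM he hxy hF₁ hd hv.1 hv.2
    have : i = 0 ∨ i = 1 := by omega
    rcases this with q | q
    · subst q
      exact h6
    · subst q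
      exact h5

end HAM

end Pool.Agent.NH93.CC
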