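import Pool.Agent.NH93.CC.GIR2

/-!
# Project CC (helper93): long circuits in minimal contra pairs
-/

set_option autoImplicit false
set_option linter.all false

open Finset

namespace Pool.Agent.NH93.CC

open Pool.Agent.Helper347.Sab (MGraph dg IsCircuit IsCubic Touch exists_ends)

namespace LNG

open TWC

variable {V E : Type} [Fintype V] [DecidableEq V] [Fintype E] [DecidableEq E]
variable {G : MGraph V E} {w : E → ℕ}

theorem sum_card (F : Multiset (Finset E)) : (F.map Finset.card).sum = ∑ e, F.countP (e ∈ ·) := by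
  induction F using Multiset.induction_on with
  | empty => simp
  | cons C F ih =>
    rw [Multiset.map_cons, Multiset.sum_cons, ih]
    have : ∀ e, (C ::ₘ F).countP (e ∈ ·) = F.countP (e ∈ ·) + if e ∈ C then 1 else 0 := by
      intro e
      rw [Multiset.countP_cons]
    simp only [this]
    rw [sum_add_distrib, ← card_filter, filter_mem_eq_inter, univ_inter, add_comm]

theorem sum_w (hM : MinContra G w) : ∑ e, w e = 2 * Fintype.card V := by
  obtain ⟨A, B, hT, hodd⟩ := t_STR V E G w hM
  obtain ⟨h1, h2, h3⟩ := t_CNT V E G w A B hM.cubic hM.val hT hodd hM.four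
  have h4 := CNT.card_Vx G w A B hM.cubic hM.val hT
  have h5 : (E1 w).card = (Vx G A).card + (Vx G B).card := by
    rw [CNT.E1_eq G w A B hT, card_union_of_disjoint (CNT.disj_AB G w A B hT), GIR.card_eq hT.cA, GIR.card_eq hT.cB]
  rw [← sum_add_sum_compl (E1 w) w]
  have h6 : ∑ e ∈ E1 w, w e = (E1 w).card := by
    rw [card_eq_sum_ones]
    apply sum_congr rfl
    intro e he
    exact (CNT.mem_E1 w e).1 he
  have h7 : ∑ e ∈ (E1 w)ᶜ, w e = 2 * (E1 w)ᶜ.card := by
    rw [card_eq_sum_ones, mul_sum]
    apply sum_congr rfl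
    intro e he
    have : w e ≠ 1 := fun q => (mem_compl.1 he) ((CNT.mem_E1 w e).2 q)
    rcases hM.val e with q | q <;> omega
  rw [h6, h7]
  omega

theorem sum_del (hM : MinContra G w) {e₀ : E} (he : w e₀ = 2) : ∑ e, del w e₀ e + 2 = 2 * Fintype.card V := by
  rw [← sum_w hM, ← add_sum_erase univ w (mem_univ e₀), ← add_sum_erase univ (del w e₀) (mem_univ e₀), he]
  have h1 : ∑ e ∈ univ.erase e₀, del w e₀ e = ∑ e ∈ univ.erase e₀, w e := by
    apply sum_congr rfl
    intro e h
    unfold del
    rw [if_neg (mem_erase.1 h).1]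
  have h2 : del w e₀ e₀ = 0 := by
    unfold del
    rw [if_pos rfl]
  rw [h1, h2]
  omega

theorem long (hM : MinContra G w) {Q : Finset E} (hQ : IsCircuit G Q) {e₀ : E} (he₀ : e₀ ∈ Q) (he : w e₀ = 2) :
    ∃ C, IsCircuit G C ∧ 2 * Fintype.card V ≤ ((Q.filter (fun e => w e = 1)).card - 1) * C.card + 2 := by
  obtain ⟨F₀, F₁, hF₀, hF₁, h0, h1, h3, -⟩ := t_TWC V E G w hM e₀ he
  have b0 := GIR.bound hM he hF₀ hQ he₀
  have b1 := GIR.bound hM he hF₁ hQ he₀
  have key : ∀ F : Multiset (Finset E), Cover G (del w e₀) F → F.card + 1 ≤ (Q.filter (fun e => w e = 1)).card →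
      ∃ C, IsCircuit G C ∧ 2 * Fintype.card V ≤ ((Q.filter (fun e => w e = 1)).card - 1) * C.card + 2 := by
    intro F hF hle
    have hs : (F.map Finset.card).sum + 2 = 2 * Fintype.card V := by
      rw [sum_card, ← sum_del hM he]
      congr 1
      apply sum_congr rfl
      intro e _
      exact hF.2 e
    have hne : F.toFinset.Nonempty := by
      rw [Multiset.toFinset_nonempty]
      rintro rfl
      have h5 := hF.2
      obtain ⟨x, y, hxy, hends⟩ := exists_ends G e₀
      obtain ⟨k, c, hc⟩ := t_CH V E G w hM e₀ x y he hends 0 hF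
      have h6 : (0 : Multiset (Finset E)).card = k := by rw [hc.eq]; simp
      have h7 := hc.pos
      simp at h6
      omega
    obtain ⟨C, hC, hmax⟩ := exists_max_image F.toFinset Finset.card hne
    rw [Multiset.mem_toFinset] at hC
    refine ⟨C, hF.1 C hC, ?_⟩
    have h8 : (F.map Finset.card).sum ≤ (F.map Finset.card).card • C.card := by
      apply Multiset.sum_le_card_nsmul
      intro n hn
      obtain ⟨D, hD, rfl⟩ := Multiset.mem_map.1 hn
      exact hmax D (Multiset.mem_toFinset.2 hD)
    rw [Multiset.card_map, smul_eq_mul] at h8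
    have h9 : F.card * C.card ≤ ((Q.filter (fun e => w e = 1)).card - 1) * C.card :=
      Nat.mul_le_mul_right _ (by omega)
    omega
  rw [Nat.even_iff] at h0
  rw [Nat.odd_iff] at h1
  rcases lt_or_gt_of_ne (fun q : F₀.card = F₁.card => by omega) with h | h
  · exact key F₀ hF₀ (by omega)
  · exact key F₁ hF₁ (by omega)

end LNG

end Pool.Agent.NH93.CC
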