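import Pool.Agent.NH93.CC.Stm

/-!
# Project CC: orientation of a 2-regular subgraph
-/

set_option autoImplicit false
set_option linter.unusedSectionVars false

open Finset

namespace Pool.Agent.NH93.CC

open Pool.Agent.Helper347.Sab (MGraph dg IsCircuit IsCubic)

namespace ORI

variable {V E : Type} [Fintype V] [DecidableEq V] [Fintype E] [DecidableEq E]

/-- the edges of `S` at `v` -/
def NN (G : MGraph V E) (S : Finset E) (v : V) : Finset E := S.filter fun e => v ∈ G.ends e

theorem mem_NN {G : MGraph V E} {S : Finset E} {v : V} {e : E} :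
    e ∈ NN G S v ↔ e ∈ S ∧ v ∈ G.ends e := by
  unfold NN
  rw [mem_filter]

theorem hall (G : MGraph V E) (S : Finset E) :
    ∃ t : {v : V // dg G S v = 2} → E, Function.Injective t ∧ ∀ v, t v ∈ NN G S v.1 := by
  rw [← Finset.all_card_le_biUnion_card_iff_exists_injective
    (fun v : {v : V // dg G S v = 2} => NN G S v.1)]
  intro A
  have h := Finset.card_mul_le_card_mul (m := 2) (n := 2)
    (fun (v : {v : V // dg G S v = 2}) (e : E) => e ∈ NN G S v.1)
    (s := A) (t := A.biUnion fun v => NN G S v.1)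
    (by
      intro v hv
      have h1 : NN G S v.1 ⊆ (A.biUnion fun v => NN G S v.1).bipartiteAbove
          (fun (v : {v : V // dg G S v = 2}) (e : E) => e ∈ NN G S v.1) v := by
        intro e he
        rw [mem_bipartiteAbove]
        exact ⟨mem_biUnion.mpr ⟨v, hv, he⟩, he⟩
      have h2 : (NN G S v.1).card = 2 := v.2
      exact h2.symm.le.trans (card_le_card h1))
    (by
      intro e _
      obtain ⟨x, y, hxy⟩ : ∃ x y, G.ends e = s(x, y) := by
        induction G.ends e using Sym2.inductionOn with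
        | hf x y => exact ⟨x, y, rfl⟩
      have h1 : (A.bipartiteBelow (fun (v : {v : V // dg G S v = 2}) (e : E) => e ∈ NN G S v.1) e).image
          (fun v => v.1) ⊆ {x, y} := by
        intro v hv
        rw [mem_image] at hv
        obtain ⟨w, hw, rfl⟩ := hv
        rw [mem_bipartiteBelow] at hw
        have h2 := (mem_NN.mp hw.2).2
        rw [hxy, Sym2.mem_iff] at h2
        simpa using h2
      have h2 := card_le_card h1
      rw [card_image_of_injective _ Subtype.val_injective] at h2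
      exact h2.trans card_le_two)
  omega

end ORI

open ORI in
theorem t_ORI : S_ORI := by
  classical
  intro V E _ _ _ _ G S hne hS
  obtain ⟨t0⟩ := hne
  obtain ⟨t, tinj, ht⟩ := hall G S
  have hex : ∀ v : {v : V // dg G S v = 2}, ∃ w : V, G.ends (t v) = s(v.1, w) := by
    intro v
    have h1 := (mem_NN.mp (ht v)).2
    exact ⟨Sym2.Mem.other h1, (Sym2.other_spec h1).symm⟩
  choose n hn using hex
  have hnn : ∀ v, n v ≠ v.1 := by
    intro v h
    apply G.loopless (t v)
    rw [hn v, h]
    exact Sym2.mk_isDiag_iff.mpr rfl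
  have hnm : ∀ v, t v ∈ NN G S (n v) := by
    intro v
    refine mem_NN.mpr ⟨(mem_NN.mp (ht v)).1, ?_⟩
    rw [hn v]
    exact Sym2.mem_mk_right _ _
  have hnd : ∀ v, dg G S (n v) = 2 := by
    intro v
    rcases hS (n v) with h | h
    · exfalso
      have h1 : NN G S (n v) = ∅ := card_eq_zero.mp h
      have h2 := hnm v
      rw [h1] at h2
      exact notMem_empty _ h2
    · exact h
  refine ⟨fun v => if h : dg G S v = 2 then t ⟨v, h⟩ else t0 v,
    fun v => if h : dg G S v = 2 then n ⟨v, h⟩ else v, ?_, ?_, ?_⟩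
  · intro v hv
    simp only [dif_pos hv]
    exact ⟨(mem_NN.mp (ht ⟨v, hv⟩)).1, hn ⟨v, hv⟩, hnd ⟨v, hv⟩⟩
  · intro v w hv hw h
    simp only [dif_pos hv, dif_pos hw] at h
    exact congrArg Subtype.val (tinj h)
  · intro v w hv hw h
    simp only [dif_pos hv, dif_pos hw] at h
    set y := n ⟨v, hv⟩ with hy
    have hyd : dg G S y = 2 := hnd ⟨v, hv⟩
    have a1 : t ⟨v, hv⟩ ∈ NN G S y := hnm ⟨v, hv⟩
    have a2 : t ⟨w, hw⟩ ∈ NN G S y := by
      rw [h]
      exact hnm ⟨w, hw⟩
    have a3 : t ⟨y, hyd⟩ ∈ NN G S y := ht ⟨y, hyd⟩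
    have b1 : t ⟨v, hv⟩ ≠ t ⟨y, hyd⟩ := by
      intro e
      have h1 := congrArg Subtype.val (tinj e)
      exact hnn ⟨v, hv⟩ h1.symm
    have b2 : t ⟨w, hw⟩ ≠ t ⟨y, hyd⟩ := by
      intro e
      have h1 := congrArg Subtype.val (tinj e)
      apply hnn ⟨w, hw⟩
      rw [← h]
      exact h1.symm
    have c1 : ((NN G S y).erase (t ⟨y, hyd⟩)).card = 1 := by
      rw [card_erase_of_mem a3]
      have : (NN G S y).card = 2 := hyd
      omega
    obtain ⟨z, hz⟩ := card_eq_one.mp c1
    have d1 : t ⟨v, hv⟩ = z := by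
      have : t ⟨v, hv⟩ ∈ (NN G S y).erase (t ⟨y, hyd⟩) := mem_erase.mpr ⟨b1, a1⟩
      rw [hz] at this
      exact mem_singleton.mp this
    have d2 : t ⟨w, hw⟩ = z := by
      have : t ⟨w, hw⟩ ∈ (NN G S y).erase (t ⟨y, hyd⟩) := mem_erase.mpr ⟨b2, a2⟩
      rw [hz] at this
      exact mem_singleton.mp this
    exact congrArg Subtype.val (tinj (d1.trans d2.symm))

end Pool.Agent.NH93.CC
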