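import Pool.Agent.NH93.CC.Stm

/-!
# Rotation systems exist
-/

set_option autoImplicit false

open Finset

namespace Pool.Agent.NH93.CC

open Pool.Agent.Helper347.Sab (MGraph dg IsCircuit IsCubic)

namespace RHO

/-- a fixed-point-free injection of a set with three elements -/
theorem exists_cyc {A : Type} [Fintype A] (h : Fintype.card A = 3) :
    ∃ c : A → A, Function.Injective c ∧ ∀ a, c a ≠ a := by
  have e : A ≃ Fin 3 := Fintype.equivFinOfCardEq h
  refine ⟨fun a => e.symm (e a + 1), ?_, ?_⟩
  · intro a b hab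
    have h1 := e.symm.injective hab
    have h2 : e a = e b := add_right_cancel h1
    exact e.injective h2
  · intro a ha
    have h1 : e a + 1 = e a := by
      have h2 := congrArg e ha
      simpa using h2
    revert h1
    generalize e a = x
    revert x
    decide

section

variable {V E : Type} [Fintype V] [DecidableEq V] [Fintype E] [DecidableEq E]

/-- the number of the darts at a vertex -/
theorem card_darts (G : MGraph V E) (S : Finset E) (en : Dart S → V)
    (hen : ∀ e : {e : E // e ∉ S}, G.ends e.1 = s(en (e, true), en (e, false))) (v : V) :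
    (univ.filter fun a : Dart S => en a = v).card + dg G S v = dg G univ v := by
  classical
  have hmem : ∀ a : Dart S, en a ∈ G.ends a.1.1 := by
    rintro ⟨e, i⟩
    rw [hen e]
    cases i
    · exact Sym2.mem_mk_right _ _
    · exact Sym2.mem_mk_left _ _
  have hne : ∀ e : {e : E // e ∉ S}, en (e, true) ≠ en (e, false) := by
    intro e h
    apply G.loopless e.1
    rw [hen e, h]
    exact Sym2.mk_isDiag_iff.2 rfl
  have himg : (univ.filter fun a : Dart S => en a = v).image (fun a => a.1.1) =
      univ.filter (fun e => v ∈ G.ends e ∧ e ∉ S) := by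
    ext e
    simp only [mem_image, mem_filter, mem_univ, true_and]
    constructor
    · rintro ⟨a, ha, rfl⟩
      refine ⟨?_, a.1.2⟩
      rw [← ha]
      exact hmem a
    · rintro ⟨h1, h2⟩
      have h3 := hen ⟨e, h2⟩
      rw [show G.ends e = _ from h3, Sym2.mem_iff] at h1
      rcases h1 with h1 | h1
      · exact ⟨(⟨e, h2⟩, true), h1.symm, rfl⟩
      · exact ⟨(⟨e, h2⟩, false), h1.symm, rfl⟩
  have hinj : Set.InjOn (fun a : Dart S => a.1.1) (univ.filter fun a : Dart S => en a = v) := by
    rintro ⟨e, i⟩ ha ⟨e', i'⟩ ha' h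
    have h1 : e = e' := Subtype.ext h
    subst h1
    have ha1 : en (e, i) = v := (mem_filter.1 (mem_coe.1 ha)).2
    have ha2 : en (e, i') = v := (mem_filter.1 (mem_coe.1 ha')).2
    cases i <;> cases i'
    · rfl
    · exact absurd (ha2.trans ha1.symm) (hne e)
    · exact absurd (ha1.trans ha2.symm) (hne e)
    · rfl
  rw [← Finset.card_image_of_injOn hinj, himg]
  unfold dg
  have h1 : (univ.filter fun e => v ∈ G.ends e) =
      (univ.filter fun e => v ∈ G.ends e ∧ e ∉ S) ∪ (S.filter fun e => v ∈ G.ends e) := by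
    ext e
    simp only [mem_union, mem_filter, mem_univ, true_and]
    by_cases h : e ∈ S <;> simp [h]
  rw [h1, Finset.card_union_of_disjoint]
  rw [Finset.disjoint_left]
  intro e h2 h3
  exact (mem_filter.1 h2).2.2 (mem_filter.1 h3).1

end

end RHO

open RHO in
theorem t_RHO0 (h : S_ORI) : S_RHO := by
  classical
  intro V E _ _ _ _ G S hc h2
  have hE : ∀ v : V, ∃ e : E, v ∈ G.ends e := by
    intro v
    have h1 := hc v
    unfold dg at h1
    have h3 : (univ.filter fun e => v ∈ G.ends e).Nonempty := by
      rw [← Finset.card_pos, h1]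
      norm_num
    obtain ⟨e, he⟩ := h3
    exact ⟨e, (mem_filter.1 he).2⟩
  choose t0 ht0 using hE
  obtain ⟨t, nx, ht, htinj, hnxinj⟩ := h V E G S ⟨t0⟩ h2
  have hxy : ∀ e : E, ∃ a b : V, G.ends e = s(a, b) := by
    intro e
    induction G.ends e using Sym2.ind with
    | h a b => exact ⟨a, b, rfl⟩
  choose x y hxy using hxy
  let en : Dart S → V := fun a => cond a.2 (x a.1.1) (y a.1.1)
  have hen : ∀ e : {e : E // e ∉ S}, G.ends e.1 = s(en (e, true), en (e, false)) := fun e => hxy e.1
  have hcard := card_darts G S en hen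
  have hu : ∀ v, dg G S v = 2 → ∃ d : Dart S, en d = v ∧ ∀ a, en a = v → a = d := by
    intro v hv
    have h3 := hcard v
    rw [hc v, hv] at h3
    have h4 : (univ.filter fun a : Dart S => en a = v).card = 1 := by omega
    obtain ⟨d, hd⟩ := Finset.card_eq_one.1 h4
    refine ⟨d, ?_, fun a ha => ?_⟩
    · have : d ∈ univ.filter fun a : Dart S => en a = v := by rw [hd]; exact mem_singleton_self d
      exact (mem_filter.1 this).2
    · have : a ∈ univ.filter fun a : Dart S => en a = v := mem_filter.2 ⟨mem_univ _, ha⟩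
      rw [hd] at this
      exact mem_singleton.1 this
  have hcyc : ∀ v, ∃ c : {a : Dart S // en a = v} → {a : Dart S // en a = v},
      dg G S v = 0 → Function.Injective c ∧ ∀ a, c a ≠ a := by
    intro v
    by_cases hv : dg G S v = 0
    · have h3 := hcard v
      rw [hc v, hv] at h3
      have h4 : Fintype.card {a : Dart S // en a = v} = 3 := by
        rw [Fintype.card_subtype]
        omega
      obtain ⟨c, h5, h6⟩ := exists_cyc h4
      exact ⟨c, fun _ => ⟨h5, h6⟩⟩
    · exact ⟨id, fun h => absurd h hv⟩
  choose c hcy using hcyc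
  have hr : ∀ a : Dart S, ∃ b : Dart S, (dg G S (en a) = 2 → en b = nx (en a)) ∧
      (dg G S (en a) = 0 → b = (c (en a) ⟨a, rfl⟩).1) := by
    intro a
    rcases h2 (en a) with h0 | h0
    · exact ⟨(c (en a) ⟨a, rfl⟩).1, fun h => by omega, fun _ => rfl⟩
    · obtain ⟨d, hd, -⟩ := hu (nx (en a)) (ht _ h0).2.2
      exact ⟨d, fun _ => hd, fun h => by omega⟩
  choose r hr2 hr0 using hr
  have hr0' : ∀ (a : Dart S) (v : V) (hv : en a = v), dg G S v = 0 → r a = (c v ⟨a, hv⟩).1 := by
    intro a v hv
    subst hv
    exact hr0 a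
  have hren : ∀ a, dg G S (en a) = 0 → en (r a) = en a := by
    intro a ha
    rw [hr0 a ha]
    exact (c (en a) ⟨a, rfl⟩).2
  have huniq : ∀ a b : Dart S, dg G S (en a) = 2 → en a = en b → a = b := by
    intro a b ha hab
    obtain ⟨d, -, hd⟩ := hu (en a) ha
    rw [hd a rfl, hd b hab.symm]
  have hinj : Function.Injective r := by
    intro a b hab
    rcases h2 (en a) with ha | ha <;> rcases h2 (en b) with hb | hb
    · have h3 : en a = en b := by
        rw [← hren a ha, ← hren b hb, hab]
      have h4 := hr0' a (en b) h3 hb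
      have h5 := hr0' b (en b) rfl hb
      rw [h4, h5] at hab
      have h6 := (hcy (en b) hb).1 (Subtype.ext hab)
      exact congrArg Subtype.val h6
    · exfalso
      have h3 := hr2 b hb
      have h4 := (ht _ hb).2.2
      rw [← h3, ← hab, hren a ha] at h4
      omega
    · exfalso
      have h3 := hr2 a ha
      have h4 := (ht _ ha).2.2
      rw [← h3, hab, hren b hb] at h4
      omega
    · have h3 := hr2 a ha
      have h4 := hr2 b hb
      rw [hab, h4] at h3
      exact huniq a b ha (hnxinj _ _ ha hb h3.symm)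
  refine ⟨en, t, Equiv.ofBijective r (Finite.injective_iff_bijective.1 hinj), ?_, ?_, ?_, ?_⟩
  · exact hen
  · intro a ha
    refine ⟨hren a ha, fun h3 => ?_⟩
    have h4 : r a = a := h3
    rw [hr0 a ha] at h4
    exact (hcy (en a) ha).2 ⟨a, rfl⟩ (Subtype.ext h4)
  · intro a ha
    have h3 := hr2 a ha
    obtain ⟨h4, h5, h6⟩ := ht _ ha
    refine ⟨h4, ?_, ?_⟩
    · show G.ends (t (en a)) = s(en a, en (r a))
      rw [h3]
      exact h5
    · show dg G S (en (r a)) = 2
      rw [h3]
      exact h6
  · intro a b ha hb hab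
    exact huniq a b ha (htinj _ _ ha hb hab)

end Pool.Agent.NH93.CC
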