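import Pool.Agent.NH93.CC.Stm
import Pool.Agent.Helper310.Contra2.PermCyc

/-!
# Project CC, CC-RK: the number of the closed curves and the flows with values in `ZMod 2`
-/

set_option autoImplicit false

open Finset

namespace Pool.Agent.NH93.CC

open Contra2 (ncyc)

namespace RK

variable {V : Type} [DecidableEq V]

/-- indicator of a set of darts -/
def ind (X : Finset (V × Bool)) (a : V × Bool) : ZMod 2 := if a ∈ X then 1 else 0

lemma two_mul_zmod (z : ZMod 2) : z + z = 0 := CharTwo.add_self_eq_zero z

/-- a sum over a set of darts, by edges -/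
lemma sum_eq [Fintype V] (X : Finset (V × Bool)) (φ : V → ZMod 2) :
    ∑ a ∈ X, φ a.1 = ∑ v, (φ v * ind X (v, true) + φ v * ind X (v, false)) := by
  have h1 : ∑ a ∈ X, φ a.1 = ∑ a : V × Bool, φ a.1 * ind X a := by
    have h2 : ∀ a : V × Bool, φ a.1 * ind X a = if a ∈ X then φ a.1 else 0 := by
      intro a
      unfold ind
      split_ifs
      · rw [mul_one]
      · rw [mul_zero]
    rw [Finset.sum_congr rfl fun a _ => h2 a, Finset.sum_ite_mem, Finset.univ_inter]
  rw [h1, Fintype.sum_prod_type]
  refine Finset.sum_congr rfl fun v _ => ?_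
  rw [Fintype.sum_bool]

/-- the sum of the indicator of an edge -/
lemma sum_single [Fintype V] (X : Finset (V × Bool)) (e : V) :
    ∑ a ∈ X, (Pi.single e 1 : V → ZMod 2) a.1 = ind X (e, true) + ind X (e, false) := by
  rw [sum_eq, Finset.sum_eq_single e]
  · rw [Pi.single_eq_same, one_mul, one_mul]
  · intro v _ hv
    rw [Pi.single_eq_of_ne hv, zero_mul, zero_mul, add_zero]
  · intro h
    exact absurd (mem_univ e) h

variable (ρ : Equiv.Perm (V × Bool))

/-- a finite set closed under `ρ` is closed under the inverse -/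
lemma closed_iff {X : Finset (V × Bool)} (hX : ∀ a ∈ X, ρ a ∈ X) (a : V × Bool) :
    ρ a ∈ X ↔ a ∈ X := by
  refine ⟨fun h => ?_, hX a⟩
  have h1 : X.image ρ = X := by
    refine Finset.eq_of_subset_of_card_le ?_ ?_
    · intro b hb
      obtain ⟨c, hc, rfl⟩ := Finset.mem_image.1 hb
      exact hX c hc
    · rw [Finset.card_image_of_injective _ ρ.injective]
  rw [← h1] at h
  obtain ⟨c, hc, hc'⟩ := Finset.mem_image.1 h
  rwa [← ρ.injective hc']

/-- the path lemma -/
lemma path [Fintype V] (U : Finset V) (x : V × Bool) (k : ℕ) :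
    ∃ ψ : V → ZMod 2, (∀ v, v ∉ U → ψ v = 0) ∧ ∀ X : Finset (V × Bool), (∀ a ∈ X, ρ a ∈ X) →
      ∑ a ∈ X, ψ a.1 = ind X x + ind X ((theta ρ U ^ k) x) := by
  induction k with
  | zero =>
    refine ⟨0, fun _ _ => rfl, fun X _ => ?_⟩
    rw [pow_zero, Equiv.Perm.one_apply, two_mul_zmod]
    simp
  | succ k ih =>
    obtain ⟨ψ, h1, h2⟩ := ih
    set y := (theta ρ U ^ k) x with hy
    have h3 : (theta ρ U ^ (k + 1)) x = cross U (ρ y) := by
      rw [pow_succ', Equiv.Perm.mul_apply, ← hy]
      rfl
    rw [h3]
    obtain ⟨v, i, hv⟩ : ∃ v i, ρ y = (v, i) := ⟨(ρ y).1, (ρ y).2, rfl⟩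
    rw [hv]
    have h4 : ∀ X : Finset (V × Bool), (∀ a ∈ X, ρ a ∈ X) → ind X y = ind X (v, i) := by
      intro X hX
      unfold ind
      rw [← hv]
      simp only [closed_iff ρ hX y]
    by_cases hU : v ∈ U
    · rw [cross_mem hU]
      refine ⟨fun w => ψ w + (Pi.single v 1 : V → ZMod 2) w, fun w hw => ?_, fun X hX => ?_⟩
      · have hvw : w ≠ v := fun h => hw (h ▸ hU)
        show ψ w + (Pi.single v 1 : V → ZMod 2) w = 0
        rw [h1 w hw, Pi.single_eq_of_ne hvw, add_zero]
      · rw [Finset.sum_add_distrib, h2 X hX, sum_single, h4 X hX]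
        have h5 := two_mul_zmod (ind X (v, i))
        cases i
        · calc ind X x + ind X (v, false) + (ind X (v, true) + ind X (v, false))
              = ind X x + ind X (v, true) + (ind X (v, false) + ind X (v, false)) := by ring
            _ = ind X x + ind X (v, true) := by rw [h5, add_zero]
        · calc ind X x + ind X (v, true) + (ind X (v, true) + ind X (v, false))
              = ind X x + ind X (v, false) + (ind X (v, true) + ind X (v, true)) := by ring
            _ = ind X x + ind X (v, false) := by rw [h5, add_zero]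
    · rw [cross_not_mem hU]
      exact ⟨ψ, h1, fun X hX => by rw [h2 X hX, h4 X hX]⟩

/-- the cycles after a merge are coarser -/
lemma coarser {A : Type} [Fintype A] [DecidableEq A] {θ : Equiv.Perm A} {x y : A} (h : ¬ θ.SameCycle x y) :
    (Equiv.swap x y * θ).SameCycle x y ∧
      ∀ a b, θ.SameCycle a b → (Equiv.swap x y * θ).SameCycle a b := by
  set θ' := Equiv.swap x y * θ with hθ'
  have h1 : ncyc θ' + 1 = ncyc θ := Contra2.ncyc_swap_merge h
  have h2 : θ'.SameCycle x y := by
    by_contra h3
    have h4 := Contra2.ncyc_swap_merge h3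
    rw [hθ', ← mul_assoc, Equiv.swap_mul_self, one_mul, ← hθ'] at h4
    omega
  refine ⟨h2, ?_⟩
  have h3 : ∀ a, θ'.SameCycle a (θ a) := by
    intro a
    have h4 : θ'.SameCycle a (θ' a) := Equiv.Perm.sameCycle_apply_right.2 (Equiv.Perm.SameCycle.refl _ _)
    rw [hθ', Equiv.Perm.mul_apply, ← hθ', Equiv.swap_apply_def] at h4
    split_ifs at h4 with h5 h6
    · rw [h5]
      exact h4.trans h2.symm
    · rw [h6]
      exact h4.trans h2
    · exact h4
  intro a b hab
  have h4 := Contra2.inv_sameCycle (g := fun a => Quotient.mk (Equiv.Perm.SameCycle.setoid θ') a)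
    (fun a => Quotient.sound (h3 a).symm) hab
  exact Quotient.exact h4

/-- the statement of the induction -/
lemma main [Fintype V] (U : Finset V) :
    ∃ r : ℕ, ncyc (theta ρ U) + U.card = ncyc ρ + 2 * r ∧
      (r = 0 → (∀ a, (theta ρ U).SameCycle a (ρ a)) ∧
        (∀ e ∈ U, (theta ρ U).SameCycle (e, true) (e, false)) ∧
        ∀ φ : V → ZMod 2, (∀ v, v ∉ U → φ v = 0) → IsFlow ρ φ → φ = 0) ∧
      (r ≠ 0 → ∃ φ : V → ZMod 2, (∀ v, v ∉ U → φ v = 0) ∧ IsFlow ρ φ ∧ φ ≠ 0) := by
  classical
  induction U using Finset.induction_on with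
  | empty =>
    refine ⟨0, by rw [theta_empty]; simp, fun _ => ⟨fun a => ?_, by simp, fun φ h _ => ?_⟩,
      fun h => absurd rfl h⟩
    · rw [theta_empty]
      exact Equiv.Perm.sameCycle_apply_right.2 (Equiv.Perm.SameCycle.refl _ _)
    · funext v
      exact h v (Finset.notMem_empty v)
  | insert e U he ih =>
    obtain ⟨r, h1, h2, h3⟩ := ih
    have hth := theta_insert ρ he
    by_cases hs : (theta ρ U).SameCycle (e, true) (e, false)
    · refine ⟨r + 1, ?_, fun h => absurd h (Nat.succ_ne_zero r), fun _ => ?_⟩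
      · rw [hth, Contra2.ncyc_swap_split (by simp) hs, Finset.card_insert_of_notMem he]
        omega
      · obtain ⟨k, -, hk⟩ := hs.exists_pow_eq'
        obtain ⟨ψ, h4, h5⟩ := path ρ U (e, true) k
        refine ⟨fun v => ψ v + (Pi.single e 1 : V → ZMod 2) v, fun v hv => ?_, fun X hX => ?_, ?_⟩
        · have hve : v ≠ e := fun h => hv (h ▸ Finset.mem_insert_self _ _)
          show ψ v + (Pi.single e 1 : V → ZMod 2) v = 0
          rw [h4 v (fun h => hv (Finset.mem_insert_of_mem h)), Pi.single_eq_of_ne hve, add_zero]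
        · rw [Finset.sum_add_distrib, h5 X hX, sum_single, hk, two_mul_zmod]
        · intro h
          have := congrFun h e
          simp only [h4 e he, Pi.single_eq_same, zero_add, Pi.zero_apply] at this
          exact absurd this (by decide)
    · obtain ⟨h4, h5⟩ := coarser hs
      rw [← hth] at h4 h5
      refine ⟨r, ?_, fun hr => ?_, fun hr => ?_⟩
      · have h6 := Contra2.ncyc_swap_merge hs
        rw [← hth] at h6
        rw [Finset.card_insert_of_notMem he]
        omega
      · obtain ⟨h6, h7, h8⟩ := h2 hr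
        refine ⟨fun a => h5 _ _ (h6 a), fun e' he' => ?_, fun φ h9 h10 => ?_⟩
        · rcases Finset.mem_insert.1 he' with rfl | h
          · exact h4
          · exact h5 _ _ (h7 e' h)
        · refine h8 φ (fun v hv => ?_) h10
          by_cases hve : v = e
          · subst hve
            set X : Finset (V × Bool) := univ.filter (fun a => (theta ρ U).SameCycle (v, true) a)
              with hX
            have h11 : ∀ a, a ∈ X ↔ (theta ρ U).SameCycle (v, true) a := fun a => by simp [hX]
            have h12 := h10 X fun a ha => (h11 _).2 (((h11 a).1 ha).trans (h6 a))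
            rw [sum_eq, Finset.sum_eq_single v] at h12
            · have h13 : ind X (v, true) = 1 := if_pos ((h11 _).2 (Equiv.Perm.SameCycle.refl _ _))
              have h14 : ind X (v, false) = 0 := if_neg fun h => hs ((h11 _).1 h)
              rwa [h13, h14, mul_one, mul_zero, add_zero] at h12
            · intro w _ hw
              by_cases hwU : w ∈ U
              · have h15 : ind X (w, true) = ind X (w, false) := by
                  unfold ind
                  have : (w, true) ∈ X ↔ (w, false) ∈ X := by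
                    rw [h11, h11]
                    exact ⟨fun h => h.trans (h7 w hwU), fun h => h.trans (h7 w hwU).symm⟩
                  simp only [this]
                rw [h15, two_mul_zmod]
              · rw [h9 w (fun h => (Finset.mem_insert.1 h).elim hw hwU), zero_mul, zero_mul, add_zero]
            · intro h
              exact absurd (mem_univ v) h
          · exact h9 v fun h => (Finset.mem_insert.1 h).elim hve hv
      · obtain ⟨φ, h6, h7, h8⟩ := h3 hr
        exact ⟨φ, fun v hv => h6 v fun h => hv (Finset.mem_insert_of_mem h), h7, h8⟩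

end RK

theorem t_RK : S_RK := by
  intro V _ _ ρ U
  obtain ⟨r, h1, h2, h3⟩ := RK.main ρ U
  refine ⟨r, h1, fun hr => (h2 hr).2.2, fun h => ?_⟩
  by_contra hr
  obtain ⟨φ, h4, h5, h6⟩ := h3 hr
  exact h6 (h φ h4 h5)

end Pool.Agent.NH93.CC
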