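import Pool.Agent.NH93.CC.Stm

/-!
Project CC, part TR: the two notions of flows agree (helper41).
-/

set_option autoImplicit false
set_option linter.all false

open Finset

namespace Pool.Agent.NH93.CC

open Pool.Agent.Helper347.Sab (MGraph dg IsCircuit IsCubic)

namespace TR

variable {V E : Type} [Fintype V] [DecidableEq V] [Fintype E] [DecidableEq E]

theorem card_darts (G : MGraph V E) (S : Finset E) (hG : IsCubic G) (en : Dart S → V)
    (hen : ∀ e : {e : E // e ∉ S}, G.ends e.1 = s(en (e, true), en (e, false))) (v : V) :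
    (univ.filter fun a : Dart S => en a = v).card + dg G S v = 3 := by
  have h1 : (univ.filter fun a : Dart S => en a = v).card =
      ((univ \ S).filter fun e => v ∈ G.ends e).card := by
    refine Finset.card_bij (fun a _ => a.1.1) ?_ ?_ ?_
    · intro a ha
      rw [mem_filter] at ha
      rw [mem_filter, mem_sdiff]
      refine ⟨⟨mem_univ _, a.1.2⟩, ?_⟩
      rw [hen a.1, Sym2.mem_iff]
      obtain ⟨e, i⟩ := a
      rcases i with _ | _
      · exact Or.inr ha.2.symm
      · exact Or.inl ha.2.symm
    · intro a ha b hb hab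
      rw [mem_filter] at ha hb
      obtain ⟨e, i⟩ := a
      obtain ⟨e', j⟩ := b
      have he : e = e' := Subtype.ext hab
      subst he
      by_contra hne
      have hij : i ≠ j := fun h => hne (by rw [h])
      have hdiag : (G.ends e.1).IsDiag := by
        rw [hen e, Sym2.mk_isDiag_iff]
        cases i <;> cases j
        · exact absurd rfl hij
        · exact hb.2.trans ha.2.symm
        · exact ha.2.trans hb.2.symm
        · exact absurd rfl hij
      exact G.loopless _ hdiag
    · intro e he
      rw [mem_filter, mem_sdiff] at he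
      have h2 := he.2
      have h3 := hen ⟨e, he.1.2⟩
      rw [h3, Sym2.mem_iff] at h2
      rcases h2 with h2 | h2
      · exact ⟨(⟨e, he.1.2⟩, true), by rw [mem_filter]; exact ⟨mem_univ _, h2.symm⟩, rfl⟩
      · exact ⟨(⟨e, he.1.2⟩, false), by rw [mem_filter]; exact ⟨mem_univ _, h2.symm⟩, rfl⟩
  rw [h1]
  have h3 := hG v
  unfold dg at h3 ⊢
  rw [← h3, ← Finset.card_union_of_disjoint (Finset.disjoint_filter_filter sdiff_disjoint),
    ← Finset.filter_union, Finset.sdiff_union_of_subset (subset_univ S)]

theorem same_vertex (G : MGraph V E) (S : Finset E) (hG : IsCubic G) (hS : TwoReg G S)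
    (en : Dart S → V) (t : V → E) (ρ : Equiv.Perm (Dart S)) (h : Rot G S en t ρ)
    (X : Finset (Dart S)) (hX : ∀ a ∈ X, ρ a ∈ X) (a b : Dart S) (hab : en b = en a)
    (ha : a ∈ X) : b ∈ X := by
  have hc := card_darts G S hG en h.ends (en a)
  rcases hS (en a) with h0 | h2
  · -- three darts
    rw [h0] at hc
    obtain ⟨h1, h1'⟩ := h.off a h0
    have h0' : dg G S (en (ρ a)) = 0 := by rw [h1]; exact h0
    obtain ⟨h2, h2'⟩ := h.off (ρ a) h0'
    have hne : ρ (ρ a) ≠ a := by
      intro hr
      -- the third dart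
      have hsub : ({a, ρ a} : Finset (Dart S)) ⊆ univ.filter fun c : Dart S => en c = en a := by
        intro c hc
        rw [mem_insert, mem_singleton] at hc
        rw [mem_filter]
        rcases hc with rfl | rfl
        · exact ⟨mem_univ _, rfl⟩
        · exact ⟨mem_univ _, h1⟩
      have hcard : ({a, ρ a} : Finset (Dart S)).card = 2 := card_pair h1'.symm
      have hlt : ({a, ρ a} : Finset (Dart S)).card <
          (univ.filter fun c : Dart S => en c = en a).card := by omega
      obtain ⟨c, hc1, hc2⟩ := Finset.exists_mem_notMem_of_card_lt_card hlt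
      rw [mem_filter] at hc1
      rw [mem_insert, mem_singleton, not_or] at hc2
      have h0c : dg G S (en c) = 0 := by rw [hc1.2]; exact h0
      obtain ⟨h3, h3'⟩ := h.off c h0c
      have hall : univ.filter (fun c : Dart S => en c = en a) = {a, ρ a, c} := by
        symm
        refine Finset.eq_of_subset_of_card_le ?_ ?_
        · intro d hd
          rw [mem_insert, mem_insert, mem_singleton] at hd
          rw [mem_filter]
          rcases hd with rfl | rfl | rfl
          · exact ⟨mem_univ _, rfl⟩
          · exact ⟨mem_univ _, h1⟩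
          · exact hc1
        · have h4 : ({a, ρ a, c} : Finset (Dart S)).card = 3 := by
            rw [Finset.card_eq_three]
            exact ⟨a, ρ a, c, h1'.symm, fun h => hc2.1 h.symm, fun h => hc2.2 h.symm, rfl⟩
          omega
      have h5 : ρ c ∈ univ.filter (fun c : Dart S => en c = en a) := by
        rw [mem_filter]
        exact ⟨mem_univ _, h3.trans hc1.2⟩
      rw [hall, mem_insert, mem_insert, mem_singleton] at h5
      rcases h5 with h5 | h5 | h5
      · exact hc2.2 (ρ.injective (h5.trans hr.symm))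
      · exact hc2.1 (ρ.injective h5)
      · exact h3' h5
    have hall : univ.filter (fun c : Dart S => en c = en a) = {a, ρ a, ρ (ρ a)} := by
      symm
      refine Finset.eq_of_subset_of_card_le ?_ ?_
      · intro d hd
        rw [mem_insert, mem_insert, mem_singleton] at hd
        rw [mem_filter]
        rcases hd with rfl | rfl | rfl
        · exact ⟨mem_univ _, rfl⟩
        · exact ⟨mem_univ _, h1⟩
        · exact ⟨mem_univ _, h2.trans h1⟩
      · have h4 : ({a, ρ a, ρ (ρ a)} : Finset (Dart S)).card = 3 := by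
          rw [Finset.card_eq_three]
          exact ⟨a, ρ a, ρ (ρ a), h1'.symm, hne.symm, h2'.symm, rfl⟩
        omega
    have hb : b ∈ univ.filter (fun c : Dart S => en c = en a) := by
      rw [mem_filter]
      exact ⟨mem_univ _, hab⟩
    rw [hall, mem_insert, mem_insert, mem_singleton] at hb
    rcases hb with rfl | rfl | rfl
    · exact ha
    · exact hX _ ha
    · exact hX _ (hX _ ha)
  · rw [h2] at hc
    have h1 : (univ.filter fun c : Dart S => en c = en a).card ≤ 1 := by omega
    have := Finset.card_le_one.1 h1 a (by rw [mem_filter]; exact ⟨mem_univ _, rfl⟩) b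
      (by rw [mem_filter]; exact ⟨mem_univ _, hab⟩)
    rw [← this]
    exact ha

theorem edge_of (G : MGraph V E) (S : Finset E) (hG : IsCubic G) (hS : TwoReg G S)
    (en : Dart S → V) (t : V → E) (ρ : Equiv.Perm (Dart S)) (h : Rot G S en t ρ)
    (e : E) (he : e ∈ S) : ∃ a, G.ends e = s(en a, en (ρ a)) := by
  obtain ⟨x, hx⟩ : ∃ x, x ∈ G.ends e := by
    induction' hs : G.ends e with u w
    exact ⟨u, Sym2.mem_mk_left u w⟩
  have hmem : e ∈ S.filter fun e => x ∈ G.ends e := mem_filter.2 ⟨he, hx⟩
  have hx2 : dg G S x = 2 := by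
    rcases hS x with h0 | h2
    · exfalso
      unfold dg at h0
      rw [Finset.card_eq_zero] at h0
      rw [h0] at hmem
      simp at hmem
    · exact h2
  have hc := card_darts G S hG en h.ends x
  rw [hx2] at hc
  obtain ⟨a, ha⟩ := Finset.card_pos.1 (show 0 < (univ.filter fun a : Dart S => en a = x).card by omega)
  rw [mem_filter] at ha
  have ha2 : dg G S (en a) = 2 := by rw [ha.2]; exact hx2
  obtain ⟨p1, p2, p3⟩ := h.on a ha2
  obtain ⟨b, hb⟩ : ∃ b, ρ b = a := ρ.surjective a
  have hb2 : dg G S (en b) = 2 := by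
    rcases hS (en b) with h0 | h2
    · exfalso
      obtain ⟨q1, q2⟩ := h.off b h0
      rw [hb] at q1
      rw [q1] at ha2
      omega
    · exact h2
  obtain ⟨r1, r2, r3⟩ := h.on b hb2
  have hne : t (en a) ≠ t (en b) := by
    intro hh
    have hab := h.inj a b ha2 hb2 hh
    rw [hab] at hb p2
    apply G.loopless (t (en b))
    rw [p2, hb, Sym2.mk_isDiag_iff]
  have hall : (S.filter fun e => x ∈ G.ends e) = {t (en a), t (en b)} := by
    symm
    refine Finset.eq_of_subset_of_card_le ?_ ?_
    · intro d hd
      rw [mem_insert, mem_singleton] at hd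
      rw [mem_filter]
      rcases hd with rfl | rfl
      · refine ⟨p1, ?_⟩
        rw [p2, ← ha.2]
        exact Sym2.mem_mk_left _ _
      · refine ⟨r1, ?_⟩
        rw [r2, hb, ← ha.2]
        exact Sym2.mem_mk_right _ _
    · rw [card_pair hne]
      exact hx2.le
  rw [hall, mem_insert, mem_singleton] at hmem
  rcases hmem with rfl | rfl
  · exact ⟨a, p2⟩
  · exact ⟨b, r2⟩

open Classical in
theorem sum_eq (G : MGraph V E) (S : Finset E) (en : Dart S → V)
    (hen : ∀ e : {e : E // e ∉ S}, G.ends e.1 = s(en (e, true), en (e, false)))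
    (X : Finset (Dart S)) (Y : Finset V) (hXY : ∀ a, a ∈ X ↔ en a ∈ Y)
    (φ : {e : E // e ∉ S} → ZMod 2 × ZMod 2) :
    ∑ a ∈ X, φ a.1 = ∑ e : {e : E // e ∉ S}, (if Leaves G Y e.1 then φ e else 0) := by
  have h1 : ∑ a ∈ X, φ a.1 = ∑ a : Dart S, if a ∈ X then φ a.1 else 0 := by
    rw [← Finset.sum_filter]
    congr 1
    ext a
    simp
  rw [h1, Fintype.sum_prod_type]
  refine Finset.sum_congr rfl fun e _ => ?_
  rw [Fintype.sum_bool]
  have hl : Leaves G Y e.1 ↔ (en (e, true) ∈ Y ∧ en (e, false) ∉ Y) ∨
      (en (e, false) ∈ Y ∧ en (e, true) ∉ Y) := by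
    unfold Leaves
    rw [hen e]
    constructor
    · rintro ⟨a, ha, b, hb, hab⟩
      rw [Sym2.eq_iff] at hab
      rcases hab with ⟨q1, q2⟩ | ⟨q1, q2⟩
      · exact Or.inl ⟨by rw [q1]; exact ha, by rw [q2]; exact hb⟩
      · exact Or.inr ⟨by rw [q2]; exact ha, by rw [q1]; exact hb⟩
    · rintro (⟨q1, q2⟩ | ⟨q1, q2⟩)
      · exact ⟨_, q1, _, q2, rfl⟩
      · exact ⟨_, q1, _, q2, Sym2.eq_swap⟩
  have h2 : ∀ x : ZMod 2 × ZMod 2, x + x = 0 := by decide
  by_cases ht : en (e, true) ∈ Y <;> by_cases hf : en (e, false) ∈ Y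
  · rw [if_pos ((hXY _).2 ht), if_pos ((hXY _).2 hf), if_neg (by rw [hl]; tauto)]
    exact h2 _
  · rw [if_pos ((hXY _).2 ht), if_neg (fun q => hf ((hXY _).1 q)), if_pos (by rw [hl]; tauto)]
    exact add_zero _
  · rw [if_neg (fun q => ht ((hXY _).1 q)), if_pos ((hXY _).2 hf), if_pos (by rw [hl]; tauto)]
    exact zero_add _
  · rw [if_neg (fun q => ht ((hXY _).1 q)), if_neg (fun q => hf ((hXY _).1 q)),
      if_neg (by rw [hl]; tauto)]
    exact zero_add _

end TR

theorem t_TR : S_TR := by
  classical
  intro V E _ _ _ _ G S hG hS en t ρ h φ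
  constructor
  · intro hC X hX
    have hmem : ∀ a, a ∈ X ↔ en a ∈ X.image en := by
      intro a
      constructor
      · exact fun ha => mem_image_of_mem en ha
      · intro ha
        obtain ⟨b, hb, hba⟩ := mem_image.1 ha
        exact TR.same_vertex G S hG hS en t ρ h X hX b a hba.symm hb
    have hinv : ∀ a, ρ a ∈ X → a ∈ X := by
      intro a ha
      have hm : X.map ρ.toEmbedding = X := by
        refine Finset.eq_of_subset_of_card_le ?_ (by rw [card_map])
        intro b hb
        obtain ⟨c, hc, rfl⟩ := Finset.mem_map.1 hb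
        exact hX c hc
      rw [← hm] at ha
      obtain ⟨c, hc, hca⟩ := Finset.mem_map.1 ha
      have : c = a := ρ.injective hca
      rw [← this]
      exact hc
    rw [TR.sum_eq G S en h.ends X (X.image en) hmem φ]
    have h1 := hC (X.image en) (by
      rintro e he ⟨u, hu, w, hw, huw⟩
      obtain ⟨a, ha⟩ := TR.edge_of G S hG hS en t ρ h e he
      rw [ha, Sym2.eq_iff] at huw
      rcases huw with ⟨q1, q2⟩ | ⟨q1, q2⟩
      · apply hw
        rw [← q2, ← hmem]
        apply hX
        rw [hmem, q1]
        exact hu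
      · apply hw
        rw [← q1, ← hmem]
        apply hinv
        rw [hmem, q2]
        exact hu)
    convert h1
  · intro hF Y hY
    have h1 := hF (univ.filter fun a => en a ∈ Y) (by
      intro a ha
      rw [mem_filter] at ha ⊢
      refine ⟨mem_univ _, ?_⟩
      rcases hS (en a) with h0 | h2
      · rw [(h.off a h0).1]
        exact ha.2
      · obtain ⟨p1, p2, p3⟩ := h.on a h2
        by_contra hcon
        exact hY _ p1 ⟨_, ha.2, _, hcon, p2⟩)
    rw [TR.sum_eq G S en h.ends _ Y (by intro a; rw [mem_filter]; simp) φ] at h1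
    convert h1

end Pool.Agent.NH93.CC
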