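import Pool.Agent.NH93.CC.Stm2
import Pool.Agent.NH93.CC.Col
import Pool.Agent.NH93.CC.RK
import Pool.Agent.NH93.CC.FLW
import Pool.Agent.NH93.CC.ORI
import Pool.Agent.NH93.CC.RHO
import Pool.Agent.NH93.CC.COV
import Pool.Agent.NH93.CC.TR

/-!
# Project CC (helper93): the main theorem of part 1
-/

set_option autoImplicit false

open Finset

namespace Pool.Agent.NH93.CC

open Pool.Agent.Helper347.Sab (MGraph dg IsCircuit IsCubic)

theorem t_FLW : S_FLW := t_FLW0 t_RK

theorem t_RHO : S_RHO := t_RHO0 t_ORI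

section

variable {V E : Type} [Fintype V] [DecidableEq V] [Fintype E] [DecidableEq E]

theorem faithful_of_altSum {G : MGraph V E} {S : Finset E} (hG : IsCubic G) (hS : TwoReg G S)
    {en : Dart S → V} {t : V → E} {ρ : Equiv.Perm (Dart S)} (h : Rot G S en t ρ) (h0 : altSum ρ ≠ 0) :
    Faithful G (fun e => if e ∈ S then 1 else 2) := by
  obtain ⟨q, f, hq, h1, h2⟩ := t_COL _ ρ h0
  exact t_COV V E G S hG hS en t ρ h q f hq h1 h2

theorem nzG_eq {G : MGraph V E} {S : Finset E} (hG : IsCubic G) (hS : TwoReg G S)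
    {en : Dart S → V} {t : V → E} {ρ : Equiv.Perm (Dart S)} (h : Rot G S en t ρ) : nzG G S = nz ρ := by
  unfold nzG nz
  congr 1
  ext φ
  simp only [mem_filter, mem_univ, true_and]
  rw [t_TR V E G S hG hS en t ρ h φ]

/-- The weights one and two of an eulerian weight of a cubic graph: the edges of weight one form a two-regular subgraph -/
theorem twoReg_of_eulerian {G : MGraph V E} {w : E → ℕ} (hG : IsCubic G) (hw : ∀ e, w e = 1 ∨ w e = 2)
    (he : Eulerian G w) : TwoReg G (E1 w) := by
  classical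
  intro v
  have h1 := he {v}
  have h2 : (univ.filter (fun e => Leaves G {v} e)) = univ.filter (fun e => v ∈ G.ends e) := by
    ext e
    simp only [mem_filter, mem_univ, true_and]
    constructor
    · rintro ⟨a, ha, b, hb, hab⟩
      rw [mem_singleton] at ha
      subst ha
      rw [hab]
      exact Sym2.mem_mk_left _ _
    · intro hv
      obtain ⟨b, hb⟩ := Sym2.mem_iff_exists.1 hv
      refine ⟨v, mem_singleton_self _, b, ?_, hb⟩
      rw [mem_singleton]
      rintro rfl
      exact G.loopless e (by rw [hb]; exact rfl)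
  rw [h2] at h1
  have h3 : ∑ e ∈ univ.filter (fun e => v ∈ G.ends e), w e + dg G (E1 w) v = 2 * dg G univ v := by
    have h4 : dg G (E1 w) v = ∑ e ∈ univ.filter (fun e => v ∈ G.ends e), (if w e = 1 then 1 else 0) := by
      unfold dg E1
      rw [Finset.card_filter, Finset.sum_filter, Finset.sum_filter]
      apply sum_congr rfl
      intro e _
      by_cases h5 : w e = 1 <;> simp [h5]
    have h6 : 2 * dg G univ v = ∑ e ∈ univ.filter (fun e => v ∈ G.ends e), 2 := by
      unfold dg
      rw [sum_const, smul_eq_mul, mul_comm]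
    rw [h4, h6, ← sum_add_distrib]
    apply sum_congr rfl
    intro e _
    rcases hw e with h | h <;> simp [h]
  rw [hG v] at h3
  have h7 : dg G (E1 w) v ≤ 3 := by
    rw [← hG v]
    exact card_le_card (fun e he => by
      rw [mem_filter] at he ⊢
      exact ⟨mem_univ _, he.2⟩)
  obtain ⟨r, hr⟩ := h1
  rw [hr] at h3
  omega

theorem w_eq {w : E → ℕ} (hw : ∀ e, w e = 1 ∨ w e = 2) : (fun e => if e ∈ E1 w then 1 else 2) = w := by
  funext e
  unfold E1
  rcases hw e with h | h <;> simp [h]

end

theorem t_MAIN : S_MAIN := by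
  intro V E _ _ _ _ G S hG hS h4
  obtain ⟨en, t, ρ, h⟩ := t_RHO V E G S hG hS
  refine faithful_of_altSum hG hS h (t_FLW _ ρ ?_)
  rwa [← nzG_eq hG hS h]

end Pool.Agent.NH93.CC
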