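import Pool.Agent.NH93.CC.Stm2
import Pool.Agent.Helper347.SabGraph

/-!
# Project CC, part 2, CC-ODD: some circuit of weight one is odd (helper8)
-/

set_option autoImplicit false
set_option linter.unusedSectionVars false

open Finset

namespace Pool.Agent.NH93.CC.ODD

open Pool.Agent.Helper347.Sab (MGraph dg IsCircuit IsCubic Touch exists_ends component)

variable {V E : Type} [Fintype V] [DecidableEq V] [Fintype E] [DecidableEq E]

theorem ends_in (G : MGraph V E) {X : Finset V} {e : E} (h : ¬ Leaves G X e) :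
    (∀ v ∈ G.ends e, v ∈ X) ∨ ∀ v ∈ G.ends e, v ∉ X := by
  obtain ⟨a, b, hab, he⟩ := exists_ends G e
  have h1 : ∀ v, v ∈ G.ends e ↔ v = a ∨ v = b := fun v => by rw [he, Sym2.mem_iff]
  by_cases ha : a ∈ X <;> by_cases hb : b ∈ X
  · left
    intro v hv
    rcases (h1 v).1 hv with h2 | h2 <;> rw [h2] <;> assumption
  · exact absurd ⟨a, ha, b, hb, he⟩ h
  · exact absurd ⟨b, hb, a, ha, he.trans Sym2.eq_swap⟩ h
  · right
    intro v hv
    rcases (h1 v).1 hv with h2 | h2 <;> rw [h2] <;> assumption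

theorem mem_Vx (G : MGraph V E) (C : Finset E) (v : V) : v ∈ Vx G C ↔ ∃ e ∈ C, v ∈ G.ends e := by
  unfold Vx
  simp

theorem dg_ne (G : MGraph V E) (C : Finset E) (v : V) : dg G C v ≠ 0 ↔ ∃ e ∈ C, v ∈ G.ends e := by
  unfold dg
  rw [Finset.card_ne_zero]
  constructor
  · rintro ⟨e, he⟩
    rw [mem_filter] at he
    exact ⟨e, he.1, he.2⟩
  · rintro ⟨e, h1, h2⟩
    exact ⟨e, mem_filter.2 ⟨h1, h2⟩⟩

theorem circ (G : MGraph V E) {Q : Finset E} (hQ : IsCircuit G Q) {X : Finset V}
    (hX : ∀ e ∈ Q, ¬ Leaves G X e) (hev : Even (Vx G Q).card) :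
    Even (X.filter (fun v => dg G Q v = 2)).card := by
  by_cases h : ∃ v ∈ X, dg G Q v = 2
  · obtain ⟨v, hv, hv2⟩ := h
    obtain ⟨e, he, hve⟩ := (dg_ne G Q v).1 (by omega)
    have h1 : ∀ f, Relation.ReflTransGen (fun a b => b ∈ Q ∧ Touch G a b) e f →
        ∀ u ∈ G.ends f, u ∈ X := by
      intro f hf
      induction hf with
      | refl =>
        rcases ends_in G (hX e he) with h2 | h2
        · exact h2
        · exact absurd hv (h2 v hve)
      | tail _ h3 ih =>
        rcases ends_in G (hX _ h3.1) with h2 | h2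
        · exact h2
        · obtain ⟨u, hu1, hu2⟩ := h3.2
          exact absurd (ih u hu1) (h2 u hu2)
    have h2 : X.filter (fun v => dg G Q v = 2) = Vx G Q := by
      ext u
      rw [mem_filter, mem_Vx]
      constructor
      · rintro ⟨_, h3⟩
        exact (dg_ne G Q u).1 (by omega)
      · rintro ⟨f, hf, hu⟩
        refine ⟨h1 f (hQ.2.2 e he f hf) u hu, ?_⟩
        rcases hQ.2.1 u with h3 | h3
        · exact absurd h3 ((dg_ne G Q u).2 ⟨f, hf, hu⟩)
        · exact h3
    rw [h2]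
    exact hev
  · have h2 : X.filter (fun v => dg G Q v = 2) = ∅ := by
      rw [filter_eq_empty_iff]
      intro v hv h3
      exact h ⟨v, hv, h3⟩
    rw [h2]
    simp

theorem dg_sdiff (G : MGraph V E) {D Q : Finset E} (h : Q ⊆ D) (v : V) :
    dg G D v = dg G Q v + dg G (D \ Q) v := by
  unfold dg
  rw [← card_union_of_disjoint (disjoint_filter_filter disjoint_sdiff), ← filter_union,
    union_sdiff_of_subset h]

theorem even_of (G : MGraph V E) (S : Finset E)
    (hS : ∀ Q ⊆ S, IsCircuit G Q → Even (Vx G Q).card)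
    {X : Finset V} (hX : ∀ e ∈ S, ¬ Leaves G X e) (n : ℕ) : ∀ D : Finset E, D ⊆ S → D.card ≤ n →
    (∀ v, dg G D v = 0 ∨ dg G D v = 2) → Even (X.filter (fun v => dg G D v = 2)).card := by
  have h0 : Even (X.filter (fun v => dg G ∅ v = 2)).card := by
    have h2 : X.filter (fun v => dg G ∅ v = 2) = ∅ := by
      rw [filter_eq_empty_iff]
      intro v _
      unfold dg
      simp
    rw [h2]
    simp
  induction n with
  | zero =>
    intro D _ hD _
    rw [card_eq_zero.1 (Nat.le_zero.1 hD)]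
    exact h0
  | succ n ih =>
    intro D hDS hcard hD
    rcases D.eq_empty_or_nonempty with h | hne
    · rw [h]
      exact h0
    · obtain ⟨Q, hQD, hQ, hrest⟩ := component G D hD hne
      have hlt : (D \ Q).card ≤ n := by
        have := card_sdiff_add_card_eq_card hQD
        have := hQ.1.card_pos
        omega
      have h1 := ih (D \ Q) (sdiff_subset.trans hDS) hlt hrest
      have h2 := circ G hQ (fun e he => hX e (hDS (hQD he))) (hS Q (hQD.trans hDS) hQ)
      have h3 : X.filter (fun v => dg G D v = 2) =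
          X.filter (fun v => dg G Q v = 2) ∪ X.filter (fun v => dg G (D \ Q) v = 2) := by
        ext v
        have h4 := hQ.2.1 v
        have h5 := hrest v
        have h6 := hD v
        rw [dg_sdiff G hQD v] at h6
        rw [mem_union, mem_filter, mem_filter, mem_filter, dg_sdiff G hQD v]
        by_cases hv : v ∈ X
        · simp only [hv, true_and]
          omega
        · simp [hv]
      have h7 : Disjoint (X.filter (fun v => dg G Q v = 2))
          (X.filter (fun v => dg G (D \ Q) v = 2)) := by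
        refine disjoint_filter.2 fun v _ h4 h5 => ?_
        have h6 := hD v
        rw [dg_sdiff G hQD v] at h6
        omega
      rw [h3, card_union_of_disjoint h7]
      exact h2.add h1

open Classical in
theorem count (G : MGraph V E) (T : Finset E) (X : Finset V) (hT : ∀ v, dg G T v = 1) :
    (X.card : ZMod 2) = ∑ e ∈ T, (if Leaves G X e then 1 else 0) := by
  have h1 : (X.card : ZMod 2) = ∑ v ∈ X, ∑ e ∈ T, (if v ∈ G.ends e then 1 else 0) := by
    have h2 : ∀ v ∈ X, (∑ e ∈ T, (if v ∈ G.ends e then (1 : ZMod 2) else 0)) = 1 := by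
      intro v _
      rw [Finset.sum_boole]
      have h3 := hT v
      unfold dg at h3
      have h4 : (T.filter fun e => v ∈ G.ends e).card = 1 := by convert h3
      rw [h4]
      simp
    rw [sum_congr rfl h2]
    simp
  rw [h1, sum_comm]
  refine sum_congr rfl fun e _ => ?_
  obtain ⟨a, b, hab, he⟩ := exists_ends G e
  have h2 : ∀ v, v ∈ G.ends e ↔ v = a ∨ v = b := fun v => by rw [he, Sym2.mem_iff]
  have h3 : ∑ v ∈ X, (if v ∈ G.ends e then (1 : ZMod 2) else 0) =
      (if a ∈ X then 1 else 0) + (if b ∈ X then 1 else 0) := by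
    have h4 : ∀ v ∈ X, (if v ∈ G.ends e then (1 : ZMod 2) else 0) =
        (if v = a then 1 else 0) + (if v = b then 1 else 0) := by
      intro v _
      by_cases h5 : v = a
      · have h6 : v ≠ b := fun h => hab (h5.symm.trans h)
        rw [if_pos ((h2 v).2 (Or.inl h5)), if_pos h5, if_neg h6, add_zero]
      · by_cases h6 : v = b
        · rw [if_pos ((h2 v).2 (Or.inr h6)), if_neg h5, if_pos h6, zero_add]
        · rw [if_neg (fun h => ((h2 v).1 h).elim h5 h6), if_neg h5, if_neg h6, add_zero]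
    rw [sum_congr rfl h4, sum_add_distrib, sum_ite_eq', sum_ite_eq']
  rw [h3]
  have h6 : Leaves G X e ↔ (a ∈ X ∧ b ∉ X) ∨ (b ∈ X ∧ a ∉ X) := by
    constructor
    · rintro ⟨c, hc, d, hd, hcd⟩
      rw [he, Sym2.eq_iff] at hcd
      rcases hcd with ⟨rfl, rfl⟩ | ⟨rfl, rfl⟩
      · exact Or.inl ⟨hc, hd⟩
      · exact Or.inr ⟨hc, hd⟩
    · rintro (⟨ha, hb⟩ | ⟨hb, ha⟩)
      · exact ⟨a, ha, b, hb, he⟩
      · exact ⟨b, hb, a, ha, he.trans Sym2.eq_swap⟩
  have h7 : (1 : ZMod 2) + 1 = 0 := by decide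
  by_cases ha : a ∈ X <;> by_cases hb : b ∈ X <;> simp [h6, ha, hb, h7]

open Classical in
theorem exists_two (G : MGraph V E) (w : E → ℕ) (hM : MinContra G w) : ∃ e, w e = 2 := by
  by_contra hno
  push Not at hno
  have h1 : ∀ e, w e = 1 := fun e => (hM.val e).resolve_right (hno e)
  rcases isEmpty_or_nonempty V with hV | ⟨⟨v⟩⟩
  · apply hM.contra
    refine ⟨0, by simp, fun e => ?_⟩
    obtain ⟨a, _⟩ := exists_ends G e
    exact (hV.false a).elim
  · have h2 := hM.eul {v}
    have h3 : univ.filter (fun e => Leaves G {v} e) = univ.filter (fun e => v ∈ G.ends e) := by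
      ext e
      simp only [mem_filter, mem_univ, true_and]
      constructor
      · rintro ⟨a, ha, b, hb, he⟩
        rw [mem_singleton] at ha
        rw [he, ha]
        exact Sym2.mem_mk_left _ _
      · intro hv
        obtain ⟨a, b, hab, he⟩ := exists_ends G e
        rw [he, Sym2.mem_iff] at hv
        rcases hv with rfl | rfl
        · exact ⟨v, mem_singleton_self v, b, by rw [mem_singleton]; exact hab.symm, he⟩
        · exact ⟨v, mem_singleton_self v, a, by rw [mem_singleton]; exact hab,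
            he.trans Sym2.eq_swap⟩
    rw [h3, sum_congr rfl (fun e _ => h1 e)] at h2
    have h4 := hM.cubic v
    unfold dg at h4
    have h5 : (univ.filter fun e => v ∈ G.ends e).card = 3 := by convert h4
    rw [sum_const, smul_eq_mul, mul_one, h5] at h2
    exact absurd h2 (by decide)

open Classical in
theorem flow_one (G : MGraph V E) (S : Finset E) (hc : IsCubic G) (h2 : ∀ v, dg G S v = 2)
    (hS : ∀ Q ⊆ S, IsCircuit G Q → Even (Vx G Q).card) :
    CutFlow G S (fun _ => (1, 1)) := by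
  intro X hX
  have h3 : Even X.card := by
    have h4 := even_of G S hS hX S.card S (Subset.refl S) le_rfl (fun v => Or.inr (h2 v))
    rwa [filter_true_of_mem (fun v _ => h2 v)] at h4
  have h5 : ∀ v, dg G (univ \ S) v = 1 := by
    intro v
    have h6 := dg_sdiff G (subset_univ S) v
    rw [hc v, h2 v] at h6
    omega
  have h6 := count G (univ \ S) X h5
  rw [(ZMod.natCast_eq_zero_iff_even).2 h3] at h6
  rw [Finset.sum_subtype (univ \ S) (p := fun e => e ∉ S) (by simp)] at h6
  have h7 : ∀ e : {e : E // e ∉ S}, (if Leaves G X e.1 then ((1, 1) : ZMod 2 × ZMod 2) else 0) =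
      ((AddMonoidHom.id (ZMod 2)).prod (AddMonoidHom.id (ZMod 2))) (if Leaves G X e.1 then 1 else 0) := by
    intro e
    by_cases h : Leaves G X e.1
    · rw [if_pos h, if_pos h]
      rfl
    · rw [if_neg h, if_neg h, map_zero]
  rw [sum_congr rfl fun e _ => h7 e, ← map_sum, ← h6, map_zero]

open Classical in
theorem nz_odd (G : MGraph V E) (S : Finset E) (hc : IsCubic G) (h2 : ∀ v, dg G S v = 2)
    (hS : ∀ Q ⊆ S, IsCircuit G Q → Even (Vx G Q).card) : Odd (nzG G S) := by
  obtain ⟨φ₀, hφ₀⟩ : ∃ φ₀ : {e : E // e ∉ S} → ZMod 2 × ZMod 2, φ₀ = fun _ => (1, 1) := ⟨_, rfl⟩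
  obtain ⟨Φ, hΦ⟩ : ∃ Φ, Φ = univ.filter (fun φ : {e : E // e ∉ S} → ZMod 2 × ZMod 2 =>
    (∀ e, φ e ≠ 0) ∧ CutFlow G S φ) := ⟨_, rfl⟩
  have hmem : ∀ φ, φ ∈ Φ ↔ (∀ e, φ e ≠ 0) ∧ CutFlow G S φ := by
    intro φ
    rw [hΦ, mem_filter]
    simp
  have hne : ((1, 1) : ZMod 2 × ZMod 2) ≠ 0 := by decide
  have h0 : φ₀ ∈ Φ := by
    rw [hmem, hφ₀]
    exact ⟨fun e => hne, flow_one G S hc h2 hS⟩
  have hsw0 : ∀ p : ZMod 2 × ZMod 2, p ≠ 0 → p.swap ≠ 0 := by decide
  have hsw1 : ∀ p : ZMod 2 × ZMod 2, p ≠ 0 → p.swap = p → p = (1, 1) := by decide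
  have hsw : ∀ φ ∈ Φ, (fun e => (φ e).swap) ∈ Φ := by
    intro φ hφ
    rw [hmem] at hφ ⊢
    refine ⟨fun e => hsw0 _ (hφ.1 e), fun X hX => ?_⟩
    have h3 := hφ.2 X hX
    have h7 : ∀ e : {e : E // e ∉ S}, (if Leaves G X e.1 then (φ e).swap else 0) =
        (AddEquiv.prodComm (M := ZMod 2) (N := ZMod 2)) (if Leaves G X e.1 then φ e else 0) := by
      intro e
      by_cases h : Leaves G X e.1
      · rw [if_pos h, if_pos h]
        rfl
      · rw [if_neg h, if_neg h, map_zero]
    rw [sum_congr rfl fun e _ => h7 e, ← map_sum, h3, map_zero]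
  have h1 : (((Φ.erase φ₀).card : ℕ) : ZMod 2) = 0 := by
    have h3 : ∑ φ ∈ Φ.erase φ₀, (1 : ZMod 2) = 0 := by
      refine Finset.sum_involution (fun φ _ e => (φ e).swap) (fun φ _ => by decide) ?_ ?_ ?_
      · intro φ hφ _ heq
        rw [mem_erase] at hφ
        refine hφ.1 ?_
        rw [hφ₀]
        funext e
        exact hsw1 _ (((hmem φ).1 hφ.2).1 e) (congrFun heq e)
      · intro φ hφ
        rw [mem_erase] at hφ ⊢
        refine ⟨fun h => hφ.1 ?_, hsw φ hφ.2⟩
        rw [hφ₀] at h ⊢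
        funext e
        have h4 := congrFun h e
        have h5 : (φ e).swap.swap = ((1, 1) : ZMod 2 × ZMod 2).swap := congrArg Prod.swap h4
        rw [Prod.swap_swap] at h5
        exact h5
      · intro φ hφ
        funext e
        exact Prod.swap_swap _
    rw [sum_const, nsmul_eq_mul, mul_one] at h3
    exact h3
  have h4 : Even (Φ.erase φ₀).card := (ZMod.natCast_eq_zero_iff_even).1 h1
  have h5 : (Φ.erase φ₀).card + 1 = Φ.card := card_erase_add_one h0
  have h6 : nzG G S = Φ.card := by rw [hΦ]; rfl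
  rw [h6, ← h5]
  exact h4.add_one

end Pool.Agent.NH93.CC.ODD

namespace Pool.Agent.NH93.CC

open Pool.Agent.Helper347.Sab (MGraph dg IsCircuit IsCubic exists_ends)

theorem t_ODD0 (h1 : S_MAIN) (h2 : S_PAR) : S_ODD := by
  intro V E _ _ _ _ G w hM
  obtain ⟨e₀, he₀⟩ := ODD.exists_two G w hM
  obtain ⟨x, y, hxy, hends⟩ := exists_ends G e₀
  obtain ⟨h3, -⟩ := h2 V E G w hM e₀ x y he₀ hends
  by_contra hno
  have hev : ∀ Q ⊆ E1 w, IsCircuit G Q → Even (Vx G Q).card := by
    intro Q hQ hc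
    rw [← Nat.not_odd_iff_even]
    exact fun h => hno ⟨Q, hQ, hc, h⟩
  have hodd : Odd (nzG G (E1 w)) := ODD.nz_odd G (E1 w) hM.cubic h3 hev
  have h4 : ¬ 4 ∣ nzG G (E1 w) := by
    rintro ⟨k, hk⟩
    obtain ⟨m, hm⟩ := hodd
    omega
  obtain ⟨F, hF1, hF2⟩ := h1 V E G (E1 w) hM.cubic (fun v => Or.inr (h3 v)) h4
  refine hM.contra ⟨F, hF1, fun e => ?_⟩
  rw [hF2 e]
  unfold E1
  rcases hM.val e with h | h
  · simp [h]
  · simp [h]

end Pool.Agent.NH93.CC
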