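import Pool.Agent.NH93.CC.Stm2
import Pool.Agent.Helper347.SabGraph

/-!
# CC-PAR (helper59): the parity of the circuits of weight one
-/

set_option autoImplicit false

open Finset

namespace Pool.Agent.NH93.CC

open Pool.Agent.Helper347.Sab (MGraph dg IsCircuit IsCubic half_edges exists_ends)

namespace PAR

variable {V E : Type} [Fintype V] [DecidableEq V] [Fintype E] [DecidableEq E]

lemma mem_Vx {G : MGraph V E} {C : Finset E} {v : V} : v ∈ Vx G C ↔ ∃ e ∈ C, v ∈ G.ends e := by
  unfold Vx
  simp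

lemma dg_pos {G : MGraph V E} {C : Finset E} {v : V} : v ∈ Vx G C ↔ 0 < dg G C v := by
  rw [mem_Vx]
  unfold dg
  rw [card_pos]
  constructor
  · rintro ⟨e, he, hv⟩
    exact ⟨e, mem_filter.2 ⟨he, hv⟩⟩
  · rintro ⟨e, he⟩
    rw [mem_filter] at he
    exact ⟨e, he.1, he.2⟩

/-- the indices of the circuits containing `e` -/
def N (k : ℕ) (c : ℕ → Finset E) (e : E) : Finset ℕ := (range k).filter (fun i => e ∈ c i)

/-- the indices of the circuits through `v` -/
def I (G : MGraph V E) (k : ℕ) (c : ℕ → Finset E) (v : V) : Finset ℕ := (range k).filter (fun i => 0 < dg G (c i) v)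

lemma sum_nb {M : Type} [AddCommMonoid M] (G : MGraph V E) (k : ℕ) (c : ℕ → Finset E) (v : V) (f : ℕ → M) :
    ∑ e ∈ univ.filter (fun e => v ∈ G.ends e), ∑ i ∈ N k c e, f i = ∑ i ∈ range k, dg G (c i) v • f i := by
  have h : ∀ e, ∑ i ∈ N k c e, f i = ∑ i ∈ range k, if e ∈ c i then f i else 0 := by
    intro e
    unfold N
    rw [sum_filter]
  simp_rw [h]
  rw [sum_comm]
  refine sum_congr rfl fun i _ => ?_
  rw [← sum_filter, sum_const]
  congr 1
  unfold dg
  congr 1
  ext e
  simp [and_comm]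

variable {G : MGraph V E} {w : E → ℕ} {e₀ : E} {x y : V} {F : Multiset (Finset E)} {k : ℕ} {c : ℕ → Finset E}

lemma card_N (hF : Cover G (del w e₀) F) (hc : Chain G x y F k c) (e : E) : (N k c e).card = del w e₀ e := by
  rw [← hF.2 e, hc.eq, Multiset.countP_map]
  rfl

lemma circ (hF : Cover G (del w e₀) F) (hc : Chain G x y F k c) {i : ℕ} (hi : i < k) : IsCircuit G (c i) := by
  apply hF.1
  rw [hc.eq]
  exact Multiset.mem_map.2 ⟨i, Multiset.mem_range.2 hi, rfl⟩

lemma consec (hc : Chain G x y F k c) {v : V} {i j : ℕ} (hi : i ∈ I G k c v) (hj : j ∈ I G k c v) (hij : i ≠ j) :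
    j = i + 1 ∨ i = j + 1 := by
  unfold I at hi hj
  rw [mem_filter, mem_range, ← dg_pos] at hi hj
  rcases lt_or_gt_of_ne hij with h | h
  · left
    exact (hc.meet i j h hj.1).1 ⟨v, mem_inter.2 ⟨hi.2, hj.2⟩⟩
  · right
    exact (hc.meet j i h hi.1).1 ⟨v, mem_inter.2 ⟨hj.2, hi.2⟩⟩

lemma card_I (hc : Chain G x y F k c) (v : V) : (I G k c v).card ≤ 2 := by
  by_contra h
  push Not at h
  obtain ⟨a, b, d, ha, hb, hd, hab, had, hbd⟩ := two_lt_card_iff.1 h
  have h1 := consec hc ha hb hab
  have h2 := consec hc ha hd had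
  have h3 := consec hc hb hd hbd
  omega

lemma card_x (hc : Chain G x y F k c) : (I G k c x).card = 1 := by
  have : I G k c x = {0} := by
    ext i
    unfold I
    rw [mem_filter, mem_range, ← dg_pos, mem_singleton]
    constructor
    · rintro ⟨h1, h2⟩
      exact (hc.left i h1).1 h2
    · intro h
      subst h
      exact ⟨hc.pos, (hc.left 0 hc.pos).2 rfl⟩
  rw [this, card_singleton]

lemma card_y (hc : Chain G x y F k c) : (I G k c y).card = 1 := by
  have hp := hc.pos
  have : I G k c y = {k - 1} := by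
    ext i
    unfold I
    rw [mem_filter, mem_range, ← dg_pos, mem_singleton]
    constructor
    · rintro ⟨h1, h2⟩
      have := (hc.right i h1).1 h2
      omega
    · intro h
      have h1 : i < k := by omega
      exact ⟨h1, (hc.right i h1).2 (by omega)⟩
  rw [this, card_singleton]

lemma mem_I_of_mem_N {e : E} {v : V} {i : ℕ} (hv : v ∈ G.ends e) (hi : i ∈ N k c e) : i ∈ I G k c v := by
  unfold N at hi
  unfold I
  rw [mem_filter] at hi ⊢
  refine ⟨hi.1, ?_⟩
  rw [← dg_pos, mem_Vx]
  exact ⟨e, hi.2, hv⟩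

lemma vertex (hM : MinContra G w) (he : w e₀ = 2) (hxy : G.ends e₀ = s(x, y)) (hF : Cover G (del w e₀) F)
    (hc : Chain G x y F k c) (v : V) :
    dg G (E1 w) v = 2 ∧
      ∑ e ∈ (E1 w).filter (fun e => v ∈ G.ends e), ∑ i ∈ N k c e, (i : ZMod 2) = if v = x ∨ v = y then 0 else 1 := by
  have hd : ∀ i ∈ range k, dg G (c i) v = 0 ∨ dg G (c i) v = 2 := fun i hi =>
    (circ hF hc (mem_range.1 hi)).2.1 v
  -- counting
  have hcount := sum_nb G k c v (fun _ => (1 : ℕ))
  have hI : ∑ i ∈ range k, dg G (c i) v • (1 : ℕ) = 2 * (I G k c v).card := by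
    unfold I
    rw [card_filter, mul_sum]
    refine sum_congr rfl fun i hi => ?_
    rcases hd i hi with h | h <;> simp [h]
  rw [hI] at hcount
  have hN : ∀ e, ∑ i ∈ N k c e, (1 : ℕ) = del w e₀ e := by
    intro e
    rw [sum_const, smul_eq_mul, mul_one, card_N hF hc]
  simp_rw [hN] at hcount
  -- parity
  have hpar := sum_nb G k c v (fun i => (i : ZMod 2))
  have hz : ∑ i ∈ range k, dg G (c i) v • (i : ZMod 2) = 0 := by
    refine sum_eq_zero fun i hi => ?_
    rcases hd i hi with h | h
    · rw [h, zero_smul]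
    · rw [h, two_smul]
      generalize (i : ZMod 2) = z
      revert z
      decide
  rw [hz] at hpar
  -- the edges of weight two
  obtain ⟨T, hT⟩ : ∃ T : Finset E, T = (univ.filter (fun e => v ∈ G.ends e)).filter (fun e => w e = 2) := ⟨_, rfl⟩
  have hE1 : (E1 w).filter (fun e => v ∈ G.ends e) = (univ.filter (fun e => v ∈ G.ends e)).filter (fun e => ¬ w e = 2) := by
    ext e
    unfold E1
    simp only [mem_filter, mem_univ, true_and]
    have := hM.val e
    constructor
    · rintro ⟨h1, h2⟩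
      exact ⟨h2, by omega⟩
    · rintro ⟨h1, h2⟩
      exact ⟨by omega, h1⟩
  have h3 : (univ.filter (fun e => v ∈ G.ends e)).card = 3 := hM.cubic v
  have hcd := card_filter_add_card_filter_not (s := univ.filter (fun e => v ∈ G.ends e)) (fun e => w e = 2)
  rw [← hT, ← hE1, h3] at hcd
  have hwsum : ∑ e ∈ univ.filter (fun e => v ∈ G.ends e), w e = 3 + T.card := by
    rw [hT, card_filter, ← h3, card_eq_sum_ones, ← sum_add_distrib]
    refine sum_congr rfl fun e _ => ?_
    rcases hM.val e with h | h <;> simp [h]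
  have hdel : ∑ e ∈ univ.filter (fun e => v ∈ G.ends e), w e =
      ∑ e ∈ univ.filter (fun e => v ∈ G.ends e), del w e₀ e + if v ∈ G.ends e₀ then 2 else 0 := by
    have : ∀ e, w e = del w e₀ e + if e = e₀ then 2 else 0 := by
      intro e
      unfold del
      by_cases h : e = e₀
      · rw [if_pos h, if_pos h, h, he]
      · rw [if_neg h, if_neg h, add_zero]
    calc ∑ e ∈ univ.filter (fun e => v ∈ G.ends e), w e
        = ∑ e ∈ univ.filter (fun e => v ∈ G.ends e), (del w e₀ e + if e = e₀ then 2 else 0) :=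
          sum_congr rfl fun e _ => this e
      _ = _ := by
        rw [sum_add_distrib, sum_ite_eq']
        simp
  have hsplit := sum_filter_add_sum_filter_not (univ.filter (fun e => v ∈ G.ends e)) (fun e => w e = 2)
    (fun e => ∑ i ∈ N k c e, (i : ZMod 2))
  rw [← hT, ← hE1, hpar] at hsplit
  have hmem : v ∈ G.ends e₀ ↔ v = x ∨ v = y := by
    rw [hxy, Sym2.mem_iff]
  have hdg : dg G (E1 w) v = ((E1 w).filter (fun e => v ∈ G.ends e)).card := rfl
  have h2z : ∀ z z' : ZMod 2, z + z' = 0 → z' = z := by decide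
  have hsw := h2z _ _ hsplit
  by_cases hv : v = x ∨ v = y
  · have h1 : (I G k c v).card = 1 := by
      rcases hv with h | h
      · rw [h]; exact card_x hc
      · rw [h]; exact card_y hc
    rw [if_pos (hmem.2 hv)] at hdel
    have hT1 : T.card = 1 := by omega
    refine ⟨by rw [hdg]; omega, ?_⟩
    rw [if_pos hv, hsw]
    have hTe : T = {e₀} := by
      symm
      apply eq_of_subset_of_card_le
      · rw [singleton_subset_iff, hT, mem_filter, mem_filter]
        exact ⟨⟨mem_univ _, hmem.2 hv⟩, he⟩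
      · rw [hT1, card_singleton]
    rw [hTe, sum_singleton]
    have : N k c e₀ = ∅ := by
      rw [← card_eq_zero, card_N hF hc]
      unfold del
      rw [if_pos rfl]
    rw [this, sum_empty]
  · have hle := card_I hc v
    rw [if_neg (fun h => hv (hmem.1 h))] at hdel
    have hT1 : T.card = 1 := by omega
    refine ⟨by rw [hdg]; omega, ?_⟩
    rw [if_neg hv, hsw]
    obtain ⟨e₃, he₃⟩ := card_eq_one.1 hT1
    rw [he₃, sum_singleton]
    have hm : e₃ ∈ T := by rw [he₃]; exact mem_singleton_self _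
    rw [hT, mem_filter, mem_filter] at hm
    have hne : e₃ ≠ e₀ := by
      intro h
      rw [h] at hm
      exact hv (hmem.1 hm.1.2)
    have hcN : (N k c e₃).card = 2 := by
      rw [card_N hF hc]
      unfold del
      rw [if_neg hne, hm.2]
    obtain ⟨i, j, hij, hNij⟩ := card_eq_two.1 hcN
    have hi : i ∈ I G k c v := mem_I_of_mem_N hm.1.2 (by rw [hNij]; simp)
    have hj : j ∈ I G k c v := mem_I_of_mem_N hm.1.2 (by rw [hNij]; simp)
    rw [hNij, sum_pair hij]
    have h1 : ∀ z : ZMod 2, z + (z + 1) = 1 := by decide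
    rcases consec hc hi hj hij with h | h
    · rw [h]
      push_cast
      exact h1 _
    · rw [h]
      push_cast
      rw [add_comm]
      exact h1 _

end PAR

open PAR in
theorem t_PAR0 (h : S_CH) : S_PAR := by
  intro V E _ _ _ _ G w hM e₀ x y he hxy
  obtain ⟨F, hF⟩ := hM.minimal e₀ he
  obtain ⟨k, c, hc⟩ := h V E G w hM e₀ x y he hxy F hF
  have hv := vertex hM he hxy hF hc
  refine ⟨fun v => (hv v).1, ?_⟩
  intro Q hQ hQc
  have hne : x ≠ y := by
    intro h1
    apply G.loopless e₀
    rw [hxy, h1]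
    exact Sym2.mk_isDiag_iff.2 rfl
  have key := half_edges G Q (fun e => ∑ i ∈ N k c e, (i : ZMod 2))
  have h1 : ∀ v, ∑ e ∈ Q, (if v ∈ G.ends e then ∑ i ∈ N k c e, (i : ZMod 2) else 0) =
      if v ∈ Vx G Q then (if v = x ∨ v = y then 0 else 1) else 0 := by
    intro v
    rw [← sum_filter]
    by_cases hvQ : v ∈ Vx G Q
    · rw [if_pos hvQ, ← (hv v).2]
      congr 1
      apply eq_of_subset_of_card_le (filter_subset_filter _ hQ)
      have h2 : dg G Q v = 2 := by
        have h3 := dg_pos.1 hvQ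
        rcases hQc.2.1 v with h4 | h4 <;> omega
      have h5 := (hv v).1
      unfold dg at h2 h5
      rw [h2, h5]
    · rw [if_neg hvQ]
      have : Q.filter (fun e => v ∈ G.ends e) = ∅ := by
        rw [filter_eq_empty_iff]
        intro e heQ hve
        exact hvQ (mem_Vx.2 ⟨e, heQ, hve⟩)
      rw [this, sum_empty]
  simp_rw [h1] at key
  rw [← sum_filter, filter_mem_eq_inter, univ_inter] at key
  have h2 : ((Vx G Q).card : ZMod 2) = ((if x ∈ Vx G Q then 1 else 0 : ℕ) : ZMod 2) + ((if y ∈ Vx G Q then 1 else 0 : ℕ) : ZMod 2) := by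
    have h3 : ∀ v : V, (1 : ZMod 2) = (if v = x then 1 else 0) + (if v = y then 1 else 0) + (if v = x ∨ v = y then 0 else 1) := by
      intro v
      by_cases ha : v = x
      · have hb : v ≠ y := fun hb => hne (ha.symm.trans hb)
        simp [ha, hne]
      · by_cases hb : v = y
        · simp [hb, hne.symm]
        · simp [ha, hb]
    calc ((Vx G Q).card : ZMod 2) = ∑ v ∈ Vx G Q, (1 : ZMod 2) := by simp
      _ = ∑ v ∈ Vx G Q, ((if v = x then 1 else 0) + (if v = y then 1 else 0) + (if v = x ∨ v = y then 0 else 1)) :=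
        sum_congr rfl fun v _ => h3 v
      _ = _ := by
        rw [sum_add_distrib, sum_add_distrib, key, add_zero, sum_ite_eq', sum_ite_eq']
        push_cast
        rfl
  have h4 : ((Vx G Q).card : ZMod 2) = (((if x ∈ Vx G Q then 1 else 0) + (if y ∈ Vx G Q then 1 else 0) : ℕ) : ZMod 2) := by
    rw [h2]
    push_cast
    rfl
  exact (ZMod.natCast_eq_natCast_iff' _ _ 2).1 h4

end Pool.Agent.NH93.CC
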