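import Pool.Agent.NH93.CC.Stm2

/-! Project CC, job CC-SHR: consecutive circuits share a positive even number of edges (helper89). -/

set_option autoImplicit false
set_option linter.unusedSectionVars false

open Finset

namespace Pool.Agent.NH93.CC

open Pool.Agent.Helper347.Sab (MGraph dg IsCircuit IsCubic)

namespace SHR

variable {V E : Type} [Fintype V] [DecidableEq V] [Fintype E] [DecidableEq E]
  {G : MGraph V E} {w : E → ℕ}

lemma card_eq {e₀ : E} {F : Multiset (Finset E)} {k : ℕ} {c : ℕ → Finset E}
    (hF : Cover G (del w e₀) F) (hE : F = (Multiset.range k).map c) (e : E) :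
    ((Finset.range k).filter (fun j => e ∈ c j)).card = del w e₀ e := by
  have h1 := hF.2 e
  rw [hE, Multiset.countP_map] at h1
  exact h1

lemma mem_Vx {C : Finset E} {e : E} {v : V} (he : e ∈ C) (hv : v ∈ G.ends e) : v ∈ Vx G C := by
  classical
  unfold Vx
  rw [mem_filter]
  exact ⟨mem_univ _, e, he, hv⟩

/-- an end of an edge -/
lemma exists_end (e : E) : ∃ v, v ∈ G.ends e := by
  induction h : G.ends e using Sym2.ind with
  | _ a b => exact ⟨a, Sym2.mem_mk_left a b⟩

/-- members with a common edge are consecutive -/
lemma consec {x y : V} {F : Multiset (Finset E)} {k : ℕ} {c : ℕ → Finset E} (hc : Chain G x y F k c)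
    {e : E} {i j : ℕ} (hi : e ∈ c i) (hj : e ∈ c j) (hij : i < j) (hjk : j < k) : j = i + 1 := by
  obtain ⟨v, hv⟩ := exists_end (G := G) e
  exact (hc.meet i j hij hjk).1 ⟨v, mem_inter.2 ⟨mem_Vx hi hv, mem_Vx hj hv⟩⟩

/-- an edge in two members has weight two -/
lemma two_of {e₀ : E} {F : Multiset (Finset E)} {k : ℕ} {c : ℕ → Finset E}
    (hw : ∀ e, w e = 1 ∨ w e = 2) (hF : Cover G (del w e₀) F) (hE : F = (Multiset.range k).map c)
    {e : E} {i j : ℕ} (hi : e ∈ c i) (hj : e ∈ c j) (hij : i < j) (hjk : j < k) : w e = 2 := by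
  have h1 := card_eq hF hE e
  have h2 : ({i, j} : Finset ℕ) ⊆ (Finset.range k).filter (fun j => e ∈ c j) := by
    intro l hl
    rw [mem_insert, mem_singleton] at hl
    rw [mem_filter, mem_range]
    rcases hl with rfl | rfl
    · exact ⟨hij.trans hjk, hi⟩
    · exact ⟨hjk, hj⟩
  have h3 := card_le_card h2
  rw [card_pair hij.ne, h1] at h3
  have h4 : del w e₀ e ≤ w e := by
    unfold del
    split_ifs
    · exact Nat.zero_le _
    · exact le_rfl
  rcases hw e with h5 | h5
  · omega
  · exact h5

/-- an edge of weight two in a member lies in another member -/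
lemma other {e₀ : E} {F : Multiset (Finset E)} {k : ℕ} {c : ℕ → Finset E}
    (hF : Cover G (del w e₀) F) (hE : F = (Multiset.range k).map c)
    {e : E} {i : ℕ} (hi : e ∈ c i) (hik : i < k) (h2 : w e = 2) : ∃ j < k, j ≠ i ∧ e ∈ c j := by
  have h1 := card_eq hF hE e
  have hmem : i ∈ (Finset.range k).filter (fun j => e ∈ c j) := by
    rw [mem_filter, mem_range]
    exact ⟨hik, hi⟩
  have h3 : 1 < ((Finset.range k).filter (fun j => e ∈ c j)).card := by
    have h5 := card_pos.2 ⟨i, hmem⟩
    rw [h1] at h5 ⊢
    unfold del at h5 ⊢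
    by_cases h4 : e = e₀
    · rw [if_pos h4] at h5
      exact absurd h5 (lt_irrefl _)
    · rw [if_neg h4, h2]
      exact one_lt_two
  obtain ⟨j, hj, hne⟩ := exists_mem_ne h3 i
  rw [mem_filter, mem_range] at hj
  exact ⟨j, hj.1, hne, hj.2⟩

open Classical in
/-- a circuit has an even number of edges of weight two -/
lemma even_wt {A B : Finset E} (hw : ∀ e, w e = 1 ∨ w e = 2) (hT : Two G w A B) {C : Finset E}
    (hC : IsCircuit G C) : Even (C.filter (fun e => w e = 2)).card := by
  have hdc : ∑ v ∈ Vx G A, dg G C v =
      ∑ e ∈ C, ((Vx G A).filter (fun v => v ∈ G.ends e)).card := by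
    unfold dg
    have := Finset.sum_card_bipartiteAbove_eq_sum_card_bipartiteBelow
      (s := Vx G A) (t := C) (fun (v : V) (e : E) => v ∈ G.ends e)
    simp only [Finset.bipartiteAbove, Finset.bipartiteBelow] at this
    rw [← this]
  have hval : ∀ e ∈ C, ((Vx G A).filter (fun v => v ∈ G.ends e)).card =
      (if w e = 2 then 1 else 0) + 2 * (if e ∈ A then 1 else 0) := by
    intro e _
    rcases hw e with h1 | h1
    · have h12 : ¬ w e = 2 := by omega
      rw [if_neg h12]
      rcases (hT.one e).1 h1 with h2 | h2
      · rw [if_pos h2]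
        have hl := G.loopless e
        induction he : G.ends e using Sym2.ind with
        | _ a b =>
          rw [he, Sym2.mk_isDiag_iff] at hl
          have e1 : (Vx G A).filter (fun v => v ∈ s(a, b)) = {a, b} := by
            ext v
            rw [mem_filter, Sym2.mem_iff, mem_insert, mem_singleton]
            constructor
            · exact fun h => h.2
            · rintro (rfl | rfl)
              · exact ⟨mem_Vx h2 (by rw [he]; exact Sym2.mem_mk_left _ _), Or.inl rfl⟩
              · exact ⟨mem_Vx h2 (by rw [he]; exact Sym2.mem_mk_right _ _), Or.inr rfl⟩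
          rw [e1, card_pair hl]
      · have h3 : e ∉ A := by
          intro h4
          obtain ⟨v, hv⟩ := exists_end (G := G) e
          exact (disjoint_left.1 hT.disj) (mem_Vx h4 hv) (mem_Vx h2 hv)
        rw [if_neg h3]
        rw [card_eq_zero.2]
        ext v
        rw [mem_filter]
        constructor
        · intro h4
          exact absurd (mem_Vx h2 h4.2) ((disjoint_left.1 hT.disj) h4.1)
        · intro h4
          simp at h4
    · rw [if_pos h1]
      have h3 : e ∉ A := by
        intro h4
        have := (hT.one e).2 (Or.inl h4)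
        omega
      rw [if_neg h3]
      obtain ⟨a, ha, b, hb, hab⟩ := hT.join e h1
      have e1 : (Vx G A).filter (fun v => v ∈ G.ends e) = {a} := by
        ext v
        rw [mem_filter, hab, Sym2.mem_iff, mem_singleton]
        constructor
        · rintro ⟨h4, rfl | rfl⟩
          · rfl
          · exact absurd hb ((disjoint_left.1 hT.disj) h4)
        · rintro rfl
          exact ⟨ha, Or.inl rfl⟩
      rw [e1, card_singleton]
  have heven : Even (∑ v ∈ Vx G A, dg G C v) := by
    apply Finset.even_sum
    intro v _
    rcases hC.2.1 v with h1 | h1 <;> rw [h1]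
    · exact Even.zero
    · exact even_two
  rw [hdc, Finset.sum_congr rfl hval, Finset.sum_add_distrib, ← Finset.mul_sum,
    ← Finset.card_filter] at heven
  exact (Nat.even_add.1 heven).2 (even_two_mul _)

end SHR

open SHR in
/-- CC-SHR -/
theorem t_SHR0 (_h : S_PAR) (h' : S_STR) : S_SHR := by
  intro V E _ _ _ _ G w hm e₀ x y _ _ F k c hF hc i hi
  obtain ⟨A, B, hT, -⟩ := h' V E G w hm
  have hw := hm.val
  have hcirc : ∀ j < k, IsCircuit G (c j) := by
    intro j hj
    apply hF.1
    rw [hc.eq, Multiset.mem_map]
    exact ⟨j, Multiset.mem_range.2 hj, rfl⟩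
  constructor
  · induction i with
    | zero =>
      have h1 := even_wt hw hT (hcirc 0 (by omega))
      have e1 : (c 0).filter (fun e => w e = 2) = c 0 ∩ c (0 + 1) := by
        ext e
        rw [mem_filter, mem_inter]
        constructor
        · rintro ⟨h2, h3⟩
          obtain ⟨j, hj, hne, hej⟩ := other hF hc.eq h2 (by omega) h3
          have h4 := consec hc h2 hej (by omega) hj
          rw [← h4]
          exact ⟨h2, hej⟩
        · rintro ⟨h2, h3⟩
          exact ⟨h2, two_of hw hF hc.eq h2 h3 (by omega) hi⟩
      rw [← e1]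
      exact h1
    | succ i ih =>
      have h1 := even_wt hw hT (hcirc (i + 1) (by omega))
      have e1 : (c (i + 1)).filter (fun e => w e = 2) =
          (c i ∩ c (i + 1)) ∪ (c (i + 1) ∩ c (i + 1 + 1)) := by
        ext e
        rw [mem_filter, mem_union, mem_inter, mem_inter]
        constructor
        · rintro ⟨h2, h3⟩
          obtain ⟨j, hj, hne, hej⟩ := other hF hc.eq h2 (by omega) h3
          rcases Nat.lt_or_gt_of_ne hne with h4 | h4
          · have h5 := consec hc hej h2 h4 (by omega)
            have h6 : j = i := by omega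
            rw [h6] at hej
            exact Or.inl ⟨hej, h2⟩
          · have h5 := consec hc h2 hej h4 hj
            rw [h5] at hej
            exact Or.inr ⟨h2, hej⟩
        · rintro (⟨h2, h3⟩ | ⟨h2, h3⟩)
          · exact ⟨h3, two_of hw hF hc.eq h2 h3 (by omega) (by omega)⟩
          · exact ⟨h2, two_of hw hF hc.eq h2 h3 (by omega) hi⟩
      have hd : Disjoint (c i ∩ c (i + 1)) (c (i + 1) ∩ c (i + 1 + 1)) := by
        rw [disjoint_left]
        intro e h2 h3
        have h4 := consec hc (mem_inter.1 h2).1 (mem_inter.1 h3).2 (by omega) hi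
        omega
      rw [e1, card_union_of_disjoint hd] at h1
      exact (Nat.even_add.1 h1).1 (ih (by omega))
  · obtain ⟨v, hv⟩ := (hc.meet i (i + 1) (by omega) hi).2 rfl
    rw [mem_inter] at hv
    by_contra h0
    have h1 : c i ∩ c (i + 1) = ∅ := by
      rw [← card_eq_zero]
      omega
    have hdeg : ∀ j < k, v ∈ Vx G (c j) → dg G (c j) v = 2 := by
      intro j hj hvj
      rcases (hcirc j hj).2.1 v with h2 | h2
      · exfalso
        unfold Vx at hvj
        rw [mem_filter] at hvj
        obtain ⟨-, e, he, hve⟩ := hvj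
        unfold dg at h2
        rw [card_eq_zero] at h2
        have h3 : e ∈ (c j).filter (fun e => v ∈ G.ends e) := mem_filter.2 ⟨he, hve⟩
        rw [h2] at h3
        simp at h3
      · exact h2
    have h2 := hdeg i (by omega) hv.1
    have h3 := hdeg (i + 1) hi hv.2
    have h4 := hm.cubic v
    unfold dg at h2 h3 h4
    have h5 : ((c i).filter (fun e => v ∈ G.ends e) ∪
        (c (i + 1)).filter (fun e => v ∈ G.ends e)).card ≤
        (univ.filter (fun e => v ∈ G.ends e)).card := by
      apply card_le_card
      intro e he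
      rw [mem_union, mem_filter, mem_filter] at he
      rw [mem_filter]
      exact ⟨mem_univ _, he.elim (fun h => h.2) (fun h => h.2)⟩
    rw [card_union_of_disjoint, h2, h3, h4] at h5
    · omega
    · rw [disjoint_left]
      intro e h6 h7
      rw [mem_filter] at h6 h7
      have h8 : e ∈ c i ∩ c (i + 1) := mem_inter.2 ⟨h6.1, h7.1⟩
      rw [h1] at h8
      simp at h8

end Pool.Agent.NH93.CC
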