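import Pool.Agent.NH93.CC.Stm2
import Pool.Agent.Helper347.SabGraph

/-!
# CC-STR: the edges of weight one of a minimal contra pair form two odd circuits, and the edges of
weight two join them (helper42)
-/

set_option autoImplicit false
set_option linter.unusedSectionVars false

open Finset

namespace Pool.Agent.NH93.CC

open Pool.Agent.Helper347.Sab (MGraph dg IsCircuit IsCubic Touch exists_ends decompose)

namespace STR

variable {V E : Type} [Fintype V] [DecidableEq V] [Fintype E] [DecidableEq E]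

lemma mem_Vx {G : MGraph V E} {C : Finset E} {v : V} : v ∈ Vx G C ↔ ∃ e ∈ C, v ∈ G.ends e := by
  unfold Vx
  rw [mem_filter]
  exact ⟨fun h => h.2, fun h => ⟨mem_univ _, h⟩⟩

lemma mem_E1 {w : E → ℕ} {e : E} : e ∈ E1 w ↔ w e = 1 := by
  unfold E1
  rw [mem_filter]
  exact ⟨fun h => h.2, fun h => ⟨mem_univ _, h⟩⟩

lemma leaves_single {G : MGraph V E} {v : V} {e : E} : Leaves G {v} e ↔ v ∈ G.ends e := by
  constructor
  · rintro ⟨a, ha, b, _, h⟩
    rw [mem_singleton] at ha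
    rw [h, ha]
    exact Sym2.mem_mk_left _ _
  · intro h
    obtain ⟨a, b, hab, he⟩ := exists_ends G e
    rw [he, Sym2.mem_iff] at h
    rcases h with h | h
    · subst h
      exact ⟨v, mem_singleton_self _, b, fun hb => hab (mem_singleton.1 hb).symm, he⟩
    · subst h
      exact ⟨v, mem_singleton_self _, a, fun hb => hab (mem_singleton.1 hb), by
        rw [he, Sym2.eq_swap]⟩

/-- every vertex is on an edge of weight two -/
lemma ex2 {G : MGraph V E} {w : E → ℕ} (hM : MinContra G w) (v : V) :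
    ∃ e, v ∈ G.ends e ∧ w e = 2 := by
  classical
  by_contra hc
  push Not at hc
  have h1 := hM.eul {v}
  have h2 : ∑ e ∈ univ.filter (fun e => Leaves G {v} e), w e = 3 := by
    have h3 : ∀ e ∈ univ.filter (fun e => Leaves G {v} e), w e = 1 := by
      intro e he
      rw [mem_filter] at he
      exact (hM.val e).resolve_right (hc e (leaves_single.1 he.2))
    rw [sum_congr rfl h3, sum_const, smul_eq_mul, mul_one]
    have h4 : univ.filter (fun e => Leaves G {v} e) = univ.filter (fun e => v ∈ G.ends e) := by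
      ext e
      rw [mem_filter, mem_filter, leaves_single]
    rw [h4]
    exact hM.cubic v
  have h5 : Even 3 := by
    rw [← h2]
    convert h1
  exact absurd h5 (by decide)

/-- a circuit in the 2-regular graph `S` contains all edges of `S` at its vertices -/
lemma all_in {G : MGraph V E} {S Q : Finset E} (hS : ∀ v, dg G S v = 2) (hQS : Q ⊆ S)
    (hQ : IsCircuit G Q) {v : V} (hv : v ∈ Vx G Q) {e : E} (he : e ∈ S) (hve : v ∈ G.ends e) :
    e ∈ Q := by
  obtain ⟨f, hf, hvf⟩ := mem_Vx.1 hv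
  have h2 : dg G Q v = 2 := by
    refine (hQ.2.1 v).resolve_left fun h0 => ?_
    unfold dg at h0
    rw [card_eq_zero] at h0
    have : f ∈ Q.filter fun e => v ∈ G.ends e := mem_filter.2 ⟨hf, hvf⟩
    rw [h0] at this
    exact absurd this (notMem_empty _)
  have h3 : (Q.filter fun e => v ∈ G.ends e) = S.filter fun e => v ∈ G.ends e := by
    apply eq_of_subset_of_card_le (filter_subset_filter _ hQS)
    have h4 := hS v
    unfold dg at h4 h2
    rw [h4, h2]
  have h5 : e ∈ Q.filter fun e => v ∈ G.ends e := by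
    rw [h3]
    exact mem_filter.2 ⟨he, hve⟩
  exact (mem_filter.1 h5).1

/-- circuits in a 2-regular graph which share a vertex are equal -/
lemma sub_of_meet {G : MGraph V E} {S A B : Finset E} (hS : ∀ v, dg G S v = 2) (hAS : A ⊆ S)
    (hBS : B ⊆ S) (hA : IsCircuit G A) (hB : IsCircuit G B) {v : V} (hvA : v ∈ Vx G A)
    (hvB : v ∈ Vx G B) : A ⊆ B := by
  obtain ⟨e, he, hve⟩ := mem_Vx.1 hvA
  have heB : e ∈ B := all_in hS hBS hB hvB (hAS he) hve
  intro f hf
  have h := hA.2.2 e he f hf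
  clear hf
  induction h with
  | refl => exact heB
  | tail h1 h2 ih =>
    obtain ⟨u, hu1, hu2⟩ := h2.2
    exact all_in hS hBS hB (mem_Vx.2 ⟨_, ih, hu1⟩) (hAS h2.1) hu2

lemma ex_circ {G : MGraph V E} {S : Finset E} (hS : ∀ v, dg G S v = 2) (v : V) :
    ∃ Q ⊆ S, IsCircuit G Q ∧ v ∈ Vx G Q := by
  obtain ⟨M, hM1, hM2⟩ := decompose G S.card S le_rfl (fun v => Or.inr (hS v))
  have hne : (S.filter fun e => v ∈ G.ends e).Nonempty := by
    rw [← card_pos]
    have := hS v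
    unfold dg at this
    omega
  obtain ⟨f, hf⟩ := hne
  rw [mem_filter] at hf
  have h1 := hM2 f
  rw [if_pos hf.1] at h1
  obtain ⟨X, hX, hfX⟩ : ∃ X ∈ M, f ∈ X := by
    rw [← Multiset.countP_pos (p := fun X : Finset E => f ∈ X)]
    omega
  refine ⟨X, fun g hg => ?_, hM1 X hX, mem_Vx.2 ⟨f, hfX, hf.2⟩⟩
  by_contra hgS
  have h2 := hM2 g
  rw [if_neg hgS, Multiset.countP_eq_zero] at h2
  exact h2 X hX hg

end STR

open STR in
theorem t_STR0 (h1 : S_PAR) (h2 : S_ODD) : S_STR := by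
  intro V E _ _ _ _ G w hM
  obtain ⟨A, hAS, hA, hAodd⟩ := h2 V E G w hM
  obtain ⟨f, hf⟩ := hA.1
  obtain ⟨v0, v0', -, hv0⟩ := exists_ends G f
  obtain ⟨e0, -, he0⟩ := ex2 hM v0
  obtain ⟨x0, y0, -, hxy0⟩ := exists_ends G e0
  have hS := (h1 V E G w hM e0 x0 y0 he0 hxy0).1
  have hpar : ∀ Q ⊆ E1 w, IsCircuit G Q → Odd (Vx G Q).card → ∀ e p q, w e = 2 →
      G.ends e = s(p, q) → (p ∈ Vx G Q ∧ q ∉ Vx G Q) ∨ (p ∉ Vx G Q ∧ q ∈ Vx G Q) := by
    intro Q hQ hQc hodd e p q he hpq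
    have h3 := (h1 V E G w hM e p q he hpq).2 Q hQ hQc
    rw [Nat.odd_iff] at hodd
    rw [hodd] at h3
    by_cases hp : p ∈ Vx G Q <;> by_cases hq : q ∈ Vx G Q <;> simp [hp, hq] at h3 ⊢
  obtain ⟨x, y, hxy, hx, hy⟩ : ∃ x y, G.ends e0 = s(x, y) ∧ x ∈ Vx G A ∧ y ∉ Vx G A := by
    rcases hpar A hAS hA hAodd e0 x0 y0 he0 hxy0 with h | h
    · exact ⟨x0, y0, hxy0, h.1, h.2⟩
    · exact ⟨y0, x0, by rw [hxy0, Sym2.eq_swap], h.2, h.1⟩
  obtain ⟨B, hBS, hB, hyB⟩ := ex_circ hS y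
  have hdis : Disjoint (Vx G A) (Vx G B) := by
    rw [Finset.disjoint_left]
    intro v hvA hvB
    have hBA : B ⊆ A := sub_of_meet hS hBS hAS hB hA hvB hvA
    obtain ⟨g, hg, hyg⟩ := mem_Vx.1 hyB
    exact hy (mem_Vx.2 ⟨g, hBA hg, hyg⟩)
  have hBodd : Odd (Vx G B).card := by
    have h3 := (h1 V E G w hM e0 x y he0 hxy).2 B hBS hB
    rw [if_neg (Finset.disjoint_left.1 hdis hx), if_pos hyB] at h3
    rw [Nat.odd_iff, h3]
  have hjoin : ∀ e, w e = 2 → ∃ a ∈ Vx G A, ∃ b ∈ Vx G B, G.ends e = s(a, b) := by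
    intro e he
    obtain ⟨p, q, -, hpq⟩ := exists_ends G e
    have h3 := hpar A hAS hA hAodd e p q he hpq
    have h4 := hpar B hBS hB hBodd e p q he hpq
    rcases h3 with h3 | h3
    · have hpB := Finset.disjoint_left.1 hdis h3.1
      exact ⟨p, h3.1, q, (h4.resolve_left fun h => hpB h.1).2, hpq⟩
    · have hqB := Finset.disjoint_left.1 hdis h3.2
      exact ⟨q, h3.2, p, (h4.resolve_right fun h => hqB h.2).1, by rw [hpq, Sym2.eq_swap]⟩
  have hall : ∀ v, v ∈ Vx G A ∨ v ∈ Vx G B := by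
    intro v
    obtain ⟨e, hve, he⟩ := ex2 hM v
    obtain ⟨a, ha, b, hb, hab⟩ := hjoin e he
    rw [hab, Sym2.mem_iff] at hve
    rcases hve with h | h
    · exact Or.inl (h ▸ ha)
    · exact Or.inr (h ▸ hb)
  refine ⟨A, B, ⟨hA, hB, hdis, fun e => ⟨fun he => ?_, ?_⟩, hall, hjoin⟩, hAodd⟩
  · obtain ⟨p, q, -, hpq⟩ := exists_ends G e
    have hpe : p ∈ G.ends e := by
      rw [hpq]
      exact Sym2.mem_mk_left _ _
    rcases hall p with h | h
    · exact Or.inl (all_in hS hAS hA h (mem_E1.2 he) hpe)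
    · exact Or.inr (all_in hS hBS hB h (mem_E1.2 he) hpe)
  · rintro (h | h)
    · exact mem_E1.1 (hAS h)
    · exact mem_E1.1 (hBS h)

end Pool.Agent.NH93.CC
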