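import Pool.Agent.NH93.CC.Stm2
import Pool.Agent.Helper347.SabGraph

/-!
Project CC, part TWC: exactly two covers (helper41).
-/

set_option autoImplicit false
set_option linter.all false

open Finset

namespace Pool.Agent.NH93.CC

open Pool.Agent.Helper347.Sab (MGraph dg IsCircuit IsCubic Touch exists_ends decompose)

namespace TWC

variable {V E : Type} [Fintype V] [DecidableEq V] [Fintype E] [DecidableEq E]

theorem mem_Vx {G : MGraph V E} {C : Finset E} {v : V} : v ∈ Vx G C ↔ ∃ e ∈ C, v ∈ G.ends e := by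
  unfold Vx
  rw [mem_filter]
  simp

/-- the three edges at a vertex -/
structure Loc (G : MGraph V E) (w : E → ℕ) (v : V) (e e' m : E) : Prop where
  ne : e ≠ e'
  we : w e = 1
  we' : w e' = 1
  wm : w m = 2
  ve : v ∈ G.ends e
  ve' : v ∈ G.ends e'
  vm : v ∈ G.ends m
  all : ∀ f, v ∈ G.ends f → f = e ∨ f = e' ∨ f = m

theorem dg_two {G : MGraph V E} {C : Finset E} (hC : IsCircuit G C) {v : V} (hv : v ∈ Vx G C) :
    dg G C v = 2 := by
  obtain ⟨f, hf, hvf⟩ := mem_Vx.1 hv
  rcases hC.2.1 v with h | h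
  · exfalso
    unfold dg at h
    rw [Finset.card_eq_zero] at h
    have : f ∈ C.filter fun e => v ∈ G.ends e := mem_filter.2 ⟨hf, hvf⟩
    rw [h] at this
    simp at this
  · exact h

theorem loc_aux (G : MGraph V E) (w : E → ℕ) (hcub : IsCubic G) (hval : ∀ e, w e = 1 ∨ w e = 2)
    (C : Finset E) (hC : IsCircuit G C) (v : V) (hv : v ∈ Vx G C) (h1 : ∀ e ∈ C, w e = 1)
    (h2 : ∀ e, w e = 1 → v ∈ G.ends e → e ∈ C) : ∃ e e' m, Loc G w v e e' m := by
  have hd := dg_two hC hv
  unfold dg at hd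
  obtain ⟨e, e', hne, he⟩ := Finset.card_eq_two.1 hd
  have h3 := hcub v
  unfold dg at h3
  have hlt : (C.filter fun e => v ∈ G.ends e).card <
      (univ.filter fun e => v ∈ G.ends e).card := by omega
  obtain ⟨m, hm1, hm2⟩ := Finset.exists_mem_notMem_of_card_lt_card hlt
  have hee : e ∈ C ∧ v ∈ G.ends e := by
    have : e ∈ C.filter fun e => v ∈ G.ends e := by rw [he]; simp
    exact mem_filter.1 this
  have hee' : e' ∈ C ∧ v ∈ G.ends e' := by
    have : e' ∈ C.filter fun e => v ∈ G.ends e := by rw [he]; simp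
    exact mem_filter.1 this
  have hvm := (mem_filter.1 hm1).2
  have hmC : m ∉ C := fun h => hm2 (mem_filter.2 ⟨h, hvm⟩)
  have hwm : w m = 2 := by
    rcases hval m with h | h
    · exact absurd (h2 m h hvm) hmC
    · exact h
  have hall : (univ.filter fun e => v ∈ G.ends e) = {e, e', m} := by
    symm
    refine Finset.eq_of_subset_of_card_le ?_ ?_
    · intro d hd
      rw [mem_insert, mem_insert, mem_singleton] at hd
      rw [mem_filter]
      rcases hd with rfl | rfl | rfl
      · exact ⟨mem_univ _, hee.2⟩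
      · exact ⟨mem_univ _, hee'.2⟩
      · exact ⟨mem_univ _, hvm⟩
    · rw [h3]
      have : ({e, e', m} : Finset E).card = 3 := by
        rw [Finset.card_eq_three]
        exact ⟨e, e', m, hne, fun h => hmC (h ▸ hee.1), fun h => hmC (h ▸ hee'.1), rfl⟩
      omega
  refine ⟨e, e', m, hne, h1 e hee.1, h1 e' hee'.1, hwm, hee.2, hee'.2, hvm, fun f hf => ?_⟩
  have : f ∈ (univ.filter fun e => v ∈ G.ends e) := mem_filter.2 ⟨mem_univ _, hf⟩
  rw [hall, mem_insert, mem_insert, mem_singleton] at this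
  exact this

theorem dg_loc {G : MGraph V E} {w : E → ℕ} {v : V} {e e' m : E} (h : Loc G w v e e' m)
    (D : Finset E) : dg G D v =
      (if e ∈ D then 1 else 0) + (if e' ∈ D then 1 else 0) + (if m ∈ D then 1 else 0) := by
  have hem : e ≠ m := fun q => by have := h.we; rw [q, h.wm] at this; omega
  have hem' : e' ≠ m := fun q => by have := h.we'; rw [q, h.wm] at this; omega
  have h1 : D.filter (fun f => v ∈ G.ends f) = ({e, e', m} : Finset E).filter (fun f => f ∈ D) := by
    ext f
    rw [mem_filter, mem_filter, mem_insert, mem_insert, mem_singleton]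
    constructor
    · rintro ⟨p, q⟩
      exact ⟨h.all f q, p⟩
    · rintro ⟨rfl | rfl | rfl, q⟩
      · exact ⟨q, h.ve⟩
      · exact ⟨q, h.ve'⟩
      · exact ⟨q, h.vm⟩
  unfold dg
  rw [h1, Finset.card_filter, Finset.sum_insert (by simp [h.ne, hem]),
    Finset.sum_insert (by simpa using hem'), Finset.sum_singleton, add_assoc]

/-- the setting -/
structure Ctx (G : MGraph V E) (w : E → ℕ) (A B : Finset E) (e₀ : E) (x y : V) : Prop where
  hval : ∀ e, w e = 1 ∨ w e = 2
  hT : Two G w A B
  loc : ∀ v, ∃ e e' m, Loc G w v e e' m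
  he : w e₀ = 2
  hends : G.ends e₀ = s(x, y)
  hx : x ∈ Vx G A
  hy : y ∈ Vx G B

variable {G : MGraph V E} {w : E → ℕ} {A B : Finset E} {e₀ : E} {x y : V}

theorem m_eq (h : Ctx G w A B e₀ x y) {v : V} {e e' m : E} (hl : Loc G w v e e' m) :
    m = e₀ ↔ (v = x ∨ v = y) := by
  constructor
  · rintro rfl
    have := hl.vm
    rw [h.hends, Sym2.mem_iff] at this
    exact this
  · intro hv
    have h1 : v ∈ G.ends e₀ := by rw [h.hends, Sym2.mem_iff]; exact hv
    rcases hl.all e₀ h1 with q | q | q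
    · have := hl.we; rw [← q, h.he] at this; omega
    · have := hl.we'; rw [← q, h.he] at this; omega
    · exact q.symm

/-- good colourings -/
def Good (G : MGraph V E) (w : E → ℕ) (x y : V) (c : E → ZMod 2) : Prop :=
  ∀ v e e', e ≠ e' → w e = 1 → w e' = 1 → v ∈ G.ends e → v ∈ G.ends e' →
    (c e = c e' ↔ (v = x ∨ v = y))

/-- monochromatic members -/
def Mono (w : E → ℕ) (c : E → ZMod 2) (F : Multiset (Finset E)) : Prop :=
  ∀ X ∈ F, ∀ e ∈ X, ∀ f ∈ X, w e = 1 → w f = 1 → c e = c f

theorem del_one (h : Ctx G w A B e₀ x y) {e : E} (he : w e = 1) : del w e₀ e = 1 := by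
  unfold del
  rw [if_neg, he]
  rintro rfl
  rw [h.he] at he
  omega

theorem exists_cover (h : Ctx G w A B e₀ x y) (c : E → ZMod 2) (hc : Good G w x y c) :
    ∃ F, Cover G (del w e₀) F ∧ Mono w c F := by
  obtain ⟨D, hD⟩ : ∃ D : ZMod 2 → Finset E, D = fun a =>
    univ.filter (fun e => (w e = 1 ∧ c e = a) ∨ (w e = 2 ∧ e ≠ e₀)) := ⟨_, rfl⟩
  have hmem : ∀ a e, e ∈ D a ↔ (w e = 1 ∧ c e = a) ∨ (w e = 2 ∧ e ≠ e₀) := by
    intro a e
    rw [hD]
    simp
  have hz : ∀ p q a : ZMod 2, p ≠ q → (p = a ↔ q ≠ a) := by decide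
  have hdeg : ∀ a v, dg G (D a) v = 0 ∨ dg G (D a) v = 2 := by
    intro a v
    obtain ⟨e, e', m, hl⟩ := h.loc v
    have h1 : e ∈ D a ↔ c e = a := by rw [hmem]; simp [hl.we]
    have h2 : e' ∈ D a ↔ c e' = a := by rw [hmem]; simp [hl.we']
    have h3 : m ∈ D a ↔ ¬ (v = x ∨ v = y) := by rw [hmem, ← m_eq h hl]; simp [hl.wm]
    have hg := hc v e e' hl.ne hl.we hl.we' hl.ve hl.ve'
    rw [dg_loc hl, if_congr h1 rfl rfl, if_congr h2 rfl rfl, if_congr h3 rfl rfl]
    by_cases hv : v = x ∨ v = y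
    · rw [if_neg (not_not.2 hv), hg.2 hv]
      by_cases q : c e' = a
      · right; rw [if_pos q]
      · left; rw [if_neg q]
    · rw [if_pos hv]
      have hne : c e ≠ c e' := fun q => hv (hg.1 q)
      right
      by_cases q : c e = a
      · rw [if_pos q, if_neg ((hz _ _ a hne).1 q)]
      · have q' : c e' = a := by
          by_contra q'
          exact q ((hz _ _ a hne).2 q')
        rw [if_neg q, if_pos q']
  obtain ⟨M0, hM0, hc0⟩ := decompose G _ (D 0) le_rfl (hdeg 0)
  obtain ⟨M1, hM1, hc1⟩ := decompose G _ (D 1) le_rfl (hdeg 1)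
  have hsub : ∀ (M : Multiset (Finset E)) (a : ZMod 2),
      (∀ e, M.countP (e ∈ ·) = if e ∈ D a then 1 else 0) → ∀ X ∈ M, ∀ e ∈ X, e ∈ D a := by
    intro M a hM X hX e he
    by_contra hcon
    have := hM e
    rw [if_neg hcon, Multiset.countP_eq_zero] at this
    exact this X hX he
  refine ⟨M0 + M1, ⟨?_, ?_⟩, ?_⟩
  · intro X hX
    rcases Multiset.mem_add.1 hX with q | q
    · exact hM0 X q
    · exact hM1 X q
  · intro e
    rw [Multiset.countP_add, hc0, hc1]
    rcases h.hval e with q | q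
    · rw [del_one h q]
      have hz2 : c e = 0 ∨ c e = 1 := by
        generalize c e = z
        revert z
        decide
      have h01 : (0 : ZMod 2) ≠ 1 := by decide
      rcases hz2 with q' | q'
      · rw [if_pos ((hmem 0 e).2 (Or.inl ⟨q, q'⟩)), if_neg]
        rw [hmem, q, q']
        rintro (⟨-, q3⟩ | ⟨q3, -⟩)
        · exact h01 q3
        · omega
      · rw [if_pos ((hmem 1 e).2 (Or.inl ⟨q, q'⟩)), if_neg]
        rw [hmem, q, q']
        rintro (⟨-, q3⟩ | ⟨q3, -⟩)
        · exact h01 q3.symm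
        · omega
    · unfold del
      by_cases q' : e = e₀
      · rw [if_pos q', if_neg, if_neg]
        · rw [hmem]
          rintro (⟨q3, -⟩ | ⟨-, q3⟩)
          · omega
          · exact q3 q'
        · rw [hmem]
          rintro (⟨q3, -⟩ | ⟨-, q3⟩)
          · omega
          · exact q3 q'
      · rw [if_neg q', if_pos ((hmem 0 e).2 (Or.inr ⟨q, q'⟩)),
          if_pos ((hmem 1 e).2 (Or.inr ⟨q, q'⟩)), q]
  · have hcol : ∀ (M : Multiset (Finset E)) (a : ZMod 2),
        (∀ e, M.countP (e ∈ ·) = if e ∈ D a then 1 else 0) → ∀ X ∈ M, ∀ e ∈ X, w e = 1 →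
          c e = a := by
      intro M a hM X hX e he hw
      rcases (hmem a e).1 (hsub M a hM X hX e he) with ⟨-, q⟩ | ⟨q, -⟩
      · exact q
      · omega
    intro X hX e he f hf hwe hwf
    rcases Multiset.mem_add.1 hX with q | q
    · rw [hcol M0 0 hc0 X q e he hwe, hcol M0 0 hc0 X q f hf hwf]
    · rw [hcol M1 1 hc1 X q e he hwe, hcol M1 1 hc1 X q f hf hwf]

theorem cnt (k : ℕ) (ch : ℕ → Finset E) (e : E) :
    ((Multiset.range k).map ch).countP (e ∈ ·) = ((range k).filter (fun i => e ∈ ch i)).card := by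
  rw [Multiset.countP_map]
  rfl

/-- the members of a chain that contain an edge of weight one -/
theorem idx (h : Ctx G w A B e₀ x y) {F : Multiset (Finset E)} (hF : Cover G (del w e₀) F) {k : ℕ}
    {ch : ℕ → Finset E} (hC : Chain G x y F k ch) {e : E} (he : w e = 1) :
    (∃ i, i < k ∧ e ∈ ch i) ∧ ∀ i j, i < k → j < k → e ∈ ch i → e ∈ ch j → i = j := by
  have h1 := hF.2 e
  rw [del_one h he, hC.eq, cnt, Finset.card_eq_one] at h1
  obtain ⟨i, hi⟩ := h1
  have hm : ∀ j, (j < k ∧ e ∈ ch j) ↔ j = i := by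
    intro j
    have : j ∈ (range k).filter (fun i => e ∈ ch i) ↔ j ∈ ({i} : Finset ℕ) := by rw [hi]
    rw [mem_filter, mem_range, mem_singleton] at this
    exact this
  refine ⟨⟨i, (hm i).2 rfl⟩, fun a b ha hb hea heb => ?_⟩
  rw [(hm a).1 ⟨ha, hea⟩, (hm b).1 ⟨hb, heb⟩]

theorem mem_chain {F : Multiset (Finset E)} {k : ℕ} {ch : ℕ → Finset E} (hC : Chain G x y F k ch)
    {X : Finset E} : X ∈ F ↔ ∃ i, i < k ∧ ch i = X := by
  rw [hC.eq, Multiset.mem_map]
  simp

/-- K4 -/
theorem parity (h : Ctx G w A B e₀ x y) {F : Multiset (Finset E)} (hF : Cover G (del w e₀) F) {k : ℕ}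
    {ch : ℕ → Finset E} (hC : Chain G x y F k ch) {c : E → ZMod 2} (hc : Good G w x y c)
    (hm : Mono w c F) {ex ey : E} (hex : w ex = 1) (hey : w ey = 1) (hx : x ∈ G.ends ex)
    (hy : y ∈ G.ends ey) : c ex + c ey + 1 = (F.card : ZMod 2) := by
  have key : ∀ i, i < k → ∀ e ∈ ch i, w e = 1 → c e = c ex + (i : ZMod 2) := by
    intro i
    induction i with
    | zero =>
      intro h0 e he hwe
      obtain ⟨⟨j, hj, hej⟩, -⟩ := idx h hF hC hex
      have hj0 : j = 0 := (hC.left j hj).1 (mem_Vx.2 ⟨ex, hej, hx⟩)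
      subst hj0
      rw [hm (ch 0) (mem_chain hC |>.2 ⟨0, h0, rfl⟩) e he ex hej hwe hex]
      simp
    | succ i ih =>
      intro hi e he hwe
      obtain ⟨v, hv⟩ := (hC.meet i (i + 1) (by omega) hi).2 rfl
      rw [mem_inter] at hv
      have hvx : v ≠ x := by
        rintro rfl
        have := (hC.left (i + 1) hi).1 hv.2
        omega
      have hvy : v ≠ y := by
        rintro rfl
        have := (hC.right i (by omega)).1 hv.1
        omega
      obtain ⟨f, f', m, hl⟩ := h.loc v
      have hci : IsCircuit G (ch i) := hF.1 _ (mem_chain hC |>.2 ⟨i, by omega, rfl⟩)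
      have hci' : IsCircuit G (ch (i + 1)) := hF.1 _ (mem_chain hC |>.2 ⟨i + 1, hi, rfl⟩)
      have d1 := dg_two hci hv.1
      have d2 := dg_two hci' hv.2
      rw [dg_loc hl] at d1 d2
      have u1 := (idx h hF hC hl.we).2 i (i + 1) (by omega) hi
      have u2 := (idx h hF hC hl.we').2 i (i + 1) (by omega) hi
      have hg := hc v f f' hl.ne hl.we hl.we' hl.ve hl.ve'
      have hne : c f ≠ c f' := fun q => by
        rcases hg.1 q with q | q
        · exact hvx q
        · exact hvy q
      have hz : ∀ p q r s : ZMod 2, p ≠ q → p = r + s → q = r + (s + 1) := by decide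
      have hmem : ch (i + 1) ∈ F := mem_chain hC |>.2 ⟨i + 1, hi, rfl⟩
      push_cast
      by_cases p1 : f ∈ ch i
      · have p2 : f ∉ ch (i + 1) := fun q => by have := u1 p1 q; omega
        have p3 : f' ∈ ch (i + 1) := by
          by_contra q
          rw [if_neg p2, if_neg q] at d2
          split_ifs at d2 <;> omega
        rw [hm _ hmem e he f' p3 hwe hl.we']
        exact hz _ _ _ _ hne (ih (by omega) f p1 hl.we)
      · have p2 : f' ∈ ch i := by
          by_contra q
          rw [if_neg p1, if_neg q] at d1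
          split_ifs at d1 <;> omega
        have p3 : f' ∉ ch (i + 1) := fun q => by have := u2 p2 q; omega
        have p4 : f ∈ ch (i + 1) := by
          by_contra q
          rw [if_neg p3, if_neg q] at d2
          split_ifs at d2 <;> omega
        rw [hm _ hmem e he f p4 hwe hl.we]
        exact hz _ _ _ _ hne.symm (ih (by omega) f' p2 hl.we')
  obtain ⟨⟨j, hj, hej⟩, -⟩ := idx h hF hC hey
  have hjk : j + 1 = k := (hC.right j hj).1 (mem_Vx.2 ⟨ey, hej, hy⟩)
  have hcard : F.card = k := by rw [hC.eq]; simp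
  rw [hcard, ← hjk, key j hj ey hej hey]
  push_cast
  have hz : ∀ p q : ZMod 2, p + (p + q) + 1 = q + 1 := by decide
  exact hz _ _

/-- K2 -/
theorem exists_col (h : Ctx G w A B e₀ x y) {F : Multiset (Finset E)} (hF : Cover G (del w e₀) F)
    {k : ℕ} {ch : ℕ → Finset E} (hC : Chain G x y F k ch) :
    ∃ c, Good G w x y c ∧ Mono w c F := by
  classical
  obtain ⟨c, hc⟩ : ∃ c : E → ZMod 2, ∀ i < k, ∀ e ∈ ch i, w e = 1 → c e = (i : ZMod 2) := by
    refine ⟨fun e => if q : ∃ i, i < k ∧ e ∈ ch i then ((Classical.choose q : ℕ) : ZMod 2) else 0,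
      fun i hi e he hw => ?_⟩
    have q : ∃ i, i < k ∧ e ∈ ch i := ⟨i, hi, he⟩
    show (if q : ∃ i, i < k ∧ e ∈ ch i then ((Classical.choose q : ℕ) : ZMod 2) else 0) = _
    rw [dif_pos q]
    obtain ⟨s1, s2⟩ := Classical.choose_spec q
    rw [(idx h hF hC hw).2 _ i s1 hi s2 he]
  refine ⟨c, ?_, ?_⟩
  · intro v e e' hne hwe hwe' hve hve'
    obtain ⟨⟨i, hi, hei⟩, ui⟩ := idx h hF hC hwe
    obtain ⟨⟨j, hj, hej⟩, uj⟩ := idx h hF hC hwe'
    have vi : v ∈ Vx G (ch i) := mem_Vx.2 ⟨e, hei, hve⟩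
    have vj : v ∈ Vx G (ch j) := mem_Vx.2 ⟨e', hej, hve'⟩
    rw [hc i hi e hei hwe, hc j hj e' hej hwe']
    constructor
    · intro hij
      by_contra hv
      have hadj : i = j + 1 ∨ j = i + 1 ∨ i = j := by
        rcases lt_trichotomy i j with q | q | q
        · right; left
          exact (hC.meet i j q hj).1 ⟨v, mem_inter.2 ⟨vi, vj⟩⟩
        · right; right; exact q
        · left
          exact (hC.meet j i q hi).1 ⟨v, mem_inter.2 ⟨vj, vi⟩⟩
      have hz : ∀ p : ZMod 2, p ≠ p + 1 := by decide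
      rcases hadj with q | q | q
      · rw [q] at hij
        push_cast at hij
        exact hz _ hij.symm
      · rw [q] at hij
        push_cast at hij
        exact hz _ hij
      · subst q
        -- both edges in the same circuit
        obtain ⟨f, f', m, hl⟩ := h.loc v
        have hm0 : m ≠ e₀ := fun q => hv ((m_eq h hl).1 q)
        have hff : f ∈ ch i ∧ f' ∈ ch i := by
          rcases hl.all e hve with q1 | q1 | q1 <;> rcases hl.all e' hve' with q2 | q2 | q2
          · exact absurd (q1.trans q2.symm) hne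
          · exact ⟨q1 ▸ hei, q2 ▸ hej⟩
          · rw [q2, hl.wm] at hwe'; omega
          · exact ⟨q2 ▸ hej, q1 ▸ hei⟩
          · exact absurd (q1.trans q2.symm) hne
          · rw [q2, hl.wm] at hwe'; omega
          · rw [q1, hl.wm] at hwe; omega
          · rw [q1, hl.wm] at hwe; omega
          · rw [q1, hl.wm] at hwe; omega
        have hmc : (0 : ℕ) < F.countP (m ∈ ·) := by
          rw [hF.2 m]
          unfold del
          rw [if_neg hm0, hl.wm]
          norm_num
        obtain ⟨X, hX, hmX⟩ := Multiset.countP_pos.1 hmc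
        obtain ⟨p, hp, rfl⟩ := (mem_chain hC).1 hX
        have hd : dg G (ch p) v = 2 := dg_two (hF.1 _ hX) (mem_Vx.2 ⟨m, hmX, hl.vm⟩)
        have hdi : dg G (ch i) v = 2 :=
          dg_two (hF.1 _ ((mem_chain hC).2 ⟨i, hi, rfl⟩)) vi
        rw [dg_loc hl, if_pos hmX] at hd
        rw [dg_loc hl, if_pos hff.1, if_pos hff.2] at hdi
        have hmi : m ∉ ch i := fun q => by rw [if_pos q] at hdi; omega
        have hfp : f ∈ ch p ∨ f' ∈ ch p := by
          by_contra q
          rw [not_or] at q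
          rw [if_neg q.1, if_neg q.2] at hd
          omega
        rcases hfp with q | q
        · have := (idx h hF hC hl.we).2 p i hp hi q hff.1
          subst this
          exact hmi hmX
        · have := (idx h hF hC hl.we').2 p i hp hi q hff.2
          subst this
          exact hmi hmX
    · rintro (rfl | rfl)
      · rw [(hC.left i hi).1 vi, (hC.left j hj).1 vj]
      · have a1 := (hC.right i hi).1 vi
        have a2 := (hC.right j hj).1 vj
        have : i = j := by omega
        rw [this]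
  · intro X hX e he f hf hwe hwf
    obtain ⟨i, hi, rfl⟩ := (mem_chain hC).1 hX
    rw [hc i hi e he hwe, hc i hi f hf hwf]

/-- every member contains an edge of weight one -/
theorem exists_one (h : Ctx G w A B e₀ x y) {X : Finset E} (hX : IsCircuit G X) :
    ∃ f ∈ X, w f = 1 := by
  obtain ⟨g, hg⟩ := hX.1
  obtain ⟨a, b, -, hab⟩ := exists_ends G g
  have ha : a ∈ G.ends g := by rw [hab]; simp
  obtain ⟨f, f', m, hl⟩ := h.loc a
  have hd := dg_two hX (mem_Vx.2 ⟨g, hg, ha⟩)
  rw [dg_loc hl] at hd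
  by_cases p : f ∈ X
  · exact ⟨f, p, hl.we⟩
  · refine ⟨f', ?_, hl.we'⟩
    by_contra q
    rw [if_neg p, if_neg q] at hd
    split_ifs at hd <;> omega

theorem nodup (h : Ctx G w A B e₀ x y) {F : Multiset (Finset E)} (hF : Cover G (del w e₀) F) :
    F.Nodup := by
  rw [Multiset.nodup_iff_count_le_one]
  intro X
  by_contra hcon
  have h2 : 2 ≤ F.count X := by omega
  have hX : X ∈ F := Multiset.count_pos.1 (by omega)
  obtain ⟨f, hf, hw⟩ := exists_one h (hF.1 X hX)
  have h3 := Multiset.countP_le_of_le (f ∈ ·) (Multiset.le_count_iff_replicate_le.1 h2)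
  rw [hF.2 f, del_one h hw] at h3
  have h4 : (Multiset.replicate 2 X).countP (f ∈ ·) = 2 := by
    rw [Multiset.countP_eq_card_filter, Multiset.filter_eq_self.2]
    · simp
    · intro Y hY
      rw [Multiset.eq_of_mem_replicate hY]
      exact hf
  omega

theorem sub_of (h : Ctx G w A B e₀ x y) {c : E → ZMod 2} (hc : Good G w x y c) {X X' : Finset E}
    (hX : IsCircuit G X) (hX' : IsCircuit G X') (h0 : e₀ ∉ X) (h0' : e₀ ∉ X') {f : E} (hf : f ∈ X)
    (hf' : f ∈ X') (a : ZMod 2) (hcX : ∀ e ∈ X, w e = 1 → c e = a)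
    (hcX' : ∀ e ∈ X', w e = 1 → c e = a) : X ⊆ X' := by
  have key : ∀ g, Relation.ReflTransGen (fun a b => b ∈ X ∧ Touch G a b) f g → g ∈ X ∧ g ∈ X' := by
    intro g hg
    induction hg with
    | refl => exact ⟨hf, hf'⟩
    | @tail p q _ hpq ih =>
      obtain ⟨hq, v, hvp, hvq⟩ := hpq
      refine ⟨hq, ?_⟩
      obtain ⟨e, e', m, hl⟩ := h.loc v
      have d1 := dg_two hX (mem_Vx.2 ⟨p, ih.1, hvp⟩)
      have d2 := dg_two hX' (mem_Vx.2 ⟨p, ih.2, hvp⟩)
      rw [dg_loc hl] at d1 d2
      have hg := hc v e e' hl.ne hl.we hl.we' hl.ve hl.ve'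
      by_cases hv : v = x ∨ v = y
      · have hm := (m_eq h hl).2 hv
        rw [hm, if_neg h0] at d1
        rw [hm, if_neg h0'] at d2
        have b1 : e ∈ X' := by
          by_contra r
          rw [if_neg r] at d2
          split_ifs at d2 <;> omega
        have b2 : e' ∈ X' := by
          by_contra r
          rw [if_neg r] at d2
          split_ifs at d2 <;> omega
        rcases hl.all q hvq with r | r | r
        · rw [r]; exact b1
        · rw [r]; exact b2
        · rw [r, hm] at hq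
          exact absurd hq h0
      · have hne : c e ≠ c e' := fun r => hv (hg.1 r)
        have n1 : ¬ (e ∈ X ∧ e' ∈ X) := fun r => hne
          ((hcX e r.1 hl.we).trans (hcX e' r.2 hl.we').symm)
        have n2 : ¬ (e ∈ X' ∧ e' ∈ X') := fun r => hne
          ((hcX' e r.1 hl.we).trans (hcX' e' r.2 hl.we').symm)
        have n3 : ¬ (e ∈ X ∧ e' ∈ X') := fun r => hne
          ((hcX e r.1 hl.we).trans (hcX' e' r.2 hl.we').symm)
        have n4 : ¬ (e ∈ X' ∧ e' ∈ X) := fun r => hne
          ((hcX' e r.1 hl.we).trans (hcX e' r.2 hl.we').symm)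
        rcases hl.all q hvq with r | r | r
        · rw [r] at hq ⊢
          by_contra s
          rw [if_neg s] at d2
          have : e' ∈ X' := by
            by_contra t
            rw [if_neg t] at d2
            split_ifs at d2 <;> omega
          exact n3 ⟨hq, this⟩
        · rw [r] at hq ⊢
          by_contra s
          rw [if_neg s] at d2
          have : e ∈ X' := by
            by_contra t
            rw [if_neg t] at d2
            split_ifs at d2 <;> omega
          exact n4 ⟨this, hq⟩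
        · rw [r]
          by_contra s
          rw [if_neg s] at d2
          have t1 : e ∈ X' := by
            by_contra t
            rw [if_neg t] at d2
            split_ifs at d2 <;> omega
          have t2 : e' ∈ X' := by
            by_contra t
            rw [if_neg t] at d2
            split_ifs at d2 <;> omega
          exact n2 ⟨t1, t2⟩
  intro g hg
  exact (key g (hX.2.2 f hf g hg)).2

theorem le_of (h : Ctx G w A B e₀ x y) {c : E → ZMod 2} (hc : Good G w x y c)
    {F F' : Multiset (Finset E)} (hF : Cover G (del w e₀) F) (hF' : Cover G (del w e₀) F')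
    (hm : Mono w c F) (hm' : Mono w c F') : ∀ X ∈ F, X ∈ F' := by
  intro X hX
  obtain ⟨f, hf, hw⟩ := exists_one h (hF.1 X hX)
  have h1 : (0 : ℕ) < F'.countP (f ∈ ·) := by
    rw [hF'.2 f, del_one h hw]
    norm_num
  obtain ⟨X', hX', hf'⟩ := Multiset.countP_pos.1 h1
  have h0 : ∀ (F : Multiset (Finset E)), Cover G (del w e₀) F → ∀ X ∈ F, e₀ ∉ X := by
    intro F hF X hX he
    have := hF.2 e₀
    unfold del at this
    rw [if_pos rfl, Multiset.countP_eq_zero] at this
    exact this X hX he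
  have e1 : X ⊆ X' := sub_of h hc (hF.1 X hX) (hF'.1 X' hX') (h0 F hF X hX) (h0 F' hF' X' hX') hf hf'
    (c f) (fun e he hwe => hm X hX e he f hf hwe hw) (fun e he hwe => hm' X' hX' e he f hf' hwe hw)
  have e2 : X' ⊆ X := sub_of h hc (hF'.1 X' hX') (hF.1 X hX) (h0 F' hF' X' hX') (h0 F hF X hX) hf' hf
    (c f) (fun e he hwe => hm' X' hX' e he f hf' hwe hw) (fun e he hwe => hm X hX e he f hf hwe hw)
  rw [Subset.antisymm e1 e2]
  exact hX'

theorem eq_of (h : Ctx G w A B e₀ x y) {c : E → ZMod 2} (hc : Good G w x y c)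
    {F F' : Multiset (Finset E)} (hF : Cover G (del w e₀) F) (hF' : Cover G (del w e₀) F')
    (hm : Mono w c F) (hm' : Mono w c F') : F = F' :=
  (Multiset.Nodup.ext (nodup h hF) (nodup h hF')).2 fun X =>
    ⟨le_of h hc hF hF' hm hm' X, le_of h hc hF' hF hm' hm X⟩

theorem const_on (h : Ctx G w A B e₀ x y) {c c' : E → ZMod 2} (hc : Good G w x y c)
    (hc' : Good G w x y c') {C : Finset E} (hC : IsCircuit G C) (h1 : ∀ e ∈ C, w e = 1) :
    ∀ e ∈ C, ∀ f ∈ C, c e + c' e = c f + c' f := by
  intro e he f hf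
  have key : ∀ g, Relation.ReflTransGen (fun a b => b ∈ C ∧ Touch G a b) e g →
      g ∈ C ∧ c e + c' e = c g + c' g := by
    intro g hg
    induction hg with
    | refl => exact ⟨he, rfl⟩
    | @tail p q _ hpq ih =>
      obtain ⟨hq, v, hvp, hvq⟩ := hpq
      refine ⟨hq, ih.2.trans ?_⟩
      by_cases hpq' : p = q
      · rw [hpq']
      · have a1 := hc v p q hpq' (h1 p ih.1) (h1 q hq) hvp hvq
        have a2 := hc' v p q hpq' (h1 p ih.1) (h1 q hq) hvp hvq
        by_cases hv : v = x ∨ v = y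
        · rw [a1.2 hv, a2.2 hv]
        · have b1 : c p ≠ c q := fun r => hv (a1.1 r)
          have b2 : c' p ≠ c' q := fun r => hv (a2.1 r)
          have hz : ∀ p q r s : ZMod 2, p ≠ q → r ≠ s → p + r = q + s := by decide
          exact hz _ _ _ _ b1 b2
  exact (key f (hC.2.2 e he f hf)).2

/-- K5 -/
theorem unique (h : Ctx G w A B e₀ x y) {c c' : E → ZMod 2} (hc : Good G w x y c)
    (hc' : Good G w x y c') {F F' : Multiset (Finset E)} (hF : Cover G (del w e₀) F)
    (hF' : Cover G (del w e₀) F') (hm : Mono w c F) (hm' : Mono w c' F') {ex ey : E} (hex : ex ∈ A)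
    (hey : ey ∈ B) (hs : c ex + c ey = c' ex + c' ey) : F = F' := by
  have hA : ∀ e ∈ A, w e = 1 := fun e he => (h.hT.one e).2 (Or.inl he)
  have hB : ∀ e ∈ B, w e = 1 := fun e he => (h.hT.one e).2 (Or.inr he)
  have hz : ∀ p q r s : ZMod 2, p + q = r + s → p + r = q + s := by decide
  have hab := hz _ _ _ _ hs
  obtain ⟨a, ha⟩ : ∃ a, a = c ex + c' ex := ⟨_, rfl⟩
  have hz2 : ∀ p q r : ZMod 2, p + q = r → q = p + r := by decide
  have hall : ∀ e, w e = 1 → c e = c' e + a := by
    intro e he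
    rcases (h.hT.one e).1 he with q | q
    · have := const_on h hc hc' h.hT.cA hA e q ex hex
      rw [← ha] at this
      exact hz2 _ _ _ (by rw [add_comm]; exact this)
    · have := const_on h hc hc' h.hT.cB hB e q ey hey
      rw [← hab, ← ha] at this
      exact hz2 _ _ _ (by rw [add_comm]; exact this)
  have hm2 : Mono w c F' := by
    intro X hX e he f hf hwe hwf
    rw [hall e hwe, hall f hwf, hm' X hX e he f hf hwe hwf]
  exact eq_of h hc hF hF' hm hm2

end TWC

open TWC in
theorem t_TWC0 (h1 : S_CH) (h2 : S_STR) (h3 : S_SHR) : S_TWC := by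
  classical
  intro V E _ _ _ _ G w hM e₀ he₀
  obtain ⟨A, B, hT, -⟩ := h2 V E G w hM
  obtain ⟨x, hx, y, hy, hends⟩ := hT.join e₀ he₀
  have hdis : ∀ v, v ∈ Vx G A → v ∈ Vx G B → False := fun v ha hb =>
    (Finset.disjoint_left.1 hT.disj) ha hb
  have hA : ∀ e ∈ A, w e = 1 := fun e he => (hT.one e).2 (Or.inl he)
  have hB : ∀ e ∈ B, w e = 1 := fun e he => (hT.one e).2 (Or.inr he)
  have hloc : ∀ v, ∃ e e' m, Loc G w v e e' m := by
    intro v
    rcases hT.all v with hv | hv
    · refine loc_aux G w hM.cubic hM.val A hT.cA v hv hA fun e he hve => ?_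
      rcases (hT.one e).1 he with q | q
      · exact q
      · exact (hdis v hv (mem_Vx.2 ⟨e, q, hve⟩)).elim
    · refine loc_aux G w hM.cubic hM.val B hT.cB v hv hB fun e he hve => ?_
      rcases (hT.one e).1 he with q | q
      · exact (hdis v (mem_Vx.2 ⟨e, q, hve⟩) hv).elim
      · exact q
  have h : Ctx G w A B e₀ x y := ⟨hM.val, hT, hloc, he₀, hends, hx, hy⟩
  obtain ⟨ex, hex, hxx⟩ := mem_Vx.1 hx
  obtain ⟨ey, hey, hyy⟩ := mem_Vx.1 hy
  obtain ⟨F, hF⟩ := hM.minimal e₀ he₀
  obtain ⟨k, ch, hC⟩ := h1 V E G w hM e₀ x y he₀ hends F hF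
  obtain ⟨c, hc, hm⟩ := exists_col h hF hC
  have hpF := parity h hF hC hc hm (hA ex hex) (hB ey hey) hxx hyy
  -- the other colouring
  obtain ⟨c', hc'd⟩ : ∃ c' : E → ZMod 2, c' = fun e => c e + if e ∈ A then 1 else 0 := ⟨_, rfl⟩
  have hc' : Good G w x y c' := by
    intro v e e' hne hwe hwe' hve hve'
    have hAA : e ∈ A ↔ e' ∈ A := by
      constructor
      · intro q
        rcases (hT.one e').1 hwe' with r | r
        · exact r
        · exact (hdis v (mem_Vx.2 ⟨e, q, hve⟩) (mem_Vx.2 ⟨e', r, hve'⟩)).elim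
      · intro q
        rcases (hT.one e).1 hwe with r | r
        · exact r
        · exact (hdis v (mem_Vx.2 ⟨e', q, hve'⟩) (mem_Vx.2 ⟨e, r, hve⟩)).elim
    rw [← hc v e e' hne hwe hwe' hve hve', hc'd]
    show c e + (if e ∈ A then 1 else 0) = c e' + (if e' ∈ A then 1 else 0) ↔ c e = c e'
    rw [if_congr hAA rfl rfl, add_left_inj]
  obtain ⟨F', hF', hm'⟩ := exists_cover h c' hc'
  obtain ⟨k', ch', hC'⟩ := h1 V E G w hM e₀ x y he₀ hends F' hF'
  have hpF' := parity h hF' hC' hc' hm' (hA ex hex) (hB ey hey) hxx hyy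
  have heyA : ey ∉ A := fun q => hdis y (mem_Vx.2 ⟨ey, q, hyy⟩) hy
  have hd : c' ex + c' ey = c ex + c ey + 1 := by
    rw [hc'd]
    show c ex + (if ex ∈ A then 1 else 0) + (c ey + (if ey ∈ A then 1 else 0)) = _
    rw [if_pos hex, if_neg heyA]
    ring
  have huniq : ∀ F'', Cover G (del w e₀) F'' → F'' = F ∨ F'' = F' := by
    intro F'' hF''
    obtain ⟨k'', ch'', hC''⟩ := h1 V E G w hM e₀ x y he₀ hends F'' hF''
    obtain ⟨c'', hc'', hm''⟩ := exists_col h hF'' hC''
    have hz : ∀ p q : ZMod 2, p = q ∨ p = q + 1 := by decide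
    rcases hz (c'' ex + c'' ey) (c ex + c ey) with q | q
    · exact Or.inl (unique h hc'' hc hF'' hF hm'' hm hex hey q)
    · exact Or.inr (unique h hc'' hc' hF'' hF' hm'' hm' hex hey (q.trans hd.symm))
  have hne : (F.card : ZMod 2) + 1 = (F'.card : ZMod 2) := by
    rw [← hpF, ← hpF', hd]
  -- at least three circuits
  have hthree : ∀ F₁ : Multiset (Finset E), Cover G (del w e₀) F₁ → Odd F₁.card → 3 ≤ F₁.card := by
    intro F₁ hF₁ hodd
    by_contra hlt
    have hone : F₁.card = 1 := by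
      obtain ⟨r, hr⟩ := hodd
      omega
    have hall : ∀ e, w e = 2 → e = e₀ := by
      intro e he
      by_contra hcon
      have h4 := hF₁.2 e
      unfold del at h4
      rw [if_neg hcon, he] at h4
      have h5 := Multiset.countP_le_card (fun X : Finset E => e ∈ X) F₁
      omega
    have hxy : ∀ v, v ∈ Vx G A → v = x := by
      intro v hv
      obtain ⟨e, e', m, hl⟩ := hloc v
      rcases (m_eq h hl).1 (hall m hl.wm) with q | q
      · exact q
      · rw [q] at hv
        exact (hdis y hv hy).elim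
    obtain ⟨g, hg⟩ := hT.cA.1
    obtain ⟨a, b, hab, hge⟩ := exists_ends G g
    apply hab
    rw [hxy a (mem_Vx.2 ⟨g, hg, by rw [hge]; simp⟩), hxy b (mem_Vx.2 ⟨g, hg, by rw [hge]; simp⟩)]
  have hpar : ∀ n : ℕ, (n : ZMod 2) = 0 ↔ Even n := fun n => by
    rw [ZMod.natCast_eq_zero_iff]
    exact even_iff_two_dvd.symm
  rcases Nat.even_or_odd F.card with q | q
  · have q' : Odd F'.card := by
      rw [← Nat.not_even_iff_odd, ← hpar, ← hne, (hpar _).2 q]
      decide
    exact ⟨F, F', hF, hF', q, q', hthree F' hF' q', huniq⟩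
  · have q' : Even F'.card := by
      rw [← hpar, ← hne]
      have hq : ¬ ((F.card : ZMod 2) = 0) := by rw [hpar]; exact Nat.not_even_iff_odd.2 q
      generalize (F.card : ZMod 2) = z at hq
      revert z
      decide
    exact ⟨F', F, hF', hF, q', q, hthree F hF q, fun F'' hF'' => (huniq F'' hF'').symm⟩

end Pool.Agent.NH93.CC
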