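import Pool.Agent.NH93.CC.Main
import Pool.Agent.NH93.CC.CH
import Pool.Agent.NH93.CC.CNT
import Pool.Agent.NH93.CC.CUT
import Pool.Agent.NH93.CC.ODD
import Pool.Agent.NH93.CC.PAR
import Pool.Agent.NH93.CC.SHR
import Pool.Agent.NH93.CC.STR
import Pool.Agent.NH93.CC.TWC

/-!
# Project CC (helper93), part 2: minimal contra pairs
-/

set_option autoImplicit false

open Finset

namespace Pool.Agent.NH93.CC

open Contra2 (ncyc)
open Pool.Agent.Helper347.Sab (MGraph dg IsCircuit IsCubic)

theorem t_CH : S_CH := t_CH0 t_CUT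
theorem t_PAR : S_PAR := t_PAR0 t_CH
theorem t_ODD : S_ODD := t_ODD0 t_MAIN t_PAR
theorem t_STR : S_STR := t_STR0 t_PAR t_ODD
theorem t_SHR : S_SHR := t_SHR0 t_PAR t_STR
theorem t_TWC : S_TWC := t_TWC0 t_CH t_STR t_SHR

section

variable {V E : Type} [Fintype V] [DecidableEq V] [Fintype E] [DecidableEq E]

theorem MinContra.two {G : MGraph V E} {w : E → ℕ} (h : MinContra G w) : TwoReg G (E1 w) :=
  twoReg_of_eulerian h.cubic h.val h.eul

theorem MinContra.notFaithful {G : MGraph V E} {w : E → ℕ} (h : MinContra G w) :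
    ¬ Faithful G (fun e => if e ∈ E1 w then 1 else 2) := by
  rw [w_eq h.val]
  exact h.contra

theorem MinContra.four {G : MGraph V E} {w : E → ℕ} (h : MinContra G w) : 4 ∣ nzG G (E1 w) := by
  by_contra h4
  exact h.notFaithful (t_MAIN V E G _ h.cubic h.two h4)

theorem MinContra.altSum {G : MGraph V E} {w : E → ℕ} (h : MinContra G w)
    {en : Dart (E1 w) → V} {t : V → E} {ρ : Equiv.Perm (Dart (E1 w))} (hR : Rot G (E1 w) en t ρ) :
    altSum ρ = 0 := by
  by_contra h5
  exact h.notFaithful (faithful_of_altSum h.cubic h.two hR h5)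

/-- Two covers of `(G - e₀, w)` with numbers of circuits of the same parity are equal. -/
theorem MinContra.unique {G : MGraph V E} {w : E → ℕ} (h : MinContra G w) {e₀ : E} (he : w e₀ = 2)
    {F F' : Multiset (Finset E)} (hF : Cover G (del w e₀) F) (hF' : Cover G (del w e₀) F')
    (hp : F.card % 2 = F'.card % 2) : F = F' := by
  obtain ⟨F₀, F₁, _, _, h0, h1, _, hall⟩ := t_TWC V E G w h e₀ he
  rw [Nat.even_iff] at h0
  rw [Nat.odd_iff] at h1
  rcases hall F hF with rfl | rfl <;> rcases hall F' hF' with rfl | rfl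
  · rfl
  · omega
  · omega
  · rfl

/-- Consecutive circuits form a Hamilton weight with one faithful cover by two circuits. -/
theorem MinContra.pair {G : MGraph V E} {w : E → ℕ} (h : MinContra G w) {e₀ : E} (he : w e₀ = 2)
    {F : Multiset (Finset E)} (hF : Cover G (del w e₀) F) {C C' D D' : Finset E} {R : Multiset (Finset E)}
    (hR : F = C ::ₘ C' ::ₘ R) (hD : IsCircuit G D) (hD' : IsCircuit G D')
    (hw : ∀ e, (if e ∈ D then 1 else 0) + (if e ∈ D' then 1 else 0) =
      ((if e ∈ C then 1 else 0) + (if e ∈ C' then 1 else 0) : ℕ)) :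
    (D = C ∧ D' = C') ∨ (D = C' ∧ D' = C) := by
  have h1 : Cover G (del w e₀) (D ::ₘ D' ::ₘ R) := by
    constructor
    · intro X hX
      rw [Multiset.mem_cons, Multiset.mem_cons] at hX
      rcases hX with rfl | rfl | hX
      · exact hD
      · exact hD'
      · exact hF.1 X (by rw [hR]; simp [hX])
    · intro e
      rw [← hF.2 e, hR, Multiset.countP_cons, Multiset.countP_cons, Multiset.countP_cons, Multiset.countP_cons]
      have := hw e
      omega
  have h2 := h.unique he h1 hF (by rw [hR]; simp)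
  rw [hR] at h2
  have h3 : (D ::ₘ D' ::ₘ (0 : Multiset (Finset E))) = C ::ₘ C' ::ₘ 0 := by
    have h4 : (D ::ₘ D' ::ₘ (0 : Multiset (Finset E))) + R = (C ::ₘ C' ::ₘ 0) + R := by
      simpa using h2
    exact add_right_cancel h4
  have h5 : D ∈ C ::ₘ C' ::ₘ (0 : Multiset (Finset E)) := by rw [← h3]; simp
  simp only [Multiset.mem_cons, Multiset.notMem_zero, or_false] at h5
  rcases h5 with rfl | rfl
  · rw [Multiset.cons_inj_right, Multiset.cons_inj_left] at h3
    exact Or.inl ⟨rfl, h3⟩
  · rw [Multiset.cons_swap C D] at h3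
    rw [Multiset.cons_inj_right, Multiset.cons_inj_left] at h3
    exact Or.inr ⟨rfl, h3⟩

end

end Pool.Agent.NH93.CC
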