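import Pool.Agent.NH93.CC.ARC

/-!
# Project CC (helper93): circuits with few edges of weight one in critical contra pairs
-/

set_option autoImplicit false
set_option linter.all false

open Finset

namespace Pool.Agent.NH93.CC

open Pool.Agent.Helper347.Sab (MGraph dg IsCircuit IsCubic Touch exists_ends)
open CUT (leaves_iff leaves_compl ends_card even_cut)

namespace SHC

variable {V E : Type} [Fintype V] [DecidableEq V] [Fintype E] [DecidableEq E]
variable {G : MGraph V E} {w : E → ℕ}

open Classical in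
/-- the cut of a circuit whose edges of weight one are pairwise non-adjacent -/
theorem cut (hM : Critical G w) {D : Finset E} (hD : IsCircuit G D) :
    ∃ (Z : Finset V) (g : E), w g = 2 ∧ g ∉ D ∧ Leaves G Z g ∧ (∀ e ∈ D, Leaves G Z e → w e = 1) ∧
      Even (D.filter (fun e => Leaves G Z e)).card ∧
      univ.filter (fun e => Leaves G Z e) = insert g (D.filter (fun e => Leaves G Z e)) := by
  obtain ⟨Z, g, hg, hgD, hZ, hu⟩ := ARC.bridge hM hD
  have h1 : ∀ e ∈ D, Leaves G Z e → w e = 1 := by
    intro e he hl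
    by_contra hne
    have h2 : w e = 2 := (hM.val e).resolve_left hne
    have h3 : 0 < minus w D e := by
      unfold minus
      rw [if_pos he, h2]
      omega
    exact hgD (hu e hl h3 ▸ he)
  refine ⟨Z, g, hg, hgD, hZ, h1, even_cut G D hD.2.1 Z, ?_⟩
  ext e
  rw [mem_filter, mem_insert, mem_filter]
  constructor
  · rintro ⟨-, hl⟩
    by_cases he : e ∈ D
    · exact Or.inr ⟨he, hl⟩
    · left
      apply hu e hl
      unfold minus
      rw [if_neg he]
      rcases hM.val e with q | q <;> omega
  · rintro (rfl | q)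
    · exact ⟨mem_univ _, hZ⟩
    · exact ⟨mem_univ _, q.2⟩

open Classical in
theorem leaves_single {v : V} {e : E} : Leaves G {v} e ↔ v ∈ G.ends e := by
  constructor
  · rintro ⟨a, ha, b, hb, hab⟩
    rw [mem_singleton] at ha
    subst ha
    rw [hab]
    simp
  · intro hv
    obtain ⟨a, b, hab, hends⟩ := exists_ends G e
    rw [hends, Sym2.mem_iff] at hv
    rcases hv with rfl | rfl
    · exact ⟨v, mem_singleton_self _, b, by rw [mem_singleton]; exact hab.symm, hends⟩
    · exact ⟨v, mem_singleton_self _, a, by rw [mem_singleton]; exact hab, by rw [hends, Sym2.eq_swap]⟩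

open Classical in
theorem strong (hM : Critical G w)
    (h4 : ∀ X : Finset V, X.Nonempty → Xᶜ.Nonempty → (univ.filter (fun e => Leaves G X e)).card ≤ 3 →
      X.card = 1 ∨ Xᶜ.card = 1)
    {D : Finset E} (hD : IsCircuit G D)
    (hn : ∀ e ∈ D, ∀ e' ∈ D, w e = 1 → w e' = 1 → ∀ v, v ∈ G.ends e → v ∈ G.ends e' → e = e') :
    ∃ (Z : Finset V) (g : E) (S : Finset E), w g = 2 ∧ g ∉ D ∧ S ⊆ D ∧ (∀ e ∈ S, w e = 1) ∧ Even S.card ∧ 4 ≤ S.card ∧
      univ.filter (fun e => Leaves G Z e) = insert g S := by
  obtain ⟨Z, g, hg, hgD, hZ, h1, hev, hcut⟩ := cut hM hD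
  refine ⟨Z, g, D.filter (fun e => Leaves G Z e), hg, hgD, filter_subset _ _,
    fun e he => h1 e (mem_filter.1 he).1 (mem_filter.1 he).2, hev, ?_, hcut⟩
  by_contra hlt
  have h3 : (D.filter (fun e => Leaves G Z e)).card ≤ 2 := by
    obtain ⟨r, hr⟩ := hev
    omega
  have h5 : (univ.filter (fun e => Leaves G Z e)).card = (D.filter (fun e => Leaves G Z e)).card + 1 := by
    rw [hcut, card_insert_of_notMem]
    exact fun q => hgD (mem_filter.1 q).1
  have key : ∀ v : V, (∀ e, Leaves G Z e ↔ v ∈ G.ends e) → False := by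
    intro v hv
    have h6 : (univ.filter (fun e => Leaves G Z e)).card = 3 := by
      have := hM.cubic v
      unfold dg at this
      rw [← this]
      congr 1
      ext e
      rw [mem_filter, mem_filter, hv]
    obtain ⟨e, he, e', he', hne⟩ := one_lt_card.1 (by omega : 1 < (D.filter (fun e => Leaves G Z e)).card)
    rw [mem_filter] at he he'
    exact hne (hn e he.1 e' he'.1 (h1 e he.1 he.2) (h1 e' he'.1 he'.2) v ((hv e).1 he.2) ((hv e').1 he'.2))
  obtain ⟨a, ha, b, hb, hab⟩ := hZ
  rcases h4 Z ⟨a, ha⟩ ⟨b, mem_compl.2 hb⟩ (by omega) with q | q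
  · obtain ⟨v, hv⟩ := card_eq_one.1 q
    exact key v (fun e => by rw [hv]; exact leaves_single)
  · obtain ⟨v, hv⟩ := card_eq_one.1 q
    exact key v (fun e => by rw [← leaves_compl, hv]; exact leaves_single)

end SHC

end Pool.Agent.NH93.CC
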