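import Pool.Agent.NH93.CC.Stm

/-!
# Project CC, part 2 (MP_7b7176_co): minimal contra pairs, statements
-/

set_option autoImplicit false

open Finset

namespace Pool.Agent.NH93.CC

open Pool.Agent.Helper347.Sab (MGraph dg IsCircuit IsCubic)

/-- CC-MAIN: the main theorem of part 1 -/
def S_MAIN : Prop := ∀ (V E : Type) [Fintype V] [DecidableEq V] [Fintype E] [DecidableEq E] (G : MGraph V E) (S : Finset E),
  IsCubic G → TwoReg G S → ¬ 4 ∣ nzG G S → Faithful G (fun e => if e ∈ S then 1 else 2)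

section defs

variable {V E : Type} [Fintype V] [DecidableEq V] [Fintype E] [DecidableEq E]

open Classical in
/-- the vertices of a subgraph -/
noncomputable def Vx (G : MGraph V E) (C : Finset E) : Finset V := univ.filter (fun v => ∃ e ∈ C, v ∈ G.ends e)

/-- the edges of weight one -/
def E1 (w : E → ℕ) : Finset E := univ.filter (fun e => w e = 1)

open Classical in
/-- the total weight of every edge cut is even -/
def Eulerian (G : MGraph V E) (w : E → ℕ) : Prop :=
  ∀ X : Finset V, Even (∑ e ∈ univ.filter (fun e => Leaves G X e), w e)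

open Classical in
/-- the subgraph with the edge set `F` has no bridge: no edge cut consists of one edge -/
def Bridgeless (G : MGraph V E) (F : Finset E) : Prop :=
  ∀ X : Finset V, (F.filter (fun e => Leaves G X e)).card ≠ 1

/-- `w - χ_D` -/
def minus (w : E → ℕ) (D : Finset E) (e : E) : ℕ := if e ∈ D then w e - 1 else w e

/-- the edges of positive weight -/
def supp (w : E → ℕ) : Finset E := univ.filter (fun e => 0 < w e)

/-- the circuit `D` is removable -/
def Removable (G : MGraph V E) (w : E → ℕ) (D : Finset E) : Prop :=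
  IsCircuit G D ∧ Eulerian G (minus w D) ∧ Bridgeless G (supp (minus w D))

/-- the weight of `G - e₀` -/
def del (w : E → ℕ) (e₀ : E) (e : E) : ℕ := if e = e₀ then 0 else w e

/-- `F` is a faithful cover of `(G, w)` -/
def Cover (G : MGraph V E) (w : E → ℕ) (F : Multiset (Finset E)) : Prop :=
  (∀ X ∈ F, IsCircuit G X) ∧ ∀ e, F.countP (e ∈ ·) = w e

/-- `(G, w)` is a minimal contra pair -/
structure MinContra (G : MGraph V E) (w : E → ℕ) : Prop where
  cubic : IsCubic G
  val : ∀ e, w e = 1 ∨ w e = 2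
  eul : Eulerian G w
  bridgeless : Bridgeless G univ
  contra : ¬ ∃ F, Cover G w F
  critical : ∀ D, ¬ Removable G w D
  minimal : ∀ e, w e = 2 → ∃ F, Cover G (del w e) F

/-- `F` is the circuit chain `c 0, ..., c (k - 1)` from `x` to `y` -/
structure Chain (G : MGraph V E) (x y : V) (F : Multiset (Finset E)) (k : ℕ) (c : ℕ → Finset E) : Prop where
  pos : 1 ≤ k
  eq : F = (Multiset.range k).map c
  left : ∀ i < k, x ∈ Vx G (c i) ↔ i = 0
  right : ∀ i < k, y ∈ Vx G (c i) ↔ i + 1 = k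
  meet : ∀ i j, i < j → j < k → ((Vx G (c i) ∩ Vx G (c j)).Nonempty ↔ j = i + 1)

/-- the edges of weight one form two circuits `A`, `B`, and every edge of weight two joins them -/
structure Two (G : MGraph V E) (w : E → ℕ) (A B : Finset E) : Prop where
  cA : IsCircuit G A
  cB : IsCircuit G B
  disj : Disjoint (Vx G A) (Vx G B)
  one : ∀ e, w e = 1 ↔ e ∈ A ∨ e ∈ B
  all : ∀ v, v ∈ Vx G A ∨ v ∈ Vx G B
  join : ∀ e, w e = 2 → ∃ a ∈ Vx G A, ∃ b ∈ Vx G B, G.ends e = s(a, b)

end defs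

/-- CC-CUT -/
def S_CUT : Prop := ∀ (V E : Type) [Fintype V] [DecidableEq V] [Fintype E] [DecidableEq E] (G : MGraph V E) (w : E → ℕ),
  MinContra G w → ∀ e₀, w e₀ = 2 → ∀ F : Multiset (Finset E), Cover G (del w e₀) F → ∀ C ∈ F,
  ∃ X : Finset V, Leaves G X e₀ ∧ ∀ D ∈ F.erase C, ∀ e ∈ D, ¬ Leaves G X e ∧ ¬ Leaves G Xᶜ e

/-- CC-CH: all faithful covers of `(G - e₀, w)` are circuit chains -/
def S_CH : Prop := ∀ (V E : Type) [Fintype V] [DecidableEq V] [Fintype E] [DecidableEq E] (G : MGraph V E) (w : E → ℕ),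
  MinContra G w → ∀ e₀ x y, w e₀ = 2 → G.ends e₀ = s(x, y) → ∀ F : Multiset (Finset E), Cover G (del w e₀) F →
  ∃ k c, Chain G x y F k c

/-- CC-PAR: the lengths of the circuits of weight one -/
def S_PAR : Prop := ∀ (V E : Type) [Fintype V] [DecidableEq V] [Fintype E] [DecidableEq E] (G : MGraph V E) (w : E → ℕ),
  MinContra G w → ∀ e₀ x y, w e₀ = 2 → G.ends e₀ = s(x, y) → (∀ v, dg G (E1 w) v = 2) ∧
    ∀ Q ⊆ E1 w, IsCircuit G Q → (Vx G Q).card % 2 = ((if x ∈ Vx G Q then 1 else 0) + (if y ∈ Vx G Q then 1 else 0)) % 2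

/-- CC-ODD: some circuit of weight one is odd -/
def S_ODD : Prop := ∀ (V E : Type) [Fintype V] [DecidableEq V] [Fintype E] [DecidableEq E] (G : MGraph V E) (w : E → ℕ),
  MinContra G w → ∃ Q ⊆ E1 w, IsCircuit G Q ∧ Odd (Vx G Q).card

/-- CC-STR: the structure -/
def S_STR : Prop := ∀ (V E : Type) [Fintype V] [DecidableEq V] [Fintype E] [DecidableEq E] (G : MGraph V E) (w : E → ℕ),
  MinContra G w → ∃ A B, Two G w A B ∧ Odd (Vx G A).card

/-- CC-CNT: the number of the nowhere-zero flows -/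
def S_CNT : Prop := ∀ (V E : Type) [Fintype V] [DecidableEq V] [Fintype E] [DecidableEq E] (G : MGraph V E) (w : E → ℕ)
  (A B : Finset E), IsCubic G → (∀ e, w e = 1 ∨ w e = 2) → Two G w A B → Odd (Vx G A).card → 4 ∣ nzG G (E1 w) →
  (Vx G A).card % 4 = 1 ∧ (Vx G B).card = (Vx G A).card ∧ Fintype.card V = 2 * (Vx G A).card

/-- CC-TWC: the faithful covers of `(G - e₀, w)` -/
def S_TWC : Prop := ∀ (V E : Type) [Fintype V] [DecidableEq V] [Fintype E] [DecidableEq E] (G : MGraph V E) (w : E → ℕ),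
  MinContra G w → ∀ e₀, w e₀ = 2 → ∃ F₀ F₁ : Multiset (Finset E), Cover G (del w e₀) F₀ ∧ Cover G (del w e₀) F₁ ∧
    Even F₀.card ∧ Odd F₁.card ∧ 3 ≤ F₁.card ∧ ∀ F, Cover G (del w e₀) F → F = F₀ ∨ F = F₁

/-- CC-SHR: consecutive circuits share a positive even number of edges -/
def S_SHR : Prop := ∀ (V E : Type) [Fintype V] [DecidableEq V] [Fintype E] [DecidableEq E] (G : MGraph V E) (w : E → ℕ),
  MinContra G w → ∀ e₀ x y, w e₀ = 2 → G.ends e₀ = s(x, y) → ∀ (F : Multiset (Finset E)) (k : ℕ) (c : ℕ → Finset E),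
  Cover G (del w e₀) F → Chain G x y F k c → ∀ i, i + 1 < k → Even (c i ∩ c (i + 1)).card ∧ 0 < (c i ∩ c (i + 1)).card

end Pool.Agent.NH93.CC
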